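import Mathlib.Algebra.Notation.Lemmas
import Mathlib.Tactic.SuppressCompilation
import Mathlib.Tactic.Monotonicity.Lemmas
import Mathlib.Algebra.Field.ZMod
import Mathlib.Algebra.Order.Star.Real
import Mathlib.Combinatorics.SimpleGraph.Basic
import Mathlib.Tactic.Algebra.Basic

-- ======== part 0: formerly Pool.Agent.MP_bc5f1c_co.Good
section MrgPart0

/-!
Tree-like position systems (`Good`), exchange, connectivity and the root lemma.
-/

set_option autoImplicit false
set_option linter.unusedSectionVars false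

open Finset

namespace Pool.Agent.MP_bc5f1c_co

variable {ι : Type*} [DecidableEq ι]

/-- The orientation `σ` covers every part of `S` other than `j`. -/
def Rooted (S K : Finset ι) (pos : ι → Bool → ι) (j : ι) (σ : ι → Bool) : Prop :=
  ∀ i ∈ S, i ≠ j → ∃ u ∈ K, pos u (σ u) = i

/-- The edges `pos u false -- pos u true` (`u ∈ K`) form a spanning tree on `S`. -/
structure Good (S K : Finset ι) (pos : ι → Bool → ι) : Prop where
  card : K.card + 1 = S.card
  mem : ∀ u ∈ K, ∀ b, pos u b ∈ S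
  root : ∀ j ∈ S, ∃ σ, Rooted S K pos j σ

variable {S K : Finset ι} {pos : ι → Bool → ι}

theorem Rooted.image_eq (hc : K.card + 1 = S.card) {j : ι} (hj : j ∈ S) {σ : ι → Bool}
    (h : Rooted S K pos j σ) : K.image (fun u => pos u (σ u)) = S.erase j := by
  symm
  apply Finset.eq_of_subset_of_card_le
  · intro i hi
    obtain ⟨u, hu, e⟩ := h i (mem_of_mem_erase hi) (ne_of_mem_erase hi)
    exact mem_image.2 ⟨u, hu, e⟩
  · rw [card_erase_of_mem hj]
    have := card_image_le (s := K) (f := fun u => pos u (σ u))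
    omega

theorem Rooted.ne (hc : K.card + 1 = S.card) {j : ι} (hj : j ∈ S) {σ : ι → Bool}
    (h : Rooted S K pos j σ) {u : ι} (hu : u ∈ K) : pos u (σ u) ≠ j := by
  have : pos u (σ u) ∈ S.erase j := by
    rw [← h.image_eq hc hj]; exact mem_image_of_mem _ hu
  exact ne_of_mem_erase this

theorem Rooted.inj (hc : K.card + 1 = S.card) {j : ι} (hj : j ∈ S) {σ : ι → Bool}
    (h : Rooted S K pos j σ) {u v : ι} (hu : u ∈ K) (hv : v ∈ K)
    (e : pos u (σ u) = pos v (σ v)) : u = v := by
  have h1 : (K.image (fun u => pos u (σ u))).card = K.card := by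
    rw [h.image_eq hc hj, card_erase_of_mem hj]; omega
  exact (card_image_iff.1 h1) hu hv e

theorem Rooted.eq_not (hc : K.card + 1 = S.card) {u : ι} (hu : u ∈ K) {b : Bool}
    (hj : pos u b ∈ S) {σ : ι → Bool} (h : Rooted S K pos (pos u b) σ) : σ u = !b := by
  have := h.ne hc hj hu
  cases hb : σ u <;> cases b <;> simp_all

theorem Good.ne (h : Good S K pos) {u : ι} (hu : u ∈ K) (b : Bool) : pos u b ≠ pos u (!b) := by
  obtain ⟨σ, hσ⟩ := h.root _ (h.mem u hu b)
  have h1 := hσ.ne h.card (h.mem u hu b) hu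
  rw [hσ.eq_not h.card hu (h.mem u hu b)] at h1
  exact h1.symm

/-- Flipping the edge at the root moves the root along the edge. -/
theorem Rooted.flip (h : Good S K pos) {v : ι} (hv : v ∈ K) (c : Bool) {σ : ι → Bool}
    (hσ : Rooted S K pos (pos v c) σ) :
    Rooted S K pos (pos v (!c)) (Function.update σ v c) := by
  intro i hi hne
  by_cases hic : i = pos v c
  · exact ⟨v, hv, by simp [hic]⟩
  · obtain ⟨u, hu, e⟩ := hσ i hi hic
    have huv : u ≠ v := by
      rintro rfl
      rw [hσ.eq_not h.card hu (h.mem u hu c)] at e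
      exact hne e.symm
    exact ⟨u, hu, by simp [Function.update_of_ne huv, e]⟩

open Classical in
/-- The parts on the same side of the edge `u` as its end `b`. -/
noncomputable def side (S K : Finset ι) (pos : ι → Bool → ι) (u : ι) (b : Bool) : Finset ι :=
  S.filter (fun j => ∃ σ, Rooted S K pos j σ ∧ σ u = !b)

theorem mem_side {u j : ι} {b : Bool} :
    j ∈ side S K pos u b ↔ j ∈ S ∧ ∃ σ, Rooted S K pos j σ ∧ σ u = !b := by
  simp [side]

theorem side_subset (u : ι) (b : Bool) : side S K pos u b ⊆ S := fun _ h => (mem_side.1 h).1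

theorem Good.mem_side_self (h : Good S K pos) {u : ι} (hu : u ∈ K) (b : Bool) :
    pos u b ∈ side S K pos u b := by
  obtain ⟨σ, hσ⟩ := h.root _ (h.mem u hu b)
  exact mem_side.2 ⟨h.mem u hu b, σ, hσ, hσ.eq_not h.card hu (h.mem u hu b)⟩

theorem Good.not_mem_side (h : Good S K pos) {u : ι} (hu : u ∈ K) (b : Bool) :
    pos u (!b) ∉ side S K pos u b := by
  intro hm
  obtain ⟨hj, σ, hσ, e⟩ := mem_side.1 hm
  have := hσ.eq_not h.card hu hj
  rw [e] at this
  cases b <;> simp at this

theorem Good.side_flip (h : Good S K pos) {u v : ι} (hv : v ∈ K) (huv : u ≠ v) (b c : Bool)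
    (hm : pos v c ∈ side S K pos u b) : pos v (!c) ∈ side S K pos u b := by
  obtain ⟨-, σ, hσ, e⟩ := mem_side.1 hm
  exact mem_side.2 ⟨h.mem v hv _, _, hσ.flip h hv c, by simp [Function.update_of_ne huv, e]⟩

theorem Good.side_iff (h : Good S K pos) {u v : ι} (hv : v ∈ K) (huv : u ≠ v) (b c c' : Bool) :
    pos v c ∈ side S K pos u b ↔ pos v c' ∈ side S K pos u b := by
  have h1 := h.side_flip hv huv b false
  have h2 := h.side_flip hv huv b true
  cases c <;> cases c'
  · exact Iff.rfl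
  · exact ⟨h1, h2⟩
  · exact ⟨h2, h1⟩
  · exact Iff.rfl

/-- Move the end `(u, b)` to the part `j`. -/
def upd {α : Type*} (pos : ι → Bool → α) (u : ι) (b : Bool) (j : α) : ι → Bool → α :=
  fun v c => if v = u ∧ c = b then j else pos v c

@[simp] theorem upd_same {α : Type*} (pos : ι → Bool → α) (u : ι) (b : Bool) (j : α) :
    upd pos u b j u b = j := by simp [upd]

theorem upd_ne {α : Type*} (pos : ι → Bool → α) {u v : ι} (b c : Bool) (j : α) (h : v ≠ u) :
    upd pos u b j v c = pos v c := by simp [upd, h]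

@[simp] theorem upd_not {α : Type*} (pos : ι → Bool → α) (u : ι) (b : Bool) (j : α) :
    upd pos u b j u (!b) = pos u (!b) := by cases b <;> simp [upd]

theorem upd_of_ne {α : Type*} (pos : ι → Bool → α) {u v : ι} {b c : Bool} (j : α)
    (h : (v, c) ≠ (u, b)) : upd pos u b j v c = pos v c := by
  have : ¬ (v = u ∧ c = b) := fun ⟨h1, h2⟩ => h (by rw [h1, h2])
  simp [upd, this]

theorem Good.exchange (h : Good S K pos) {u : ι} (hu : u ∈ K) (b : Bool) {j' : ι}
    (hj' : j' ∈ side S K pos u b) : Good S K (upd pos u b j') := by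
  classical
  obtain ⟨hj'S, τ, hτ, hτu⟩ := mem_side.1 hj'
  refine ⟨h.card, ?_, ?_⟩
  · intro v hv c
    unfold upd
    split_ifs
    · exact hj'S
    · exact h.mem v hv c
  · intro j hj
    have key : ∀ σ, Rooted S K pos j σ → σ u = !b → Rooted S K (upd pos u b j') j σ := by
      intro σ hσ e i hi hne
      obtain ⟨v, hv, ev⟩ := hσ i hi hne
      refine ⟨v, hv, ?_⟩
      by_cases hvu : v = u
      · subst hvu
        rw [e, upd_not, ← e, ev]
      · rw [upd_ne _ _ _ _ hvu, ev]
    by_cases hjs : j ∈ side S K pos u b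
    · obtain ⟨-, σ, hσ, e⟩ := mem_side.1 hjs
      exact ⟨σ, key σ hσ e⟩
    · obtain ⟨σ, hσ⟩ := h.root j hj
      have hσu : σ u = b := by
        by_contra hne
        exact hjs (mem_side.2 ⟨hj, σ, hσ, by cases b <;> simp_all⟩)
      refine ⟨fun v => if v = u then b else if pos v false ∈ side S K pos u b then τ v else σ v, ?_⟩
      intro i hi hne
      by_cases hij' : i = j'
      · exact ⟨u, hu, by simp [hij']⟩
      by_cases his : i ∈ side S K pos u b
      · obtain ⟨v, hv, ev⟩ := hτ i hi hij'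
        have hvu : v ≠ u := by
          rintro rfl
          rw [hτu] at ev
          exact h.not_mem_side hv b (ev ▸ his)
        have h2 : pos v false ∈ side S K pos u b :=
          (h.side_iff hv hvu.symm b false (τ v)).2 (ev ▸ his)
        exact ⟨v, hv, by simp only [hvu, if_false, h2, if_true]; rw [upd_ne _ _ _ _ hvu, ev]⟩
      · obtain ⟨v, hv, ev⟩ := hσ i hi hne
        have hvu : v ≠ u := by
          rintro rfl
          rw [hσu] at ev
          exact his (ev ▸ h.mem_side_self hv b)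
        have h2 : pos v false ∉ side S K pos u b := fun h3 =>
          his (ev ▸ (h.side_iff hv hvu.symm b false (σ v)).1 h3)
        exact ⟨v, hv, by simp only [hvu, if_false, h2]; rw [upd_ne _ _ _ _ hvu, ev]⟩

/-- Connectivity: a set closed along all edges is empty or everything. -/
theorem Good.conn (h : Good S K pos) (X : ι → Prop)
    (hX : ∀ u ∈ K, (X (pos u false) ↔ X (pos u true))) {i j : ι} (hi : i ∈ S) (hj : j ∈ S)
    (hXi : X i) : X j := by
  classical
  by_contra hXj
  have aux : ∀ (Y : ι → Prop) [DecidablePred Y] (k : ι), k ∈ S → ¬ Y k →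
      (∀ u ∈ K, (Y (pos u false) ↔ Y (pos u true))) →
      (S.filter Y).card ≤ (K.filter (fun u => Y (pos u false))).card := by
    intro Y _ k hk hYk hY
    obtain ⟨σ, hσ⟩ := h.root k hk
    refine le_trans (card_le_card ?_)
      (card_image_le (s := K.filter (fun u => Y (pos u false))) (f := fun u => pos u (σ u)))
    intro x hx
    obtain ⟨hxS, hxY⟩ := mem_filter.1 hx
    obtain ⟨u, hu, e⟩ := hσ x hxS (fun e => hYk (e ▸ hxY))
    refine mem_image.2 ⟨u, mem_filter.2 ⟨hu, ?_⟩, e⟩
    have := hY u hu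
    cases hb : σ u
    · rw [hb] at e; rw [e]; exact hxY
    · rw [hb] at e; rw [this, e]; exact hxY
  have h1 := aux X j hj hXj hX
  have h2 := aux (fun k => ¬ X k) i hi (not_not.2 hXi) (fun u hu => not_congr (hX u hu))
  have h3 := card_filter_add_card_filter_not (s := S) X
  have h4 := card_filter_add_card_filter_not (s := K) (fun u => X (pos u false))
  have h5 := h.card
  omega

/-- Replace the ends in `H` by new ends. -/
def mix {α : Type*} (H : Finset (ι × Bool)) (pos pos' : ι → Bool → α) : ι → Bool → α :=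
  fun u b => if (u, b) ∈ H then pos' u b else pos u b

theorem Good.congr {pos' : ι → Bool → ι} (h : Good S K pos)
    (e : ∀ u ∈ K, ∀ b, pos u b = pos' u b) : Good S K pos' := by
  refine ⟨h.card, fun u hu b => e u hu b ▸ h.mem u hu b, fun j hj => ?_⟩
  obtain ⟨σ, hσ⟩ := h.root j hj
  refine ⟨σ, fun i hi hne => ?_⟩
  obtain ⟨u, hu, eu⟩ := hσ i hi hne
  exact ⟨u, hu, e u hu _ ▸ eu⟩

theorem Good.exchange_all {pos' : ι → Bool → ι} (h : Good S K pos)
    (hmem : ∀ u ∈ K, ∀ b, pos' u b ∈ S)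
    (hblock : ∀ H : Finset (ι × Bool), Good S K (mix H pos pos') → ∀ u ∈ K, ∀ b, (u, b) ∉ H →
      ∀ σ, Rooted S K (mix H pos pos') (pos' u b) σ → σ u = b → pos' u b = pos u b) :
    Good S K pos' := by
  have key : ∀ H : Finset (ι × Bool), H ⊆ K ×ˢ univ → Good S K (mix H pos pos') := by
    intro H
    induction H using Finset.induction_on with
    | empty => intro _; exact h.congr (fun u _ b => by simp [mix])
    | insert x H hx ih =>
      intro hsub
      obtain ⟨u, b⟩ := x
      have hH := ih (fun y hy => hsub (mem_insert_of_mem hy))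
      have hu : u ∈ K := (mem_product.1 (hsub (mem_insert_self _ _))).1
      have hside : pos' u b ∈ side S K (mix H pos pos') u b := by
        obtain ⟨σ, hσ⟩ := hH.root _ (hmem u hu b)
        by_cases hσu : σ u = b
        · have e := hblock H hH u hu b hx σ hσ hσu
          have := hH.mem_side_self hu b
          simp only [mix, hx, if_false] at this
          rw [e]; exact this
        · exact mem_side.2 ⟨hmem u hu b, σ, hσ, by cases b <;> simp_all⟩
      refine (hH.exchange hu b hside).congr (fun v _ c => ?_)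
      by_cases hvc : (v, c) = (u, b)
      · obtain ⟨rfl, rfl⟩ := Prod.mk.inj hvc
        simp [mix]
      · rw [upd_of_ne _ _ hvc]
        simp [mix, hvc]
  exact (key _ subset_rfl).congr (fun u hu b => by simp [mix, hu])

/-- The root lemma: if every choice of cells is a tree, some edge is crossed by no cell. -/
theorem root_lemma (C : ι → Bool → Finset ι) (hK : K.Nonempty)
    (hne : ∀ u ∈ K, ∀ b, (C u b).Nonempty)
    (hall : ∀ pos : ι → Bool → ι, (∀ u ∈ K, ∀ b, pos u b ∈ C u b) → Good S K pos) :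
    ∃ u₀ ∈ K, ∃ (P : Bool → Finset ι) (KP : Bool → Finset ι),
      Disjoint (P false) (P true) ∧ P false ∪ P true = S ∧
      Disjoint (KP false) (KP true) ∧ KP false ∪ KP true = K.erase u₀ ∧
      (∀ b, (KP b).card + 1 = (P b).card) ∧ (∀ b, C u₀ b ⊆ P b) ∧
      (∀ b, ∀ u ∈ KP b, ∀ c, C u c ⊆ P b) := by
  classical
  obtain ⟨u1, hu1⟩ := hK
  have hex : ∀ u b, ∃ j, u ∈ K → j ∈ C u b := by
    intro u b
    by_cases hu : u ∈ K
    · obtain ⟨j, hj⟩ := hne u hu b
      exact ⟨j, fun _ => hj⟩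
    · exact ⟨u, fun h => absurd h hu⟩
  choose pos hpos using hex
  have hG : Good S K pos := hall pos (fun u hu b => hpos u b hu)
  set Q : ι → Finset ι := fun u => side S K pos u false with hQ
  -- cells of `u` lie on the correct side of `u`
  have hown : ∀ u ∈ K, ∀ b, ∀ j ∈ C u b, (j ∈ Q u ↔ pos u b ∈ Q u) := by
    intro u hu b j hj
    by_contra hcon
    have hG' : Good S K (upd pos u b j) := by
      apply hall
      intro v hv c
      by_cases hvc : (v, c) = (u, b)
      · obtain ⟨rfl, rfl⟩ := Prod.mk.inj hvc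
        simpa using hj
      · rw [upd_of_ne _ _ hvc]; exact hpos v c hv
    have h1 : pos u false ∈ Q u := hG.mem_side_self hu false
    have h2 : pos u true ∉ Q u := hG.not_mem_side hu false
    refine h2 (hG'.conn (fun i => i ∈ Q u) ?_ (hG.mem u hu false) (hG.mem u hu true) h1)
    intro v hv
    by_cases hvu : v = u
    · subst hvu
      cases b
      · have e1 : upd pos v false j v true = pos v true := upd_not pos v false j
        rw [upd_same, e1]; tauto
      · have e1 : upd pos v true j v false = pos v false := upd_not pos v true j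
        rw [upd_same, e1]; tauto
    · rw [upd_ne _ _ _ _ hvu, upd_ne _ _ _ _ hvu]
      exact hG.side_iff hv (Ne.symm hvu) false false true
  -- crossing relation
  let R : ι → ι → Prop := fun u v => u ≠ v ∧ ∃ b, ∃ j ∈ C u b, ¬ (j ∈ Q v ↔ pos u b ∈ Q v)
  have hroot : ∃ u₀ ∈ K, ∀ u ∈ K, ¬ R u u₀ := by
    by_contra hcon
    push Not at hcon
    obtain ⟨X, hX, hmin⟩ := exists_min_image
      (K.powerset.filter (fun X => X.Nonempty ∧ ∀ v ∈ X, ∃ u ∈ X, R u v)) Finset.card
      ⟨K, mem_filter.2 ⟨mem_powerset_self _, ⟨u1, hu1⟩, hcon⟩⟩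
    obtain ⟨hXK, hXne, hXpred⟩ := mem_filter.1 hX
    rw [mem_powerset] at hXK
    have hsurj : ∀ f : ι → ι, (∀ v ∈ X, f v ∈ X ∧ R (f v) v) → X.image f = X := by
      intro f hf
      have hsub : X.image f ⊆ X := by
        intro x hx
        obtain ⟨v, hv, rfl⟩ := mem_image.1 hx
        exact (hf v hv).1
      apply eq_of_subset_of_card_le hsub
      apply hmin
      refine mem_filter.2 ⟨mem_powerset.2 (hsub.trans hXK), hXne.image f, ?_⟩
      intro v hv
      exact ⟨f v, mem_image_of_mem f (hsub hv), (hf v (hsub hv)).2⟩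
    have hex2 : ∀ v, ∃ u, v ∈ X → u ∈ X ∧ R u v := by
      intro v
      by_cases hv : v ∈ X
      · obtain ⟨u, hu, hR⟩ := hXpred v hv
        exact ⟨u, fun _ => ⟨hu, hR⟩⟩
      · exact ⟨v, fun h => absurd h hv⟩
    choose f hf using hex2
    have huniq : ∀ u ∈ X, ∀ v₁ ∈ X, ∀ v₂ ∈ X, R u v₁ → R u v₂ → v₁ = v₂ := by
      intro u hu v₁ h₁ v₂ h₂ r₁ r₂
      let f' : ι → ι := fun v => if v = v₁ ∨ v = v₂ then u else f v
      have h3 : X.image f' = X := hsurj f' (by
        intro v hv
        by_cases hc : v = v₁ ∨ v = v₂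
        · simp only [f', hc, if_true]
          rcases hc with rfl | rfl
          · exact ⟨hu, r₁⟩
          · exact ⟨hu, r₂⟩
        · simp only [f', hc, if_false]
          exact hf v hv)
      have h4 : Set.InjOn f' X := card_image_iff.1 (by rw [h3])
      exact h4 h₁ h₂ (by simp [f'])
    have hex3 : ∀ u, ∃ v b j, u ∈ X → v ∈ X ∧ u ≠ v ∧ j ∈ C u b ∧ ¬ (j ∈ Q v ↔ pos u b ∈ Q v) := by
      intro u
      by_cases hu : u ∈ X
      · have : u ∈ X.image f := by rw [hsurj f hf]; exact hu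
        obtain ⟨v, hv, rfl⟩ := mem_image.1 this
        obtain ⟨h1, b, j, hj, h2⟩ := (hf v hv).2
        exact ⟨v, b, j, fun _ => ⟨hv, h1, hj, h2⟩⟩
      · exact ⟨u, false, u, fun h => absurd h hu⟩
    choose g β γ hg using hex3
    let pos' : ι → Bool → ι := fun u b => if u ∈ X ∧ b = β u then γ u else pos u b
    have hG' : Good S K pos' := by
      apply hall
      intro u hu b
      by_cases hc : u ∈ X ∧ b = β u
      · simp only [pos', hc, and_self, if_true]
        exact (hg u hc.1).2.2.1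
      · simp only [pos', hc, if_false]
        exact hpos u b hu
    let ψ : ι → ZMod 2 := fun i => ∑ v ∈ X, if i ∈ Q v then 1 else 0
    have hψ : ∀ i j : ι, ∀ Y ⊆ X, (∀ v ∈ X, (v ∈ Y ↔ ¬ (i ∈ Q v ↔ j ∈ Q v))) →
        ψ i + ψ j = (Y.card : ZMod 2) := by
      intro i j Y hY hiff
      simp only [ψ]
      rw [← sum_add_distrib, card_eq_sum_ones, Nat.cast_sum, ← sum_filter_add_sum_filter_not X
        (fun v => v ∈ Y), filter_mem_eq_inter, inter_eq_right.2 hY]
      have e1 : ∑ v ∈ X.filter (fun v => v ∉ Y),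
          ((if i ∈ Q v then (1 : ZMod 2) else 0) + if j ∈ Q v then 1 else 0) = 0 := by
        apply sum_eq_zero
        intro v hv
        obtain ⟨hv1, hv2⟩ := mem_filter.1 hv
        have h0 : i ∈ Q v ↔ j ∈ Q v := by
          by_contra hc
          exact hv2 ((hiff v hv1).2 hc)
        by_cases h1 : i ∈ Q v
        · rw [if_pos h1, if_pos (h0.1 h1)]; decide
        · rw [if_neg h1, if_neg (fun h => h1 (h0.2 h)), add_zero]
      rw [e1, add_zero]
      apply sum_congr rfl
      intro v hv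
      have h0 := (hiff v (hY hv)).1 hv
      by_cases h1 : i ∈ Q v
      · rw [if_pos h1, if_neg (fun h => h0 ⟨fun _ => h, fun _ => h1⟩), add_zero, Nat.cast_one]
      · have h2 : j ∈ Q v := by
          by_contra h2
          exact h0 ⟨fun h => absurd h h1, fun h => absurd h h2⟩
        rw [if_neg h1, if_pos h2, zero_add, Nat.cast_one]
    have hzero : ∀ x y : ZMod 2, x + y = 0 → (x = 0 ↔ y = 0) := by decide
    have hone : ∀ x y : ZMod 2, x + y = 1 → ¬ (x = 0 ↔ y = 0) := by decide
    have hclosed : ∀ u ∈ K, (ψ (pos' u false) = 0 ↔ ψ (pos' u true) = 0) := by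
      intro u hu
      apply hzero
      by_cases huX : u ∈ X
      · obtain ⟨hg1, hg2, hg3, hg4⟩ := hg u huX
        have hY : ψ (γ u) + ψ (pos u (!β u)) = (({u, g u} : Finset ι).card : ZMod 2) := by
          apply hψ
          · intro x hx
            rcases mem_insert.1 hx with rfl | hx
            · exact huX
            · rw [mem_singleton.1 hx]; exact hg1
          · intro v hv
            by_cases hvu : v = u
            · subst hvu
              have a1 := hown v hu (β v) (γ v) hg3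
              have a2 : pos v false ∈ Q v := hG.mem_side_self hu false
              have a3 : pos v true ∉ Q v := hG.not_mem_side hu false
              rw [a1]
              simp only [mem_insert, true_or, true_iff]
              cases β v
              · exact fun h => a3 (h.1 a2)
              · exact fun h => a3 (h.2 a2)
            · have a1 : pos u (β u) ∈ Q v ↔ pos u (!β u) ∈ Q v :=
                hG.side_iff hu hvu false _ _
              rw [← a1]
              constructor
              · intro hm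
                rcases mem_insert.1 hm with h | h
                · exact absurd h hvu
                · rw [mem_singleton.1 h]; exact hg4
              · intro hm
                have : v = g u := huniq u huX v hv (g u) hg1 ⟨Ne.symm hvu, β u, γ u, hg3, hm⟩
                  ⟨hg2, β u, γ u, hg3, hg4⟩
                simp [this]
        rw [card_pair hg2] at hY
        have h2 : ((2 : ℕ) : ZMod 2) = 0 := by decide
        rw [h2] at hY
        cases hb : β u
        · simp only [pos', huX, hb, true_and, if_true]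
          simpa [hb] using hY
        · simp only [pos', huX, hb, true_and, if_true]
          simpa [hb, add_comm] using hY
      · have hY : ψ (pos u false) + ψ (pos u true) = ((∅ : Finset ι).card : ZMod 2) := by
          apply hψ _ _ _ (empty_subset _)
          intro v hv
          have hvu : v ≠ u := fun e => huX (e ▸ hv)
          have := hG.side_iff hu hvu false false true
          simp only [notMem_empty, false_iff, not_not]
          exact this
        simpa [pos', huX] using hY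
    obtain ⟨u, huX⟩ := hXne
    have hu := hXK huX
    have hY : ψ (pos u false) + ψ (pos u true) = (({u} : Finset ι).card : ZMod 2) := by
      apply hψ _ _ _ (by simpa using huX)
      intro v hv
      by_cases hvu : v = u
      · subst hvu
        have a2 : pos v false ∈ Q v := hG.mem_side_self hu false
        have a3 : pos v true ∉ Q v := hG.not_mem_side hu false
        simp [a2, a3]
      · have := hG.side_iff hu hvu false false true
        simp only [mem_singleton, hvu, false_iff, not_not]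
        exact this
    rw [card_singleton, Nat.cast_one] at hY
    apply hone _ _ hY
    exact ⟨hG'.conn (fun i => ψ i = 0) hclosed (hG.mem u hu _) (hG.mem u hu _),
      hG'.conn (fun i => ψ i = 0) hclosed (hG.mem u hu _) (hG.mem u hu _)⟩
  obtain ⟨u₀, hu₀, hun⟩ := hroot
  have hsame : ∀ u ∈ K, u ≠ u₀ → ∀ b, ∀ j ∈ C u b, (j ∈ Q u₀ ↔ pos u false ∈ Q u₀) := by
    intro u hu hne' b j hj
    have h1 : j ∈ Q u₀ ↔ pos u b ∈ Q u₀ := by
      by_contra hc
      exact hun u hu ⟨hne', b, j, hj, hc⟩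
    exact h1.trans (hG.side_iff hu hne'.symm false b false)
  have hCS : ∀ u ∈ K, ∀ b, C u b ⊆ S := by
    intro u hu b j hj
    have hG' : Good S K (upd pos u b j) := by
      apply hall
      intro v hv c
      by_cases hvc : (v, c) = (u, b)
      · obtain ⟨rfl, rfl⟩ := Prod.mk.inj hvc
        simpa using hj
      · rw [upd_of_ne _ _ hvc]; exact hpos v c hv
    simpa using hG'.mem u hu b
  have a2 : pos u₀ false ∈ Q u₀ := hG.mem_side_self hu₀ false
  have a3 : pos u₀ true ∉ Q u₀ := hG.not_mem_side hu₀ false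
  let P : Bool → Finset ι := fun b => cond b (S \ Q u₀) (Q u₀)
  let KP : Bool → Finset ι := fun b => cond b
    ((K.erase u₀).filter (fun u => pos u false ∉ Q u₀))
    ((K.erase u₀).filter (fun u => pos u false ∈ Q u₀))
  have hPmem : ∀ b, pos u₀ b ∈ P b := by
    intro b
    cases b
    · exact a2
    · exact mem_sdiff.2 ⟨hG.mem u₀ hu₀ true, a3⟩
  have hKP : ∀ b, ∀ u ∈ KP b, ∀ c, C u c ⊆ P b := by
    intro b u hu c j hj
    cases b
    · obtain ⟨h1, h2⟩ := mem_filter.1 hu
      exact (hsame u (mem_of_mem_erase h1) (ne_of_mem_erase h1) c j hj).2 h2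
    · obtain ⟨h1, h2⟩ := mem_filter.1 hu
      exact mem_sdiff.2 ⟨hCS u (mem_of_mem_erase h1) c hj,
        fun h => h2 ((hsame u (mem_of_mem_erase h1) (ne_of_mem_erase h1) c j hj).1 h)⟩
  have hPd : Disjoint (P false) (P true) := disjoint_sdiff
  have hPu : P false ∪ P true = S := union_sdiff_of_subset (side_subset u₀ false)
  have hKd : Disjoint (KP false) (KP true) := disjoint_filter_filter_not _ _ _
  have hKu : KP false ∪ KP true = K.erase u₀ := filter_union_filter_not_eq _ _
  have hle : ∀ b, (P b).card ≤ (KP b).card + 1 := by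
    intro b
    obtain ⟨σ, hσ⟩ := hG.root _ (hG.mem u₀ hu₀ b)
    have hσu := hσ.eq_not hG.card hu₀ (hG.mem u₀ hu₀ b)
    have hsub : (P b).erase (pos u₀ b) ⊆ (KP b).image (fun u => pos u (σ u)) := by
      intro i hi
      have hiP := mem_of_mem_erase hi
      have hiS : i ∈ S := by
        rw [← hPu]
        cases b
        · exact mem_union_left _ hiP
        · exact mem_union_right _ hiP
      obtain ⟨u, hu, e⟩ := hσ i hiS (ne_of_mem_erase hi)
      refine mem_image.2 ⟨u, ?_, e⟩
      have huu : u ≠ u₀ := by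
        rintro rfl
        rw [hσu] at e
        have h5 := hPmem (!b)
        rw [e] at h5
        cases b
        · exact disjoint_left.1 hPd hiP h5
        · exact disjoint_left.1 hPd h5 hiP
      have h6 : u ∈ KP false ∪ KP true := by rw [hKu]; exact mem_erase.2 ⟨huu, hu⟩
      have h7 : ∀ c, u ∈ KP c → i ∈ P c := fun c hc => e ▸ hKP c u hc _ (hpos u (σ u) hu)
      rcases mem_union.1 h6 with h | h
      · cases b
        · exact h
        · exact absurd hiP (disjoint_left.1 hPd (h7 _ h))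
      · cases b
        · exact absurd (h7 _ h) (disjoint_left.1 hPd hiP)
        · exact h
    have h8 := (card_le_card hsub).trans card_image_le
    rw [card_erase_of_mem (hPmem b)] at h8
    omega
  have hsum1 : (P false).card + (P true).card = S.card := by
    rw [← hPu, card_union_of_disjoint hPd]
  have hsum2 : (KP false).card + (KP true).card + 1 = K.card := by
    rw [← card_union_of_disjoint hKd, hKu, card_erase_of_mem hu₀]
    have := card_pos.2 ⟨u₀, hu₀⟩
    omega
  refine ⟨u₀, hu₀, P, KP, hPd, hPu, hKd, hKu, ?_, ?_, hKP⟩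
  · have := hle false
    have := hle true
    have := hG.card
    intro b
    cases b <;> omega
  · intro b j hj
    have h1 := hown u₀ hu₀ b j hj
    cases b
    · exact h1.2 a2
    · exact mem_sdiff.2 ⟨hCS u₀ hu₀ true hj, fun h => a3 (h1.1 h)⟩

end Pool.Agent.MP_bc5f1c_co

end MrgPart0

-- ======== part 1: formerly Pool.Agent.MP_bc5f1c_co.Haxell
section MrgPart1

/-!
Haxell's lemma on independent transversals, with induced matching configurations.
-/

set_option autoImplicit false
set_option linter.unusedSectionVars false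

open Finset

namespace Pool.Agent.MP_bc5f1c_co

variable {V ι : Type*} [Fintype V] [DecidableEq V] [DecidableEq ι]

open Classical in
/-- The neighbourhood of a vertex, as a finset. -/
noncomputable def nb (G : SimpleGraph V) (x : V) : Finset V := univ.filter (G.Adj x)

@[simp] theorem mem_nb {G : SimpleGraph V} {x y : V} : y ∈ nb G x ↔ G.Adj x y := by simp [nb]

/-- The vertices of `U` lying in the parts indexed by `S`. -/
def pt (p : V → ι) (U : Finset V) (S : Finset ι) : Finset V := U.filter (fun x => p x ∈ S)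

@[simp] theorem mem_pt {p : V → ι} {U : Finset V} {S : Finset ι} {x : V} :
    x ∈ pt p U S ↔ x ∈ U ∧ p x ∈ S := by simp [pt]

/-- `T` is an independent transversal of the parts `J` inside `U`. -/
def IsIT (G : SimpleGraph V) (p : V → ι) (U : Finset V) (J : Finset ι) (T : ι → V) : Prop :=
  (∀ i ∈ J, T i ∈ U ∧ p (T i) = i) ∧ ∀ i ∈ J, ∀ j ∈ J, i ≠ j → ¬ G.Adj (T i) (T j)

/-- There is an independent transversal of the parts `J` inside `U`. -/
def HasIT (G : SimpleGraph V) (p : V → ι) (U : Finset V) (J : Finset ι) : Prop :=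
  ∃ T, IsIT G p U J T

/-- Induced matching configuration. -/
structure IMC (G : SimpleGraph V) (p : V → ι) (U : Finset V) (S K : Finset ι)
    (e : ι → Bool → V) : Prop where
  mem : ∀ u ∈ K, ∀ b, e u b ∈ U
  nonadj : ∀ u ∈ K, ∀ v ∈ K, u ≠ v → ∀ b c, ¬ G.Adj (e u b) (e v c)
  adj : ∀ u ∈ K, G.Adj (e u false) (e u true)
  good : Good S K (fun u b => p (e u b))

/-- `I` dominates the vertices of `U` in the parts `S`. -/
def Dom (G : SimpleGraph V) (p : V → ι) (U : Finset V) (S : Finset ι) (I : Finset V) : Prop :=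
  ∀ x ∈ U, p x ∈ S → ∃ y ∈ I, G.Adj x y

/-- The set of ends of a configuration. -/
def ends (K : Finset ι) (e : ι → Bool → V) : Finset V :=
  (K ×ˢ (univ : Finset Bool)).image (fun q => e q.1 q.2)

theorem mem_ends {K : Finset ι} {e : ι → Bool → V} {x : V} :
    x ∈ ends K e ↔ ∃ u ∈ K, ∃ b, e u b = x := by
  simp only [ends, mem_image, mem_product, mem_univ, and_true, Prod.exists]
  constructor
  · rintro ⟨u, b, hu, h⟩; exact ⟨u, hu, b, h⟩
  · rintro ⟨u, hu, b, h⟩; exact ⟨u, b, hu, h⟩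

theorem card_ends_le (K : Finset ι) (e : ι → Bool → V) : (ends K e).card ≤ 2 * K.card := by
  refine card_image_le.trans ?_
  simp [mul_comm]

variable {G : SimpleGraph V} {p : V → ι} {U : Finset V} {J : Finset ι}

theorem HasIT.mono {U' : Finset V} (h : HasIT G p U J) (hU : U ⊆ U') : HasIT G p U' J := by
  obtain ⟨T, h1, h2⟩ := h
  exact ⟨T, fun i hi => ⟨hU (h1 i hi).1, (h1 i hi).2⟩, h2⟩

theorem HasIT.anti {G' : SimpleGraph V} (h : HasIT G p U J) (hG : G' ≤ G) : HasIT G' p U J := by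
  obtain ⟨T, h1, h2⟩ := h
  exact ⟨T, h1, fun i hi j hj hij ha => h2 i hi j hj hij (hG ha)⟩

theorem HasIT.subset {J' : Finset ι} (h : HasIT G p U J) (hJ : J' ⊆ J) : HasIT G p U J' := by
  obtain ⟨T, h1, h2⟩ := h
  exact ⟨T, fun i hi => h1 i (hJ hi), fun i hi j hj => h2 i (hJ hi) j (hJ hj)⟩

theorem HasIT.pt (h : HasIT G p U J) : HasIT G p (pt p U J) J := by
  obtain ⟨T, h1, h2⟩ := h
  exact ⟨T, fun i hi => ⟨mem_pt.2 ⟨(h1 i hi).1, by rw [(h1 i hi).2]; exact hi⟩, (h1 i hi).2⟩, h2⟩

/-- Two transversals on disjoint index sets with no edges between them combine. -/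
theorem IsIT.union {J₁ J₂ : Finset ι} {T₁ T₂ : ι → V} (h₁ : IsIT G p U J₁ T₁)
    (h₂ : IsIT G p U J₂ T₂) (hn : ∀ i ∈ J₁, ∀ j ∈ J₂, ¬ G.Adj (T₁ i) (T₂ j)) :
    HasIT G p U (J₁ ∪ J₂) := by
  refine ⟨fun i => if i ∈ J₁ then T₁ i else T₂ i, ?_, ?_⟩
  · intro i hi
    by_cases h : i ∈ J₁
    · simp only [h, if_true]; exact h₁.1 i h
    · simp only [h, if_false]; exact h₂.1 i ((mem_union.1 hi).resolve_left h)
  · intro i hi j hj hij
    by_cases h : i ∈ J₁ <;> by_cases h' : j ∈ J₁ <;> simp only [h, h', if_true, if_false]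
    · exact h₁.2 i h j h' hij
    · exact hn i h j ((mem_union.1 hj).resolve_left h')
    · exact fun ha => hn j h' i ((mem_union.1 hi).resolve_left h) ha.symm
    · exact h₂.2 i ((mem_union.1 hi).resolve_left h) j ((mem_union.1 hj).resolve_left h') hij

theorem IsIT.insert {T : ι → V} (h : IsIT G p U J T) {x : V} (hx : x ∈ U)
    (hn : ∀ i ∈ J, ¬ G.Adj x (T i)) : HasIT G p U (insert (p x) J) := by
  have h1 : IsIT G p U {p x} (fun _ => x) :=
    ⟨fun i hi => ⟨hx, (mem_singleton.1 hi).symm⟩, fun i hi j hj hij =>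
      absurd ((mem_singleton.1 hi).trans (mem_singleton.1 hj).symm) hij⟩
  simpa using h1.union h (fun _ _ j hj => hn j hj)

theorem Good.merge {S' K' : Finset ι} {pos pos' : ι → Bool → ι} (h : Good S' K' pos')
    {j₀ i : ι} (hj₀ : j₀ ∈ S') (hi : i ∉ S') (hiK : i ∉ K')
    (hpos : ∀ u ∈ K', ∀ b, pos' u b = if pos u b = i then j₀ else pos u b)
    (h0 : pos i false = j₀) (h1 : pos i true = i) : Good (insert i S') (insert i K') pos := by
  have hij : i ≠ j₀ := fun e => hi (e ▸ hj₀)
  refine ⟨?_, ?_, ?_⟩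
  · rw [card_insert_of_notMem hi, card_insert_of_notMem hiK, h.card]
  · intro u hu b
    rcases mem_insert.1 hu with rfl | hu
    · cases b
      · rw [h0]; exact mem_insert_of_mem hj₀
      · rw [h1]; exact mem_insert_self _ _
    · have := h.mem u hu b
      rw [hpos u hu b] at this
      split_ifs at this with hc
      · rw [hc]; exact mem_insert_self _ _
      · exact mem_insert_of_mem this
  · have key : ∀ (σ : ι → Bool) (c : Bool) (k : ι), k ≠ j₀ → ∀ u ∈ K', pos' u (σ u) = k →
        ∃ v ∈ insert i K', pos v (Function.update σ i c v) = k := by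
      intro σ c k hk u hu e
      have hui : u ≠ i := fun e => hiK (e ▸ hu)
      refine ⟨u, mem_insert_of_mem hu, ?_⟩
      rw [Function.update_of_ne hui]
      rw [hpos u hu] at e
      split_ifs at e with hc
      · exact absurd e.symm hk
      · exact e
    intro j hj
    by_cases hjj : j = j₀ ∨ j = i
    · obtain ⟨σ, hσ⟩ := h.root j₀ hj₀
      refine ⟨Function.update σ i (decide (j = j₀)), fun k hk hkj => ?_⟩
      by_cases hk1 : k = j₀ ∨ k = i
      · refine ⟨i, mem_insert_self _ _, ?_⟩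
        rw [Function.update_self]
        rcases hjj with rfl | rfl <;> rcases hk1 with rfl | rfl
        · exact absurd rfl hkj
        · simpa using h1
        · simpa [hij] using h0
        · exact absurd rfl hkj
      · push Not at hk1
        obtain ⟨u, hu, e⟩ := hσ k ((mem_insert.1 hk).resolve_left hk1.2) hk1.1
        exact key σ _ k hk1.1 u hu e
    · push Not at hjj
      have hjS : j ∈ S' := (mem_insert.1 hj).resolve_left hjj.2
      obtain ⟨σ, hσ⟩ := h.root j hjS
      obtain ⟨w, hw, ew⟩ := hσ j₀ hj₀ (Ne.symm hjj.1)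
      have hwi : w ≠ i := fun e => hiK (e ▸ hw)
      refine ⟨Function.update σ i (decide (pos w (σ w) ≠ i)), fun k hk hkj => ?_⟩
      by_cases hk1 : k = j₀ ∨ k = i
      · rw [hpos w hw] at ew
        by_cases hc : pos w (σ w) = i
        · rcases hk1 with rfl | rfl
          · exact ⟨i, mem_insert_self _ _, by simp [hc, h0]⟩
          · exact ⟨w, mem_insert_of_mem hw, by rw [Function.update_of_ne hwi]; exact hc⟩
        · rw [if_neg hc] at ew
          rcases hk1 with rfl | rfl
          · exact ⟨w, mem_insert_of_mem hw, by rw [Function.update_of_ne hwi]; exact ew⟩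
          · exact ⟨k, mem_insert_self _ _, by simp [hc, h1]⟩
      · push Not at hk1
        obtain ⟨u, hu, e⟩ := hσ k ((mem_insert.1 hk).resolve_left hk1.2) hkj
        exact key σ _ k hk1.1 u hu e

/-- The conclusion of Haxell's lemma; `Φ` is an extra property of the configuration. -/
def HConc (G : SimpleGraph V) (p : V → ι) (U : Finset V) (J : Finset ι) (j₀ : ι)
    (Φ : Finset ι → (ι → Bool → V) → Prop) : Prop :=
  ∃ S ⊆ J, j₀ ∈ S ∧ ((∃ I ⊆ U, I.card + 3 ≤ 2 * S.card ∧ Dom G p U S I) ∨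
    (∃ K e, K ⊆ S ∧ IMC G p U S K e ∧ Dom G p U S (ends K e) ∧ Φ K e))

open Classical in
theorem haxell_step {j₀ : ι} (hj₀ : j₀ ∈ J) (hno : ¬ HasIT G p U J) {y : V} (hy : y ∈ U)
    (hpy : p y = j₀) {T : ι → V} (hT : IsIT G p U (J.erase j₀) T)
    (hmin : ∀ T', IsIT G p U (J.erase j₀) T' →
      ((J.erase j₀).filter (fun i => G.Adj y (T i))).card ≤
        ((J.erase j₀).filter (fun i => G.Adj y (T' i))).card)
    (ih : ∀ (p' : V → ι) (U' : Finset V) (J' : Finset ι), J'.card < J.card → j₀ ∈ J' →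
      ¬ HasIT G p' U' J' → HasIT G p' U' (J'.erase j₀) → HConc G p' U' J' j₀ (fun _ _ => True)) :
    HConc G p U J j₀ (fun K e => ∃ u ∈ K, u ∈ J.erase j₀ ∧ e u false = y ∧ e u true = T u) := by
  set Λ := (J.erase j₀).filter (fun i => G.Adj y (T i)) with hΛ
  have hΛJ : ∀ i ∈ Λ, i ∈ J.erase j₀ := fun i hi => (mem_filter.1 hi).1
  have hj₀Λ : j₀ ∉ Λ := fun h => (notMem_erase j₀ J) (hΛJ _ h)
  have hΛne : Λ.Nonempty := by
    by_contra hc
    rw [not_nonempty_iff_eq_empty] at hc
    apply hno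
    have := hT.insert hy (fun i hi ha => by
      have : i ∈ Λ := mem_filter.2 ⟨hi, ha⟩
      rw [hc] at this; exact notMem_empty _ this)
    rwa [hpy, insert_erase hj₀] at this
  set U' := U.filter (fun x => ¬ G.Adj x y ∧ ∀ i ∈ Λ, ¬ G.Adj x (T i)) with hU'
  set p' : V → ι := fun x => if p x ∈ Λ then j₀ else p x with hp'
  have hcard : (J \ Λ).card < J.card := by
    apply card_lt_card
    refine ⟨sdiff_subset, fun hsub => ?_⟩
    obtain ⟨i, hi⟩ := hΛne
    exact (mem_sdiff.1 (hsub (mem_of_mem_erase (hΛJ i hi)))).2 hi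
  have hp'eq : ∀ x i, i ≠ j₀ → p' x = i → p x = i := by
    intro x i hi e
    simp only [hp'] at e
    split_ifs at e with hc
    · exact absurd e.symm hi
    · exact e
  have hIT' : HasIT G p' U' ((J \ Λ).erase j₀) := by
    refine ⟨T, fun i hi => ?_, fun i hi j hj hij => ?_⟩
    · obtain ⟨hi1, hi2⟩ := mem_erase.1 hi
      obtain ⟨hi3, hi4⟩ := mem_sdiff.1 hi2
      have hi5 : i ∈ J.erase j₀ := mem_erase.2 ⟨hi1, hi3⟩
      refine ⟨mem_filter.2 ⟨(hT.1 i hi5).1, fun ha => hi4 (mem_filter.2 ⟨hi5, ha.symm⟩),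
        fun k hk => hT.2 i hi5 k (hΛJ k hk) (fun e => hi4 (e ▸ hk))⟩, ?_⟩
      simp only [hp', (hT.1 i hi5).2, hi4, if_false]
    · exact hT.2 i (mem_erase.2 ⟨(mem_erase.1 hi).1, (mem_sdiff.1 (mem_erase.1 hi).2).1⟩)
        j (mem_erase.2 ⟨(mem_erase.1 hj).1, (mem_sdiff.1 (mem_erase.1 hj).2).1⟩) hij
  have hno' : ¬ HasIT G p' U' (J \ Λ) := by
    rintro ⟨T', h1, h2⟩
    have hj₀' : j₀ ∈ J \ Λ := mem_sdiff.2 ⟨hj₀, hj₀Λ⟩
    have hU'mem : ∀ i ∈ J \ Λ, T' i ∈ U ∧ ¬ G.Adj (T' i) y ∧ ∀ k ∈ Λ, ¬ G.Adj (T' i) (T k) :=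
      fun i hi => mem_filter.1 (h1 i hi).1
    by_cases hc : p (T' j₀) ∈ Λ
    · set k := p (T' j₀) with hk
      let T'' : ι → V := fun i => if i = k then T' j₀ else if i ∈ Λ then T i else T' i
      have hrest : ∀ i ∈ J.erase j₀, i ∉ Λ → i ∈ J \ Λ :=
        fun i hi h => mem_sdiff.2 ⟨mem_of_mem_erase hi, h⟩
      have hT'' : IsIT G p U (J.erase j₀) T'' := by
        refine ⟨fun i hi => ?_, fun i hi j hj hij => ?_⟩
        · simp only [T'']
          split_ifs with c1 c2
          · exact ⟨(hU'mem j₀ hj₀').1, c1.symm⟩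
          · exact hT.1 i hi
          · exact ⟨(hU'mem i (hrest i hi c2)).1,
              hp'eq _ _ (ne_of_mem_erase hi) (h1 i (hrest i hi c2)).2⟩
        · simp only [T'']
          split_ifs with c1 c2 c3 c4 c5 c6 c7 c8
          · exact absurd (c1.trans c2.symm) hij
          · exact (hU'mem j₀ hj₀').2.2 j c3
          · exact h2 j₀ hj₀' j (hrest j hj c3) (ne_of_mem_erase hj).symm
          · exact fun ha => (hU'mem j₀ hj₀').2.2 i c4 ha.symm
          · exact hT.2 i hi j hj hij
          · exact fun ha => (hU'mem j (hrest j hj c6)).2.2 i c4 ha.symm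
          · exact h2 i (hrest i hi c4) j₀ hj₀' (ne_of_mem_erase hi)
          · exact (hU'mem i (hrest i hi c4)).2.2 j c8
          · exact h2 i (hrest i hi c4) j (hrest j hj c8) hij
      have h3 := hmin T'' hT''
      have h4 : (J.erase j₀).filter (fun i => G.Adj y (T'' i)) ⊆ Λ.erase k := by
        intro i hi
        obtain ⟨hi1, hi2⟩ := mem_filter.1 hi
        simp only [T''] at hi2
        split_ifs at hi2 with c1 c2
        · exact absurd hi2.symm (hU'mem j₀ hj₀').2.1
        · exact mem_erase.2 ⟨c1, c2⟩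
        · exact absurd hi2.symm (hU'mem i (hrest i hi1 c2)).2.1
      have h5 := card_le_card h4
      rw [card_erase_of_mem hc] at h5
      have h6 := card_pos.2 hΛne
      omega
    · apply hno
      have ha : IsIT G p U Λ T :=
        ⟨fun i hi => hT.1 i (hΛJ i hi), fun i hi j hj => hT.2 i (hΛJ i hi) j (hΛJ j hj)⟩
      have hb : IsIT G p U (J \ Λ) T' := by
        refine ⟨fun i hi => ⟨(hU'mem i hi).1, ?_⟩, h2⟩
        by_cases hi0 : i = j₀
        · subst hi0
          have := (h1 i hi).2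
          simpa only [hp', hc, if_false] using this
        · exact hp'eq _ _ hi0 (h1 i hi).2
      have := ha.union hb (fun i hi j hj had => (hU'mem j hj).2.2 i hi had.symm)
      rwa [union_sdiff_of_subset (fun i hi => mem_of_mem_erase (hΛJ i hi))] at this
  obtain ⟨S', hS'J, hj₀S', hcase⟩ := ih p' U' (J \ Λ) hcard (mem_sdiff.2 ⟨hj₀, hj₀Λ⟩) hno' hIT'
  have hdisj : Disjoint S' Λ := disjoint_left.2 (fun i hi h => (mem_sdiff.1 (hS'J hi)).2 h)
  have hcardS : (S' ∪ Λ).card = S'.card + Λ.card := card_union_of_disjoint hdisj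
  have hSJ : S' ∪ Λ ⊆ J := union_subset (hS'J.trans sdiff_subset)
    (fun i hi => mem_of_mem_erase (hΛJ i hi))
  have hdom : ∀ I' I : Finset V, Dom G p' U' S' I' → I' ⊆ I → y ∈ I → (∀ i ∈ Λ, T i ∈ I) →
      Dom G p U (S' ∪ Λ) I := by
    intro I' I hI' h1 h2 h3 x hx hpx
    by_cases hxU' : x ∈ U'
    · have : p' x ∈ S' := by
        simp only [hp']
        split_ifs with hc
        · exact hj₀S'
        · exact (mem_union.1 hpx).resolve_right hc
      obtain ⟨z, hz, ha⟩ := hI' x hxU' this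
      exact ⟨z, h1 hz, ha⟩
    · by_cases hxy : G.Adj x y
      · exact ⟨y, h2, hxy⟩
      · have : ¬ ∀ i ∈ Λ, ¬ G.Adj x (T i) := fun h => hxU' (mem_filter.2 ⟨hx, hxy, h⟩)
        push Not at this
        obtain ⟨i, hi, ha⟩ := this
        exact ⟨T i, h3 i hi, ha⟩
  have hleft : ∀ I' : Finset V, I' ⊆ U' → Dom G p' U' S' I' →
      I'.card + 4 ≤ 2 * S'.card + Λ.card →
      ∃ I ⊆ U, I.card + 3 ≤ 2 * (S' ∪ Λ).card ∧ Dom G p U (S' ∪ Λ) I := by
    intro I' h1 h2 h3
    refine ⟨insert y (Λ.image T ∪ I'), ?_, ?_, hdom I' _ h2 ?_ (mem_insert_self _ _) ?_⟩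
    · intro x hx
      rcases mem_insert.1 hx with rfl | hx
      · exact hy
      · rcases mem_union.1 hx with hx | hx
        · obtain ⟨i, hi, rfl⟩ := mem_image.1 hx
          exact (hT.1 i (hΛJ i hi)).1
        · exact (mem_filter.1 (h1 hx)).1
    · have a1 := card_insert_le y (Λ.image T ∪ I')
      have a2 := card_union_le (Λ.image T) I'
      have a3 : (Λ.image T).card ≤ Λ.card := card_image_le
      omega
    · exact fun x hx => mem_insert_of_mem (mem_union_right _ hx)
    · exact fun i hi => mem_insert_of_mem (mem_union_left _ (mem_image_of_mem _ hi))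
  have hΛpos := card_pos.2 hΛne
  refine ⟨S' ∪ Λ, hSJ, mem_union_left _ hj₀S', ?_⟩
  rcases hcase with ⟨I', h1, h2, h3⟩ | ⟨K', e', hK', himc, hd, -⟩
  · exact Or.inl (hleft I' h1 h3 (by omega))
  · by_cases h2 : 2 ≤ Λ.card
    · left
      apply hleft (ends K' e') _ hd
      · have := card_ends_le K' e'
        have := himc.good.card
        omega
      · intro x hx
        obtain ⟨u, hu, b, rfl⟩ := mem_ends.1 hx
        exact himc.mem u hu b
    · right
      obtain ⟨i, hi⟩ := card_eq_one.1 (show Λ.card = 1 by omega)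
      have hiΛ : i ∈ Λ := by rw [hi]; exact mem_singleton_self i
      have hiS' : i ∉ S' := fun h => disjoint_left.1 hdisj h hiΛ
      have hiK' : i ∉ K' := fun h => hiS' (hK' h)
      have hSeq : S' ∪ Λ = insert i S' := by rw [hi, union_comm]; rfl
      have hne : ∀ u ∈ K', u ≠ i := fun u hu e => hiK' (e ▸ hu)
      have hU'e : ∀ u ∈ K', ∀ b, e' u b ∈ U ∧ ¬ G.Adj (e' u b) y ∧ ¬ G.Adj (e' u b) (T i) := by
        intro u hu b
        have := mem_filter.1 (himc.mem u hu b)
        exact ⟨this.1, this.2.1, this.2.2 i hiΛ⟩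
      let e : ι → Bool → V := fun u b => if u = i then cond b (T i) y else e' u b
      have he : ∀ u ∈ K', ∀ b, e u b = e' u b := fun u hu b => by simp [e, hne u hu]
      have he0 : e i false = y := by simp [e]
      have he1 : e i true = T i := by simp [e]
      have hcross : ∀ u ∈ K', ∀ b c, ¬ G.Adj (e u b) (e i c) := by
        intro u hu b c
        rw [he u hu]
        cases c
        · rw [he0]; exact (hU'e u hu b).2.1
        · rw [he1]; exact (hU'e u hu b).2.2
      refine ⟨insert i K', e, ?_, ⟨?_, ?_, ?_, ?_⟩, ?_, i, mem_insert_self _ _, hΛJ i hiΛ, he0, he1⟩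
      · rw [hSeq]; exact insert_subset_insert i hK'
      · intro u hu b
        rcases mem_insert.1 hu with rfl | hu
        · cases b
          · rw [he0]; exact hy
          · rw [he1]; exact (hT.1 u (hΛJ u hiΛ)).1
        · rw [he u hu]; exact (hU'e u hu b).1
      · intro u hu v hv huv b c
        rcases mem_insert.1 hu with hu' | hu' <;> rcases mem_insert.1 hv with hv' | hv'
        · exact absurd (hu'.trans hv'.symm) huv
        · rw [hu']; exact fun ha => hcross v hv' c b ha.symm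
        · rw [hv']; exact hcross u hu' b c
        · rw [he u hu', he v hv']; exact himc.nonadj u hu' v hv' huv b c
      · intro u hu
        rcases mem_insert.1 hu with rfl | hu
        · rw [he0, he1]; exact (mem_filter.1 hiΛ).2
        · rw [he u hu, he u hu]; exact himc.adj u hu
      · rw [hSeq]
        refine himc.good.merge hj₀S' hiS' hiK' ?_ ?_ ?_
        · intro u hu b
          simp only [he u hu, hp', hi, mem_singleton]
        · simp only [he0, hpy]
        · simp only [he1]; exact (hT.1 i (hΛJ i hiΛ)).2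
      · refine hdom _ _ hd ?_ (mem_ends.2 ⟨i, mem_insert_self _ _, false, he0⟩) ?_
        · intro x hx
          obtain ⟨u, hu, b, rfl⟩ := mem_ends.1 hx
          exact mem_ends.2 ⟨u, mem_insert_of_mem hu, b, he u hu b⟩
        · intro k hk
          rw [hi, mem_singleton] at hk
          exact mem_ends.2 ⟨i, mem_insert_self _ _, true, hk ▸ he1⟩

theorem HConc.weaken {j₀ : ι} {Φ Ψ : Finset ι → (ι → Bool → V) → Prop} (h : HConc G p U J j₀ Φ)
    (hΦ : ∀ K e, Φ K e → Ψ K e) : HConc G p U J j₀ Ψ := by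
  obtain ⟨S, h1, h2, h3 | ⟨K, e, a, b, c, d⟩⟩ := h
  · exact ⟨S, h1, h2, Or.inl h3⟩
  · exact ⟨S, h1, h2, Or.inr ⟨K, e, a, b, c, hΦ K e d⟩⟩

theorem haxell_star (G : SimpleGraph V) (j₀ : ι) (n : ℕ) : ∀ (p : V → ι) (U : Finset V)
    (J : Finset ι), J.card = n → j₀ ∈ J → ¬ HasIT G p U J → HasIT G p U (J.erase j₀) →
    HConc G p U J j₀ (fun _ _ => True) := by
  classical
  induction n using Nat.strong_induction_on with
  | _ n ih =>
    intro p U J hJ hj₀ hno hIT
    by_cases hy : ∃ y ∈ U, p y = j₀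
    · obtain ⟨y, hy, hpy⟩ := hy
      have hex : ∃ m, ∃ T, IsIT G p U (J.erase j₀) T ∧
          ((J.erase j₀).filter (fun i => G.Adj y (T i))).card = m := by
        obtain ⟨T, hT⟩ := hIT
        exact ⟨_, T, hT, rfl⟩
      obtain ⟨T, hT, hm⟩ := Nat.find_spec hex
      refine (haxell_step hj₀ hno hy hpy hT ?_ ?_).weaken (fun _ _ _ => trivial)
      · intro T' hT'
        have := Nat.find_min' hex ⟨T', hT', rfl⟩
        convert hm ▸ this
      · intro p' U' J' hlt h1 h2 h3
        exact ih J'.card (hJ ▸ hlt) p' U' J' rfl h1 h2 h3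
    · refine ⟨{j₀}, by simpa using hj₀, mem_singleton_self _, Or.inr ⟨∅, fun _ _ => hIT.choose j₀,
        empty_subset _, ⟨by simp, by simp, by simp, by simp, by simp, ?_⟩, ?_, trivial⟩⟩
      · intro j hj
        exact ⟨fun _ => false, fun i hi hne =>
          absurd ((mem_singleton.1 hi).trans (mem_singleton.1 hj).symm) hne⟩
      · intro x hx hpx
        exact absurd ⟨x, hx, mem_singleton.1 hpx⟩ hy

theorem haxell_edge {j₀ : ι} (hj₀ : j₀ ∈ J) (hno : ¬ HasIT G p U J) {y : V} (hy : y ∈ U)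
    (hpy : p y = j₀) {T : ι → V} (hT : IsIT G p U (J.erase j₀) T) {i₀ : ι}
    (huniq : ∀ i ∈ J.erase j₀, G.Adj y (T i) → i = i₀) :
    HConc G p U J j₀ (fun K e => ∃ u ∈ K, e u false = y ∧ e u true = T i₀) := by
  classical
  have h1 := haxell_step hj₀ hno hy hpy hT (by
    intro T' hT'
    have a1 : ((J.erase j₀).filter (fun i => G.Adj y (T i))).card ≤ 1 := by
      rw [card_le_one]
      intro a ha b hb
      rw [huniq a (mem_filter.1 ha).1 (mem_filter.1 ha).2,
        huniq b (mem_filter.1 hb).1 (mem_filter.1 hb).2]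
    have a2 : 1 ≤ ((J.erase j₀).filter (fun i => G.Adj y (T' i))).card := by
      by_contra hc
      have hc' : (J.erase j₀).filter (fun i => G.Adj y (T' i)) = ∅ := by
        rw [← card_eq_zero]; omega
      apply hno
      have := hT'.insert hy (fun i hi ha => by
        have : i ∈ (J.erase j₀).filter (fun i => G.Adj y (T' i)) := mem_filter.2 ⟨hi, ha⟩
        rw [hc'] at this; exact notMem_empty _ this)
      rwa [hpy, insert_erase hj₀] at this
    convert a1.trans a2) (fun p' U' J' _ h1 h2 h3 => haxell_star G j₀ _ p' U' J' rfl h1 h2 h3)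
  obtain ⟨S, h1, h2, h3 | ⟨K, e, a, b, c, u, hu, huJ, d0, d1⟩⟩ := h1
  · exact ⟨S, h1, h2, Or.inl h3⟩
  · refine ⟨S, h1, h2, Or.inr ⟨K, e, a, b, c, u, hu, d0, ?_⟩⟩
    have := b.adj u hu
    rw [d0, d1] at this
    rw [d1, huniq u huJ this]

theorem haxell [Nonempty V] (hno : ¬ HasIT G p U J) :
    ∃ j₀ ∈ J, HConc G p U J j₀ (fun _ _ => True) := by
  classical
  obtain ⟨J₀, hJ₀, hmin⟩ := exists_min_image (J.powerset.filter (fun J' => ¬ HasIT G p U J'))
    Finset.card ⟨J, mem_filter.2 ⟨mem_powerset_self _, hno⟩⟩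
  obtain ⟨h1, h2⟩ := mem_filter.1 hJ₀
  rw [mem_powerset] at h1
  have hne : J₀.Nonempty := by
    by_contra hc
    rw [not_nonempty_iff_eq_empty] at hc
    apply h2
    rw [hc]
    exact ⟨fun _ => Classical.arbitrary V, by simp, by simp⟩
  obtain ⟨j₀, hj₀⟩ := hne
  have hIT : HasIT G p U (J₀.erase j₀) := by
    by_contra hc
    have := hmin (J₀.erase j₀) (mem_filter.2 ⟨mem_powerset.2 ((erase_subset _ _).trans h1), hc⟩)
    have := card_erase_lt_of_mem hj₀
    omega
  obtain ⟨S, a, b, c⟩ := haxell_star G j₀ _ p U J₀ rfl hj₀ h2 hIT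
  exact ⟨j₀, h1 hj₀, S, a.trans h1, b, c⟩

end Pool.Agent.MP_bc5f1c_co

end MrgPart1

-- ======== part 2: formerly Pool.Agent.MP_bc5f1c_co.Imc
section MrgPart2

/-!
Counting tools, private neighbourhoods of an induced matching configuration, exchange.
-/

set_option autoImplicit false
set_option linter.unusedSectionVars false

open Finset

namespace Pool.Agent.MP_bc5f1c_co

variable {V ι : Type*} [Fintype V] [DecidableEq V] [DecidableEq ι]
variable {G : SimpleGraph V} {p : V → ι} {U : Finset V} {J S K : Finset ι} {D : ℝ}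

/-- All degrees are at most `D`. -/
def Deg (G : SimpleGraph V) (D : ℝ) : Prop := ∀ x, ((nb G x).card : ℝ) ≤ D

theorem Deg.mono {G' : SimpleGraph V} (h : Deg G D) (hG : G' ≤ G) : Deg G' D := by
  intro x
  refine le_trans ?_ (h x)
  exact_mod_cast card_le_card (fun y hy => mem_nb.2 (hG (mem_nb.1 hy)))

theorem Deg.card_le (h : Deg G D) {x : V} {A : Finset V} (hA : ∀ y ∈ A, G.Adj x y) :
    (A.card : ℝ) ≤ D := by
  refine le_trans ?_ (h x)
  exact_mod_cast card_le_card (fun y hy => mem_nb.2 (hA y hy))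

theorem cardR_le {α : Type*} {A B : Finset α} (h : A ⊆ B) : (A.card : ℝ) ≤ B.card := by
  exact_mod_cast card_le_card h

theorem cardR_union_le {α : Type*} [DecidableEq α] (A B : Finset α) :
    ((A ∪ B).card : ℝ) ≤ A.card + B.card := by
  exact_mod_cast card_union_le A B

theorem cardR_le_add {α : Type*} [DecidableEq α] {A B C : Finset α} (h : A ⊆ B ∪ C) :
    (A.card : ℝ) ≤ B.card + C.card := (cardR_le h).trans (cardR_union_le B C)

theorem cardR_sdiff_inter {α : Type*} [DecidableEq α] (A B : Finset α) :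
    (A.card : ℝ) = (A \ B).card + (A ∩ B).card := by
  exact_mod_cast (card_sdiff_add_card_inter A B).symm

theorem cardR_union_disj {α : Type*} [DecidableEq α] {A B : Finset α} (h : Disjoint A B) :
    ((A ∪ B).card : ℝ) = A.card + B.card := by
  exact_mod_cast card_union_of_disjoint h

theorem cardR_add_le {α : Type*} [DecidableEq α] {A B C : Finset α} (h : Disjoint A B)
    (hA : A ⊆ C) (hB : B ⊆ C) : (A.card : ℝ) + B.card ≤ C.card := by
  rw [← cardR_union_disj h]; exact cardR_le (union_subset hA hB)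

theorem cardR_biUnion_le {α β : Type*} [DecidableEq β] (A : Finset α) (f : α → Finset β) {m : ℝ}
    (h : ∀ a ∈ A, ((f a).card : ℝ) ≤ m) : ((A.biUnion f).card : ℝ) ≤ A.card * m := by
  calc ((A.biUnion f).card : ℝ) ≤ ∑ a ∈ A, ((f a).card : ℝ) := by
        exact_mod_cast card_biUnion_le
    _ ≤ ∑ _a ∈ A, m := sum_le_sum h
    _ = A.card * m := by rw [sum_const, nsmul_eq_mul]

theorem exists_mem_sdiff_of_lt {α : Type*} [DecidableEq α] {A B : Finset α}
    (h : ((A ∩ B).card : ℝ) < A.card) : ∃ x ∈ A, x ∉ B := by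
  by_contra hc
  push Not at hc
  have : A ∩ B = A := inter_eq_left.2 hc
  rw [this] at h
  exact lt_irrefl _ h

theorem exists_mem_not_mem_of_lt {α : Type*} {A B : Finset α}
    (h : (B.card : ℝ) < A.card) : ∃ x ∈ A, x ∉ B := by
  by_contra hc
  push Not at hc
  exact absurd (cardR_le hc) (not_le.2 h)

theorem nonempty_of_pos {α : Type*} {A : Finset α} (h : (0 : ℝ) < A.card) : A.Nonempty :=
  card_pos.1 (by exact_mod_cast h)

theorem exists_inter_of_lt {α : Type*} [DecidableEq α] {A B C : Finset α} (hA : A ⊆ C)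
    (hB : B ⊆ C) (h : (C.card : ℝ) < A.card + B.card) : ∃ x ∈ A, x ∈ B := by
  by_contra hc
  push Not at hc
  exact absurd (cardR_add_le (disjoint_left.2 hc) hA hB) (not_le.2 h)

theorem Dom.card_le {I : Finset V} (h : Dom G p U S I) (hD : Deg G D) :
    ((pt p U S).card : ℝ) ≤ I.card * D := by
  refine le_trans (cardR_le (B := I.biUnion (nb G)) ?_) (cardR_biUnion_le _ _ (fun a _ => hD a))
  intro x hx
  obtain ⟨y, hy, ha⟩ := h x (mem_pt.1 hx).1 (mem_pt.1 hx).2
  exact mem_biUnion.2 ⟨y, hy, mem_nb.2 ha.symm⟩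

theorem card_pt_eq_sum (p : V → ι) (U : Finset V) (S : Finset ι) :
    ((pt p U S).card : ℝ) = ∑ i ∈ S, ((pt p U {i}).card : ℝ) := by
  have := card_eq_sum_card_fiberwise (s := pt p U S) (t := S) (f := p)
    (fun x hx => (mem_pt.1 hx).2)
  rw [this, Nat.cast_sum]
  apply sum_congr rfl
  intro i hi
  congr 2
  ext x
  simp only [mem_filter, mem_pt, mem_singleton]
  constructor
  · rintro ⟨⟨h1, _⟩, h2⟩; exact ⟨h1, h2⟩
  · rintro ⟨h1, h2⟩; exact ⟨⟨h1, h2 ▸ hi⟩, h2⟩

theorem card_pt_ge {m : ℝ} (h : ∀ i ∈ S, m ≤ (pt p U {i}).card) :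
    S.card * m ≤ (pt p U S).card := by
  rw [card_pt_eq_sum, ← nsmul_eq_mul, ← sum_const]
  exact sum_le_sum h

theorem card_pt_le {m : ℝ} (h : ∀ i ∈ S, ((pt p U {i}).card : ℝ) ≤ m) :
    ((pt p U S).card : ℝ) ≤ S.card * m := by
  rw [card_pt_eq_sum, ← nsmul_eq_mul, ← sum_const]
  exact sum_le_sum h

theorem exists_big_cell {A : Finset V} {m : ℝ} (hA : ∀ x ∈ A, p x ∈ S)
    (h : S.card * m < A.card) : ∃ i ∈ S, m < (pt p A {i}).card := by
  by_contra hc
  push Not at hc
  have h1 := card_pt_le hc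
  have h2 : pt p A S = A := by
    ext x; simp only [mem_pt]; exact ⟨fun h => h.1, fun h => ⟨h, hA x h⟩⟩
  rw [h2] at h1
  linarith

theorem pt_sdiff_ge (p : V → ι) (U R : Finset V) (S : Finset ι) :
    ((pt p U S).card : ℝ) ≤ (pt p (U \ R) S).card + (pt p R S).card := by
  apply cardR_le_add
  intro x hx
  obtain ⟨h1, h2⟩ := mem_pt.1 hx
  by_cases hR : x ∈ R
  · exact mem_union_right _ (mem_pt.2 ⟨hR, h2⟩)
  · exact mem_union_left _ (mem_pt.2 ⟨mem_sdiff.2 ⟨h1, hR⟩, h2⟩)

theorem pt_mono {U' : Finset V} {S' : Finset ι} (hU : U ⊆ U') (hS : S ⊆ S') :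
    pt p U S ⊆ pt p U' S' :=
  fun _ hx => mem_pt.2 ⟨hU (mem_pt.1 hx).1, hS (mem_pt.1 hx).2⟩

theorem pt_subset (p : V → ι) (U : Finset V) (S : Finset ι) : pt p U S ⊆ U :=
  fun _ hx => (mem_pt.1 hx).1

/-- Numeric form of Haxell's lemma. -/
theorem hl_dom [Nonempty V] (hno : ¬ HasIT G p U J) :
    ∃ S ⊆ J, S.Nonempty ∧ ∃ I ⊆ U, I.card + 2 ≤ 2 * S.card ∧ Dom G p U S I := by
  obtain ⟨j₀, -, S, h1, h2, ⟨I, a, b, c⟩ | ⟨K, e, -, b, c, -⟩⟩ := haxell hno
  · exact ⟨S, h1, ⟨j₀, h2⟩, I, a, by omega, c⟩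
  · refine ⟨S, h1, ⟨j₀, h2⟩, ends K e, ?_, ?_, c⟩
    · intro x hx
      obtain ⟨u, hu, b', rfl⟩ := mem_ends.1 hx
      exact b.mem u hu b'
    · have := card_ends_le K e
      have := b.good.card
      omega

theorem hl_rem [Nonempty V] {a N ε ρ m : ℝ} (hD : Deg G (a * N + ε)) (hN : 0 ≤ N) (hε : 0 ≤ ε)
    (ha : 0 ≤ a) (hU : ∀ i ∈ J, (2 * a - 1) * N - ε ≤ (pt p U {i}).card) (R : Finset V)
    (hm : (J.card : ℝ) ≤ m) (hR : ((pt p R J).card : ℝ) ≤ ρ)
    (hρ : ρ + 3 * m * ε < (2 * a - m) * N) : HasIT G p (U \ R) J := by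
  by_contra hno
  obtain ⟨S, hSJ, hSne, I, -, hI, hdom⟩ := hl_dom hno
  have h1 := hdom.card_le hD
  have h2 := card_pt_ge (S := S) (fun i hi => hU i (hSJ hi))
  have h3 := pt_sdiff_ge p U R S
  have h4 : ((pt p R S).card : ℝ) ≤ (pt p R J).card := cardR_le (pt_mono subset_rfl hSJ)
  have h5 : (S.card : ℝ) ≤ m := (cardR_le hSJ).trans hm
  have h6 : (I.card : ℝ) + 2 ≤ 2 * S.card := by exact_mod_cast hI
  have h7 : (I.card : ℝ) * (a * N + ε) ≤ (2 * S.card - 2) * (a * N + ε) :=
    mul_le_mul_of_nonneg_right (by linarith) (by positivity)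
  have h8 : (S.card : ℝ) * N ≤ m * N := mul_le_mul_of_nonneg_right h5 hN
  have h9 : (S.card : ℝ) * ε ≤ m * ε := mul_le_mul_of_nonneg_right h5 hε
  nlinarith

/-- Greedy choice of pairwise non-adjacent representatives. -/
theorem greedy [Nonempty V] {α : Type*} [DecidableEq α] (A : Finset α) (C : α → Finset V)
    (Need : α → α → Prop) (hsymm : ∀ a a', Need a a' → Need a' a) (rk : α → ℕ) {μ : ℝ}
    (hμ : 0 ≤ μ) (hC : ∀ a ∈ A, A.card * μ < (C a).card)
    (hN : ∀ a ∈ A, ∀ a' ∈ A, a ≠ a' → Need a a' → rk a ≤ rk a' → ∀ x ∈ C a,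
      ((nb G x ∩ C a').card : ℝ) ≤ μ) :
    ∃ x : α → V, (∀ a ∈ A, x a ∈ C a) ∧
      ∀ a ∈ A, ∀ a' ∈ A, a ≠ a' → Need a a' → ¬ G.Adj (x a) (x a') := by
  classical
  induction A using Finset.induction_on_max_value rk with
  | empty => exact ⟨fun _ => Classical.arbitrary V, by simp, by simp⟩
  | insert a s ha hmax ih =>
    have hcard : ((insert a s).card : ℝ) = s.card + 1 := by
      rw [card_insert_of_notMem ha]; push_cast; ring
    obtain ⟨x, hx1, hx2⟩ := ih
      (fun b hb => by
        have := hC b (mem_insert_of_mem hb)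
        rw [hcard] at this
        nlinarith)
      (fun b hb b' hb' => hN b (mem_insert_of_mem hb) b' (mem_insert_of_mem hb'))
    have hbad : (((s.filter (fun b => Need b a)).biUnion (fun b => nb G (x b) ∩ C a)).card : ℝ)
        < (C a).card := by
      refine lt_of_le_of_lt (cardR_biUnion_le _ _ (m := μ) ?_) ?_
      · intro b hb
        obtain ⟨hb1, hb2⟩ := mem_filter.1 hb
        exact hN b (mem_insert_of_mem hb1) a (mem_insert_self _ _) (fun e => ha (e ▸ hb1)) hb2
          (hmax b hb1) _ (hx1 b hb1)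
      · have h1 := hC a (mem_insert_self _ _)
        rw [hcard] at h1
        have h2 : ((s.filter (fun b => Need b a)).card : ℝ) ≤ s.card := cardR_le (filter_subset _ _)
        nlinarith
    obtain ⟨y, hy1, hy2⟩ := exists_mem_not_mem_of_lt hbad
    have hy3 : ∀ b ∈ s, Need b a → ¬ G.Adj (x b) y := fun b hb hn had =>
      hy2 (mem_biUnion.2 ⟨b, mem_filter.2 ⟨hb, hn⟩, mem_inter.2 ⟨mem_nb.2 had, hy1⟩⟩)
    have hne : ∀ b ∈ s, b ≠ a := fun b hb e => ha (e ▸ hb)
    refine ⟨Function.update x a y, ?_, ?_⟩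
    · intro b hb
      rcases mem_insert.1 hb with rfl | hb
      · simpa using hy1
      · rw [Function.update_of_ne (hne b hb)]; exact hx1 b hb
    · intro b hb b' hb' hbb hn
      rcases mem_insert.1 hb with h | h <;> rcases mem_insert.1 hb' with h' | h'
      · exact absurd (h.trans h'.symm) hbb
      · rw [h, Function.update_self, Function.update_of_ne (hne b' h')]
        exact fun had => hy3 b' h' (hsymm _ _ (h ▸ hn)) had.symm
      · rw [h', Function.update_self, Function.update_of_ne (hne b h)]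
        exact hy3 b h (h' ▸ hn)
      · rw [Function.update_of_ne (hne b h), Function.update_of_ne (hne b' h')]
        exact hx2 b h b' h' hbb hn

/-- The heads of a rooted orientation form a transversal of all parts but the root. -/
theorem heads_IT {e : ι → Bool → V} (hmem : ∀ u ∈ K, ∀ b, e u b ∈ U)
    (hnon : ∀ u ∈ K, ∀ v ∈ K, u ≠ v → ∀ b c, ¬ G.Adj (e u b) (e v c)) {j : ι} {σ : ι → Bool}
    (hσ : Rooted S K (fun u b => p (e u b)) j σ) [Nonempty V] :
    ∃ T, IsIT G p U (S.erase j) T ∧ ∀ i ∈ S.erase j, ∃ u ∈ K, T i = e u (σ u) := by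
  have hex : ∀ i, ∃ x, i ∈ S.erase j → ∃ u ∈ K, x = e u (σ u) ∧ p x = i := by
    intro i
    by_cases hi : i ∈ S.erase j
    · obtain ⟨u, hu, h⟩ := hσ i (mem_of_mem_erase hi) (ne_of_mem_erase hi)
      exact ⟨_, fun _ => ⟨u, hu, rfl, h⟩⟩
    · exact ⟨Classical.arbitrary V, fun h => absurd h hi⟩
  choose T hT using hex
  refine ⟨T, ⟨fun i hi => ?_, fun i hi k hk hik => ?_⟩, fun i hi => ?_⟩
  · obtain ⟨u, hu, h1, h2⟩ := hT i hi
    exact ⟨h1 ▸ hmem u hu _, h2⟩
  · obtain ⟨u, hu, h1, h2⟩ := hT i hi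
    obtain ⟨v, hv, h3, h4⟩ := hT k hk
    have huv : u ≠ v := by
      rintro rfl
      exact hik (by rw [← h2, ← h4, h1, h3])
    rw [h1, h3]
    exact hnon u hu v hv huv _ _
  · obtain ⟨u, hu, h1, -⟩ := hT i hi
    exact ⟨u, hu, h1⟩

theorem IsIT.insert' {T : ι → V} {x : V} (h : IsIT G p U (S.erase (p x)) T) (hx : x ∈ U)
    (hn : ∀ i ∈ S.erase (p x), ¬ G.Adj x (T i)) :
    IsIT G p U S (Function.update T (p x) x) := by
  refine ⟨fun i hi => ?_, fun i hi j hj hij => ?_⟩
  · by_cases h1 : i = p x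
    · rw [h1, Function.update_self]; exact ⟨hx, rfl⟩
    · rw [Function.update_of_ne h1]; exact h.1 i (mem_erase.2 ⟨h1, hi⟩)
  · by_cases h1 : i = p x <;> by_cases h2 : j = p x
    · exact absurd (h1.trans h2.symm) hij
    · rw [h1, Function.update_self, Function.update_of_ne h2]
      exact hn j (mem_erase.2 ⟨h2, hj⟩)
    · rw [h2, Function.update_self, Function.update_of_ne h1]
      exact fun ha => hn i (mem_erase.2 ⟨h1, hi⟩) ha.symm
    · rw [Function.update_of_ne h1, Function.update_of_ne h2]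
      exact h.2 i (mem_erase.2 ⟨h1, hi⟩) j (mem_erase.2 ⟨h2, hj⟩) hij

open Classical in
/-- The private neighbours of the end `(u, b)`. -/
noncomputable def priv (G : SimpleGraph V) (p : V → ι) (U : Finset V) (S K : Finset ι)
    (e : ι → Bool → V) (u : ι) (b : Bool) : Finset V :=
  (pt p U S).filter (fun x => G.Adj x (e u b) ∧
    ∀ v ∈ K, ∀ c, (v, c) ≠ (u, b) → ¬ G.Adj x (e v c))

variable {e : ι → Bool → V}

theorem mem_priv {u : ι} {b : Bool} {x : V} : x ∈ priv G p U S K e u b ↔
    (x ∈ U ∧ p x ∈ S) ∧ G.Adj x (e u b) ∧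
      ∀ v ∈ K, ∀ c, (v, c) ≠ (u, b) → ¬ G.Adj x (e v c) := by
  simp only [priv, mem_filter, mem_pt]

theorem priv_subset (u : ι) (b : Bool) : priv G p U S K e u b ⊆ pt p U S :=
  fun _ hx => mem_pt.2 (mem_priv.1 hx).1

theorem priv_subset_nb (u : ι) (b : Bool) : priv G p U S K e u b ⊆ nb G (e u b) :=
  fun _ hx => mem_nb.2 (mem_priv.1 hx).2.1.symm

theorem priv_disjoint {u v : ι} (hv : v ∈ K) {b c : Bool} (h : (v, c) ≠ (u, b)) :
    Disjoint (priv G p U S K e u b) (priv G p U S K e v c) :=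
  disjoint_left.2 (fun _ hx hy => (mem_priv.1 hx).2.2 v hv c h (mem_priv.1 hy).2.1)

theorem IMC.adj' (h : IMC G p U S K e) {u : ι} (hu : u ∈ K) (b : Bool) :
    G.Adj (e u b) (e u (!b)) := by
  cases b
  · exact h.adj u hu
  · exact (h.adj u hu).symm

theorem IMC.mem_priv (h : IMC G p U S K e) {u : ι} (hu : u ∈ K) (b : Bool) :
    e u b ∈ priv G p U S K e u (!b) := by
  refine MP_bc5f1c_co.mem_priv.2 ⟨⟨h.mem u hu b, h.good.mem u hu b⟩, h.adj' hu b, ?_⟩
  intro v hv c hne
  by_cases hvu : v = u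
  · subst hvu
    have : c = b := by cases c <;> cases b <;> simp_all
    rw [this]; exact G.irrefl
  · exact h.nonadj u hu v hv (Ne.symm hvu) _ _

theorem IMC.dom [Nonempty V] (h : IMC G p U S K e) (hno : ¬ HasIT G p U S) :
    Dom G p U S (ends K e) := by
  intro x hx hpx
  by_contra hc
  push Not at hc
  obtain ⟨σ, hσ⟩ := h.good.root _ hpx
  obtain ⟨T, hT, hT'⟩ := heads_IT h.mem h.nonadj hσ
  refine hno ⟨_, hT.insert' hx (fun i hi => ?_)⟩
  obtain ⟨u, hu, e1⟩ := hT' i hi
  rw [e1]
  exact hc _ (mem_ends.2 ⟨u, hu, _, rfl⟩)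

theorem IMC.exchange [Nonempty V] (h : IMC G p U S K e) (hno : ¬ HasIT G p U S) {u : ι}
    (hu : u ∈ K) {b : Bool} {x : V} (hx : x ∈ priv G p U S K e u (!b)) :
    IMC G p U S K (upd e u b x) := by
  obtain ⟨⟨hxU, hxS⟩, hadj, hnon⟩ := MP_bc5f1c_co.mem_priv.1 hx
  have hside : p x ∈ side S K (fun u b => p (e u b)) u b := by
    obtain ⟨σ, hσ⟩ := h.good.root _ hxS
    refine mem_side.2 ⟨hxS, σ, hσ, ?_⟩
    by_contra hc
    obtain ⟨T, hT, hT'⟩ := heads_IT h.mem h.nonadj hσ
    refine hno ⟨_, hT.insert' hxU (fun i hi => ?_)⟩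
    obtain ⟨v, hv, e1⟩ := hT' i hi
    rw [e1]
    refine hnon v hv _ (fun e2 => hc ?_)
    obtain ⟨rfl, e3⟩ := Prod.mk.inj e2
    exact e3
  refine ⟨?_, ?_, ?_, ?_⟩
  · intro v hv c
    unfold upd
    split_ifs
    · exact hxU
    · exact h.mem v hv c
  · intro v hv w hw hvw c c'
    by_cases h1 : (v, c) = (u, b)
    · obtain ⟨rfl, rfl⟩ := Prod.mk.inj h1
      rw [upd_same, upd_ne _ _ _ _ hvw.symm]
      exact hnon w hw c' (fun e2 => hvw (Prod.mk.inj e2).1.symm)
    · by_cases h2 : (w, c') = (u, b)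
      · obtain ⟨rfl, rfl⟩ := Prod.mk.inj h2
        rw [upd_same, upd_ne _ _ _ _ hvw]
        exact fun ha => hnon v hv c (fun e2 => hvw (Prod.mk.inj e2).1) ha.symm
      · rw [upd_of_ne _ _ h1, upd_of_ne _ _ h2]
        exact h.nonadj v hv w hw hvw c c'
  · intro v hv
    by_cases hvu : v = u
    · subst hvu
      cases b
      · have e1 : upd e v false x v true = e v true := upd_not e v false x
        rw [upd_same, e1]; exact hadj
      · have e1 : upd e v true x v false = e v false := upd_not e v true x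
        rw [upd_same, e1]; exact hadj.symm
    · rw [upd_ne _ _ _ _ hvu, upd_ne _ _ _ _ hvu]; exact h.adj v hv
  · refine (h.good.exchange hu b hside).congr (fun v _ c => ?_)
    unfold upd
    split_ifs <;> rfl

theorem IMC.biclique [Nonempty V] (h : IMC G p U S K e) (hno : ¬ HasIT G p U S) {u : ι}
    (hu : u ∈ K) {b : Bool} {x y : V} (hx : x ∈ priv G p U S K e u (!b))
    (hy : y ∈ priv G p U S K e u b) : G.Adj x y := by
  obtain ⟨⟨hyU, hyS⟩, -, hnon⟩ := MP_bc5f1c_co.mem_priv.1 hy
  obtain ⟨z, hz, ha⟩ := (h.exchange hno hu hx).dom hno y hyU hyS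
  obtain ⟨v, hv, c, rfl⟩ := mem_ends.1 hz
  by_cases h1 : (v, c) = (u, b)
  · obtain ⟨rfl, rfl⟩ := Prod.mk.inj h1
    rw [upd_same] at ha
    exact ha.symm
  · rw [upd_of_ne _ _ h1] at ha
    exact absurd ha (hnon v hv c h1)

theorem IMC.biclique' [Nonempty V] (h : IMC G p U S K e) (hno : ¬ HasIT G p U S) {u : ι}
    (hu : u ∈ K) {b : Bool} {x y : V} (hx : x ∈ priv G p U S K e u b)
    (hy : y ∈ priv G p U S K e u (!b)) : G.Adj x y := (h.biclique hno hu hy hx).symm

/-- Replacing all ends by pairwise non-adjacent private vertices keeps a tree. -/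
theorem IMC.good_of_choice [Nonempty V] (h : IMC G p U S K e) (x : ι → Bool → V)
    (hx : ∀ u ∈ K, ∀ b, x u b ∈ priv G p U S K e u (!b))
    (hxx : ∀ u ∈ K, ∀ v ∈ K, u ≠ v → ∀ b c, ¬ G.Adj (x u b) (x v c))
    (Low : V → Prop) (u₀ : ι) (hle : ∀ u ∈ K, ∀ b, Low (e u b))
    (hlx : ∀ u ∈ K, u ≠ u₀ → ∀ b, Low (x u b))
    (hno : ∀ T, IsIT G p U S T → (∃ i₀, ∀ i ∈ S, i ≠ i₀ → Low (T i)) → False) :
    Good S K (fun u b => p (x u b)) := by
  refine h.good.exchange_all (fun u hu b => (MP_bc5f1c_co.mem_priv.1 (hx u hu b)).1.2) ?_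
  intro H _ u hu b hub σ hσ hσu
  exfalso
  have hex : ∀ v ∈ K, ∀ w ∈ K, ∀ c c', (w, c') ≠ (v, !c) → ¬ G.Adj (x v c) (e w c') :=
    fun v hv w hw c c' hne => (MP_bc5f1c_co.mem_priv.1 (hx v hv c)).2.2 w hw c' hne
  have hmix : mix H (fun u b => p (e u b)) (fun u b => p (x u b)) =
      fun u b => p (mix H e x u b) := by
    funext v c
    unfold mix
    split_ifs <;> rfl
  rw [hmix] at hσ
  obtain ⟨T, hT, hT'⟩ := heads_IT (G := G) (U := U) (e := mix H e x) (by
      intro v hv c
      unfold mix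
      split_ifs
      · exact (MP_bc5f1c_co.mem_priv.1 (hx v hv c)).1.1
      · exact h.mem v hv c) (by
      intro v hv w hw hvw c c'
      unfold mix
      split_ifs
      · exact hxx v hv w hw hvw c c'
      · exact hex v hv w hw c c' (fun e2 => hvw (Prod.mk.inj e2).1.symm)
      · exact fun ha => hex w hw v hv c' c (fun e2 => hvw (Prod.mk.inj e2).1) ha.symm
      · exact h.nonadj v hv w hw hvw c c') hσ
  have hhead : mix H e x u (σ u) = e u b := by rw [hσu]; simp [mix, hub]
  refine hno _ (hT.insert' (MP_bc5f1c_co.mem_priv.1 (hx u hu b)).1.1 ?_) ?_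
  · intro i hi
    obtain ⟨v, hv, e1⟩ := hT' i hi
    rw [e1]
    by_cases hvu : v = u
    · subst hvu
      rw [hhead]
      exact hex v hv v hv b b (by cases b <;> simp)
    · unfold mix
      split_ifs
      · exact hxx u hu v hv (Ne.symm hvu) _ _
      · exact hex u hu v hv _ _ (fun e2 => hvu (Prod.mk.inj e2).1)
  · have hlow : ∀ v ∈ K, v ≠ u₀ → ∀ c, Low (mix H e x v c) := by
      intro v hv hv0 c
      unfold mix
      split_ifs
      · exact hlx v hv hv0 c
      · exact hle v hv c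
    by_cases huu : u = u₀
    · refine ⟨p (x u b), fun i hi hne => ?_⟩
      rw [Function.update_of_ne hne]
      obtain ⟨v, hv, e1⟩ := hT' i (mem_erase.2 ⟨hne, hi⟩)
      rw [e1]
      by_cases hvu : v = u
      · subst hvu
        rw [hhead]; exact hle v hv b
      · exact hlow v hv (huu ▸ hvu) _
    · refine ⟨p (mix H e x u₀ (σ u₀)), fun i hi hne => ?_⟩
      by_cases hi' : i = p (x u b)
      · rw [hi', Function.update_self]; exact hlx u hu huu b
      · rw [Function.update_of_ne hi']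
        obtain ⟨v, hv, e1⟩ := hT' i (mem_erase.2 ⟨hi', hi⟩)
        have e2 := (hT.1 i (mem_erase.2 ⟨hi', hi⟩)).2
        rw [e1] at e2 ⊢
        refine hlow v hv ?_ _
        rintro rfl
        exact hne e2.symm

open Classical in
/-- Vertices with at least two neighbours among the ends. -/
noncomputable def multi (G : SimpleGraph V) (p : V → ι) (U : Finset V) (S K : Finset ι)
    (e : ι → Bool → V) : Finset V :=
  (pt p U S).filter (fun x => ∃ u ∈ K, ∃ b, ∃ v ∈ K, ∃ c, (v, c) ≠ (u, b) ∧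
    G.Adj x (e u b) ∧ G.Adj x (e v c))

theorem mem_multi {x : V} : x ∈ multi G p U S K e ↔ (x ∈ U ∧ p x ∈ S) ∧
    ∃ u ∈ K, ∃ b, ∃ v ∈ K, ∃ c, (v, c) ≠ (u, b) ∧ G.Adj x (e u b) ∧ G.Adj x (e v c) := by
  simp only [multi, mem_filter, mem_pt]

theorem Dom.priv_or_multi (h : Dom G p U S (ends K e)) {x : V} (hx : x ∈ pt p U S) :
    (∃ u ∈ K, ∃ b, x ∈ priv G p U S K e u b) ∨ x ∈ multi G p U S K e := by
  obtain ⟨y, hy, ha⟩ := h x (mem_pt.1 hx).1 (mem_pt.1 hx).2
  obtain ⟨u, hu, b, rfl⟩ := mem_ends.1 hy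
  by_cases hc : ∀ v ∈ K, ∀ c, (v, c) ≠ (u, b) → ¬ G.Adj x (e v c)
  · exact Or.inl ⟨u, hu, b, mem_priv.2 ⟨mem_pt.1 hx, ha, hc⟩⟩
  · push Not at hc
    obtain ⟨v, hv, c, h1, h2⟩ := hc
    exact Or.inr (mem_multi.2 ⟨mem_pt.1 hx, u, hu, b, v, hv, c, h1, ha, h2⟩)

theorem Dom.multi_le (h : Dom G p U S (ends K e)) (hD : Deg G D) {σ : ℝ}
    (hσ : 2 * K.card * D ≤ (pt p U S).card + σ) : ((multi G p U S K e).card : ℝ) ≤ σ := by
  classical
  set E := K ×ˢ (univ : Finset Bool) with hE
  have h1 : ∑ x ∈ pt p U S, ((E.filter (fun t => G.Adj x (e t.1 t.2))).card : ℝ) =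
      ∑ t ∈ E, (((pt p U S).filter (fun x => G.Adj x (e t.1 t.2))).card : ℝ) := by
    simp only [card_filter, Nat.cast_sum]
    exact sum_comm
  have h2 : ∑ t ∈ E, (((pt p U S).filter (fun x => G.Adj x (e t.1 t.2))).card : ℝ) ≤
      2 * K.card * D := by
    calc _ ≤ ∑ _t ∈ E, D := sum_le_sum (fun t _ =>
          hD.card_le (x := e t.1 t.2) (fun y hy => (mem_filter.1 hy).2.symm))
      _ = 2 * K.card * D := by
          rw [sum_const, nsmul_eq_mul, hE, card_product]
          simp only [card_univ, Fintype.card_bool]; push_cast; ring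
  have h3 : ∑ x ∈ pt p U S, ((1 : ℝ) + if x ∈ multi G p U S K e then 1 else 0) ≤
      ∑ x ∈ pt p U S, ((E.filter (fun t => G.Adj x (e t.1 t.2))).card : ℝ) := by
    apply sum_le_sum
    intro x hx
    split_ifs with hm
    · obtain ⟨-, u, hu, b, v, hv, c, hne, a1, a2⟩ := mem_multi.1 hm
      have : ({(v, c), (u, b)} : Finset (ι × Bool)) ⊆ E.filter (fun t => G.Adj x (e t.1 t.2)) := by
        intro t ht
        rcases mem_insert.1 ht with rfl | ht
        · exact mem_filter.2 ⟨by simp [hE, hv], a2⟩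
        · rw [mem_singleton.1 ht]; exact mem_filter.2 ⟨by simp [hE, hu], a1⟩
      have h4 := cardR_le this
      rw [card_pair hne] at h4
      norm_num at h4 ⊢
      exact_mod_cast h4
    · obtain ⟨y, hy, ha⟩ := h x (mem_pt.1 hx).1 (mem_pt.1 hx).2
      obtain ⟨u, hu, b, rfl⟩ := mem_ends.1 hy
      have : 0 < (E.filter (fun t => G.Adj x (e t.1 t.2))).card :=
        card_pos.2 ⟨(u, b), mem_filter.2 ⟨by simp [hE, hu], ha⟩⟩
      rw [add_zero]
      exact_mod_cast this
  rw [sum_add_distrib, sum_const, nsmul_eq_mul, mul_one, sum_boole, filter_mem_eq_inter,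
    inter_eq_right.2 (fun x hx => mem_pt.2 (mem_multi.1 hx).1)] at h3
  linarith

theorem Dom.cover (h : Dom G p U S (ends K e)) (hD : Deg G D) (H : Finset (ι × Bool))
    (hH : H ⊆ K ×ˢ univ) (M : Finset V)
    (hM : ∀ x ∈ multi G p U S K e, (∀ v ∈ K, ∀ c, (v, c) ∉ H → ¬ G.Adj x (e v c)) → x ∈ M) :
    ((pt p U S).card : ℝ) ≤ (2 * K.card - H.card) * D +
      ∑ t ∈ H, ((priv G p U S K e t.1 t.2).card : ℝ) + M.card := by
  have hsub : pt p U S ⊆ (((K ×ˢ univ) \ H).biUnion (fun t => nb G (e t.1 t.2)) ∪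
      H.biUnion (fun t => priv G p U S K e t.1 t.2)) ∪ M := by
    intro x hx
    by_cases hc : ∀ v ∈ K, ∀ c, (v, c) ∉ H → ¬ G.Adj x (e v c)
    · rcases h.priv_or_multi hx with ⟨u, hu, b, hp⟩ | hm
      · refine mem_union_left _ (mem_union_right _ (mem_biUnion.2 ⟨(u, b), ?_, hp⟩))
        by_contra hn
        exact hc u hu b hn (mem_priv.1 hp).2.1
      · exact mem_union_right _ (hM x hm hc)
    · push Not at hc
      obtain ⟨v, hv, c, h1, h2⟩ := hc
      exact mem_union_left _ (mem_union_left _ (mem_biUnion.2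
        ⟨(v, c), mem_sdiff.2 ⟨by simp [hv], h1⟩, mem_nb.2 h2.symm⟩))
  have h1 := cardR_le_add hsub
  have h2 := cardR_union_le (((K ×ˢ univ) \ H).biUnion (fun t => nb G (e t.1 t.2)))
    (H.biUnion (fun t => priv G p U S K e t.1 t.2))
  have h3 := cardR_biUnion_le ((K ×ˢ univ) \ H) (fun t => nb G (e t.1 t.2)) (fun t _ => hD _)
  have h4 : ((H.biUnion (fun t => priv G p U S K e t.1 t.2)).card : ℝ) ≤
      ∑ t ∈ H, ((priv G p U S K e t.1 t.2).card : ℝ) := by exact_mod_cast card_biUnion_le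
  have h5 : (((K ×ˢ (univ : Finset Bool)) \ H).card : ℝ) = 2 * K.card - H.card := by
    rw [card_sdiff_of_subset hH, Nat.cast_sub (card_le_card hH), card_product]
    simp only [card_univ, Fintype.card_bool]; push_cast; ring
  rw [h5] at h3
  linarith

theorem Dom.priv_ge (h : Dom G p U S (ends K e)) (hD : Deg G D) {σ : ℝ}
    (hσ : 2 * K.card * D ≤ (pt p U S).card + σ) {u : ι} (hu : u ∈ K) (b : Bool) :
    D - σ ≤ (priv G p U S K e u b).card := by
  have := h.cover hD {(u, b)} (by simp [hu]) ∅ (by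
    intro x hx hc
    obtain ⟨-, u', hu', b', v, hv, c, hne, a1, a2⟩ := mem_multi.1 hx
    exfalso
    have e1 : (u', b') = (u, b) := by
      by_contra h1; exact hc u' hu' b' (by simpa using h1) a1
    have e2 : (v, c) = (u, b) := by
      by_contra h1; exact hc v hv c (by simpa using h1) a2
    exact hne (e2.trans e1.symm))
  simp only [card_singleton, sum_singleton, card_empty, Nat.cast_one, Nat.cast_zero] at this
  linarith

theorem Dom.priv_pair_ge (h : Dom G p U S (ends K e)) (hD : Deg G D) {σ : ℝ}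
    (hσ : 2 * K.card * D ≤ (pt p U S).card + σ) {u v : ι} (hu : u ∈ K) (hv : v ∈ K) {b c : Bool}
    (hne : (u, b) ≠ (v, c)) (M : Finset V)
    (hM : ∀ x ∈ pt p U S, G.Adj x (e u b) → G.Adj x (e v c) →
      (∀ w ∈ K, ∀ d, (w, d) ≠ (u, b) → (w, d) ≠ (v, c) → ¬ G.Adj x (e w d)) → x ∈ M) :
    2 * D - σ - M.card ≤ (priv G p U S K e u b).card + (priv G p U S K e v c).card := by
  have := h.cover hD {(u, b), (v, c)} (by
    intro t ht
    rcases mem_insert.1 ht with rfl | ht
    · simp [hu]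
    · rw [mem_singleton.1 ht]; simp [hv]) M (by
    intro x hx hc
    obtain ⟨hx1, u', hu', b', v', hv', c', hne', a1, a2⟩ := mem_multi.1 hx
    have e1 : (u', b') = (u, b) ∨ (u', b') = (v, c) := by
      by_contra h1; exact hc u' hu' b' (by simpa using h1) a1
    have e2 : (v', c') = (u, b) ∨ (v', c') = (v, c) := by
      by_contra h1; exact hc v' hv' c' (by simpa using h1) a2
    have hrest : ∀ w ∈ K, ∀ d, (w, d) ≠ (u, b) → (w, d) ≠ (v, c) → ¬ G.Adj x (e w d) :=
      fun w hw d h1 h2 => hc w hw d (by simp only [mem_insert, mem_singleton]; tauto)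
    rcases e1 with e1 | e1 <;> rcases e2 with e2 | e2
    · exact absurd (e2.trans e1.symm) hne'
    · obtain ⟨rfl, rfl⟩ := Prod.mk.inj e1
      obtain ⟨rfl, rfl⟩ := Prod.mk.inj e2
      exact hM x (mem_pt.2 hx1) a1 a2 hrest
    · obtain ⟨rfl, rfl⟩ := Prod.mk.inj e1
      obtain ⟨rfl, rfl⟩ := Prod.mk.inj e2
      exact hM x (mem_pt.2 hx1) a2 a1 hrest
    · exact absurd (e2.trans e1.symm) hne')
  rw [card_pair hne, sum_pair hne] at this
  push_cast at this
  linarith

theorem Dom.sum_def_le (h : Dom G p U S (ends K e)) (hD : Deg G D) {σ : ℝ}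
    (hσ : 2 * K.card * D ≤ (pt p U S).card + σ) (H : Finset (ι × Bool))
    (hH : H ⊆ K ×ˢ univ) :
    ∑ t ∈ H, (D - ((priv G p U S K e t.1 t.2).card : ℝ)) ≤ 2 * σ := by
  have h1 := h.cover hD H hH (multi G p U S K e) (fun x hx _ => hx)
  have h2 := h.multi_le hD hσ
  rw [sum_sub_distrib, sum_const, nsmul_eq_mul]
  linarith

end Pool.Agent.MP_bc5f1c_co

end MrgPart2

-- ======== part 3: formerly Pool.Agent.MP_bc5f1c_co.Three
section MrgPart3

/-!
Three sets with no independent rainbow triple; the ambient setting; tight sets.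
-/

set_option autoImplicit false
set_option linter.unusedSectionVars false

open Finset

namespace Pool.Agent.MP_bc5f1c_co

variable {V ι : Type*} [Fintype V] [DecidableEq V] [DecidableEq ι]
variable {G : SimpleGraph V} {p : V → ι} {U : Finset V} {J S K : Finset ι}

open Classical in
/-- Vertices of `A` with a non-neighbour in `B`. -/
noncomputable def star (G : SimpleGraph V) (A B : Finset V) : Finset V :=
  A.filter (fun x => ∃ y ∈ B, ¬ G.Adj x y)

theorem mem_star {A B : Finset V} {x : V} : x ∈ star G A B ↔ x ∈ A ∧ ∃ y ∈ B, ¬ G.Adj x y := by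
  simp only [star, mem_filter]

theorem star_subset (A B : Finset V) : star G A B ⊆ A := fun _ h => (mem_star.1 h).1

theorem adj_of_not_star {A B : Finset V} {x y : V} (hx : x ∈ A \ star G A B) (hy : y ∈ B) :
    G.Adj x y := by
  by_contra h
  exact (mem_sdiff.1 hx).2 (mem_star.2 ⟨(mem_sdiff.1 hx).1, y, hy, h⟩)

open Classical in
/-- Vertices of `C` adjacent to all of `B`. -/
noncomputable def compl_to (G : SimpleGraph V) (C B : Finset V) : Finset V :=
  C.filter (fun z => ∀ y ∈ B, G.Adj z y)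

theorem mem_compl_to {C B : Finset V} {z : V} :
    z ∈ compl_to G C B ↔ z ∈ C ∧ ∀ y ∈ B, G.Adj z y := by
  simp only [compl_to, mem_filter]

/-- Three disjoint sets with no independent rainbow triple. -/
structure Three (G : SimpleGraph V) (A B C : Finset V) (D N η : ℝ) : Prop where
  deg : Deg G D
  hA : D - η ≤ A.card
  hB : D - η ≤ B.card
  hC : 2 * D - N - η ≤ C.card
  dAB : Disjoint A B
  dAC : Disjoint A C
  dBC : Disjoint B C
  tri : ∀ x ∈ A, ∀ y ∈ B, ∀ z ∈ C, G.Adj x y ∨ G.Adj x z ∨ G.Adj y z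

variable {A B C : Finset V} {D N η : ℝ}

theorem Three.symm (h : Three G A B C D N η) : Three G B A C D N η :=
  ⟨h.deg, h.hB, h.hA, h.hC, h.dAB.symm, h.dBC, h.dAC, fun y hy x hx z hz => by
    rcases h.tri x hx y hy z hz with h1 | h1 | h1
    · exact Or.inl h1.symm
    · exact Or.inr (Or.inr h1)
    · exact Or.inr (Or.inl h1)⟩

theorem Deg.add_le (h : Deg G D) (x : V) {X Y : Finset V} (hd : Disjoint X Y)
    (hX : ∀ y ∈ X, G.Adj x y) (hY : ∀ y ∈ Y, G.Adj x y) : (X.card : ℝ) + Y.card ≤ D :=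
  (cardR_add_le hd (fun y hy => mem_nb.2 (hX y hy)) (fun y hy => mem_nb.2 (hY y hy))).trans (h x)

theorem Deg.inter_add_le (h : Deg G D) (x : V) {X Y : Finset V} (hd : Disjoint X Y) :
    ((nb G x ∩ X).card : ℝ) + (nb G x ∩ Y).card ≤ D :=
  h.add_le x (hd.mono inter_subset_right inter_subset_right)
    (fun _ hy => mem_nb.1 (mem_inter.1 hy).1) (fun _ hy => mem_nb.1 (mem_inter.1 hy).1)

theorem Deg.inter_le (h : Deg G D) (x : V) (X : Finset V) : ((nb G x ∩ X).card : ℝ) ≤ D :=
  (cardR_le inter_subset_left).trans (h x)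

theorem card_split_nb (G : SimpleGraph V) (x : V) (X : Finset V) :
    (X.card : ℝ) = (X \ nb G x).card + (nb G x ∩ X).card := by
  rw [inter_comm]; exact cardR_sdiff_inter _ _

theorem Three.pair (h : Three G A B C D N η) {x y : V} (hx : x ∈ A) (hy : y ∈ B)
    (hn : ¬ G.Adj x y) : 2 * D - N - η ≤ (nb G x ∩ C).card + (nb G y ∩ C).card := by
  refine h.hC.trans (cardR_le_add ?_)
  intro z hz
  rcases h.tri x hx y hy z hz with h1 | h1 | h1
  · exact absurd h1 hn
  · exact mem_union_left _ (mem_inter.2 ⟨mem_nb.2 h1, hz⟩)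
  · exact mem_union_right _ (mem_inter.2 ⟨mem_nb.2 h1, hz⟩)

theorem Three.star_dC (h : Three G A B C D N η) {x : V} (hx : x ∈ star G A B) :
    D - N - η ≤ (nb G x ∩ C).card := by
  obtain ⟨hx, y, hy, hn⟩ := mem_star.1 hx
  have := h.pair hx hy hn
  have := h.deg.inter_le y C
  linarith

theorem Three.nonnb (h : Three G A B C D N η) {x c : V} (hx : x ∈ A) (hc : c ∈ C)
    (hn : ¬ G.Adj x c) : ((B \ nb G c).card : ℝ) + (nb G x ∩ C).card ≤ D := by
  refine h.deg.add_le x (h.dBC.mono sdiff_subset inter_subset_right) ?_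
    (fun _ hy => mem_nb.1 (mem_inter.1 hy).1)
  intro y hy
  rcases h.tri x hx y (mem_sdiff.1 hy).1 c hc with h1 | h1 | h1
  · exact h1
  · exact absurd h1 hn
  · exact absurd (mem_nb.2 h1.symm) (mem_sdiff.1 hy).2

theorem Three.star_sum (h : Three G A B C D N η) {x y : V} (hx : x ∈ A) (hy : y ∈ B)
    (hn : ¬ G.Adj x y) : 2 * D - N - 3 * η ≤ (star G A B).card + (star G B A).card := by
  have h1 := h.pair hx hy hn
  have h2 : ((B \ star G B A).card : ℝ) + (nb G x ∩ C).card ≤ D :=
    h.deg.add_le x (h.dBC.mono sdiff_subset inter_subset_right)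
      (fun z hz => (adj_of_not_star hz hx).symm) (fun _ hy => mem_nb.1 (mem_inter.1 hy).1)
  have h3 : ((A \ star G A B).card : ℝ) + (nb G y ∩ C).card ≤ D :=
    h.deg.add_le y (h.dAC.mono sdiff_subset inter_subset_right)
      (fun z hz => (adj_of_not_star hz hy).symm) (fun _ hy => mem_nb.1 (mem_inter.1 hy).1)
  have h4 := cardR_sdiff_inter A (star G A B)
  have h5 := cardR_sdiff_inter B (star G B A)
  rw [inter_eq_right.2 (star_subset _ _)] at h4 h5
  have := h.hA
  have := h.hB
  linarith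

theorem Three.every (h : Three G A B C D N η) (hη : 0 ≤ η) {x y : V} (hx : x ∈ A) (hy : y ∈ B)
    (hn : ¬ G.Adj x y) {c : V} (hc : c ∈ C) :
    D - N - 3 * η ≤ (nb G c ∩ A).card + (nb G c ∩ B).card := by
  have hD : 0 ≤ D := le_trans (Nat.cast_nonneg _) (h.deg x)
  have pA : (0 : ℝ) ≤ (nb G c ∩ A).card := Nat.cast_nonneg _
  have pB : (0 : ℝ) ≤ (nb G c ∩ B).card := Nat.cast_nonneg _
  by_cases h1 : ∃ x' ∈ star G A B, ¬ G.Adj x' c
  · obtain ⟨x', hx', hn'⟩ := h1
    have a1 := h.nonnb (star_subset _ _ hx') hc hn'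
    have a2 := h.star_dC hx'
    have a3 := card_split_nb G c B
    have := h.hB
    linarith
  · by_cases h2 : ∃ y' ∈ star G B A, ¬ G.Adj y' c
    · obtain ⟨y', hy', hn'⟩ := h2
      have a1 := h.symm.nonnb (star_subset _ _ hy') hc hn'
      have a2 := h.symm.star_dC hy'
      have a3 := card_split_nb G c A
      have := h.hA
      linarith
    · push Not at h1 h2
      have a1 : ((star G A B).card : ℝ) ≤ (nb G c ∩ A).card := cardR_le (fun z hz =>
        mem_inter.2 ⟨mem_nb.2 (h1 z hz).symm, star_subset _ _ hz⟩)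
      have a2 : ((star G B A).card : ℝ) ≤ (nb G c ∩ B).card := cardR_le (fun z hz =>
        mem_inter.2 ⟨mem_nb.2 (h2 z hz).symm, star_subset _ _ hz⟩)
      have := h.star_sum hx hy hn
      linarith

theorem Three.some (h : Three G A B C D N η) (hη : 0 ≤ η) (hD : N + η < D) {x y : V}
    (hx : x ∈ A) (hy : y ∈ B) (hn : ¬ G.Adj x y) :
    ∃ c ∈ C, D - N / 2 - 2 * η ≤ (nb G c ∩ A).card + (nb G c ∩ B).card := by
  have h1 := h.pair hx hy hn
  have hex : ∀ z, ∃ c ∈ C, c ∉ nb G z := fun z =>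
    exists_mem_not_mem_of_lt (by have := h.deg z; have := h.hC; linarith)
  by_cases h2 : D - N / 2 - η / 2 ≤ (nb G x ∩ C).card
  · obtain ⟨c, hc, hn'⟩ := hex x
    refine ⟨c, hc, ?_⟩
    have a1 := h.nonnb hx hc (fun ha => hn' (mem_nb.2 ha))
    have a3 := card_split_nb G c B
    have pA : (0 : ℝ) ≤ (nb G c ∩ A).card := Nat.cast_nonneg _
    have := h.hB
    linarith
  · obtain ⟨c, hc, hn'⟩ := hex y
    refine ⟨c, hc, ?_⟩
    have a1 := h.symm.nonnb hy hc (fun ha => hn' (mem_nb.2 ha))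
    have a3 := card_split_nb G c A
    have pA : (0 : ℝ) ≤ (nb G c ∩ B).card := Nat.cast_nonneg _
    have := h.hA
    linarith

theorem Three.low (h : Three G A B C D N η) {x y c : V} (hx : x ∈ star G A B)
    (hy : y ∈ star G B A) (hc : c ∈ C) (h1 : ¬ G.Adj x c) (h2 : ¬ G.Adj y c) :
    ((nb G x ∩ C).card : ℝ) ≤ N + 3 * η := by
  have a1 := h.symm.nonnb (star_subset _ _ hy) hc h2
  have a2 := h.symm.star_dC hy
  have a3 := card_split_nb G c A
  have a4 := card_split_nb G c B
  have a5 := h.deg.inter_add_le c h.dAB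
  have a6 := h.nonnb (star_subset _ _ hx) hc h1
  have := h.hA
  have := h.hB
  linarith

theorem Three.zbig (h : Three G A B C D N η) (hA : N + η < (star G A B).card)
    (hD : 3 * N + 7 * η < 2 * D) (hN : 0 ≤ N + η) :
    D - N - η ≤ (compl_to G C (star G B A)).card := by
  classical
  have key : ∃ x, ∀ c ∈ C, c ∉ compl_to G C (star G B A) → G.Adj x c := by
    by_cases h1 : ∃ x ∈ star G A B, ∃ c ∈ C, c ∉ compl_to G C (star G B A) ∧ ¬ G.Adj x c
    · obtain ⟨x, hx, c, hc, hz, hn⟩ := h1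
      have : ¬ ∀ y ∈ star G B A, G.Adj c y := fun h' => hz (mem_compl_to.2 ⟨hc, h'⟩)
      push Not at this
      obtain ⟨y, hy, hn'⟩ := this
      have hylow := h.symm.low hy hx hc (fun ha => hn' ha.symm) hn
      set X := (star G A B).filter (fun x => ((nb G x ∩ C).card : ℝ) ≤ N + 3 * η) with hX
      have hXy : ∀ x ∈ X, G.Adj y x := by
        intro x' hx'
        by_contra hn2
        have := h.pair (star_subset _ _ (mem_filter.1 hx').1) (star_subset _ _ hy)
          (fun ha => hn2 ha.symm)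
        have := (mem_filter.1 hx').2
        linarith
      have a1 : (X.card : ℝ) + (nb G y ∩ C).card ≤ D :=
        h.deg.add_le y (h.dAC.mono ((filter_subset _ _).trans (star_subset _ _)) inter_subset_right)
          hXy (fun _ hy => mem_nb.1 (mem_inter.1 hy).1)
      have a2 := h.symm.star_dC hy
      obtain ⟨x', hx1, hx2⟩ := exists_mem_not_mem_of_lt (A := star G A B) (B := X) (by linarith)
      refine ⟨x', fun c' hc' hz' => ?_⟩
      by_contra hn3
      have : ¬ ∀ y ∈ star G B A, G.Adj c' y := fun h' => hz' (mem_compl_to.2 ⟨hc', h'⟩)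
      push Not at this
      obtain ⟨y', hy', hn''⟩ := this
      exact hx2 (mem_filter.2 ⟨hx1, h.low hx1 hy' hc' hn3 (fun ha => hn'' ha.symm)⟩)
    · push Not at h1
      obtain ⟨x, hx⟩ := nonempty_of_pos (A := star G A B) (by linarith)
      exact ⟨x, h1 x hx⟩
  obtain ⟨x, hx⟩ := key
  have a1 : (C.card : ℝ) ≤ (compl_to G C (star G B A)).card + (nb G x).card := by
    apply cardR_le_add
    intro c hc
    by_cases hz : c ∈ compl_to G C (star G B A)
    · exact mem_union_left _ hz
    · exact mem_union_right _ (mem_nb.2 (hx c hc hz))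
  have := h.deg x
  have := h.hC
  linarith

/-- Few outside vertices see much of a set whose vertices send few edges outside. -/
theorem atyp_le {X Y : Finset V} {μ lam : ℝ}
    (hX : ∀ x ∈ X, ((nb G x ∩ Y).card : ℝ) ≤ μ)
    (hY : ∀ y ∈ Y, lam * X.card < (nb G y ∩ X).card) (hμ : 0 ≤ μ) : lam * Y.card ≤ μ := by
  classical
  have h1 : ∑ y ∈ Y, ((nb G y ∩ X).card : ℝ) = ∑ x ∈ X, ((nb G x ∩ Y).card : ℝ) := by
    have e1 : ∀ (z : V) (W : Finset V), ((nb G z ∩ W).card : ℝ) =
        ∑ w ∈ W, if G.Adj z w then (1 : ℝ) else 0 := by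
      intro z W
      rw [sum_boole]
      congr 2
      ext w
      simp only [mem_inter, mem_nb, mem_filter]
      tauto
    simp only [e1]
    rw [sum_comm]
    refine sum_congr rfl (fun x _ => sum_congr rfl (fun y _ => ?_))
    simp only [G.adj_comm]
  have h2 : ∑ x ∈ X, ((nb G x ∩ Y).card : ℝ) ≤ X.card * μ := by
    rw [← nsmul_eq_mul, ← sum_const]; exact sum_le_sum hX
  rcases Y.eq_empty_or_nonempty with rfl | hne
  · simpa using hμ
  have h3 : Y.card * (lam * X.card) < ∑ y ∈ Y, ((nb G y ∩ X).card : ℝ) := by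
    rw [← nsmul_eq_mul, ← sum_const]; exact sum_lt_sum_of_nonempty hne hY
  by_contra hc
  push Not at hc
  have h4 : (0 : ℝ) ≤ X.card := Nat.cast_nonneg _
  nlinarith

/-- The ambient setting. -/
structure Amb [Fintype ι] (G : SimpleGraph V) (p : V → ι) (U : Finset V) (a : ℕ) (N ε : ℝ) :
    Prop where
  ha : 2 ≤ a
  card : Fintype.card ι = 2 * a + 1
  hε : 0 ≤ ε
  hN : 0 < N
  deg : Deg G (a * N + ε)
  lo : ∀ i, (2 * a - 1) * N - ε ≤ (pt p U {i}).card
  hi : ∀ i, ((pt p univ {i}).card : ℝ) ≤ (2 * a - 1) * N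
  cross : ∀ x y, G.Adj x y → p x ≠ p y
  inU : ∀ x y, G.Adj x y → y ∈ U
  noIT : ¬ HasIT G p U univ

/-- A tight set of `a` parts. -/
def Tight (G : SimpleGraph V) (p : V → ι) (U : Finset V) (a : ℕ) (δ μ : ℝ) : Prop :=
  ∃ P : Finset ι, P.card = a ∧ ∃ L Z E : Finset V, Z ⊆ U ∧ (∀ z ∈ Z, p z ∉ P) ∧ δ ≤ Z.card ∧
    (∀ x ∈ L, ∀ z ∈ Z, G.Adj x z) ∧ (E.card : ℝ) ≤ μ ∧ ¬ HasIT G p (U \ (L ∪ E)) P

theorem Tight.mono {a : ℕ} {δ δ' μ μ' : ℝ} (h : Tight G p U a δ μ) (h1 : δ' ≤ δ) (h2 : μ ≤ μ') :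
    Tight G p U a δ' μ' := by
  obtain ⟨P, hP, L, Z, E, b1, b2, b3, b4, b5, b6⟩ := h
  exact ⟨P, hP, L, Z, E, b1, b2, h1.trans b3, b4, b5.trans h2, b6⟩

theorem Tight.super {G' : SimpleGraph V} {a : ℕ} {δ μ : ℝ} (h : Tight G p U a δ μ) (hG : G ≤ G') :
    Tight G' p U a δ μ := by
  obtain ⟨P, hP, L, Z, E, b1, b2, b3, b4, b5, b6⟩ := h
  exact ⟨P, hP, L, Z, E, b1, b2, b3, fun x hx z hz => hG (b4 x hx z hz), b5,
    fun h => b6 (h.anti hG)⟩

/-- Extending a transversal by a transversal avoiding its neighbourhoods. -/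
theorem IsIT.ext {J₁ J₂ : Finset ι} {T : ι → V} (hT : IsIT G p U J₁ T)
    (h : HasIT G p (U \ J₁.biUnion (fun i => nb G (T i))) J₂) : HasIT G p U (J₁ ∪ J₂) := by
  obtain ⟨T', h1, h2⟩ := h
  refine hT.union (T₂ := T') ⟨fun i hi => ⟨(mem_sdiff.1 (h1 i hi).1).1, (h1 i hi).2⟩, h2⟩ ?_
  intro i hi j hj ha
  exact (mem_sdiff.1 (h1 j hj).1).2 (mem_biUnion.2 ⟨i, hi, mem_nb.2 ha⟩)

theorem HasIT.of_pt {U' : Finset V} (h : HasIT G p U J) (hU : ∀ x ∈ U, p x ∈ J → x ∈ U') :
    HasIT G p U' J :=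
  h.pt.mono (fun x hx => hU x (mem_pt.1 hx).1 (mem_pt.1 hx).2)

variable [Fintype ι] {a : ℕ} {ε : ℝ}

theorem Amb.anti (h : Amb G p U a N ε) {G' : SimpleGraph V} (hG : G' ≤ G)
    (hno : ¬ HasIT G' p U univ) : Amb G' p U a N ε :=
  ⟨h.ha, h.card, h.hε, h.hN, h.deg.mono hG, h.lo, h.hi, fun x y ha => h.cross x y (hG ha),
    fun x y ha => h.inU x y (hG ha), hno⟩

theorem Amb.haR (h : Amb G p U a N ε) : (2 : ℝ) ≤ a := by exact_mod_cast h.ha

theorem Amb.card_compl (h : Amb G p U a N ε) {P : Finset ι} (hP : P.card = a) :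
    Pᶜ.card = a + 1 := by
  rw [Finset.card_compl, h.card, hP]; omega

theorem Amb.hiU (h : Amb G p U a N ε) (W : Finset V) (i : ι) :
    ((pt p W {i}).card : ℝ) ≤ (2 * a - 1) * N :=
  (cardR_le (pt_mono (subset_univ _) subset_rfl)).trans (h.hi i)

/-- A transversal of `a` parts with few edges leaving these parts extends to all parts. -/
theorem Amb.conf [Nonempty V] (h : Amb G p U a N ε) {P : Finset ι} (hP : P.card = a) {T : ι → V}
    (hT : IsIT G p U P T) {ρ : ℝ} (hρ : ∀ i ∈ P, ((pt p (nb G (T i)) Pᶜ).card : ℝ) ≤ ρ)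
    (hs : a * ρ + 3 * (a + 1) * ε < (a - 1) * N) : False := by
  have ha := h.haR
  have h1 : HasIT G p (U \ P.biUnion (fun i => nb G (T i))) Pᶜ := by
    refine hl_rem (m := a + 1) (ρ := a * ρ) h.deg h.hN.le h.hε (by linarith) (fun i _ => h.lo i) _
      (by rw [h.card_compl hP]; push_cast; exact le_rfl) ?_ (by linarith)
    have : pt p (P.biUnion (fun i => nb G (T i))) Pᶜ ⊆ P.biUnion (fun i => pt p (nb G (T i)) Pᶜ) := by
      intro x hx
      obtain ⟨h1, h2⟩ := mem_pt.1 hx
      obtain ⟨i, hi, h3⟩ := mem_biUnion.1 h1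
      exact mem_biUnion.2 ⟨i, hi, mem_pt.2 ⟨h3, h2⟩⟩
    refine (cardR_le this).trans ?_
    have := cardR_biUnion_le P (fun i => pt p (nb G (T i)) Pᶜ) hρ
    rwa [hP] at this
  have := hT.ext h1
  rw [union_compl] at this
  exact h.noIT this

end Pool.Agent.MP_bc5f1c_co

end MrgPart3

-- marker of a merged file
example : 731051 + 795856 = 731051 + 795856 := rfl
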