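import Mathlib.Algebra.Order.Ring.Star
import Pool.Agent.MP_bc5f1c_co.Three

-- ======== part 0: formerly Pool.Agent.MP_bc5f1c_co.TypeA
section MrgPart0

/-!
A dominating configuration on `2a` parts gives a tight set.
-/

set_option autoImplicit false
set_option linter.unusedSectionVars false

open Finset

namespace Pool.Agent.MP_bc5f1c_co

variable {V ι : Type*} [Fintype V] [DecidableEq V] [DecidableEq ι] [Fintype ι] [Nonempty V]
variable {G : SimpleGraph V} {p : V → ι} {U : Finset V} {J S K : Finset ι} {a : ℕ} {N ε : ℝ}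

theorem Amb.root_split (h : Amb G p U a N ε) (A : ι → Bool → Finset V) (C : ι → Bool → Finset ι)
    (E : Finset V) {μ : ℝ} (hK : K.Nonempty) (hne : ∀ u ∈ K, ∀ b, (C u b).Nonempty)
    (hall : ∀ pos : ι → Bool → ι, (∀ u ∈ K, ∀ b, pos u b ∈ C u b) → Good S K pos)
    (hA : ∀ u ∈ K, ∀ b, ((A u b).card : ℝ) ≤ a * N + ε)
    (hcov : ∀ x ∈ U, p x ∈ S → x ∉ E → ∃ u ∈ K, ∃ b, x ∈ A u b ∧ p x ∈ C u b)
    (hE : (E.card : ℝ) ≤ μ) (hs : μ + 3 * (2 * a + 1) * ε < N) :
    ∃ u₁ ∈ K, ∃ (P KP : Bool → Finset ι), Disjoint (P false) (P true) ∧ P false ∪ P true = S ∧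
      Disjoint (KP false) (KP true) ∧ KP false ∪ KP true = K.erase u₁ ∧ (∀ b, a ≤ (P b).card) ∧
      (∀ b, C u₁ b ⊆ P b) ∧ (∀ b, ∀ u ∈ KP b, ∀ c, C u c ⊆ P b) ∧
      (∀ b, ∀ x ∈ U, p x ∈ P b → x ∉ E → x ∈ A u₁ b ∨ ∃ u ∈ KP b, ∃ c, x ∈ A u c) := by
  obtain ⟨u₁, hu₁, P, KP, d1, d2, d3, d4, d5, d6, d7⟩ := root_lemma C hK hne hall
  have hPd : ∀ b c, ∀ i ∈ P b, i ∈ P c → b = c := by
    intro b c i h1 h2
    cases b <;> cases c
    · rfl
    · exact absurd h2 (disjoint_left.1 d1 h1)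
    · exact absurd h1 (disjoint_left.1 d1 h2)
    · rfl
  have hPS : ∀ b, P b ⊆ S := by
    intro b; rw [← d2]; cases b
    · exact subset_union_left
    · exact subset_union_right
  have hKP : ∀ u ∈ K, u ≠ u₁ → ∃ c, u ∈ KP c := by
    intro u hu hne'
    have : u ∈ KP false ∪ KP true := by rw [d4]; exact mem_erase.2 ⟨hne', hu⟩
    rcases mem_union.1 this with h1 | h1
    · exact ⟨_, h1⟩
    · exact ⟨_, h1⟩
  have hKPK : ∀ b, KP b ⊆ K := by
    intro b u hu
    have : u ∈ K.erase u₁ := by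
      rw [← d4]; cases b
      · exact mem_union_left _ hu
      · exact mem_union_right _ hu
    exact mem_of_mem_erase this
  have hc : ∀ b, ∀ x ∈ U, p x ∈ P b → x ∉ E → x ∈ A u₁ b ∨ ∃ u ∈ KP b, ∃ c, x ∈ A u c := by
    intro b x hx hp hE'
    obtain ⟨u, hu, c, h1, h2⟩ := hcov x hx (hPS b hp) hE'
    by_cases huu : u = u₁
    · subst huu
      left
      rw [hPd b c _ hp (d6 c h2)]; exact h1
    · obtain ⟨c', hc'⟩ := hKP u hu huu
      right
      exact ⟨u, by rw [hPd b c' _ hp (d7 c' u hc' c h2)]; exact hc', c, h1⟩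
  refine ⟨u₁, hu₁, P, KP, d1, d2, d3, d4, fun b => ?_, d6, d7, hc⟩
  have h1 := card_pt_ge (S := P b) (fun i _ => h.lo i)
  have h2 : pt p U (P b) ⊆ (E ∪ A u₁ b) ∪ (KP b ×ˢ univ).biUnion (fun t => A t.1 t.2) := by
    intro x hx
    by_cases hxE : x ∈ E
    · exact mem_union_left _ (mem_union_left _ hxE)
    · rcases hc b x (mem_pt.1 hx).1 (mem_pt.1 hx).2 hxE with h3 | ⟨u, hu, c, h3⟩
      · exact mem_union_left _ (mem_union_right _ h3)
      · exact mem_union_right _ (mem_biUnion.2 ⟨(u, c), by simp [hu], h3⟩)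
  have h3 := cardR_le_add h2
  have h4 := cardR_union_le E (A u₁ b)
  have h5 := cardR_biUnion_le (KP b ×ˢ (univ : Finset Bool)) (fun t => A t.1 t.2)
    (fun t ht => hA t.1 (hKPK b (mem_product.1 ht).1) t.2)
  have h6 : ((KP b ×ˢ (univ : Finset Bool)).card : ℝ) = 2 * ((P b).card - 1) := by
    rw [card_product, ← d5 b]
    simp only [card_univ, Fintype.card_bool]; push_cast; ring
  rw [h6] at h5
  have h7 := hA u₁ hu₁ b
  have h8 : ((P b).card : ℝ) ≤ 2 * a + 1 := by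
    have := card_le_univ (P b)
    rw [h.card] at this
    exact_mod_cast this
  have h9 : ((P b).card : ℝ) * ε ≤ (2 * a + 1) * ε := mul_le_mul_of_nonneg_right h8 h.hε
  have h10 : (a - 1 : ℝ) * N < (P b).card * N := by
    have := h.hε
    nlinarith
  have h11 : (a - 1 : ℝ) < (P b).card := lt_of_mul_lt_mul_right h10 h.hN.le
  have h12 : (a : ℝ) < (P b).card + 1 := by linarith
  have h13 : a < (P b).card + 1 := by exact_mod_cast h12
  omega

/-- A vertex complete to a large set has few other neighbours. -/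
theorem Deg.out_le {D σ : ℝ} (h : Deg G D) {x : V} {X : Finset V} (hX : ∀ y ∈ X, G.Adj x y)
    (hb : D - σ ≤ X.card) {Y : Finset V} (hd : Disjoint X Y) : ((nb G x ∩ Y).card : ℝ) ≤ σ := by
  have := h.add_le x (hd.mono_right (inter_subset_right (s₁ := nb G x))) hX
    (fun _ hy => mem_nb.1 (mem_inter.1 hy).1)
  linarith

theorem Deg.sdiff_le {D σ : ℝ} (h : Deg G D) {x : V} {X : Finset V} (hX : ∀ y ∈ X, G.Adj x y)
    (hb : D - σ ≤ X.card) : ((nb G x \ X).card : ℝ) ≤ σ := by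
  have := h.add_le x (disjoint_sdiff (s := X) (t := nb G x)) hX
    (fun _ hy => mem_nb.1 (mem_sdiff.1 hy).1)
  linarith

theorem small_cells {A : Finset V} {θ m : ℝ} (hθ : 0 ≤ θ) (hm : (Fintype.card ι : ℝ) ≤ m)
    [DecidablePred fun x => ((pt p A {p x}).card : ℝ) ≤ θ] :
    ((A.filter (fun x => ((pt p A {p x}).card : ℝ) ≤ θ)).card : ℝ) ≤ m * θ := by
  by_contra hc
  push Not at hc
  obtain ⟨i, -, hi⟩ := exists_big_cell (p := p) (S := univ)
    (A := A.filter (fun x => ((pt p A {p x}).card : ℝ) ≤ θ)) (m := θ) (fun _ _ => mem_univ _)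
    (lt_of_le_of_lt (mul_le_mul_of_nonneg_right (by rw [card_univ]; exact hm) hθ) hc)
  obtain ⟨x, hx⟩ := nonempty_of_pos (lt_of_le_of_lt hθ hi)
  obtain ⟨h1, h2⟩ := mem_pt.1 hx
  have h3 := (mem_filter.1 h1).2
  rw [mem_singleton.1 h2] at h3
  have h4 : ((pt p (A.filter (fun x => ((pt p A {p x}).card : ℝ) ≤ θ)) {i}).card : ℝ) ≤
      (pt p A {i}).card := cardR_le (pt_mono (filter_subset _ _) subset_rfl)
  linarith

theorem pow_chain {a x : ℝ} (ha : 2 ≤ a) (hx : 0 ≤ x) :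
    2 * x ≤ a * x ∧ 2 * (a * x) ≤ a ^ 2 * x ∧ 2 * (a ^ 2 * x) ≤ a ^ 3 * x ∧
      2 * (a ^ 3 * x) ≤ a ^ 4 * x ∧ 2 * (a ^ 4 * x) ≤ a ^ 5 * x := by
  have h0 : 0 ≤ a := by linarith
  have key : ∀ y, 0 ≤ y → 2 * y ≤ a * y := fun y hy => mul_le_mul_of_nonneg_right ha hy
  refine ⟨key x hx, ?_, ?_, ?_, ?_⟩
  · have := key (a * x) (by positivity); linarith
  · have := key (a ^ 2 * x) (by positivity); linarith
  · have := key (a ^ 3 * x) (by positivity); linarith
  · have := key (a ^ 4 * x) (by positivity); linarith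

theorem Amb.typeA (h : Amb G p U a N ε) {e : ι → Bool → V} (hS : S.card = 2 * a)
    (himc : IMC G p U S K e) (hdom : Dom G p U S (ends K e)) {ω δ₁ : ℝ}
    (hω : 10000 * a ^ 5 * ε ≤ ω) (hδ : ω ≤ δ₁) (hN : 10 * δ₁ ≤ N) :
    Tight G p U a (N / 2) (δ₁ + ω) ∨ Tight G p U a δ₁ ω := by
  classical
  have ha := h.haR
  have hε := h.hε
  have hN0 := h.hN
  obtain ⟨c1, c2, c3, c4, c5⟩ := pow_chain ha hε
  have haN : 2 * N ≤ a * N := mul_le_mul_of_nonneg_right ha hN0.le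
  obtain ⟨j, hj⟩ : ∃ j, Sᶜ = {j} := card_eq_one.1 (by rw [Finset.card_compl, h.card, hS]; omega)
  have hjS : j ∉ S := mem_compl.1 (hj ▸ mem_singleton_self j)
  have hins : insert j S = univ := by
    ext i
    simp only [mem_insert, mem_univ, iff_true]
    by_cases hi : i ∈ S
    · exact Or.inr hi
    · exact Or.inl (mem_singleton.1 (hj ▸ mem_compl.2 hi))
  have hKc : (K.card : ℝ) = 2 * a - 1 := by
    have := himc.good.card
    rw [hS] at this
    have h2 : (K.card : ℝ) + 1 = 2 * a := by exact_mod_cast this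
    linarith
  have hSc : (S.card : ℝ) = 2 * a := by exact_mod_cast hS
  have hKne : K.Nonempty := nonempty_of_pos (by linarith)
  set D := a * N + ε with hD
  set σ := 6 * a * ε with hσ
  have hσ0 : 0 ≤ σ := by positivity
  have hσ1 : 2 * K.card * D ≤ (pt p U S).card + σ := by
    have := card_pt_ge (S := S) (fun i _ => h.lo i)
    rw [hKc, hD, hσ]; rw [hSc] at this; linarith
  set A : ι → Bool → Finset V := fun u b => priv G p U S K e u (!b) with hA
  have hAge : ∀ u ∈ K, ∀ b, D - σ ≤ (A u b).card := fun u hu b => hdom.priv_ge h.deg hσ1 hu _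
  have hAle : ∀ u ∈ K, ∀ b, ((A u b).card : ℝ) ≤ D := fun u _ b =>
    (cardR_le (priv_subset_nb _ _)).trans (h.deg _)
  have hAS : ∀ u b, ∀ x ∈ A u b, x ∈ U ∧ p x ∈ S := fun u b x hx => (mem_priv.1 hx).1
  have hAd : ∀ u b, ∀ v ∈ K, ∀ c, (v, c) ≠ (u, b) → Disjoint (A u b) (A v c) := by
    intro u b v hv c hne
    refine priv_disjoint hv (fun e2 => hne ?_)
    obtain ⟨e3, e4⟩ := Prod.mk.inj e2
    rw [e3, Bool.not_inj e4]
  have hAj : ∀ u b (W : Finset V), Disjoint (A u b) (pt p W {j}) := by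
    intro u b W
    refine disjoint_left.2 (fun x hx hx' => hjS ?_)
    rw [← mem_singleton.1 (mem_pt.1 hx').2]; exact (hAS u b x hx).2
  let Low : V → Prop := fun x => ((nb G x ∩ pt p U {j}).card : ℝ) ≤ σ
  have hlowe : ∀ u ∈ K, ∀ b, Low (e u b) := by
    intro u hu b
    refine h.deg.out_le (X := A u (!b)) (fun y hy => ?_) (hAge u hu _) (hAj _ _ _)
    have := (mem_priv.1 hy).2.1
    rw [Bool.not_not] at this
    exact this.symm
  set C₀ := pt p U {j} \ (K ×ˢ univ).biUnion (fun t => nb G (e t.1 t.2) ∩ pt p U {j}) with hC₀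
  set η := 30 * a ^ 2 * ε with hη
  have hC₀c : 2 * D - N - η ≤ C₀.card := by
    have h1 := cardR_biUnion_le (K ×ˢ (univ : Finset Bool))
      (fun t => nb G (e t.1 t.2) ∩ pt p U {j}) (fun t ht => hlowe t.1 (mem_product.1 ht).1 t.2)
    have h2 : ((K ×ˢ (univ : Finset Bool)).card : ℝ) = 2 * (2 * a - 1) := by
      rw [card_product, ← hKc]
      simp only [card_univ, Fintype.card_bool]; push_cast; ring
    have h3 : ((pt p U {j}).card : ℝ) ≤ C₀.card +
        ((K ×ˢ univ).biUnion (fun t => nb G (e t.1 t.2) ∩ pt p U {j})).card :=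
      cardR_le_add (fun x hx => by
        by_cases hc : x ∈ (K ×ˢ univ).biUnion (fun t => nb G (e t.1 t.2) ∩ pt p U {j})
        · exact mem_union_right _ hc
        · exact mem_union_left _ (mem_sdiff.2 ⟨hx, hc⟩))
    have h4 := h.lo j
    rw [h2, hσ] at h1
    rw [hD, hη]
    linarith
  have hthree : ∀ u ∈ K, Three G (A u false) (A u true) C₀ D N η := by
    intro u hu
    have hση : σ ≤ η := by rw [hσ, hη]; linarith
    refine ⟨h.deg, by linarith [hAge u hu false], by linarith [hAge u hu true], hC₀c,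
      hAd u false u hu true (by simp), (hAj _ _ _).mono_right sdiff_subset,
      (hAj _ _ _).mono_right sdiff_subset, ?_⟩
    intro x hx y hy z hz
    by_contra hc
    push Not at hc
    obtain ⟨hz1, hz2⟩ := mem_sdiff.1 hz
    have himc' : IMC G p (U \ nb G z) S K e := by
      refine ⟨fun v hv b => mem_sdiff.2 ⟨himc.mem v hv b, fun hn => hz2 ?_⟩, himc.nonadj, himc.adj,
        himc.good⟩
      exact mem_biUnion.2 ⟨(v, b), by simp [hv], mem_inter.2 ⟨mem_nb.2 (mem_nb.1 hn).symm, hz1⟩⟩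
    have hno' : ¬ HasIT G p (U \ nb G z) S := by
      rintro ⟨T, hT⟩
      have hT' : IsIT G p U S T := ⟨fun i hi => ⟨(mem_sdiff.1 (hT.1 i hi).1).1, (hT.1 i hi).2⟩, hT.2⟩
      have := hT'.insert (mem_pt.1 hz1).1
        (fun i hi ha => (mem_sdiff.1 (hT.1 i hi).1).2 (mem_nb.2 ha))
      rw [mem_singleton.1 (mem_pt.1 hz1).2, hins] at this
      exact h.noIT this
    have hp : ∀ w b, w ∈ priv G p U S K e u b → ¬ G.Adj w z → w ∈ priv G p (U \ nb G z) S K e u b := by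
      intro w b hw hn
      obtain ⟨⟨w1, w2⟩, w3⟩ := mem_priv.1 hw
      exact mem_priv.2 ⟨⟨mem_sdiff.2 ⟨w1, fun hh => hn (mem_nb.1 hh).symm⟩, w2⟩, w3⟩
    exact hc.1 (himc'.biclique hno' hu (b := false) (hp x _ hx hc.2.1) (hp y _ hy hc.2.2))
  let good : ι → Prop := fun u => ∀ x ∈ A u false, ∀ y ∈ A u true, G.Adj x y
  have hgood : ∀ u, good u → ∀ b, ∀ x ∈ A u b, ∀ y ∈ A u (!b), G.Adj x y := by
    intro u hu b x hx y hy
    cases b
    · exact hu x hx y hy
    · exact (hu y hy x hx).symm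
  obtain ⟨u₀, hu₀, hu₀g⟩ : ∃ u₀ ∈ K, ∀ u ∈ K, u ≠ u₀ → good u := by
    by_cases hb : ∃ u ∈ K, ¬ good u
    · obtain ⟨u₀, hu₀, hb⟩ := hb
      refine ⟨u₀, hu₀, fun u hu hne => ?_⟩
      by_contra hb'
      simp only [good] at hb hb'
      push Not at hb hb'
      obtain ⟨x, hx, y, hy, hn⟩ := hb
      obtain ⟨x', hx', y', hy', hn'⟩ := hb'
      have hη0 : 0 ≤ η := by positivity
      obtain ⟨c, hc, h1⟩ := (hthree u₀ hu₀).some hη0 (by rw [hD, hη]; linarith) hx hy hn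
      have h2 := (hthree u hu).every hη0 hx' hy' hn' hc
      have d1 : ∀ b b', Disjoint (A u₀ b) (A u b') := fun b b' =>
        hAd u₀ b u hu b' (fun e2 => hne (Prod.mk.inj e2).1)
      have h3 := h.deg.inter_add_le c (X := A u₀ false ∪ A u₀ true) (Y := A u false ∪ A u true)
        (by simp only [disjoint_union_left, disjoint_union_right, d1, and_self])
      rw [inter_union_distrib_left, inter_union_distrib_left,
        cardR_union_disj ((hthree u₀ hu₀).dAB.mono inter_subset_right inter_subset_right),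
        cardR_union_disj ((hthree u hu).dAB.mono inter_subset_right inter_subset_right)] at h3
      rw [hD, hη] at h1 h2
      linarith
    · push Not at hb
      obtain ⟨u₀, hu₀⟩ := hKne
      exact ⟨u₀, hu₀, fun u hu _ => hb u hu⟩
  set θ := 4 * a * σ with hθ
  have hθ0 : 0 ≤ θ := by positivity
  let C : ι → Bool → Finset ι := fun u b => univ.filter (fun i => θ < (pt p (A u b) {i}).card)
  have hCne : ∀ u ∈ K, ∀ b, (C u b).Nonempty := by
    intro u hu b
    obtain ⟨i, -, hi⟩ := exists_big_cell (p := p) (S := S) (A := A u b) (m := θ)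
      (fun x hx => (hAS u b x hx).2) (by
        have := hAge u hu b
        rw [hSc, hθ, hσ]; rw [hD, hσ] at this; linarith)
    exact ⟨i, mem_filter.2 ⟨mem_univ _, hi⟩⟩
  have hall : ∀ pos : ι → Bool → ι, (∀ u ∈ K, ∀ b, pos u b ∈ C u b) → Good S K pos := by
    intro pos hpos
    obtain ⟨x, hx1, hx2⟩ := greedy (G := G) (K ×ˢ (univ : Finset Bool))
      (fun t => pt p (A t.1 t.2) {pos t.1 t.2}) (fun t t' => t.1 ≠ t'.1) (fun _ _ h => h.symm)
      (fun t => if t.1 = u₀ then 1 else 0) hσ0 (by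
        intro t ht
        have h1 := (mem_filter.1 (hpos t.1 (mem_product.1 ht).1 t.2)).2
        have h2 : ((K ×ˢ (univ : Finset Bool)).card : ℝ) = 2 * (2 * a - 1) := by
          rw [card_product, ← hKc]
          simp only [card_univ, Fintype.card_bool]; push_cast; ring
        rw [h2]; rw [hθ] at h1; linarith) (by
        intro t ht t' ht' _ hn hr y hy
        have h1 : t.1 ≠ u₀ := by
          intro e1
          have : t'.1 ≠ u₀ := fun e2 => hn (e1.trans e2.symm)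
          simp [e1, this] at hr
        have hK1 := (mem_product.1 ht).1
        exact h.deg.out_le (hgood _ (hu₀g _ hK1 h1) _ y (mem_pt.1 hy).1) (hAge _ hK1 _)
          ((hAd _ _ _ (mem_product.1 ht').1 _
            (fun e2 => hn (Prod.mk.inj e2).1.symm)).mono_right (pt_subset _ _ _)))
    have hx3 : ∀ u ∈ K, ∀ b, x (u, b) ∈ A u b ∧ p (x (u, b)) = pos u b := by
      intro u hu b
      have := mem_pt.1 (hx1 (u, b) (by simp [hu]))
      exact ⟨this.1, mem_singleton.1 this.2⟩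
    refine (himc.good_of_choice (fun u b => x (u, b)) (fun u hu b => (hx3 u hu b).1)
      (fun u hu v hv huv b c => hx2 (u, b) (by simp [hu]) (v, c) (by simp [hv])
        (fun e2 => huv (Prod.mk.inj e2).1) huv) Low u₀ hlowe ?_ ?_).congr
      (fun u hu b => (hx3 u hu b).2)
    · intro u hu hne b
      exact h.deg.out_le (hgood _ (hu₀g _ hu hne) _ _ (hx3 u hu b).1) (hAge _ hu _) (hAj _ _ _)
    · rintro T hT ⟨i₀, hi₀⟩
      have h1 : ((nb G (T i₀) ∪ (S.erase i₀).biUnion (fun i => nb G (T i) ∩ pt p U {j})).card : ℝ)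
          < (pt p U {j}).card := by
        have b1 := cardR_union_le (nb G (T i₀))
          ((S.erase i₀).biUnion (fun i => nb G (T i) ∩ pt p U {j}))
        have b2 := cardR_biUnion_le (S.erase i₀) (fun i => nb G (T i) ∩ pt p U {j})
          (fun i hi => hi₀ i (mem_of_mem_erase hi) (ne_of_mem_erase hi))
        have b3 : ((S.erase i₀).card : ℝ) ≤ 2 * a := hSc ▸ cardR_le (erase_subset _ _)
        have b4 := mul_le_mul_of_nonneg_right b3 hσ0
        have b5 := h.deg (T i₀)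
        have b6 := h.lo j
        rw [hσ] at b2 b4
        linarith
      obtain ⟨z, hz1, hz2⟩ := exists_mem_not_mem_of_lt h1
      have := hT.insert (mem_pt.1 hz1).1 (fun i hi ha => hz2 (by
        by_cases hii : i = i₀
        · exact mem_union_left _ (mem_nb.2 (hii ▸ ha.symm))
        · exact mem_union_right _ (mem_biUnion.2 ⟨i, mem_erase.2 ⟨hii, hi⟩,
            mem_inter.2 ⟨mem_nb.2 ha.symm, hz1⟩⟩)))
      rw [mem_singleton.1 (mem_pt.1 hz1).2, hins] at this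
      exact h.noIT this
  set E := multi G p U S K e ∪ (K ×ˢ univ).biUnion
    (fun t => (A t.1 t.2).filter (fun x => ((pt p (A t.1 t.2) {p x}).card : ℝ) ≤ θ)) with hE
  set μ := 300 * a ^ 4 * ε with hμ
  have hEc : (E.card : ℝ) ≤ μ := by
    have h1 := hdom.multi_le h.deg hσ1
    have h2 := cardR_biUnion_le (K ×ˢ (univ : Finset Bool))
      (fun t => (A t.1 t.2).filter (fun x => ((pt p (A t.1 t.2) {p x}).card : ℝ) ≤ θ))
      (fun t _ => small_cells (m := 3 * a) hθ0 (by rw [h.card]; push_cast; linarith))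
    have h3 : ((K ×ˢ (univ : Finset Bool)).card : ℝ) ≤ 4 * a := by
      rw [card_product]
      simp only [card_univ, Fintype.card_bool]; push_cast; rw [hKc]; linarith
    have h4 := mul_le_mul_of_nonneg_right h3 (show 0 ≤ 3 * a * θ by positivity)
    have h5 := cardR_union_le (multi G p U S K e) ((K ×ˢ univ).biUnion
      (fun t => (A t.1 t.2).filter (fun x => ((pt p (A t.1 t.2) {p x}).card : ℝ) ≤ θ)))
    rw [hθ, hσ] at h4
    rw [hθ, hσ] at h2
    rw [hσ] at h1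
    rw [hθ, hσ] at h5
    rw [hE, hθ, hσ, hμ]
    linarith
  have hnotE : ∀ u ∈ K, ∀ b, ∀ x ∈ A u b, x ∉ E → p x ∈ C u b := by
    intro u hu b x hx hxE
    refine mem_filter.2 ⟨mem_univ _, ?_⟩
    by_contra hc
    exact hxE (mem_union_right _ (mem_biUnion.2 ⟨(u, b), by simp [hu],
      mem_filter.2 ⟨hx, not_lt.1 hc⟩⟩))
  obtain ⟨u₁, hu₁, P, KP, d1, d2, d3, d4, d5, d6, d7, d8⟩ := h.root_split A C E hKne hCne hall hAle
    (by
      intro x hx hp hxE
      rcases hdom.priv_or_multi (mem_pt.2 ⟨hx, hp⟩) with ⟨u, hu, b, h1⟩ | h1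
      · have h2 : x ∈ A u (!b) := by simp only [hA, Bool.not_not]; exact h1
        exact ⟨u, hu, !b, h2, hnotE u hu _ x h2 hxE⟩
      · exact absurd (mem_union_left _ h1) hxE) hEc (by rw [hμ]; linarith)
  have hPc : ∀ b, (P b).card = a := by
    have h1 : (P false).card + (P true).card = 2 * a := by
      rw [← hS, ← d2, card_union_of_disjoint d1]
    have := d5 false
    have := d5 true
    intro b
    cases b <;> omega
  have hKPK : ∀ b, ∀ u ∈ KP b, u ∈ K ∧ u ≠ u₁ := by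
    intro b u hu
    have : u ∈ K.erase u₁ := by
      rw [← d4]; cases b
      · exact mem_union_left _ hu
      · exact mem_union_right _ hu
    exact ⟨mem_of_mem_erase this, ne_of_mem_erase this⟩
  have hPP : ∀ b, ∀ i ∈ P (!b), i ∉ P b := by
    intro b i hi
    cases b
    · exact disjoint_right.1 d1 hi
    · exact disjoint_left.1 d1 hi
  have mk : ∀ b, (∀ u ∈ KP b, good u) → ∀ X Z : Finset V, Z ⊆ U → (∀ z ∈ Z, p z ∉ P b) →
      (∀ x ∈ X, ∀ z ∈ Z, G.Adj x z) → Tight G p U a Z.card (μ + (A u₁ b \ X).card) := by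
    intro b hb X Z h1 h2 h3
    refine ⟨P b, hPc b, X, Z, E ∪ (A u₁ b \ X), h1, h2, le_rfl, h3,
      (cardR_union_le _ _).trans (by linarith), ?_⟩
    rintro ⟨T, hT⟩
    refine h.conf (hPc b) (T := T) ⟨fun i hi => ⟨(mem_sdiff.1 (hT.1 i hi).1).1, (hT.1 i hi).2⟩,
      hT.2⟩ (ρ := σ + μ) ?_ (by rw [hσ, hμ]; linarith)
    intro i hi
    obtain ⟨h4, h5⟩ := mem_sdiff.1 (hT.1 i hi).1
    have h6 : T i ∉ E := fun hh => h5 (mem_union_right _ (mem_union_left _ hh))
    rcases d8 b (T i) h4 (by rw [(hT.1 i hi).2]; exact hi) h6 with h7 | ⟨u, hu, c, h7⟩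
    · exfalso
      by_cases h8 : T i ∈ X
      · exact h5 (mem_union_left _ h8)
      · exact h5 (mem_union_right _ (mem_union_right _ (mem_sdiff.2 ⟨h7, h8⟩)))
    · have h8 := h.deg.sdiff_le (hgood u (hb u hu) c _ h7) (hAge u (hKPK b u hu).1 _)
      have h9 : pt p (nb G (T i)) (P b)ᶜ ⊆ (nb G (T i) \ A u (!c)) ∪ E := by
        intro y hy
        by_cases hyE : y ∈ E
        · exact mem_union_right _ hyE
        · refine mem_union_left _ (mem_sdiff.2 ⟨(mem_pt.1 hy).1, fun hyA => ?_⟩)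
          exact mem_compl.1 (mem_pt.1 hy).2 (d7 b u hu _ (hnotE u (hKPK b u hu).1 _ y hyA hyE))
      have := cardR_le_add h9
      linarith
  have mk2 : ∀ b, (∀ u ∈ KP b, good u) → ∀ Z ⊆ A u₁ (!b), δ₁ + μ ≤ Z.card →
      (∀ x ∈ A u₁ b, ∀ z ∈ Z, G.Adj x z) → Tight G p U a δ₁ ω := by
    intro b hb Z h1 h2 h3
    have := mk b hb (A u₁ b) (Z \ E) (fun z hz => (hAS _ _ z (h1 (mem_sdiff.1 hz).1)).1)
      (fun z hz => hPP b _ (d6 _ (hnotE u₁ hu₁ _ z (h1 (mem_sdiff.1 hz).1) (mem_sdiff.1 hz).2)))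
      (fun x hx z hz => h3 x hx z (mem_sdiff.1 hz).1)
    refine this.mono ?_ ?_
    · have h4 := cardR_sdiff_inter Z E
      have h5 : ((Z ∩ E).card : ℝ) ≤ E.card := cardR_le inter_subset_right
      linarith
    · rw [sdiff_self, bot_eq_empty, card_empty, hμ]; push_cast; linarith
  by_cases hu : u₁ = u₀
  · have hg : ∀ b, ∀ u ∈ KP b, good u := fun b u hu' =>
      hu₀g u (hKPK b u hu').1 (hu ▸ (hKPK b u hu').2)
    by_cases h1 : δ₁ + μ ≤ (A u₁ true \ star G (A u₁ true) (A u₁ false)).card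
    · exact Or.inr (mk2 false (hg _) _ sdiff_subset h1 (fun x hx z hz => (adj_of_not_star hz hx).symm))
    by_cases h2 : δ₁ + μ ≤ (A u₁ false \ star G (A u₁ false) (A u₁ true)).card
    · exact Or.inr (mk2 true (hg _) _ sdiff_subset h2 (fun x hx z hz => (adj_of_not_star hz hx).symm))
    left
    have h3 := cardR_sdiff_inter (A u₁ false) (star G (A u₁ false) (A u₁ true))
    rw [inter_eq_right.2 (star_subset _ _)] at h3
    have h4 := hAge u₁ hu₁ false
    have h5 := (hthree u₁ hu₁).zbig (by rw [hη]; rw [hD, hσ] at h4; rw [hμ] at h2; linarith)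
      (by rw [hη, hD]; linarith) (by positivity)
    have := mk true (hg _) (star G (A u₁ true) (A u₁ false))
      (compl_to G C₀ (star G (A u₁ true) (A u₁ false)))
      (fun z hz => (mem_pt.1 (mem_sdiff.1 (mem_compl_to.1 hz).1).1).1)
      (fun z hz hp => hjS (by
        rw [← mem_singleton.1 (mem_pt.1 (mem_sdiff.1 (mem_compl_to.1 hz).1).1).2, ← d2]
        exact mem_union_right _ hp))
      (fun x hx z hz => ((mem_compl_to.1 hz).2 x hx).symm)
    refine this.mono ?_ ?_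
    · rw [hD, hη] at h5; linarith
    · rw [hμ] at h1 ⊢; linarith
  · right
    have h1 : u₀ ∈ KP false ∪ KP true := by rw [d4]; exact mem_erase.2 ⟨Ne.symm hu, hu₀⟩
    have hbig : ∀ b, δ₁ + μ ≤ (A u₁ b).card := by
      intro b
      have h4 := hAge u₁ hu₁ b
      rw [hD, hσ] at h4; rw [hμ]; linarith
    rcases mem_union.1 h1 with h2 | h2
    · exact mk2 true (fun u hu' => hu₀g u (hKPK _ u hu').1
        (fun e2 => disjoint_left.1 d3 h2 (e2 ▸ hu'))) _ subset_rfl (hbig _)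
        (hgood u₁ (hu₀g u₁ hu₁ hu) true)
    · exact mk2 false (fun u hu' => hu₀g u (hKPK _ u hu').1
        (fun e2 => disjoint_right.1 d3 h2 (e2 ▸ hu'))) _ subset_rfl (hbig _)
        (hgood u₁ (hu₀g u₁ hu₁ hu) false)

end Pool.Agent.MP_bc5f1c_co

end MrgPart0

-- ======== part 1: formerly Pool.Agent.MP_bc5f1c_co.TypeB
section MrgPart1

/-!
Spanning configurations: the pure case, and the reduction to two full variables.
-/

set_option autoImplicit false
set_option linter.unusedSectionVars false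

open Finset

namespace Pool.Agent.MP_bc5f1c_co

variable {V ι : Type*} [Fintype V] [DecidableEq V] [DecidableEq ι] [Fintype ι] [Nonempty V]
variable {G : SimpleGraph V} {p : V → ι} {U : Finset V} {K : Finset ι} {a : ℕ} {N ε : ℝ}
variable {e : ι → Bool → V}

theorem Amb.cardK (h : Amb G p U a N ε) (himc : IMC G p U univ K e) : K.card = 2 * a := by
  have := himc.good.card
  rw [card_univ, h.card] at this
  omega

theorem Amb.sigma (h : Amb G p U a N ε) (himc : IMC G p U univ K e) :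
    2 * K.card * (a * N + ε) ≤ (pt p U univ).card + (N + 7 * a * ε) := by
  have h1 := card_pt_ge (S := univ) (fun i _ => h.lo i)
  rw [card_univ, h.card] at h1
  rw [h.cardK himc]
  have := (pow_chain h.haR h.hε).1
  have := h.hε
  push_cast at h1 ⊢
  linarith

theorem Amb.pure (h : Amb G p U a N ε) (himc : IMC G p U univ K e)
    (hpure : ∀ e', IMC G p U univ K e' → multi G p U univ K e' = ∅) (hs : 100 * a * ε ≤ N) :
    Tight G p U a (N / 2) 0 := by
  classical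
  have ha := h.haR
  have hε := h.hε
  have hN0 := h.hN
  obtain ⟨c1, -⟩ := pow_chain ha hε
  have haN : 2 * N ≤ a * N := mul_le_mul_of_nonneg_right ha hN0.le
  have hdom := himc.dom h.noIT
  set A : ι → Bool → Finset V := fun u b => priv G p U univ K e u (!b) with hA
  have hAU : ∀ u b, ∀ x ∈ A u b, x ∈ U := fun u b x hx => (mem_priv.1 hx).1.1
  have hno : ∀ u ∈ K, ∀ v ∈ K, u ≠ v → ∀ b c, ∀ x ∈ A u b, ∀ y ∈ A v c, ¬ G.Adj x y := by
    intro u hu v hv huv b c x hx y hy had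
    have h1 := hpure _ (himc.exchange h.noIT hu hx)
    have : y ∈ multi G p U univ K (upd e u b x) := by
      refine mem_multi.2 ⟨⟨hAU _ _ y hy, mem_univ _⟩, u, hu, b, v, hv, !c,
        fun e2 => huv (Prod.mk.inj e2).1.symm, by rw [upd_same]; exact had.symm, ?_⟩
      rw [upd_ne _ _ _ _ huv.symm]; exact (mem_priv.1 hy).2.1
    rw [h1] at this
    exact notMem_empty _ this
  have hcov : ∀ x ∈ U, ∃ u ∈ K, ∃ b, x ∈ A u b := by
    intro x hx
    rcases hdom.priv_or_multi (mem_pt.2 ⟨hx, mem_univ _⟩) with ⟨u, hu, b, h1⟩ | h1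
    · exact ⟨u, hu, !b, by simp only [hA, Bool.not_not]; exact h1⟩
    · rw [hpure e himc] at h1
      exact absurd h1 (notMem_empty _)
  have hKne : K.Nonempty := card_pos.1 (by rw [h.cardK himc]; have := h.ha; omega)
  obtain ⟨u₁, hu₁, P, KP, d1, d2, d3, d4, d5, d6, d7, d8⟩ := h.root_split (S := univ) (μ := 0) A
    (fun u b => (A u b).image p) ∅ hKne
    (fun u hu b => ⟨_, mem_image_of_mem p (himc.mem_priv hu b)⟩) (by
      intro pos hpos
      have hex : ∀ u b, ∃ x, u ∈ K → x ∈ A u b ∧ p x = pos u b := by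
        intro u b
        by_cases hu : u ∈ K
        · obtain ⟨x, hx, e1⟩ := mem_image.1 (hpos u hu b)
          exact ⟨x, fun _ => ⟨hx, e1⟩⟩
        · exact ⟨Classical.arbitrary V, fun hh => absurd hh hu⟩
      choose x hx using hex
      exact (himc.good_of_choice x (fun u hu b => (hx u b hu).1)
        (fun u hu v hv huv b c => hno u hu v hv huv b c _ (hx u b hu).1 _ (hx v c hv).1)
        (fun _ => True) hKne.choose (fun _ _ _ => trivial) (fun _ _ _ _ => trivial)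
        (fun T hT _ => h.noIT ⟨T, hT⟩)).congr (fun u hu b => (hx u b hu).2))
    (fun u _ b => (cardR_le (priv_subset_nb _ _)).trans (h.deg _))
    (fun x hx _ _ => by
      obtain ⟨u, hu, b, h1⟩ := hcov x hx
      exact ⟨u, hu, b, h1, mem_image_of_mem p h1⟩) (by simp) (by linarith)
  obtain ⟨b, hb⟩ : ∃ b, (P b).card = a := by
    have h1 : (P false).card + (P true).card = 2 * a + 1 := by
      rw [← h.card, ← card_univ, ← d2, card_union_of_disjoint d1]
    have := d5 false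
    have := d5 true
    by_cases h2 : (P false).card = a
    · exact ⟨_, h2⟩
    · exact ⟨true, by omega⟩
  have hKPK : ∀ u ∈ KP b, u ∈ K := by
    intro u hu
    have : u ∈ K.erase u₁ := by
      rw [← d4]; cases b
      · exact mem_union_left _ hu
      · exact mem_union_right _ hu
    exact mem_of_mem_erase this
  refine ⟨P b, hb, A u₁ b, A u₁ (!b), ∅, fun z hz => hAU _ _ z hz, fun z hz => ?_, ?_, ?_, by simp, ?_⟩
  · have := d6 _ (mem_image_of_mem p hz)
    cases b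
    · exact disjoint_right.1 d1 this
    · exact disjoint_left.1 d1 this
  · have := hdom.priv_ge h.deg (h.sigma himc) hu₁ (!(!b))
    simp only [hA]
    linarith
  · intro x hx z hz
    exact himc.biclique' h.noIT hu₁ hx hz
  · rintro ⟨T, hT⟩
    refine h.conf hb (T := T) ⟨fun i hi => ⟨(mem_sdiff.1 (hT.1 i hi).1).1, (hT.1 i hi).2⟩,
      hT.2⟩ (ρ := 0) ?_ (by linarith)
    intro i hi
    obtain ⟨h4, h5⟩ := mem_sdiff.1 (hT.1 i hi).1
    rcases d8 b (T i) h4 (by rw [(hT.1 i hi).2]; exact hi) (notMem_empty _) with h7 | ⟨u, hu, c, h7⟩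
    · exact absurd (mem_union_left _ h7) h5
    · have : pt p (nb G (T i)) (P b)ᶜ = ∅ := by
        apply eq_empty_of_forall_notMem
        intro y hy
        have hy1 := mem_nb.1 (mem_pt.1 hy).1
        obtain ⟨v, hv, d, h8⟩ := hcov y (h.inU _ _ hy1)
        have : u = v := by
          by_contra hne
          exact hno u (hKPK u hu) v hv hne c d _ h7 _ h8 hy1
        subst this
        exact mem_compl.1 (mem_pt.1 hy).2 (d7 b u hu d (mem_image_of_mem p h8))
      rw [this]; simp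

theorem Amb.exists_two (h : Amb G p U a N ε) (hs : 100 * a * ε ≤ N)
    (hex : ∃ e, IMC G p U univ K e ∧ multi G p U univ K e ≠ ∅) :
    ∃ e, IMC G p U univ K e ∧ ∃ x ∈ U, ∃ u ∈ K, ∃ b, ∃ v ∈ K, ∃ c, (v, c) ≠ (u, b) ∧
      G.Adj x (e u b) ∧ G.Adj x (e v c) ∧
      ∀ w ∈ K, ∀ d, (w, d) ≠ (u, b) → (w, d) ≠ (v, c) → ¬ G.Adj x (e w d) := by
  classical
  have ha := h.haR
  have hε := h.hε
  have hN0 := h.hN
  have haN : 2 * N ≤ a * N := mul_le_mul_of_nonneg_right ha hN0.le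
  let H : (ι → Bool → V) → V → Finset (ι × Bool) := fun e x =>
    (K ×ˢ univ).filter (fun t => G.Adj x (e t.1 (!t.2)))
  have hH : ∀ e x u b, (u, b) ∈ H e x ↔ u ∈ K ∧ G.Adj x (e u (!b)) := by
    intro e x u b; simp [H]
  have hP : ∃ m, ∃ e x, IMC G p U univ K e ∧ x ∈ U ∧ 2 ≤ (H e x).card ∧ (H e x).card = m := by
    obtain ⟨e, himc, hm⟩ := hex
    obtain ⟨x, hx⟩ := nonempty_iff_ne_empty.2 hm
    obtain ⟨⟨hxU, -⟩, u, hu, b, v, hv, c, hne, a1, a2⟩ := mem_multi.1 hx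
    refine ⟨_, e, x, himc, hxU, ?_, rfl⟩
    refine one_lt_card.2 ⟨(u, !b), (hH _ _ _ _).2 ⟨hu, by rwa [Bool.not_not]⟩, (v, !c),
      (hH _ _ _ _).2 ⟨hv, by rwa [Bool.not_not]⟩, fun e2 => hne ?_⟩
    obtain ⟨e3, e4⟩ := Prod.mk.inj e2
    rw [e3, Bool.not_inj e4]
  obtain ⟨e, x, himc, hxU, h2, hm⟩ := Nat.find_spec hP
  have hdom := himc.dom h.noIT
  have h3 : (H e x).card = 2 := by
    by_contra hne
    have hcomp : ∀ t ∈ H e x, ∀ y ∈ priv G p U univ K e t.1 t.2, G.Adj x y := by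
      rintro ⟨u, b⟩ ht y hy
      by_contra hn
      obtain ⟨hu, -⟩ := (hH _ _ _ _).1 ht
      have himc' := himc.exchange h.noIT hu (b := !b) (x := y) (by rwa [Bool.not_not])
      have hsub : H (upd e u (!b) y) x = (H e x).erase (u, b) := by
        ext ⟨v, c⟩
        rw [mem_erase, hH, hH]
        by_cases hvc : (v, c) = (u, b)
        · obtain ⟨rfl, rfl⟩ := Prod.mk.inj hvc
          rw [upd_same]
          exact ⟨fun hh => absurd hh.2 hn, fun hh => absurd rfl hh.1⟩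
        · rw [upd_of_ne _ _ (fun e2 => hvc (by
            obtain ⟨e3, e4⟩ := Prod.mk.inj e2
            rw [e3, Bool.not_inj e4]))]
          exact ⟨fun hh => ⟨hvc, hh⟩, fun hh => hh.2⟩
      have hc := card_erase_of_mem ht
      have := Nat.find_min' hP ⟨_, x, himc', hxU, by rw [hsub]; omega, rfl⟩
      rw [hsub] at this
      omega
    have h4 := hdom.sum_def_le h.deg (h.sigma himc) (H e x) (filter_subset _ _)
    have h5 : ∑ t ∈ H e x, ((priv G p U univ K e t.1 t.2).card : ℝ) ≤ a * N + ε := by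
      have h6 : (((H e x).biUnion (fun t => priv G p U univ K e t.1 t.2)).card : ℝ) =
          ∑ t ∈ H e x, ((priv G p U univ K e t.1 t.2).card : ℝ) := by
        rw [card_biUnion]
        · push_cast; rfl
        · rintro ⟨u, b⟩ _ ⟨v, c⟩ ht' hne'
          exact priv_disjoint ((hH _ _ _ _).1 ht').1 hne'.symm
      rw [← h6]
      refine h.deg.card_le (x := x) (fun y hy => ?_)
      obtain ⟨t, ht, hy⟩ := mem_biUnion.1 hy
      exact hcomp t ht y hy
    rw [sum_sub_distrib, sum_const, nsmul_eq_mul] at h4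
    have h7 : (3 : ℝ) ≤ (H e x).card := by exact_mod_cast (show 3 ≤ (H e x).card by omega)
    have h8 := mul_le_mul_of_nonneg_right h7 (show 0 ≤ a * N + ε by positivity)
    linarith
  obtain ⟨⟨u, b⟩, ⟨v, c⟩, hne, hset⟩ := card_eq_two.1 h3
  have m1 := (hH e x u b).1 (by rw [hset]; simp)
  have m2 := (hH e x v c).1 (by rw [hset]; simp)
  refine ⟨e, himc, x, hxU, u, m1.1, !b, v, m2.1, !c, fun e2 => hne ?_, m1.2, m2.2, ?_⟩
  · obtain ⟨e3, e4⟩ := Prod.mk.inj e2
    rw [e3, Bool.not_inj e4]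
  · intro w hw d h1 h2' had
    have : (w, !d) ∈ H e x := (hH _ _ _ _).2 ⟨hw, by rwa [Bool.not_not]⟩
    rw [hset] at this
    rcases mem_insert.1 this with e2 | e2
    · obtain ⟨rfl, rfl⟩ := Prod.mk.inj e2
      exact h1 (by rw [Bool.not_not])
    · obtain ⟨rfl, rfl⟩ := Prod.mk.inj (mem_singleton.1 e2)
      exact h2' (by rw [Bool.not_not])

theorem IMC.pairTC {D : ℝ} (himc : IMC G p U univ K e) (hno : ¬ HasIT G p U univ) (hD : Deg G D)
    {x : V} (hx : x ∈ U) {u v : ι} (hu : u ∈ K) (hv : v ∈ K) {b c : Bool}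
    (hne : (v, c) ≠ (u, b))
    (hrest : ∀ w ∈ K, ∀ d, (w, d) ≠ (u, b) → (w, d) ≠ (v, c) → ¬ G.Adj x (e w d)) :
    (u ≠ v ∧ ((priv G p U univ K e u b).card : ℝ) + (priv G p U univ K e u (!b)).card +
      (priv G p U univ K e v c).card + (priv G p U univ K e v (!c)).card ≤ 3 * D) ∨
    (∀ y ∈ priv G p U univ K e u (!b), G.Adj x y) ∨
    (∀ y ∈ priv G p U univ K e v (!c), G.Adj x y) := by
  by_contra hc
  push Not at hc
  obtain ⟨hT, ⟨y₀, hy₀, hn₀⟩, ⟨z₀, hz₀, hm₀⟩⟩ := hc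
  have key : ∀ y ∈ priv G p U univ K e u (!b), ¬ G.Adj x y →
      ∀ z ∈ priv G p U univ K e v (!c), ¬ G.Adj x z →
      z ∈ priv G p U univ K (upd e u b y) v (!c) → False := by
    intro y hy hn z _ hm hz'
    obtain ⟨w', hw', ha⟩ := ((himc.exchange hno hu hy).exchange hno hv hz').dom hno x hx (mem_univ _)
    obtain ⟨w, hw, d, rfl⟩ := mem_ends.1 hw'
    by_cases h1 : (w, d) = (v, c)
    · obtain ⟨rfl, rfl⟩ := Prod.mk.inj h1
      rw [upd_same] at ha; exact hm ha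
    · rw [upd_of_ne _ _ h1] at ha
      by_cases h2 : (w, d) = (u, b)
      · obtain ⟨rfl, rfl⟩ := Prod.mk.inj h2
        rw [upd_same] at ha; exact hn ha
      · rw [upd_of_ne _ _ h2] at ha
        exact hrest w hw d h2 h1 ha
  by_cases huv : u = v
  · subst huv
    have hcb : c = !b := by
      have : c ≠ b := fun e2 => hne (by rw [e2])
      cases b <;> cases c <;> simp at this ⊢
    subst hcb
    refine key y₀ hy₀ hn₀ z₀ hz₀ hm₀ ?_
    rw [Bool.not_not] at hz₀ ⊢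
    obtain ⟨m1, -, m3⟩ := MP_bc5f1c_co.mem_priv.1 hz₀
    refine MP_bc5f1c_co.mem_priv.2 ⟨m1, ?_, fun w hw d h1 => ?_⟩
    · rw [upd_same]; exact (himc.biclique hno hu hy₀ hz₀).symm
    · rw [upd_of_ne _ _ h1]; exact m3 w hw d h1
  · have hcomp : ∀ y ∈ priv G p U univ K e u (!b) \ nb G x, ∀ z ∈ priv G p U univ K e v (!c) \ nb G x,
        G.Adj y z := by
      intro y hy z hz
      by_contra hn
      obtain ⟨hy1, hy2⟩ := mem_sdiff.1 hy
      obtain ⟨hz1, hz2⟩ := mem_sdiff.1 hz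
      refine key y hy1 (fun ha => hy2 (mem_nb.2 ha)) z hz1 (fun ha => hz2 (mem_nb.2 ha)) ?_
      obtain ⟨m1, m2, m3⟩ := MP_bc5f1c_co.mem_priv.1 hz1
      refine MP_bc5f1c_co.mem_priv.2 ⟨m1, ?_, fun w hw d h1 => ?_⟩
      · rw [upd_ne _ _ _ _ (Ne.symm huv)]; exact m2
      · by_cases h2 : (w, d) = (u, b)
        · obtain ⟨rfl, rfl⟩ := Prod.mk.inj h2
          rw [upd_same]; exact fun ha => hn ha.symm
        · rw [upd_of_ne _ _ h2]; exact m3 w hw d h1
    have dd : ∀ b' c', Disjoint (priv G p U univ K e u b') (priv G p U univ K e v c') :=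
      fun b' c' => priv_disjoint hv (fun e2 => huv (Prod.mk.inj e2).1.symm)
    have hy0 : y₀ ∈ priv G p U univ K e u (!b) \ nb G x :=
      mem_sdiff.2 ⟨hy₀, fun hh => hn₀ (mem_nb.1 hh)⟩
    have hz0 : z₀ ∈ priv G p U univ K e v (!c) \ nb G x :=
      mem_sdiff.2 ⟨hz₀, fun hh => hm₀ (mem_nb.1 hh)⟩
    have a1 := hD.add_le y₀ ((dd b (!c)).mono_right sdiff_subset)
      (fun z hz => himc.biclique hno hu hy₀ hz) (fun z hz => hcomp y₀ hy0 z hz)
    have a2 := hD.add_le z₀ ((dd (!b) c).symm.mono_right sdiff_subset)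
      (fun z hz => himc.biclique hno hv hz₀ hz) (fun z hz => (hcomp z hz z₀ hz0).symm)
    have a3 := hD.inter_add_le x (dd (!b) (!c))
    have a4 := card_split_nb G x (priv G p U univ K e u (!b))
    have a5 := card_split_nb G x (priv G p U univ K e v (!c))
    have := hT huv
    linarith

/-- Every edge lies in a spanning configuration. -/
def EdgeIMC (G : SimpleGraph V) (p : V → ι) (U : Finset V) : Prop :=
  ∀ x y, G.Adj x y → ∃ K e, IMC G p U univ K e ∧ ∃ u ∈ K, e u false = x ∧ e u true = y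

theorem Amb.edge_sets (h : Amb G p U a N ε) (hE : EdgeIMC G p U) {x y : V} (hxy : G.Adj x y) :
    ∃ X Y : Finset V, (∀ z ∈ X, G.Adj x z) ∧ (∀ z ∈ Y, G.Adj y z) ∧
      (∀ z ∈ X, ∀ w ∈ Y, G.Adj z w) ∧ a * N + ε - (N + 7 * a * ε) ≤ X.card ∧
      a * N + ε - (N + 7 * a * ε) ≤ Y.card := by
  obtain ⟨K, e, himc, u, hu, rfl, rfl⟩ := hE x y hxy
  have hdom := himc.dom h.noIT
  exact ⟨priv G p U univ K e u false, priv G p U univ K e u true,
    fun z hz => (mem_priv.1 hz).2.1.symm, fun z hz => (mem_priv.1 hz).2.1.symm,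
    fun z hz w hw => himc.biclique' h.noIT hu (b := false) hz hw,
    hdom.priv_ge h.deg (h.sigma himc) hu _, hdom.priv_ge h.deg (h.sigma himc) hu _⟩

theorem Amb.compC (h : Amb G p U a N ε) (hE : EdgeIMC G p U) (himc : IMC G p U univ K e)
    {x : V} {u v : ι} (hu : u ∈ K) (hv : v ∈ K) {b c : Bool} (hne : (v, c) ≠ (u, b))
    (hx : G.Adj x (e v c)) (hc : ∀ y ∈ priv G p U univ K e u (!b), G.Adj x y) :
    ((priv G p U univ K e u b).card : ℝ) ≤ N + 7 * a * ε ∨
      ((priv G p U univ K e u (!b)).card : ℝ) ≤ N + 7 * a * ε := by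
  obtain ⟨X, Y, h1, h2, h3, h4, h5⟩ := h.edge_sets hE hx
  by_cases hd : Disjoint X (priv G p U univ K e u (!b))
  · right
    have := h.deg.add_le x hd h1 hc
    linarith
  · left
    obtain ⟨y, hy1, hy2⟩ := not_disjoint_iff.1 hd
    have := h.deg.add_le y (X := Y) (Y := priv G p U univ K e u b)
      (disjoint_left.2 (fun z hz hz' => (mem_priv.1 hz').2.2 v hv c hne (h2 z hz).symm))
      (h3 y hy1) (fun z hz => himc.biclique h.noIT hu hy2 hz)
    linarith

theorem Amb.compC' (h : Amb G p U a N ε) (hE : EdgeIMC G p U) (himc : IMC G p U univ K e)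
    {x : V} {u v : ι} (hv : v ∈ K) {b c : Bool} (hne : u ≠ v)
    (hx : G.Adj x (e v c)) (hc : ∀ y ∈ priv G p U univ K e u (!b), G.Adj x y) :
    ((priv G p U univ K e v c).card : ℝ) ≤ N + 7 * a * ε ∨
      ((priv G p U univ K e u (!b)).card : ℝ) + (priv G p U univ K e v (!c)).card ≤
        a * N + ε + (N + 7 * a * ε) := by
  obtain ⟨X, Y, h1, h2, h3, h4, h5⟩ := h.edge_sets hE hx
  by_cases hd : Disjoint Y (priv G p U univ K e v c)
  · left
    have := h.deg.add_le (e v c) hd h2 (fun z hz => (mem_priv.1 hz).2.1.symm)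
    linarith
  · right
    obtain ⟨y, hy1, hy2⟩ := not_disjoint_iff.1 hd
    have a1 := h.deg.add_le y (X := X \ priv G p U univ K e v (!c))
      (Y := priv G p U univ K e v (!c)) sdiff_disjoint
      (fun z hz => (h3 z (mem_sdiff.1 hz).1 y hy1).symm)
      (fun z hz => himc.biclique' h.noIT hv hy2 hz)
    have a2 := h.deg.add_le x (X := priv G p U univ K e u (!b))
      (Y := X ∩ priv G p U univ K e v (!c))
      ((priv_disjoint hv (fun e2 => hne (Prod.mk.inj e2).1.symm)).mono_right inter_subset_right)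
      hc (fun z hz => h1 z (mem_inter.1 hz).1)
    have a3 := cardR_sdiff_inter X (priv G p U univ K e v (!c))
    linarith

/-- Two variables all of whose sides are almost full. -/
def FullTwo (G : SimpleGraph V) (p : V → ι) (U : Finset V) (m : ℝ) : Prop :=
  ∃ K e, IMC G p U univ K e ∧ ∃ w₁ ∈ K, ∃ w₂ ∈ K, w₁ ≠ w₂ ∧
    ∀ b, m ≤ (priv G p U univ K e w₁ b).card ∧ m ≤ (priv G p U univ K e w₂ b).card

theorem Amb.five (h : Amb G p U a N ε) (himc : IMC G p U univ K e) {u v w : ι} (hu : u ∈ K)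
    (hv : v ∈ K) (hw : w ∈ K) (huv : u ≠ v) (hwu : w ≠ u) (hwv : w ≠ v) (b c d : Bool) :
    5 * (a * N + ε) - 2 * (N + 7 * a * ε) ≤ (priv G p U univ K e u b).card +
      (priv G p U univ K e u (!b)).card + (priv G p U univ K e v c).card +
      (priv G p U univ K e v (!c)).card + (priv G p U univ K e w d).card := by
  have h1 := (himc.dom h.noIT).sum_def_le h.deg (h.sigma himc)
    {(u, b), (u, !b), (v, c), (v, !c), (w, d)} (by
      intro t ht
      simp only [mem_insert, mem_singleton] at ht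
      rcases ht with rfl | rfl | rfl | rfl | rfl <;> simp [hu, hv, hw])
  rw [sum_insert (by simp [huv, hwu.symm]), sum_insert (by simp [huv, hwu.symm]),
    sum_insert (by simp [hwv.symm]), sum_insert (by simp [hwv.symm]), sum_singleton] at h1
  simp only at h1
  linarith

theorem Amb.typeB (h : Amb G p U a N ε) (hE : EdgeIMC G p U) (himc : IMC G p U univ K e)
    (hs : 100 * a * ε ≤ N) :
    Tight G p U a (N / 2) 0 ∨ (a = 2 ∧ FullTwo G p U (2 * N + ε - 60 * ε)) := by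
  by_cases hpure : ∀ e', IMC G p U univ K e' → multi G p U univ K e' = ∅
  · exact Or.inl (h.pure himc hpure hs)
  right
  push Not at hpure
  have ha := h.haR
  have hε := h.hε
  have hN0 := h.hN
  clear himc
  obtain ⟨e, himc, x, hx, u, hu, b, v, hv, c, hne, a1, a2, hrest⟩ := h.exists_two hs (by
    obtain ⟨e, h1, h2⟩ := hpure
    exact ⟨e, h1, h2.ne_empty⟩)
  have hdom := himc.dom h.noIT
  have hge : ∀ u ∈ K, ∀ b, a * N + ε - (N + 7 * a * ε) ≤ (priv G p U univ K e u b).card :=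
    fun u hu b => hdom.priv_ge h.deg (h.sigma himc) hu b
  have hle : ∀ u b, ((priv G p U univ K e u b).card : ℝ) ≤ a * N + ε :=
    fun u b => (cardR_le (priv_subset_nb _ _)).trans (h.deg _)
  have hK4 : 4 ≤ K.card := by rw [h.cardK himc]; have := h.ha; omega
  have htwo : ∀ u v : ι, ∃ w₁ ∈ K, ∃ w₂ ∈ K, w₁ ≠ w₂ ∧ w₁ ≠ u ∧ w₁ ≠ v ∧ w₂ ≠ u ∧ w₂ ≠ v := by
    intro u v
    have h1 : 1 < (K \ {u, v}).card := by
      have := le_card_sdiff {u, v} K
      have := card_le_two (a := u) (b := v)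
      omega
    obtain ⟨w₁, m1, w₂, m2, h2⟩ := one_lt_card.1 h1
    simp only [mem_sdiff, mem_insert, mem_singleton, not_or] at m1 m2
    exact ⟨w₁, m1.1, w₂, m2.1, h2, m1.2.1, m1.2.2, m2.2.1, m2.2.2⟩
  have hcase : (∃ u ∈ K, ∃ v ∈ K, ∃ b c, u ≠ v ∧ ((priv G p U univ K e u b).card : ℝ) +
      (priv G p U univ K e u (!b)).card + (priv G p U univ K e v c).card +
      (priv G p U univ K e v (!c)).card ≤ 3 * (a * N + ε)) ∨
      ∃ u ∈ K, ∃ b, ((priv G p U univ K e u b).card : ℝ) ≤ N + 7 * a * ε := by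
    rcases himc.pairTC h.noIT h.deg hx hu hv hne hrest with ⟨h1, h2⟩ | h1 | h1
    · exact Or.inl ⟨u, hu, v, hv, b, c, h1, h2⟩
    · rcases h.compC hE himc hu hv hne a2 h1 with h2 | h2
      · exact Or.inr ⟨u, hu, _, h2⟩
      · exact Or.inr ⟨u, hu, _, h2⟩
    · rcases h.compC hE himc hv hu hne.symm a1 h1 with h2 | h2
      · exact Or.inr ⟨v, hv, _, h2⟩
      · exact Or.inr ⟨v, hv, _, h2⟩
  have ha2 : a = 2 := by
    by_contra hne2
    have h3 : (3 : ℝ) ≤ a := by exact_mod_cast (show 3 ≤ a by have := h.ha; omega)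
    have haN : 3 * N ≤ a * N := mul_le_mul_of_nonneg_right h3 hN0.le
    rcases hcase with ⟨u, hu, v, hv, b, c, h1, h2⟩ | ⟨u, hu, b, h2⟩
    · obtain ⟨w, hw, -, -, -, h4, h5, -⟩ := htwo u v
      have := h.five himc hu hv hw h1 h4 h5 b c false
      have := hle w false
      linarith
    · have := hge u hu b
      linarith
  refine ⟨ha2, K, e, himc, ?_⟩
  subst ha2
  have hfour : ∀ u ∈ K, ∀ v ∈ K, ∀ b c, u ≠ v → ((priv G p U univ K e u b).card : ℝ) +
      (priv G p U univ K e u (!b)).card + (priv G p U univ K e v c).card +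
      (priv G p U univ K e v (!c)).card ≤ 6 * N + 33 * ε → ∃ w₁ ∈ K, ∃ w₂ ∈ K, w₁ ≠ w₂ ∧
      ∀ b, 2 * N + ε - 60 * ε ≤ (priv G p U univ K e w₁ b).card ∧
        2 * N + ε - 60 * ε ≤ (priv G p U univ K e w₂ b).card := by
    intro u hu v hv b c huv h1
    obtain ⟨w₁, m1, w₂, m2, m3, m4, m5, m6, m7⟩ := htwo u v
    refine ⟨w₁, m1, w₂, m2, m3, fun d => ?_⟩
    have b1 := h.five himc hu hv m1 huv m4 m5 b c d
    have b2 := h.five himc hu hv m2 huv m6 m7 b c d
    push_cast at b1 b2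
    constructor <;> linarith
  rcases hcase with ⟨u, hu, v, hv, b, c, h1, h2⟩ | ⟨u, hu, b, h2⟩
  · refine hfour u hu v hv b c h1 ?_
    push_cast at h2; linarith
  · push_cast at h2 hle
    by_cases hM : ∃ v ∈ K, u ≠ v ∧ ∃ c, ∃ x ∈ U, G.Adj x (e u b) ∧ G.Adj x (e v c) ∧
        ∀ w ∈ K, ∀ d, (w, d) ≠ (u, b) → (w, d) ≠ (v, c) → ¬ G.Adj x (e w d)
    · obtain ⟨v, hv, huv, c, x, hx, a1, a2, hrest⟩ := hM
      have hne : (v, c) ≠ (u, b) := fun e2 => huv (Prod.mk.inj e2).1.symm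
      refine hfour u hu v hv b c huv ?_
      have l1 := hle u (!b)
      have l2 := hle v c
      have l3 := hle v (!c)
      rcases himc.pairTC h.noIT h.deg hx hu hv hne hrest with ⟨-, h3⟩ | h3 | h3
      · push_cast at h3; linarith
      · rcases h.compC' hE himc hv huv a2 h3 with h4 | h4 <;> push_cast at h4 <;> linarith
      · rcases h.compC hE himc hv hu hne.symm a1 h3 with h4 | h4 <;> push_cast at h4 <;> linarith
    · obtain ⟨w₁, m1, w₂, m2, m3, m4, -, m6, -⟩ := htwo u u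
      have key : ∀ w ∈ K, w ≠ u → ∀ d, 2 * N + ε - 60 * ε ≤ (priv G p U univ K e w d).card := by
        intro w hw hwu d
        have := hdom.priv_pair_ge h.deg (h.sigma himc) hu hw (b := b) (c := d)
          (fun e2 => hwu (Prod.mk.inj e2).1.symm) ∅ (fun x hx b1 b2 b3 =>
            absurd ⟨w, hw, hwu.symm, d, x, (mem_pt.1 hx).1, b1, b2, b3⟩ hM)
        rw [card_empty] at this
        push_cast at this
        linarith
      exact ⟨w₁, m1, w₂, m2, m3, fun d => ⟨key w₁ m1 m4 d, key w₂ m2 m6 d⟩⟩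

end Pool.Agent.MP_bc5f1c_co

end MrgPart1

-- ======== part 2: formerly Pool.Agent.MP_bc5f1c_co.CaseF
section MrgPart2

/-!
Five parts, two full variables: the case analysis.
-/

set_option autoImplicit false
set_option linter.unusedSectionVars false
set_option linter.unusedVariables false

open Finset

namespace Pool.Agent.MP_bc5f1c_co

variable {V ι : Type*} [Fintype V] [DecidableEq V] [DecidableEq ι] [Fintype ι] [Nonempty V]
variable {G : SimpleGraph V} {p : V → ι} {U : Finset V} {N ε μ : ℝ}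

/-- A large side with its support. -/
structure Side (p : V → ι) (U Gt E : Finset V) (m : ℝ) (s : Finset V) (x : Finset ι) : Prop where
  sub : s ⊆ U
  big : m ≤ s.card
  dG : Disjoint s Gt
  sup : ∀ v ∈ s, v ∉ E → p v ∈ x

/-- No transversal of the parts left uncovered by two supports. -/
def NoExt (G : SimpleGraph V) (p : V → ι) (Gt : Finset V) (x x' : Finset ι) : Prop :=
  ∀ J : Finset ι, J.card ≤ 3 → (∀ j, j ∉ J → j ∈ x ∨ j ∈ x') → ¬ HasIT G p Gt J

/-- The data of the case of two full variables. -/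
structure FD (G : SimpleGraph V) (p : V → ι) (U : Finset V) (N ε μ : ℝ) (Gt E : Finset V)
    (L1 R1 L2 R2 : Finset V) (x1 y1 x2 y2 : Finset ι) : Prop where
  amb : Amb G p U 2 N ε
  hεμ : ε ≤ μ
  hμ : 100 * μ ≤ N
  sL1 : Side p U Gt E (2 * N - μ) L1 x1
  sR1 : Side p U Gt E (2 * N - μ) R1 y1
  sL2 : Side p U Gt E (2 * N - μ) L2 x2
  sR2 : Side p U Gt E (2 * N - μ) R2 y2
  c1 : ∀ v ∈ L1, ∀ w ∈ R1, G.Adj v w
  c2 : ∀ v ∈ L2, ∀ w ∈ R2, G.Adj v w
  dLL : Disjoint L1 L2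
  dLR : Disjoint L1 R2
  dRL : Disjoint R1 L2
  dRR : Disjoint R1 R2
  GtU : Gt ⊆ U
  cov : ∀ v ∈ U, v ∉ E → v ∈ Gt ∨ v ∈ L1 ∨ v ∈ R1 ∨ v ∈ L2 ∨ v ∈ R2
  hE : (E.card : ℝ) ≤ μ
  d1 : ∀ j, j ∈ x1 → j ∈ y1 → False
  d2 : ∀ j, j ∈ x2 → j ∈ y2 → False
  np : ∀ k l, k ∈ x1 → l ∈ y1 → k ∈ x2 → l ∈ y2 → False
  np' : ∀ k l, k ∈ x1 → l ∈ y1 → k ∈ y2 → l ∈ x2 → False
  eLL : NoExt G p Gt x1 x2
  eLR : NoExt G p Gt x1 y2
  eRL : NoExt G p Gt y1 x2
  eRR : NoExt G p Gt y1 y2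

variable {Gt E L1 R1 L2 R2 : Finset V} {x1 y1 x2 y2 : Finset ι}

theorem NoExt.symm {x x' : Finset ι} (h : NoExt G p Gt x x') : NoExt G p Gt x' x :=
  fun J h1 h2 => h J h1 (fun j hj => (h2 j hj).symm)

theorem FD.swap (h : FD G p U N ε μ Gt E L1 R1 L2 R2 x1 y1 x2 y2) :
    FD G p U N ε μ Gt E L2 R2 L1 R1 x2 y2 x1 y1 :=
  ⟨h.amb, h.hεμ, h.hμ, h.sL2, h.sR2, h.sL1, h.sR1, h.c2, h.c1, h.dLL.symm, h.dRL.symm, h.dLR.symm,
    h.dRR.symm, h.GtU, fun v hv hE => by have := h.cov v hv hE; tauto, h.hE, h.d2, h.d1,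
    fun k l a b c d => h.np k l c d a b, fun k l a b c d => h.np' l k d c b a,
    h.eLL.symm, h.eRL.symm, h.eLR.symm, h.eRR.symm⟩

theorem FD.flip2 (h : FD G p U N ε μ Gt E L1 R1 L2 R2 x1 y1 x2 y2) :
    FD G p U N ε μ Gt E L1 R1 R2 L2 x1 y1 y2 x2 :=
  ⟨h.amb, h.hεμ, h.hμ, h.sL1, h.sR1, h.sR2, h.sL2, h.c1, fun v hv w hw => (h.c2 w hw v hv).symm,
    h.dLR, h.dLL, h.dRR, h.dRL, h.GtU, fun v hv hE => by have := h.cov v hv hE; tauto, h.hE, h.d1,
    fun j a b => h.d2 j b a, h.np', h.np, h.eLR, h.eLL, h.eRR, h.eRL⟩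

theorem FD.flip1 (h : FD G p U N ε μ Gt E L1 R1 L2 R2 x1 y1 x2 y2) :
    FD G p U N ε μ Gt E R1 L1 L2 R2 y1 x1 x2 y2 := h.swap.flip2.swap

/-- The typical vertices of two parts are completely joined. -/
def KK (G : SimpleGraph V) (p : V → ι) (Gt : Finset V) (k l : ι) : Prop :=
  ∀ v ∈ pt p Gt {k}, ∀ w ∈ pt p Gt {l}, G.Adj v w

theorem KK.symm {k l : ι} (h : KK G p Gt k l) : KK G p Gt l k :=
  fun v hv w hw => (h w hw v hv).symm

theorem mem_pt1 {W : Finset V} {k : ι} {x : V} : x ∈ pt p W {k} ↔ x ∈ W ∧ p x = k := by simp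

theorem hasIT_single {W : Finset V} {x : V} (hx : x ∈ W) : HasIT G p W {p x} :=
  ⟨fun _ => x, fun i hi => ⟨hx, (mem_singleton.1 hi).symm⟩, fun i hi j hj hij =>
    absurd ((mem_singleton.1 hi).trans (mem_singleton.1 hj).symm) hij⟩

theorem hasIT_pair {W : Finset V} {x y : V} (hx : x ∈ W) (hy : y ∈ W) (hn : ¬ G.Adj x y) :
    HasIT G p W {p x, p y} :=
  IsIT.insert (T := fun _ => y) ⟨fun i hi => ⟨hy, (mem_singleton.1 hi).symm⟩, fun i hi j hj hij =>
    absurd ((mem_singleton.1 hi).trans (mem_singleton.1 hj).symm) hij⟩ hx (fun _ _ => hn)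

theorem hasIT_triple {W : Finset V} {x y z : V} (hx : x ∈ W) (hy : y ∈ W) (hz : z ∈ W)
    (h1 : ¬ G.Adj x y) (h2 : ¬ G.Adj x z) (h3 : ¬ G.Adj y z) : HasIT G p W {p x, p y, p z} := by
  refine IsIT.insert (T := fun i => if i = p y then y else z) ⟨fun i hi => ?_, ?_⟩ hx ?_
  · dsimp only
    split_ifs with hc
    · exact ⟨hy, hc.symm⟩
    · exact ⟨hz, (mem_singleton.1 ((mem_insert.1 hi).resolve_left hc)).symm⟩
  · intro i hi j hj hij
    dsimp only
    split_ifs with c1 c2 c2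
    · exact G.irrefl
    · exact h3
    · exact fun ha => h3 ha.symm
    · exact G.irrefl
  · intro i _
    split_ifs
    · exact h1
    · exact h2

theorem NoExt.kk {x x' : Finset ι} (h : NoExt G p Gt x x') {k l : ι}
    (hc : ∀ j, j ≠ k → j ≠ l → j ∈ x ∨ j ∈ x') : KK G p Gt k l := by
  intro v hv w hw
  by_contra hn
  obtain ⟨h1, rfl⟩ := mem_pt1.1 hv
  obtain ⟨h2, rfl⟩ := mem_pt1.1 hw
  refine h _ (card_le_two.trans (by norm_num)) (fun j hj => ?_) (hasIT_pair h1 h2 hn)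
  simp only [mem_insert, mem_singleton, not_or] at hj
  exact hc j hj.1 hj.2

theorem NoExt.one {x x' : Finset ι} (h : NoExt G p Gt x x') {k : ι}
    (hc : ∀ j, j ≠ k → j ∈ x ∨ j ∈ x') : k ∉ x ∧ k ∉ x' ∧ pt p Gt {k} = ∅ := by
  have h0 : ¬ (k ∈ x ∨ k ∈ x') := by
    intro hk
    refine h ∅ (by simp) (fun j _ => ?_) ⟨fun _ => Classical.arbitrary V, by simp, by simp⟩
    by_cases hj : j = k
    · exact hj ▸ hk
    · exact hc j hj
  refine ⟨fun a => h0 (Or.inl a), fun a => h0 (Or.inr a), eq_empty_of_forall_notMem ?_⟩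
  intro v hv
  obtain ⟨h1, rfl⟩ := mem_pt1.1 hv
  exact h _ (by simp) (fun j hj => hc j (by simpa using hj)) (hasIT_single h1)

theorem NoExt.dich {x x' : Finset ι} (h : NoExt G p Gt x x') {k l : ι}
    (hc : ∀ j, j ≠ k → j ≠ l → j ∈ x ∨ j ∈ x') :
    (k ∉ x ∧ k ∉ x' ∧ pt p Gt {k} = ∅) ∨ (l ∉ x ∧ l ∉ x' ∧ pt p Gt {l} = ∅) ∨
    (k ∉ x ∧ k ∉ x' ∧ l ∉ x ∧ l ∉ x' ∧ (pt p Gt {k}).Nonempty ∧ (pt p Gt {l}).Nonempty ∧
      KK G p Gt k l) := by
  by_cases hk : k ∈ x ∨ k ∈ x'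
  · refine Or.inr (Or.inl (h.one (fun j hj => ?_)))
    by_cases hjk : j = k
    · exact hjk ▸ hk
    · exact hc j hjk hj
  by_cases hl : l ∈ x ∨ l ∈ x'
  · refine Or.inl (h.one (fun j hj => ?_))
    by_cases hjk : j = l
    · exact hjk ▸ hl
    · exact hc j hj hjk
  push Not at hk hl
  rcases (pt p Gt {k}).eq_empty_or_nonempty with h1 | h1
  · exact Or.inl ⟨hk.1, hk.2, h1⟩
  rcases (pt p Gt {l}).eq_empty_or_nonempty with h2 | h2
  · exact Or.inr (Or.inl ⟨hl.1, hl.2, h2⟩)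
  exact Or.inr (Or.inr ⟨hk.1, hk.2, hl.1, hl.2, h1, h2, h.kk hc⟩)

section numeric

variable (h : FD G p U N ε μ Gt E L1 R1 L2 R2 x1 y1 x2 y2)
include h

theorem FD.deg : Deg G (2 * N + ε) := by
  have := h.amb.deg
  push_cast at this
  exact this

theorem FD.cardL1 : (L1.card : ℝ) ≤ 2 * N + ε := by
  have := h.hμ
  have := h.amb.hN
  obtain ⟨w, hw⟩ := nonempty_of_pos (A := R1) (by have := h.sR1.big; linarith)
  exact h.deg.card_le (x := w) (fun v hv => (h.c1 v hv w hw).symm)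

theorem FD.ne1 : x1.Nonempty := by
  have := h.hμ
  have := h.amb.hN
  obtain ⟨v, h1, h2⟩ := exists_mem_not_mem_of_lt (A := L1) (B := E)
    (by have := h.sL1.big; have := h.hE; linarith)
  exact ⟨_, h.sL1.sup v h1 h2⟩

theorem FD.cov1 {k : ι} (a : k ∉ y1) (b : k ∉ x2) (c : k ∉ y2) {v : V} (hv : v ∈ U) (hp : p v = k)
    (hE : v ∉ E) : v ∈ pt p Gt {k} ∨ v ∈ L1 := by
  rcases h.cov v hv hE with h1 | h1 | h1 | h1 | h1
  · exact Or.inl (mem_pt1.2 ⟨h1, hp⟩)
  · exact Or.inr h1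
  · exact absurd (hp ▸ h.sR1.sup v h1 hE) a
  · exact absurd (hp ▸ h.sL2.sup v h1 hE) b
  · exact absurd (hp ▸ h.sR2.sup v h1 hE) c

theorem FD.g_ge1 {k : ι} (a : k ∉ y1) (b : k ∉ x2) (c : k ∉ y2) :
    N - 3 * μ ≤ (pt p Gt {k}).card := by
  have h1 : pt p U {k} ⊆ (E ∪ pt p Gt {k}) ∪ L1 := by
    intro v hv
    by_cases hE : v ∈ E
    · exact mem_union_left _ (mem_union_left _ hE)
    · rcases h.cov1 a b c (mem_pt1.1 hv).1 (mem_pt1.1 hv).2 hE with h2 | h2
      · exact mem_union_left _ (mem_union_right _ h2)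
      · exact mem_union_right _ h2
  have h2 := cardR_le_add h1
  have h3 := cardR_union_le E (pt p Gt {k})
  have h4 := h.amb.lo k
  have := h.cardL1
  have := h.hE
  have := h.hεμ
  push_cast at h4
  linarith

theorem FD.g_ge0 {k : ι} (a' : k ∉ x1) (a : k ∉ y1) (b : k ∉ x2) (c : k ∉ y2) :
    3 * N - 2 * μ ≤ (pt p Gt {k}).card := by
  have h1 : pt p U {k} ⊆ E ∪ pt p Gt {k} := by
    intro v hv
    by_cases hE : v ∈ E
    · exact mem_union_left _ hE
    · rcases h.cov1 a b c (mem_pt1.1 hv).1 (mem_pt1.1 hv).2 hE with h2 | h2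
      · exact mem_union_right _ h2
      · exact absurd ((mem_pt1.1 hv).2 ▸ h.sL1.sup v h2 hE) a'
  have h2 := cardR_le_add h1
  have h4 := h.amb.lo k
  have := h.hE
  have := h.hεμ
  push_cast at h4
  linarith

theorem FD.emp2 {k : ι} (he : pt p Gt {k} = ∅) : k ∈ x2 ∨ k ∈ y2 := by
  by_contra hc
  push Not at hc
  have := h.hμ
  have := h.amb.hN
  by_cases h1 : k ∈ y1
  · have := h.flip1.g_ge1 (fun a => h.d1 k a h1) hc.1 hc.2
    rw [he] at this; simp at this; linarith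
  · have := h.g_ge1 h1 hc.1 hc.2
    rw [he] at this; simp at this; linarith

theorem FD.emp1 {k : ι} (he : pt p Gt {k} = ∅) : k ∈ x1 ∨ k ∈ y1 := h.swap.emp2 he

theorem FD.meets {k l : ι} (hk : KK G p Gt k l) (hne : (pt p Gt {k}).Nonempty) (a' : l ∉ x1)
    (a : l ∉ y1) (b : l ∉ x2) (c : l ∉ y2) : False := by
  obtain ⟨v, hv⟩ := hne
  have := h.deg.card_le (hk v hv)
  have := h.g_ge0 a' a b c
  have := h.hμ
  have := h.amb.hN
  have := h.hεμ
  linarith

theorem FD.deg2 {k l m : ι} (hne : (pt p Gt {k}).Nonempty) (h1 : KK G p Gt k l)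
    (h2 : KK G p Gt k m) (hlm : l ≠ m) :
    ((pt p Gt {l}).card : ℝ) + (pt p Gt {m}).card ≤ 2 * N + ε := by
  obtain ⟨v, hv⟩ := hne
  exact h.deg.add_le v (disjoint_left.2 (fun w a b =>
    hlm ((mem_pt1.1 a).2.symm.trans (mem_pt1.1 b).2))) (h1 v hv) (h2 v hv)

theorem FD.gsum {a b c d e : ι} (hF : ∀ j, j = a ∨ j = b ∨ j = c ∨ j = d ∨ j = e) :
    7 * N - 10 * μ ≤ ((pt p Gt {a}).card : ℝ) + (pt p Gt {b}).card + (pt p Gt {c}).card +
      (pt p Gt {d}).card + (pt p Gt {e}).card := by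
  have h1 : pt p U univ ⊆ ((((E ∪ L1) ∪ R1) ∪ L2) ∪ R2) ∪ ((((pt p Gt {a} ∪ pt p Gt {b}) ∪
      pt p Gt {c}) ∪ pt p Gt {d}) ∪ pt p Gt {e}) := by
    intro v hv
    simp only [mem_union, mem_pt1]
    by_cases hE : v ∈ E
    · tauto
    · have := h.cov v (mem_pt.1 hv).1 hE
      have := hF (p v)
      tauto
  have h2 := cardR_le_add h1
  have h3 := card_pt_ge (S := univ) (fun i _ => h.amb.lo i)
  rw [card_univ, h.amb.card] at h3
  have a1 := cardR_union_le (((E ∪ L1) ∪ R1) ∪ L2) R2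
  have a2 := cardR_union_le ((E ∪ L1) ∪ R1) L2
  have a3 := cardR_union_le (E ∪ L1) R1
  have a4 := cardR_union_le E L1
  have b1 := cardR_union_le (((pt p Gt {a} ∪ pt p Gt {b}) ∪ pt p Gt {c}) ∪ pt p Gt {d}) (pt p Gt {e})
  have b2 := cardR_union_le ((pt p Gt {a} ∪ pt p Gt {b}) ∪ pt p Gt {c}) (pt p Gt {d})
  have b3 := cardR_union_le (pt p Gt {a} ∪ pt p Gt {b}) (pt p Gt {c})
  have b4 := cardR_union_le (pt p Gt {a}) (pt p Gt {b})
  have := h.cardL1
  have := h.flip1.cardL1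
  have := h.swap.cardL1
  have := h.swap.flip1.cardL1
  have := h.hE
  have := h.hεμ
  push_cast at h3
  linarith

theorem FD.in_supp {P : Finset ι} (hP : x1 ⊆ P) : 2 * N - 2 * μ ≤ (pt p L1 P).card := by
  have h1 : L1 ⊆ E ∪ pt p L1 P := by
    intro v hv
    by_cases hE : v ∈ E
    · exact mem_union_left _ hE
    · exact mem_union_right _ (mem_pt.2 ⟨hv, hP (h.sL1.sup v hv hE)⟩)
  have := cardR_le_add h1
  have := h.sL1.big
  have := h.hE
  linarith

theorem FD.not_single {k : ι} (h1 : x1 ⊆ {k}) (h2 : x2 ⊆ {k}) : False := by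
  have a1 := h.in_supp h1
  have a2 := h.swap.in_supp h2
  have a3 := cardR_add_le (C := pt p univ {k}) (h.dLL.mono (pt_subset p L1 {k}) (pt_subset p L2 {k}))
    (pt_mono (subset_univ _) subset_rfl) (pt_mono (subset_univ _) subset_rfl)
  have a4 := h.amb.hi k
  have := h.hμ
  have := h.amb.hN
  push_cast at a4
  linarith

end numeric

theorem mkF {k l : ι} (hkl : k ≠ l) (X Y L Z E' : Finset V) (hXY : ∀ v ∈ X, ∀ w ∈ Y, G.Adj v w)
    (hk : ∀ v ∈ U, p v = k → v ∉ E' → v ∈ X ∨ v ∈ L)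
    (hl : ∀ v ∈ U, p v = l → v ∉ E' → v ∈ Y ∨ v ∈ L) (hZ : Z ⊆ U)
    (hZ' : ∀ z ∈ Z, p z ≠ k ∧ p z ≠ l) (hLZ : ∀ v ∈ L, ∀ z ∈ Z, G.Adj v z) :
    Tight G p U 2 Z.card E'.card := by
  refine ⟨{k, l}, card_pair hkl, L, Z, E', hZ, fun z hz => by simpa using hZ' z hz, le_rfl, hLZ,
    le_rfl, ?_⟩
  rintro ⟨T, h1, h2⟩
  have m1 : k ∈ ({k, l} : Finset ι) := by simp
  have m2 : l ∈ ({k, l} : Finset ι) := by simp
  obtain ⟨a1, a2⟩ := mem_sdiff.1 (h1 k m1).1
  obtain ⟨b1, b2⟩ := mem_sdiff.1 (h1 l m2).1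
  rw [mem_union, not_or] at a2 b2
  exact h2 k m1 l m2 hkl (hXY _ ((hk _ a1 (h1 k m1).2 a2.2).resolve_right a2.1) _
    ((hl _ b1 (h1 l m2).2 b2.2).resolve_right b2.1))

section patterns

variable (h : FD G p U N ε μ Gt E L1 R1 L2 R2 x1 y1 x2 y2)
include h

theorem FD.zside : N / 2 ≤ (R1 \ E).card := by
  have h4 := cardR_sdiff_inter R1 E
  have h5 : ((R1 ∩ E).card : ℝ) ≤ E.card := cardR_le inter_subset_right
  have := h.sR1.big
  have := h.hE
  have := h.hμ
  have := h.amb.hN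
  linarith

theorem FD.mu0 : 0 ≤ μ := h.amb.hε.trans h.hεμ

theorem FD.pat1 {k l : ι} (hkl : k ≠ l) (hK : KK G p Gt k l) (a1 : k ∉ y1) (a2 : k ∉ x2)
    (a3 : k ∉ y2) (b1 : l ∉ y1) (b2 : l ∉ x2) (b3 : l ∉ y2) : Tight G p U 2 (N / 2) (10 * μ) := by
  refine (mkF hkl _ _ L1 (R1 \ E) E hK (fun v hv hp hE => h.cov1 a1 a2 a3 hv hp hE)
    (fun v hv hp hE => h.cov1 b1 b2 b3 hv hp hE) (sdiff_subset.trans h.sR1.sub) (fun z hz => ?_)
    (fun v hv z hz => h.c1 v hv z (mem_sdiff.1 hz).1)).mono h.zside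
    (by have := h.hE; have := h.mu0; linarith)
  have := h.sR1.sup z (mem_sdiff.1 hz).1 (mem_sdiff.1 hz).2
  exact ⟨fun e => a1 (e ▸ this), fun e => b1 (e ▸ this)⟩

theorem FD.pat2 {k l : ι} (hkl : k ≠ l)
    (hg : ((pt p Gt {k}).card : ℝ) + (pt p Gt {l}).card ≤ 6 * μ) (a1 : k ∉ y1) (a3 : k ∉ y2)
    (b1 : l ∉ y1) (b2 : l ∉ x2) : Tight G p U 2 (N / 2) (10 * μ) := by
  refine (mkF hkl L2 R2 L1 (R1 \ E) (E ∪ (pt p Gt {k} ∪ pt p Gt {l})) h.c2 ?_ ?_
    (sdiff_subset.trans h.sR1.sub) (fun z hz => ?_)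
    (fun v hv z hz => h.c1 v hv z (mem_sdiff.1 hz).1)).mono h.zside ?_
  · intro v hv hp hE
    simp only [mem_union, mem_pt1, not_or] at hE
    rcases h.cov v hv hE.1 with h1 | h1 | h1 | h1 | h1
    · exact absurd ⟨h1, hp⟩ hE.2.1
    · exact Or.inr h1
    · exact absurd (hp ▸ h.sR1.sup v h1 hE.1) a1
    · exact Or.inl h1
    · exact absurd (hp ▸ h.sR2.sup v h1 hE.1) a3
  · intro v hv hp hE
    simp only [mem_union, mem_pt1, not_or] at hE
    rcases h.cov v hv hE.1 with h1 | h1 | h1 | h1 | h1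
    · exact absurd ⟨h1, hp⟩ hE.2.2
    · exact Or.inr h1
    · exact absurd (hp ▸ h.sR1.sup v h1 hE.1) b1
    · exact absurd (hp ▸ h.sL2.sup v h1 hE.1) b2
    · exact Or.inl h1
  · have := h.sR1.sup z (mem_sdiff.1 hz).1 (mem_sdiff.1 hz).2
    exact ⟨fun e => a1 (e ▸ this), fun e => b1 (e ▸ this)⟩
  · have := cardR_union_le E (pt p Gt {k} ∪ pt p Gt {l})
    have := cardR_union_le (pt p Gt {k}) (pt p Gt {l})
    have := h.hE
    have := h.mu0
    linarith

theorem FD.pat2' {k l : ι} (hkl : k ≠ l) (e1 : pt p Gt {k} = ∅) (e2 : pt p Gt {l} = ∅)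
    (a1 : k ∉ y1) (a3 : k ∉ y2) (b1 : l ∉ y1) (b2 : l ∉ x2) : Tight G p U 2 (N / 2) (10 * μ) :=
  h.pat2 hkl (by rw [e1, e2]; have := h.mu0; simp; linarith) a1 a3 b1 b2

theorem FD.pat34 {k l : ι} (hkl : k ≠ l) (a1 : k ∉ y1) (a2 : k ∉ x2) (a3 : k ∉ y2) (b1 : l ∉ x1)
    (b2 : l ∉ x2) (b3 : l ∉ y2) (L Z : Finset V) (hZ : Z ⊆ U) (hZ' : ∀ z ∈ Z, p z ≠ k ∧ p z ≠ l)
    (hLZ : ∀ v ∈ L, ∀ z ∈ Z, G.Adj v z) :
    Tight G p U 2 Z.card (μ + ((pt p Gt {k} ∪ pt p Gt {l}) \ L).card) := by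
  refine (mkF hkl L1 R1 L Z (E ∪ ((pt p Gt {k} ∪ pt p Gt {l}) \ L)) h.c1 ?_ ?_ hZ hZ' hLZ).mono
    le_rfl ((cardR_union_le _ _).trans (by have := h.hE; linarith))
  · intro v hv hp hE
    rw [mem_union, not_or] at hE
    rcases h.cov1 a1 a2 a3 hv hp hE.1 with h1 | h1
    · right
      by_contra hc
      exact hE.2 (mem_sdiff.2 ⟨mem_union_left _ h1, hc⟩)
    · exact Or.inl h1
  · intro v hv hp hE
    rw [mem_union, not_or] at hE
    rcases h.flip1.cov1 b1 b2 b3 hv hp hE.1 with h1 | h1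
    · right
      by_contra hc
      exact hE.2 (mem_sdiff.2 ⟨mem_union_right _ h1, hc⟩)
    · exact Or.inl h1

end patterns

/-- Five distinct indices exhausting the index set. -/
structure Five (a b c d e : ι) : Prop where
  all : ∀ j, j = a ∨ j = b ∨ j = c ∨ j = d ∨ j = e
  ab : a ≠ b
  ac : a ≠ c
  ad : a ≠ d
  ae : a ≠ e
  bc : b ≠ c
  bd : b ≠ d
  be : b ≠ e
  cd : c ≠ d
  ce : c ≠ e
  de : d ≠ e

theorem Five.s12 {a b c d e : ι} (h : Five a b c d e) : Five b a c d e :=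
  ⟨fun j => by have := h.all j; tauto, h.ab.symm, h.bc, h.bd, h.be, h.ac, h.ad, h.ae, h.cd, h.ce, h.de⟩

theorem Five.s34 {a b c d e : ι} (h : Five a b c d e) : Five a b d c e :=
  ⟨fun j => by have := h.all j; tauto, h.ab, h.ad, h.ac, h.ae, h.bd, h.bc, h.be, h.cd.symm, h.de, h.ce⟩

theorem Five.s45 {a b c d e : ι} (h : Five a b c d e) : Five a b c e d :=
  ⟨fun j => by have := h.all j; tauto, h.ab, h.ac, h.ae, h.ad, h.bc, h.be, h.bd, h.ce, h.cd, h.de.symm⟩

theorem Five.sw {a b c d e : ι} (h : Five a b c d e) : Five c d a b e :=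
  ⟨fun j => by have := h.all j; tauto, h.cd, h.ac.symm, h.bc.symm, h.ce, h.ad.symm, h.bd.symm, h.de,
    h.ab, h.ae, h.be⟩

theorem five_of_four (hc : Fintype.card ι = 5) {a b c d : ι} (ab : a ≠ b) (ac : a ≠ c) (ad : a ≠ d)
    (bc : b ≠ c) (bd : b ≠ d) (cd : c ≠ d) : ∃ e, Five a b c d e := by
  have h1 : ({a, b, c, d} : Finset ι).card = 4 := by
    rw [card_insert_of_notMem (by simp [ab, ac, ad]), card_insert_of_notMem (by simp [bc, bd]),
      card_pair cd]
  obtain ⟨e, he⟩ := card_eq_one.1 (show ({a, b, c, d} : Finset ι)ᶜ.card = 1 by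
    rw [Finset.card_compl, hc, h1])
  have h2 : ∀ j, j ∉ ({a, b, c, d} : Finset ι) ↔ j = e := fun j => by
    rw [← mem_compl, he, mem_singleton]
  have h3 := (h2 e).2 rfl
  simp only [mem_insert, mem_singleton, not_or] at h2 h3
  refine ⟨e, fun j => ?_, ab, ac, ad, Ne.symm h3.1, bc, bd, Ne.symm h3.2.1, cd, Ne.symm h3.2.2.1,
    Ne.symm h3.2.2.2⟩
  have := (h2 j).1
  tauto

theorem five_of_three (hc : Fintype.card ι = 5) {a b c : ι} (ab : a ≠ b) (ac : a ≠ c)
    (bc : b ≠ c) : ∃ d e, Five a b c d e := by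
  obtain ⟨d, hd⟩ : (({a, b, c} : Finset ι)ᶜ).Nonempty := by
    rw [← card_pos, Finset.card_compl, hc]
    have := card_le_three (a := a) (b := b) (c := c)
    omega
  simp only [mem_compl, mem_insert, mem_singleton, not_or] at hd
  obtain ⟨e, he⟩ := five_of_four hc ab ac (Ne.symm hd.1) bc (Ne.symm hd.2.1) (Ne.symm hd.2.2)
  exact ⟨d, e, he⟩

section tree

variable {q q' r k l : ι}

theorem FD.contra4 (h : FD G p U N ε μ Gt E L1 R1 L2 R2 x1 y1 x2 y2) {a b c d : ι}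
    (hF : ∀ j, j = a ∨ j = b ∨ j = c ∨ j = d ∨ j = k) (h1 : KK G p Gt a b) (h2 : KK G p Gt a c)
    (h3 : KK G p Gt c d) (bc : b ≠ c) (da : d ≠ a) (n1 : (pt p Gt {a}).Nonempty)
    (n2 : (pt p Gt {c}).Nonempty) (he : pt p Gt {k} = ∅) : False := by
  have a1 := h.deg2 n1 h1 h2 bc
  have a2 := h.deg2 n2 h3 h2.symm da
  have a3 := h.gsum hF
  rw [he] at a3
  have := h.hμ
  have := h.hεμ
  have := h.amb.hN
  simp only [card_empty, Nat.cast_zero] at a3
  linarith

theorem FD.caseA (h : FD G p U N ε μ Gt E L1 R1 L2 R2 x1 y1 x2 y2) (F : Five q q' r k l)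
    (hq : q ∈ x1) (hq' : q' ∈ x1) (hr : r ∈ x2) (k1 : k ∉ x1) (k2 : k ∉ x2)
    (he : pt p Gt {k} = ∅) : Tight G p U 2 (N / 2) (10 * μ) := by
  have k3 := (h.emp1 he).resolve_left k1
  have k4 := (h.emp2 he).resolve_left k2
  have hd : ∀ j, j ∈ x1 → j ∈ x2 → False := fun j a b => h.np j k a k3 b k4
  have q1 : q ∉ y1 := h.d1 q hq
  have q2 : q' ∉ y1 := h.d1 q' hq'
  have q3 : q ∉ x2 := hd q hq
  have q4 : q' ∉ x2 := hd q' hq'
  rcases h.eLR.dich (k := r) (l := l) (fun j a b => by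
    rcases F.all j with rfl | rfl | rfl | rfl | rfl <;> tauto) with
    ⟨a1, a2, a3⟩ | ⟨a1, a2, a3⟩ | ⟨r1, r2, l1, l2, n1, n2, hK⟩
  · exact h.flip1.flip2.pat2' F.cd.symm he a3 k1 k2 a1 a2
  · exact h.flip1.flip2.pat2' F.de he a3 k1 k2 a1 a2
  by_cases c1 : r ∉ y1 ∧ l ∉ y1
  · exact h.swap.pat1 F.ce hK r2 r1 c1.1 l2 l1 c1.2
  have l3 : l ∈ y1 ∨ l ∈ x2 := by
    by_contra hc
    push Not at hc
    exact h.meets hK n1 l1 hc.1 hc.2 l2
  have hK' : KK G p Gt q q' := h.eRL.kk (fun j a b => by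
    rcases F.all j with rfl | rfl | rfl | rfl | rfl <;> tauto)
  by_cases c2 : q ∉ y2 ∧ q' ∉ y2
  · exact h.pat1 F.ab hK' q1 q3 c2.1 q2 q4 c2.2
  rcases (pt p Gt {q}).eq_empty_or_nonempty with n3 | n3
  · exact h.swap.flip1.flip2.pat2' F.ad.symm he n3 k2 k1 q3 q1
  rcases (pt p Gt {q'}).eq_empty_or_nonempty with n4 | n4
  · exact h.swap.flip1.flip2.pat2' F.bd.symm he n4 k2 k1 q4 q2
  exfalso
  have hall := F.all
  rw [not_and_or, not_not, not_not] at c1 c2
  rcases c1 with c1 | c1 <;> rcases c2 with c2 | c2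
  · exact h.contra4 (a := l) (b := r) (c := q') (d := q) (fun j => by have := hall j; tauto)
      hK.symm (h.eRR.kk (fun j a b => by
        rcases F.all j with rfl | rfl | rfl | rfl | rfl <;> tauto)) hK'.symm F.bc.symm F.ae n2 n4 he
  · exact h.contra4 (a := l) (b := r) (c := q) (d := q') (fun j => by have := hall j; tauto)
      hK.symm (h.eRR.kk (fun j a b => by
        rcases F.all j with rfl | rfl | rfl | rfl | rfl <;> tauto)) hK' F.ac.symm F.be n2 n3 he
  · exact h.contra4 (a := r) (b := l) (c := q') (d := q) (fun j => by have := hall j; tauto)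
      hK (h.eRR.kk (fun j a b => by
        rcases F.all j with rfl | rfl | rfl | rfl | rfl <;> tauto)) hK'.symm F.be.symm F.ac n1 n4 he
  · exact h.contra4 (a := r) (b := l) (c := q) (d := q') (fun j => by have := hall j; tauto)
      hK (h.eRR.kk (fun j a b => by
        rcases F.all j with rfl | rfl | rfl | rfl | rfl <;> tauto)) hK' F.ae.symm F.bc n1 n3 he

theorem FD.caseB3 (h : FD G p U N ε μ Gt E L1 R1 L2 R2 x1 y1 x2 y2) (F : Five q q' r k l)
    (hq : q ∈ y2) (q4 : q' ∉ x2) (k3 : k ∈ y1) (l3 : l ∈ y1) (n1 : (pt p Gt {r}).Nonempty)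
    (n2 : (pt p Gt {l}).Nonempty) (K1 : KK G p Gt l k) (K2 : KK G p Gt l r)
    (K3 : KK G p Gt q q') : False := by
  rcases h.eRR.dich (k := q') (l := r) (fun j a b => by
    rcases F.all j with rfl | rfl | rfl | rfl | rfl <;> tauto) with
    ⟨-, a2, a3⟩ | ⟨-, -, a3⟩ | ⟨-, -, -, -, n3, -, hK⟩
  · exact (h.emp2 a3).elim q4 a2
  · exact n1.ne_empty a3
  have a1 := h.deg2 n1 K2.symm hK.symm F.be.symm
  have a2 := h.deg2 n3 K3.symm hK F.ac
  have a3 := h.deg2 n2 K1 K2 F.cd.symm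
  have a4 := h.gsum F.all
  have a5 : (0 : ℝ) ≤ (pt p Gt {r}).card := Nat.cast_nonneg _
  have := h.hμ
  have := h.hεμ
  have := h.amb.hN
  linarith

theorem FD.caseB2 (h : FD G p U N ε μ Gt E L1 R1 L2 R2 x1 y1 x2 y2) (F : Five q q' r k l)
    (hq : q ∈ x1) (hq' : q' ∈ x1) (hr : r ∈ x2) (k4 : k ∈ y2) (k3 : k ∈ y1) (l3 : l ∈ y1)
    (n1 : (pt p Gt {r}).Nonempty) (n2 : (pt p Gt {l}).Nonempty) (K1 : KK G p Gt l k)
    (K2 : KK G p Gt l r) : Tight G p U 2 (N / 2) (10 * μ) := by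
  have hd : ∀ j, j ∈ x1 → j ∈ x2 → False := fun j a b => h.np j k a k3 b k4
  have hK' : KK G p Gt q q' := h.eRL.kk (fun j a b => by
    rcases F.all j with rfl | rfl | rfl | rfl | rfl <;> tauto)
  by_cases c1 : q ∈ y2
  · exact (h.caseB3 F c1 (hd q' hq') k3 l3 n1 n2 K1 K2 hK').elim
  by_cases c2 : q' ∈ y2
  · exact (h.caseB3 F.s12 c2 (hd q hq) k3 l3 n1 n2 K1 K2 hK'.symm).elim
  exact h.pat1 F.ab hK' (h.d1 q hq) (hd q hq) c1 (h.d1 q' hq') (hd q' hq') c2

theorem FD.caseB (h : FD G p U N ε μ Gt E L1 R1 L2 R2 x1 y1 x2 y2) (F : Five q q' r k l)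
    (hq : q ∈ x1) (hq' : q' ∈ x1) (hr : r ∈ x2) (k1 : k ∉ x1) (k2 : k ∉ x2) (l2 : l ∉ x2)
    (n0 : (pt p Gt {k}).Nonempty) (n2 : (pt p Gt {l}).Nonempty) (hK : KK G p Gt k l)
    (k4 : k ∈ y2) : Tight G p U 2 (N / 2) (10 * μ) := by
  rcases h.eLR.dich (k := r) (l := l) (fun j a b => by
    rcases F.all j with rfl | rfl | rfl | rfl | rfl <;> tauto) with
    ⟨a1, a2, a3⟩ | ⟨-, -, a3⟩ | ⟨r1, r2, l1, l4, n1, -, hK'⟩
  · exact h.flip2.caseA F.s34 hq hq' k4 a1 a2 a3
  · exact absurd a3 n2.ne_empty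
  have l3 : l ∈ y1 := by
    by_contra hc
    exact h.meets hK n0 l1 hc l2 l4
  by_cases c1 : k ∈ y1
  · exact h.caseB2 F hq hq' hr k4 c1 l3 n1 n2 hK.symm hK'.symm
  by_cases c2 : r ∈ y1
  · exact h.flip2.caseB2 F.s34 hq hq' k4 hr c2 l3 n0 n2 hK'.symm hK.symm
  refine (h.swap.pat34 F.cd r2 r1 c2 k2 k1 c1 (pt p Gt {r} ∪ pt p Gt {k}) (pt p Gt {l})
    ((pt_subset _ _ _).trans h.GtU) (fun z hz => ?_) (fun v hv z hz => ?_)).mono ?_ ?_
  · rw [(mem_pt1.1 hz).2]; exact ⟨F.ce.symm, F.de.symm⟩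
  · rcases mem_union.1 hv with h1 | h1
    · exact hK' v h1 z hz
    · exact hK v h1 z hz
  · have := h.flip1.g_ge1 l1 l2 l4
    have := h.hμ
    have := h.mu0
    linarith
  · rw [sdiff_self, bot_eq_empty, card_empty]
    have := h.mu0
    push_cast; linarith

theorem FD.caseII' (h : FD G p U N ε μ Gt E L1 R1 L2 R2 x1 y1 x2 y2) (hq : q ∈ x1) (hq' : q' ∈ x1)
    (hqq : q ≠ q') (hr : r ∈ x2) (h1 : q ≠ r) (h2 : q' ≠ r) : Tight G p U 2 (N / 2) (10 * μ) := by
  obtain ⟨k, l, F⟩ := five_of_three h.amb.card hqq h1 h2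
  rcases h.eLL.dich (k := k) (l := l) (fun j a b => by
    rcases F.all j with rfl | rfl | rfl | rfl | rfl <;> tauto) with
    ⟨a1, a2, a3⟩ | ⟨a1, a2, a3⟩ | ⟨k1, k2, l1, l2, n1, n2, hK⟩
  · exact h.caseA F hq hq' hr a1 a2 a3
  · exact h.caseA F.s45 hq hq' hr a1 a2 a3
  by_cases c1 : k ∈ y2
  · exact h.caseB F hq hq' hr k1 k2 l2 n1 n2 hK c1
  by_cases c2 : l ∈ y2
  · exact h.caseB F.s45 hq hq' hr l1 l2 k2 n2 n1 hK.symm c2
  exact h.flip1.pat1 F.de hK k1 k2 c1 l1 l2 c2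

theorem FD.caseIIa (h : FD G p U N ε μ Gt E L1 R1 L2 R2 x1 y1 x2 y2) (hq : q ∈ x1) (hq' : q' ∈ x1)
    (hqq : q ≠ q') (s1 : x2 ⊆ {q, q'}) (s2 : y2 ⊆ {q, q'}) (m1 : q ∈ x2) (m2 : q' ∈ y2) :
    Tight G p U 2 (N / 2) (10 * μ) := by
  by_cases hc : x1 ⊆ {q, q'}
  · refine h.pat2 hqq ?_ (h.d1 q hq) (h.d2 q m1) (h.d1 q' hq') (fun a => h.d2 q' a m2)
    have a1 := h.in_supp hc
    have a2 := h.swap.in_supp s1
    have a3 := h.swap.flip1.in_supp s2
    have b1 : ((pt p univ {q, q'}).card : ℝ) ≤ 6 * N := by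
      have := card_pt_le (S := {q, q'}) (fun i _ => h.amb.hi i)
      rw [card_pair hqq] at this
      push_cast at this
      linarith
    have d12 : Disjoint L2 R2 := disjoint_left.2 (fun v a b => G.irrefl (h.c2 v a v b))
    have b2 := cardR_add_le (C := pt p univ {q, q'})
      (A := pt p Gt {q, q'} ∪ pt p L1 {q, q'}) (B := pt p L2 {q, q'} ∪ pt p R2 {q, q'})
      (by
        simp only [disjoint_union_left, disjoint_union_right]
        exact ⟨⟨h.sL2.dG.symm.mono (pt_subset _ _ _) (pt_subset _ _ _),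
          h.dLL.mono (pt_subset _ _ _) (pt_subset _ _ _)⟩,
          h.sR2.dG.symm.mono (pt_subset _ _ _) (pt_subset _ _ _),
          h.dLR.mono (pt_subset _ _ _) (pt_subset _ _ _)⟩)
      (union_subset (pt_mono (subset_univ _) subset_rfl) (pt_mono (subset_univ _) subset_rfl))
      (union_subset (pt_mono (subset_univ _) subset_rfl) (pt_mono (subset_univ _) subset_rfl))
    rw [cardR_union_disj (h.sL1.dG.symm.mono (pt_subset _ _ _) (pt_subset _ _ _)),
      cardR_union_disj (d12.mono (pt_subset _ _ _) (pt_subset _ _ _)),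
      card_pt_eq_sum p Gt, sum_pair hqq] at b2
    linarith
  · obtain ⟨r, hr, hr'⟩ := not_subset.1 hc
    simp only [mem_insert, mem_singleton, not_or] at hr'
    obtain ⟨k, l, F⟩ := five_of_three h.amb.card hqq (Ne.symm hr'.1) (Ne.symm hr'.2)
    have hout : ∀ j, q ≠ j → q' ≠ j → j ∉ x2 ∧ j ∉ y2 := by
      intro j a b
      constructor
      · intro hj
        have := s1 hj
        simp only [mem_insert, mem_singleton] at this
        tauto
      · intro hj
        have := s2 hj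
        simp only [mem_insert, mem_singleton] at this
        tauto
    have ok := hout k F.ad F.bd
    have ol := hout l F.ae F.be
    rcases h.eLL.dich (k := k) (l := l) (fun j a b => by
      rcases F.all j with rfl | rfl | rfl | rfl | rfl <;> tauto) with
      ⟨-, -, a3⟩ | ⟨-, -, a3⟩ | ⟨k1, k2, l1, l2, -, -, hK⟩
    · exact ((h.emp2 a3).elim ok.1 ok.2).elim
    · exact ((h.emp2 a3).elim ol.1 ol.2).elim
    exact h.flip1.pat1 F.de hK k1 k2 ok.2 l1 l2 ol.2

theorem FD.caseII (h : FD G p U N ε μ Gt E L1 R1 L2 R2 x1 y1 x2 y2) (hc : 1 < x1.card) :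
    Tight G p U 2 (N / 2) (10 * μ) := by
  obtain ⟨q, hq, q', hq', hqq⟩ := one_lt_card.1 hc
  by_cases s1 : x2 ⊆ {q, q'}
  · by_cases s2 : y2 ⊆ {q, q'}
    · obtain ⟨i, hi⟩ := h.swap.ne1
      obtain ⟨j, hj⟩ := h.swap.flip1.ne1
      have b1 := s1 hi
      have b2 := s2 hj
      simp only [mem_insert, mem_singleton] at b1 b2
      rcases b1 with rfl | rfl <;> rcases b2 with rfl | rfl
      · exact (h.d2 _ hi hj).elim
      · exact h.caseIIa hq hq' hqq s1 s2 hi hj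
      · exact h.flip2.caseIIa hq hq' hqq s2 s1 hj hi
      · exact (h.d2 _ hi hj).elim
    · obtain ⟨r, hr, hr'⟩ := not_subset.1 s2
      simp only [mem_insert, mem_singleton, not_or] at hr'
      exact h.flip2.caseII' hq hq' hqq hr (Ne.symm hr'.1) (Ne.symm hr'.2)
  · obtain ⟨r, hr, hr'⟩ := not_subset.1 s1
    simp only [mem_insert, mem_singleton, not_or] at hr'
    exact h.caseII' hq hq' hqq hr (Ne.symm hr'.1) (Ne.symm hr'.2)

theorem NoExt.tri {x x' : Finset ι} (h : NoExt G p Gt x x') {a b c d e : ι}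
    (hF : ∀ j, j = a ∨ j = b ∨ j = c ∨ j = d ∨ j = e) (ha : a ∈ x) (hc : c ∈ x') {u v w : V}
    (hu : u ∈ pt p Gt {b}) (hv : v ∈ pt p Gt {d}) (hw : w ∈ pt p Gt {e}) :
    G.Adj u v ∨ G.Adj u w ∨ G.Adj v w := by
  by_contra hn
  push Not at hn
  obtain ⟨h1, rfl⟩ := mem_pt1.1 hu
  obtain ⟨h2, rfl⟩ := mem_pt1.1 hv
  obtain ⟨h3, rfl⟩ := mem_pt1.1 hw
  refine h _ card_le_three (fun j hj => ?_) (hasIT_triple h1 h2 h3 hn.1 hn.2.1 hn.2.2)
  simp only [mem_insert, mem_singleton, not_or] at hj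
  rcases hF j with rfl | rfl | rfl | rfl | rfl <;> tauto

theorem FD.caseI (h : FD G p U N ε μ Gt E L1 R1 L2 R2 x1 y1 x2 y2) {a b c d : ι} (e1 : x1 = {a})
    (e2 : y1 = {b}) (e3 : x2 = {c}) (e4 : y2 = {d}) {δ₁ : ℝ} (hδ : 10 * δ₁ ≤ N) (hδ0 : 0 ≤ δ₁) :
    Tight G p U 2 (N / 2) (δ₁ + μ) ∨ Tight G p U 2 δ₁ μ := by
  have ab : a ≠ b := fun e => h.d1 a (by simp [e1]) (by simp [e2, e])
  have cd : c ≠ d := fun e => h.d2 c (by simp [e3]) (by simp [e4, e])
  have ac : a ≠ c := fun e => h.not_single (k := a) (by simp [e1]) (by simp [e3, e])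
  have ad : a ≠ d := fun e => h.flip2.not_single (k := a) (by simp [e1]) (by simp [e4, e])
  have bc : b ≠ c := fun e => h.flip1.not_single (k := b) (by simp [e2]) (by simp [e3, e])
  have bd : b ≠ d := fun e => h.flip1.flip2.not_single (k := b) (by simp [e2]) (by simp [e4, e])
  obtain ⟨e, F⟩ := five_of_four h.amb.card ab ac ad bc bd cd
  subst e1 e2 e3 e4
  have hμ := h.hμ
  have hμ0 := h.mu0
  have hεμ := h.hεμ
  have hε := h.amb.hε
  have nm : ∀ {i j : ι}, i ≠ j → i ∉ ({j} : Finset ι) := fun hij => by simpa using hij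
  have dp : ∀ {i j : ι}, i ≠ j → Disjoint (pt p Gt {i}) (pt p Gt {j}) := fun hij =>
    disjoint_left.2 (fun w a b => hij ((mem_pt1.1 a).2.symm.trans (mem_pt1.1 b).2))
  have ga := h.g_ge1 (nm ab) (nm ac) (nm ad)
  have gb := h.flip1.g_ge1 (nm ab.symm) (nm bc) (nm bd)
  have gc := h.swap.g_ge1 (nm cd) (nm ac.symm) (nm bc.symm)
  have gd := h.swap.flip1.g_ge1 (nm cd.symm) (nm ad.symm) (nm bd.symm)
  have ge := h.g_ge0 (nm F.ae.symm) (nm F.be.symm) (nm F.ce.symm) (nm F.de.symm)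
  have hall := F.all
  set A := pt p Gt {a} ∪ pt p Gt {b} with hA
  set B := pt p Gt {c} ∪ pt p Gt {d} with hB
  have cA : 2 * N + ε - 7 * μ ≤ A.card := by rw [hA, cardR_union_disj (dp ab)]; linarith
  have cB : 2 * N + ε - 7 * μ ≤ B.card := by rw [hB, cardR_union_disj (dp cd)]; linarith
  have h3 : Three G A B (pt p Gt {e}) (2 * N + ε) N (7 * μ) := by
    refine ⟨h.deg, cA, cB, by linarith, ?_, ?_, ?_, ?_⟩
    · simp only [hA, hB, disjoint_union_left, disjoint_union_right]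
      exact ⟨⟨dp ac, dp bc⟩, dp ad, dp bd⟩
    · simp only [hA, disjoint_union_left]; exact ⟨dp F.ae, dp F.be⟩
    · simp only [hB, disjoint_union_left]; exact ⟨dp F.ce, dp F.de⟩
    · intro u hu v hv w hw
      rcases mem_union.1 hu with hu | hu <;> rcases mem_union.1 hv with hv | hv
      · exact h.eRR.tri (fun j => by have := hall j; tauto) (mem_singleton_self _)
          (mem_singleton_self _) hu hv hw
      · exact h.eRL.tri (fun j => by have := hall j; tauto) (mem_singleton_self _)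
          (mem_singleton_self _) hu hv hw
      · exact h.eLR.tri (fun j => by have := hall j; tauto) (mem_singleton_self _)
          (mem_singleton_self _) hu hv hw
      · exact h.eLL.tri (fun j => by have := hall j; tauto) (mem_singleton_self _)
          (mem_singleton_self _) hu hv hw
  have hAU : A ⊆ U := union_subset ((pt_subset _ _ _).trans h.GtU) ((pt_subset _ _ _).trans h.GtU)
  have hBU : B ⊆ U := union_subset ((pt_subset _ _ _).trans h.GtU) ((pt_subset _ _ _).trans h.GtU)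
  by_cases c1 : δ₁ ≤ (B \ star G B A).card
  · right
    refine (h.pat34 ab (nm ab) (nm ac) (nm ad) (nm ab.symm) (nm bc) (nm bd) A (B \ star G B A)
      (sdiff_subset.trans hBU) (fun z hz => ?_)
      (fun v hv z hz => (adj_of_not_star hz hv).symm)).mono c1 ?_
    · rcases mem_union.1 (mem_sdiff.1 hz).1 with h1 | h1 <;> rw [(mem_pt1.1 h1).2]
      · exact ⟨ac.symm, bc.symm⟩
      · exact ⟨ad.symm, bd.symm⟩
    · rw [sdiff_self, bot_eq_empty, card_empty]; simp
  by_cases c2 : δ₁ ≤ (A \ star G A B).card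
  · right
    refine (h.swap.pat34 cd (nm cd) (nm ac.symm) (nm bc.symm) (nm cd.symm) (nm ad.symm) (nm bd.symm)
      B (A \ star G A B) (sdiff_subset.trans hAU) (fun z hz => ?_)
      (fun v hv z hz => (adj_of_not_star hz hv).symm)).mono c2 ?_
    · rcases mem_union.1 (mem_sdiff.1 hz).1 with h1 | h1 <;> rw [(mem_pt1.1 h1).2]
      · exact ⟨ac, ad⟩
      · exact ⟨bc, bd⟩
    · rw [sdiff_self, bot_eq_empty, card_empty]; simp
  left
  have h4 := cardR_sdiff_inter A (star G A B)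
  rw [inter_eq_right.2 (star_subset _ _)] at h4
  have h5 := h3.zbig (by linarith) (by linarith) (by linarith)
  refine (h.swap.pat34 cd (nm cd) (nm ac.symm) (nm bc.symm) (nm cd.symm) (nm ad.symm) (nm bd.symm)
    (star G B A) (compl_to G (pt p Gt {e}) (star G B A))
    (fun z hz => h.GtU (mem_pt1.1 (mem_compl_to.1 hz).1).1) (fun z hz => ?_)
    (fun v hv z hz => ((mem_compl_to.1 hz).2 v hv).symm)).mono (by linarith) (by linarith)
  rw [(mem_pt1.1 (mem_compl_to.1 hz).1).2]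
  exact ⟨F.ce.symm, F.de.symm⟩

theorem FD.tight (h : FD G p U N ε μ Gt E L1 R1 L2 R2 x1 y1 x2 y2) {δ₁ : ℝ} (hδ : 10 * δ₁ ≤ N)
    (hδ0 : 0 ≤ δ₁) : Tight G p U 2 (N / 2) (δ₁ + 10 * μ) ∨ Tight G p U 2 δ₁ (10 * μ) := by
  have hμ0 := h.mu0
  by_cases c1 : 1 < x1.card
  · exact Or.inl ((h.caseII c1).mono le_rfl (by linarith))
  by_cases c2 : 1 < y1.card
  · exact Or.inl ((h.flip1.caseII c2).mono le_rfl (by linarith))
  by_cases c3 : 1 < x2.card
  · exact Or.inl ((h.swap.caseII c3).mono le_rfl (by linarith))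
  by_cases c4 : 1 < y2.card
  · exact Or.inl ((h.swap.flip1.caseII c4).mono le_rfl (by linarith))
  obtain ⟨a, ha⟩ := card_eq_one.1 (show x1.card = 1 by have := card_pos.2 h.ne1; omega)
  obtain ⟨b, hb⟩ := card_eq_one.1 (show y1.card = 1 by have := card_pos.2 h.flip1.ne1; omega)
  obtain ⟨c, hc⟩ := card_eq_one.1 (show x2.card = 1 by have := card_pos.2 h.swap.ne1; omega)
  obtain ⟨d, hd⟩ := card_eq_one.1 (show y2.card = 1 by have := card_pos.2 h.swap.flip1.ne1; omega)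
  rcases h.caseI ha hb hc hd hδ hδ0 with h1 | h1
  · exact Or.inl (h1.mono le_rfl (by linarith))
  · exact Or.inr (h1.mono le_rfl (by linarith))

end tree

end Pool.Agent.MP_bc5f1c_co

end MrgPart2

-- marker of a merged file
example : 731051 + 507541 = 731051 + 507541 := rfl
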