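import Mathlib.Topology.Sheaves.Presheaf
import Mathlib.Tactic.Bound
import Mathlib.Combinatorics.SimpleGraph.DeleteEdges
import Pool.Agent.MP_bc5f1c_co.CaseF

-- ======== part 0: formerly Pool.Agent.MP_bc5f1c_co.StructI
section MrgPart0

/-!
The structure theorem: a graph with no transversal and near-extremal degree has a tight set.
-/

set_option autoImplicit false
set_option linter.unusedSectionVars false
set_option linter.unusedVariables false

open Finset

namespace Pool.Agent.MP_bc5f1c_co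

variable {V ι : Type*} [Fintype V] [DecidableEq V] [DecidableEq ι] [Fintype ι] [Nonempty V]
variable {G : SimpleGraph V} {p : V → ι} {U : Finset V} {N ε : ℝ}

theorem Good.no_par {S K : Finset ι} {pos : ι → Bool → ι} (h : Good S K pos) {u v : ι}
    (hu : u ∈ K) (hv : v ∈ K) (huv : u ≠ v) {b c : Bool} (e1 : pos u b = pos v c)
    (e2 : pos u (!b) = pos v (!c)) : False := by
  obtain ⟨σ, hσ⟩ := h.root _ (h.mem u hu b)
  have a1 := hσ.eq_not h.card hu (h.mem u hu b)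
  have hσ' : Rooted S K pos (pos v c) σ := e1 ▸ hσ
  have a2 := hσ'.eq_not h.card hv (h.mem v hv c)
  exact huv (hσ.inj h.card (h.mem u hu b) hu hv (by rw [a1, a2, e2]))

/-- Greedy transversal inside prescribed cells. -/
theorem greedy_IT {J : Finset ι} (C : ι → Finset V) {μ : ℝ} (hμ : 0 ≤ μ)
    (hC : ∀ j ∈ J, ∀ x ∈ C j, x ∈ U ∧ p x = j) (hb : ∀ j ∈ J, J.card * μ < (C j).card)
    (hn : ∀ j ∈ J, ∀ j' ∈ J, j ≠ j' → ∀ x ∈ C j, ((nb G x ∩ C j').card : ℝ) ≤ μ) :
    ∃ T, IsIT G p U J T ∧ ∀ j ∈ J, T j ∈ C j := by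
  obtain ⟨T, h1, h2⟩ := greedy (G := G) J C (fun _ _ => True) (fun _ _ _ => trivial) (fun _ => 0) hμ hb
    (fun j hj j' hj' hne _ _ => hn j hj j' hj' hne)
  exact ⟨T, ⟨fun j hj => hC j hj _ (h1 j hj), fun j hj j' hj' hne => h2 j hj j' hj' hne trivial⟩, h1⟩

theorem Amb.caseF (h : Amb G p U 2 N ε) (hF : FullTwo G p U (2 * N + ε - 60 * ε)) {δ₁ : ℝ}
    (hδ : 10 * δ₁ ≤ N) (hδ0 : 0 ≤ δ₁) (hs : 3000000 * ε ≤ N) :
    Tight G p U 2 (N / 2) (δ₁ + 300000 * ε) ∨ Tight G p U 2 δ₁ (300000 * ε) := by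
  classical
  obtain ⟨K, e, himc, w₁, hw₁, w₂, hw₂, hw, hbig⟩ := hF
  have hε := h.hε
  have hN := h.hN
  have hdeg : Deg G (2 * N + ε) := by
    have := h.deg
    push_cast at this
    exact this
  set W : Finset ι := {w₁, w₂} with hW
  have hWK : ∀ u ∈ W, u ∈ K := by
    intro u hu
    rcases mem_insert.1 hu with rfl | hu
    · exact hw₁
    · rw [mem_singleton.1 hu]; exact hw₂
  have m1 : w₁ ∈ W := mem_insert_self _ _
  have m2 : w₂ ∈ W := mem_insert_of_mem (mem_singleton_self _)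
  have hWc : ((W ×ˢ (univ : Finset Bool)).card : ℝ) = 4 := by
    rw [card_product, hW, card_pair hw]; simp
  set s : ι → Bool → Finset V := fun u b => priv G p U univ K e u (!b) with hsdef
  have hsbig : ∀ u ∈ W, ∀ b, 2 * N + ε - 60 * ε ≤ (s u b).card := by
    intro u hu b
    rcases mem_insert.1 hu with rfl | hu
    · exact (hbig _).1
    · rw [mem_singleton.1 hu]; exact (hbig _).2
  have hsU : ∀ u b, s u b ⊆ U := fun u b x hx => (mem_priv.1 hx).1.1
  have hsd : ∀ u b, ∀ v ∈ W, ∀ c, (v, c) ≠ (u, b) → Disjoint (s u b) (s v c) := by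
    intro u b v hv c hne
    refine priv_disjoint (hWK v hv) (fun e2 => hne ?_)
    obtain ⟨e3, e4⟩ := Prod.mk.inj e2
    rw [e3, Bool.not_inj e4]
  have hsc : ∀ u ∈ W, ∀ b, ∀ x ∈ s u b, ∀ y ∈ s u (!b), G.Adj x y :=
    fun u hu b x hx y hy => himc.biclique' h.noIT (hWK u hu) hx hy
  have hout : ∀ u ∈ W, ∀ b, ∀ x ∈ s u b, ∀ Y, Disjoint (s u (!b)) Y →
      ((nb G x ∩ Y).card : ℝ) ≤ 60 * ε :=
    fun u hu b x hx Y hY => hdeg.out_le (hsc u hu b x hx) (hsbig u hu _) hY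
  let supp : ι → Bool → Finset ι := fun u b =>
    univ.filter (fun j => 1200 * ε < (pt p (s u b) {j}).card)
  let SS : Finset V := (W ×ˢ univ).biUnion (fun t => s t.1 t.2)
  have hSS : ∀ u ∈ W, ∀ b, s u b ⊆ SS := fun u hu b x hx =>
    mem_biUnion.2 ⟨(u, b), by simp [hu], hx⟩
  let At : ι × Bool → ι → Finset V := fun t j => (U \ SS).filter (fun y =>
    (1 / 4 : ℝ) * (pt p (s t.1 t.2) {j}).card < (nb G y ∩ pt p (s t.1 t.2) {j}).card)
  let AT : Finset V := ((W ×ˢ univ) ×ˢ univ).biUnion (fun q => At q.1 q.2)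
  let SM : Finset V := (W ×ˢ univ).biUnion
    (fun t => (s t.1 t.2).filter (fun x => ((pt p (s t.1 t.2) {p x}).card : ℝ) ≤ 1200 * ε))
  have hAT : (AT.card : ℝ) ≤ 4800 * ε := by
    have h1 := cardR_biUnion_le ((W ×ˢ (univ : Finset Bool)) ×ˢ (univ : Finset ι))
      (fun q => At q.1 q.2) (m := 240 * ε) (by
        rintro ⟨⟨u, b⟩, j⟩ hq
        have hu : u ∈ W := (mem_product.1 (mem_product.1 hq).1).1
        have := atyp_le (G := G) (X := pt p (s u b) {j}) (Y := At (u, b) j) (μ := 60 * ε) (lam := 1 / 4)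
          (fun x hx => hout u hu b x (mem_pt.1 hx).1 _ (disjoint_left.2 (fun y a b' =>
            (mem_sdiff.1 (mem_filter.1 b').1).2 (hSS u hu _ a))))
          (fun y hy => (mem_filter.1 hy).2) (by positivity)
        simp only
        linarith)
    rw [card_product, Nat.cast_mul, hWc, card_univ, h.card] at h1
    push_cast at h1
    linarith
  have hSM : (SM.card : ℝ) ≤ 24000 * ε := by
    have h2 := cardR_biUnion_le (W ×ˢ (univ : Finset Bool))
      (fun t => (s t.1 t.2).filter (fun x => ((pt p (s t.1 t.2) {p x}).card : ℝ) ≤ 1200 * ε))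
      (fun t _ => small_cells (m := 5) (by positivity) (by rw [h.card]; norm_num))
    rw [hWc] at h2
    linarith
  have hside : ∀ u ∈ W, ∀ b, Side p U ((U \ SS) \ AT) (AT ∪ SM) (2 * N - 30000 * ε) (s u b)
      (supp u b) := by
    intro u hu b
    refine ⟨hsU u b, by linarith [hsbig u hu b], disjoint_left.2 (fun x a b' =>
      (mem_sdiff.1 (mem_sdiff.1 b').1).2 (hSS u hu _ a)), fun x hx hE => ?_⟩
    refine mem_filter.2 ⟨mem_univ _, ?_⟩
    by_contra hc
    exact hE (mem_union_right _ (mem_biUnion.2 ⟨(u, b), by simp [hu],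
      mem_filter.2 ⟨hx, not_lt.1 hc⟩⟩))
  have hne : ∀ u ∈ W, ∀ b, ∃ j, j ∈ supp u b := by
    intro u hu b
    obtain ⟨i, -, hi⟩ := exists_big_cell (p := p) (S := univ) (A := s u b) (m := 1200 * ε)
      (fun x _ => mem_univ _) (by
        have := hsbig u hu b
        rw [card_univ, h.card]; push_cast; linarith)
    exact ⟨i, mem_filter.2 ⟨mem_univ _, hi⟩⟩
  have hgood : ∀ j₁ j₂ : Bool → ι, (∀ b, j₁ b ∈ supp w₁ b) → (∀ b, j₂ b ∈ supp w₂ b) →
      ∃ pos, Good univ K pos ∧ (∀ b, pos w₁ b = j₁ b) ∧ ∀ b, pos w₂ b = j₂ b := by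
    intro j₁ j₂ h1 h2
    let j : ι → Bool → ι := fun u b => if u = w₁ then j₁ b else j₂ b
    have hj : ∀ u ∈ W, ∀ b, j u b ∈ supp u b := by
      intro u hu b
      rcases mem_insert.1 hu with rfl | hu
      · simp only [j, if_true]; exact h1 b
      · rw [mem_singleton.1 hu]; simp only [j, hw.symm, if_false]; exact h2 b
    obtain ⟨x, hx1, hx2⟩ := greedy (G := G) (W ×ˢ (univ : Finset Bool))
      (fun t => pt p (s t.1 t.2) {j t.1 t.2}) (fun t t' => t.1 ≠ t'.1) (fun _ _ h => h.symm)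
      (fun _ => 0) (μ := 60 * ε) (by positivity) (by
        intro t ht
        have h1 := (mem_filter.1 (hj t.1 (mem_product.1 ht).1 t.2)).2
        rw [hWc]; linarith) (by
        intro t ht t' ht' _ hn _ y hy
        exact hout _ (mem_product.1 ht).1 _ y (mem_pt.1 hy).1 _
          ((hsd _ _ _ (mem_product.1 ht').1 _
            (fun e2 => hn (Prod.mk.inj e2).1.symm)).mono_right (pt_subset _ _ _)))
    have hx3 : ∀ u ∈ W, ∀ b, x (u, b) ∈ s u b ∧ p (x (u, b)) = j u b := by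
      intro u hu b
      exact mem_pt1.1 (hx1 (u, b) (by simp [hu]))
    refine ⟨_, himc.good_of_choice (fun u b => if u ∈ W then x (u, b) else e u b) ?_ ?_
      (fun _ => True) w₁ (fun _ _ _ => trivial) (fun _ _ _ _ => trivial)
      (fun T hT _ => h.noIT ⟨T, hT⟩), fun b => ?_, fun b => ?_⟩
    · intro u hu b
      split_ifs with hc
      · exact (hx3 u hc b).1
      · exact himc.mem_priv hu b
    · intro u hu v hv huv b c
      split_ifs with c1 c2 c2
      · exact hx2 (u, b) (by simp [c1]) (v, c) (by simp [c2]) (fun e2 => huv (Prod.mk.inj e2).1) huv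
      · exact (mem_priv.1 (hx3 u c1 b).1).2.2 v hv c (fun e2 => huv (Prod.mk.inj e2).1.symm)
      · exact fun ha => (mem_priv.1 (hx3 v c2 c).1).2.2 u hu b
          (fun e2 => huv (Prod.mk.inj e2).1) ha.symm
      · exact himc.nonadj u hu v hv huv b c
    · simp only [m1, if_true, (hx3 w₁ m1 b).2, j]
    · simp only [m2, if_true, (hx3 w₂ m2 b).2, j, hw.symm, if_false]
  have hext : ∀ b c, NoExt G p ((U \ SS) \ AT) (supp w₁ b) (supp w₂ c) := by
    rintro b c J hJ hcov ⟨T, hT⟩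
    let t : ι → ι × Bool := fun j => if j ∈ supp w₁ b then (w₁, b) else (w₂, c)
    have ht : ∀ j ∈ Jᶜ, (t j).1 ∈ W ∧ j ∈ supp (t j).1 (t j).2 := by
      intro j hj
      simp only [t]
      split_ifs with hc
      · exact ⟨m1, hc⟩
      · exact ⟨m2, (hcov j (mem_compl.1 hj)).resolve_left hc⟩
    have ht2 : ∀ j j', ((t j').1, (t j').2) ≠ ((t j).1, !(t j).2) := by
      intro j j'
      simp only [t]
      split_ifs <;> simp [hw, hw.symm]
    obtain ⟨T', hT', -⟩ := greedy_IT (G := G) (p := p) (U := U \ J.biUnion (fun i => nb G (T i)))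
      (J := Jᶜ) (fun j => pt p (s (t j).1 (t j).2) {j} \ J.biUnion (fun i => nb G (T i)))
      (μ := 60 * ε) (by positivity) (by
        intro j _ x hx
        obtain ⟨a1, a2⟩ := mem_sdiff.1 hx
        exact ⟨mem_sdiff.2 ⟨hsU _ _ (mem_pt1.1 a1).1, a2⟩, (mem_pt1.1 a1).2⟩) (by
        intro j hj
        have a1 := (mem_filter.1 (ht j hj).2).2
        have a2 : ((Jᶜ).card : ℝ) ≤ 5 := by
          have := card_le_univ Jᶜ
          rw [h.card] at this
          exact_mod_cast this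
        have a3 := mul_le_mul_of_nonneg_right a2 (show 0 ≤ 60 * ε by positivity)
        have a4 := cardR_sdiff_inter (pt p (s (t j).1 (t j).2) {j}) (J.biUnion (fun i => nb G (T i)))
        have a5 : ((pt p (s (t j).1 (t j).2) {j} ∩ J.biUnion (fun i => nb G (T i))).card : ℝ) ≤
            (J.biUnion (fun i => nb G (T i) ∩ pt p (s (t j).1 (t j).2) {j})).card := by
          apply cardR_le
          intro x hx
          obtain ⟨b1, b2⟩ := mem_inter.1 hx
          obtain ⟨i, hi, b3⟩ := mem_biUnion.1 b2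
          exact mem_biUnion.2 ⟨i, hi, mem_inter.2 ⟨b3, b1⟩⟩
        have a6 := cardR_biUnion_le J (fun i => nb G (T i) ∩ pt p (s (t j).1 (t j).2) {j})
          (m := (1 / 4 : ℝ) * (pt p (s (t j).1 (t j).2) {j}).card) (by
            intro i hi
            by_contra hc
            obtain ⟨b1, b2⟩ := mem_sdiff.1 (hT.1 i hi).1
            exact b2 (mem_biUnion.2 ⟨(t j, j), mem_product.2 ⟨mem_product.2 ⟨(ht j hj).1, mem_univ _⟩,
              mem_univ _⟩,
              mem_filter.2 ⟨b1, not_le.1 hc⟩⟩))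
        have a7 : (J.card : ℝ) ≤ 3 := by exact_mod_cast hJ
        have a8 := mul_le_mul_of_nonneg_right a7
          (show 0 ≤ (1 / 4 : ℝ) * (pt p (s (t j).1 (t j).2) {j}).card from
            mul_nonneg (by norm_num) (Nat.cast_nonneg _))
        linarith) (by
        intro j hj j' hj' _ x hx
        exact hout _ (ht j hj).1 _ x (mem_pt.1 (mem_sdiff.1 hx).1).1 _
          ((hsd _ _ _ (ht j' hj').1 _ (ht2 j j')).mono_right
            (sdiff_subset.trans (pt_subset _ _ _))))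
    have hT2 : IsIT G p U J T :=
      ⟨fun i hi => ⟨(mem_sdiff.1 (mem_sdiff.1 (hT.1 i hi).1).1).1, (hT.1 i hi).2⟩, hT.2⟩
    have := hT2.ext ⟨T', hT'⟩
    rw [union_compl] at this
    exact h.noIT this
  obtain ⟨a1, ha1⟩ := hne w₁ m1 false
  obtain ⟨a2, ha2⟩ := hne w₁ m1 true
  obtain ⟨a3, ha3⟩ := hne w₂ m2 false
  obtain ⟨a4, ha4⟩ := hne w₂ m2 true
  have hg4 : ∀ k₁ k₂ k₃ k₄, k₁ ∈ supp w₁ false → k₂ ∈ supp w₁ true → k₃ ∈ supp w₂ false →
      k₄ ∈ supp w₂ true → ∃ pos, Good univ K pos ∧ pos w₁ false = k₁ ∧ pos w₁ true = k₂ ∧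
        pos w₂ false = k₃ ∧ pos w₂ true = k₄ := by
    intro k₁ k₂ k₃ k₄ b1 b2 b3 b4
    obtain ⟨pos, c1, c2, c3⟩ := hgood (fun b => cond b k₂ k₁) (fun b => cond b k₄ k₃)
      (fun b => by cases b; exacts [b1, b2]) (fun b => by cases b; exacts [b3, b4])
    exact ⟨pos, c1, c2 false, c2 true, c3 false, c3 true⟩
  have hFD : FD G p U N ε (30000 * ε) ((U \ SS) \ AT) (AT ∪ SM) (s w₁ false) (s w₁ true)
      (s w₂ false) (s w₂ true) (supp w₁ false) (supp w₁ true) (supp w₂ false) (supp w₂ true) := by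
    refine ⟨h, by linarith, by linarith, hside _ m1 _, hside _ m1 _, hside _ m2 _, hside _ m2 _,
      hsc _ m1 false, hsc _ m2 false, hsd _ _ _ m2 _ (by simp [hw.symm]),
      hsd _ _ _ m2 _ (by simp [hw.symm]), hsd _ _ _ m2 _ (by simp [hw.symm]),
      hsd _ _ _ m2 _ (by simp [hw.symm]), sdiff_subset.trans sdiff_subset, ?_,
      (cardR_union_le _ _).trans (by linarith), ?_, ?_, ?_, ?_, hext _ _, hext _ _, hext _ _,
      hext _ _⟩
    · intro v hv hE
      by_cases hc : v ∈ SS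
      · right
        obtain ⟨⟨u, b⟩, h1, h2⟩ := mem_biUnion.1 hc
        rcases mem_insert.1 (mem_product.1 h1).1 with h3 | h3
        · simp only at h3 h2
          rw [h3] at h2
          cases b
          · exact Or.inl h2
          · exact Or.inr (Or.inl h2)
        · have h3 := mem_singleton.1 h3
          simp only at h3 h2
          rw [h3] at h2
          cases b
          · exact Or.inr (Or.inr (Or.inl h2))
          · exact Or.inr (Or.inr (Or.inr h2))
      · exact Or.inl (mem_sdiff.2 ⟨mem_sdiff.2 ⟨hv, hc⟩, fun hh => hE (mem_union_left _ hh)⟩)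
    · intro j b1 b2
      obtain ⟨pos, c0, c1, c2, -⟩ := hg4 j j a3 a4 b1 b2 ha3 ha4
      exact c0.ne hw₁ false (c1.trans c2.symm)
    · intro j b1 b2
      obtain ⟨pos, c0, -, -, c1, c2⟩ := hg4 a1 a2 j j ha1 ha2 b1 b2
      exact c0.ne hw₂ false (c1.trans c2.symm)
    · intro k l b1 b2 b3 b4
      obtain ⟨pos, c0, c1, c2, c3, c4⟩ := hg4 k l k l b1 b2 b3 b4
      exact c0.no_par hw₁ hw₂ hw (b := false) (c := false) (c1.trans c3.symm) (c2.trans c4.symm)
    · intro k l b1 b2 b3 b4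
      obtain ⟨pos, c0, c1, c2, c3, c4⟩ := hg4 k l l k b1 b2 b4 b3
      exact c0.no_par hw₁ hw₂ hw (b := false) (c := true) (c1.trans c4.symm) (c2.trans c3.symm)
  rcases hFD.tight hδ hδ0 with h1 | h1
  · exact Or.inl (h1.mono le_rfl (by linarith))
  · exact Or.inr (h1.mono le_rfl (by linarith))

theorem exists_min_graph (hno : ¬ HasIT G p U univ) :
    ∃ G' : SimpleGraph V, G' ≤ G ∧ ¬ HasIT G' p U univ ∧
      ∀ G'' : SimpleGraph V, G'' < G' → HasIT G'' p U univ := by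
  classical
  obtain ⟨G', ⟨h1, h2⟩, h3⟩ := (wellFounded_lt (α := SimpleGraph V)).has_min
    {H | H ≤ G ∧ ¬ HasIT H p U univ} ⟨G, le_rfl, hno⟩
  refine ⟨G', h1, h2, fun G'' hlt => ?_⟩
  by_contra hc
  exact h3 G'' ⟨hlt.le.trans h1, hc⟩ hlt

variable {a : ℕ}

theorem Amb.hconc (h : Amb G p U a N ε) (hs : 100 * a * ε ≤ N) {j₀ : ι}
    {Φ : Finset ι → (ι → Bool → V) → Prop} (hc : HConc G p U univ j₀ Φ) :
    (∃ S K e, S.card = 2 * a ∧ IMC G p U S K e ∧ Dom G p U S (ends K e)) ∨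
      ∃ K e, IMC G p U univ K e ∧ Φ K e := by
  have ha := h.haR
  have hε := h.hε
  have hN := h.hN
  obtain ⟨c1, -⟩ := pow_chain ha hε
  have haN : 2 * N ≤ a * N := mul_le_mul_of_nonneg_right ha hN.le
  obtain ⟨S, -, -, hc⟩ := hc
  have h1 := card_pt_ge (S := S) (fun i _ => h.lo i)
  have h2 : S.card ≤ 2 * a + 1 := h.card ▸ card_le_univ S
  have h2' : (S.card : ℝ) ≤ 2 * a + 1 := by exact_mod_cast h2
  have h3 := mul_le_mul_of_nonneg_right h2' hε
  have hD : 0 ≤ a * N + ε := by positivity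
  rcases hc with ⟨I, -, hI, hd⟩ | ⟨K, e, -, himc, hd, hΦ⟩
  · exfalso
    have h4 := hd.card_le h.deg
    have h5 : (I.card : ℝ) ≤ 2 * S.card - 3 := by
      have : (I.card : ℝ) + 3 ≤ 2 * S.card := by exact_mod_cast hI
      linarith
    have h6 := mul_le_mul_of_nonneg_right h5 hD
    have h7 := mul_le_mul_of_nonneg_right h2' hN.le
    linarith
  · have h4 := hd.card_le h.deg
    have h5 : ((ends K e).card : ℝ) ≤ 2 * S.card - 2 := by
      have b1 := card_ends_le K e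
      have b2 := himc.good.card
      have : ((ends K e).card : ℝ) + 2 ≤ 2 * S.card := by exact_mod_cast (by omega)
      linarith
    have h6 := mul_le_mul_of_nonneg_right h5 hD
    have h7 : (2 * a - 1 : ℝ) * N < S.card * N := by linarith
    have h8 : (2 * a - 1 : ℝ) < S.card := lt_of_mul_lt_mul_right h7 hN.le
    have h9 : 2 * a < S.card + 1 := by
      have : (2 * a : ℝ) < S.card + 1 := by linarith
      exact_mod_cast this
    by_cases h10 : S.card = 2 * a
    · exact Or.inl ⟨S, K, e, h10, himc, hd⟩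
    · right
      have : S = univ := eq_univ_of_card S (by rw [h.card]; omega)
      subst this
      exact ⟨K, e, himc, hΦ⟩

theorem Amb.structure (h : Amb G p U a N ε) {ω δ₁ : ℝ} (hω : 10000 * a ^ 5 * ε ≤ ω) (hδ : ω ≤ δ₁)
    (hN : 10 * δ₁ ≤ N) : Tight G p U a (N / 2) (δ₁ + ω) ∨ Tight G p U a δ₁ ω := by
  classical
  obtain ⟨G', hG, hno, hmin⟩ := exists_min_graph h.noIT
  have h' := h.anti hG hno
  suffices H : Tight G' p U a (N / 2) (δ₁ + ω) ∨ Tight G' p U a δ₁ ω from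
    H.imp (fun t => t.super hG) (fun t => t.super hG)
  have ha := h.haR
  have hε := h.hε
  obtain ⟨c1, c2, c3, c4, c5⟩ := pow_chain ha hε
  have hs : 100 * a * ε ≤ N := by linarith
  by_cases hA : ∃ S K e, S.card = 2 * a ∧ IMC G' p U S K e ∧ Dom G' p U S (ends K e)
  · obtain ⟨S, K, e, h1, h2, h3⟩ := hA
    exact h'.typeA h1 h2 h3 hω hδ hN
  obtain ⟨j₀, -, hc⟩ := haxell hno
  obtain ⟨K, e, himc, -⟩ := (h'.hconc hs hc).resolve_left hA
  have hE : EdgeIMC G' p U := by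
    intro x y hxy
    obtain ⟨T, hT⟩ := hmin (G'.deleteEdges {s(x, y)}) (by
      refine lt_of_le_of_ne (SimpleGraph.deleteEdges_le _) (fun e => ?_)
      have : (G'.deleteEdges {s(x, y)}).Adj x y := by rw [e]; exact hxy
      simp at this)
    have hkey : ∀ i j, i ≠ j → G'.Adj (T i) (T j) → s(T i, T j) = s(x, y) := by
      intro i j hij ha
      have := hT.2 i (mem_univ _) j (mem_univ _) hij
      by_contra hc
      exact this (SimpleGraph.deleteEdges_adj.2 ⟨ha, by simpa using hc⟩)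
    have hxy' : T (p x) = x ∧ T (p y) = y := by
      have : ¬ ∀ i ∈ (univ : Finset ι), ∀ j ∈ (univ : Finset ι), i ≠ j → ¬ G'.Adj (T i) (T j) :=
        fun hh => hno ⟨T, hT.1, hh⟩
      push Not at this
      obtain ⟨i, -, j, -, hij, ha⟩ := this
      have b1 := (hT.1 i (mem_univ _)).2
      have b2 := (hT.1 j (mem_univ _)).2
      rcases Sym2.eq_iff.1 (hkey i j hij ha) with ⟨e1, e2⟩ | ⟨e1, e2⟩
      · rw [← e1, ← e2, b1, b2]; exact ⟨rfl, rfl⟩
      · rw [← e1, ← e2, b1, b2]; exact ⟨rfl, rfl⟩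
    have hT' : IsIT G' p U (univ.erase (p x)) T := by
      refine ⟨fun i _ => hT.1 i (mem_univ _), fun i hi j hj hij ha => ?_⟩
      rcases Sym2.eq_iff.1 (hkey i j hij ha) with ⟨e1, -⟩ | ⟨-, e1⟩
      · exact ne_of_mem_erase hi (by rw [← e1, (hT.1 i (mem_univ _)).2])
      · exact ne_of_mem_erase hj (by rw [← e1, (hT.1 j (mem_univ _)).2])
    have hc := haxell_edge (mem_univ (p x)) hno (h'.inU _ _ hxy.symm) rfl hT' (i₀ := p y) (by
      intro i hi ha
      have := hkey (p x) i (ne_of_mem_erase hi).symm (by rw [hxy'.1]; exact ha)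
      rw [hxy'.1] at this
      rcases Sym2.eq_iff.1 this with ⟨-, e1⟩ | ⟨e1, -⟩
      · rw [← e1, (hT.1 i (mem_univ _)).2]
      · exact absurd e1 hxy.ne)
    rw [hxy'.2] at hc
    exact (h'.hconc hs hc).resolve_left hA
  rcases h'.typeB hE himc hs with h1 | ⟨h1, h2⟩
  · exact Or.inl (h1.mono le_rfl (by linarith))
  · subst h1
    have hω' : 320000 * ε ≤ ω := by push_cast at hω; linarith
    rcases h'.caseF h2 hN (by linarith) (by linarith) with h3 | h3
    · exact Or.inl (h3.mono le_rfl (by linarith))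
    · exact Or.inr (h3.mono le_rfl (by linarith))

end Pool.Agent.MP_bc5f1c_co

end MrgPart0

-- ======== part 1: formerly Pool.Agent.MP_bc5f1c_co.TS
section MrgPart1

/-!
The structure of a tight set of `a` parts.
-/

set_option autoImplicit false
set_option linter.unusedSectionVars false
set_option linter.unusedVariables false

open Finset

namespace Pool.Agent.MP_bc5f1c_co

variable {V ι : Type*} [Fintype V] [DecidableEq V] [DecidableEq ι] [Fintype ι] [Nonempty V]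
variable {H : SimpleGraph V} {p : V → ι} {U : Finset V} {a : ℕ} {N ε μ D : ℝ}
variable {P K : Finset ι} {A : ι → Bool → Finset V}

/-- Sides of the bicliques inside a tight set of parts. -/
structure TS (H : SimpleGraph V) (p : V → ι) (U : Finset V) (P K : Finset ι)
    (A : ι → Bool → Finset V) (D μ : ℝ) : Prop where
  deg : Deg H D
  hμ : 0 ≤ μ
  card : K.card + 1 = P.card
  sub : ∀ u ∈ K, ∀ b, ∀ x ∈ A u b, x ∈ U ∧ p x ∈ P
  big : ∀ u ∈ K, ∀ b, D - μ ≤ (A u b).card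
  le : ∀ u ∈ K, ∀ b, ((A u b).card : ℝ) ≤ D
  comp : ∀ u ∈ K, ∀ b, ∀ x ∈ A u b, ∀ y ∈ A u (!b), H.Adj x y
  disj : ∀ u ∈ K, ∀ b, ∀ v ∈ K, ∀ c, (v, c) ≠ (u, b) → Disjoint (A u b) (A v c)
  good : ∀ pos : ι → Bool → ι, (∀ u ∈ K, ∀ b, μ < (pt p (A u b) {pos u b}).card) → Good P K pos

theorem TS.mono (h : TS H p U P K A D μ) {μ' : ℝ} (hμ : μ ≤ μ') : TS H p U P K A D μ' :=
  ⟨h.deg, h.hμ.trans hμ, h.card, h.sub, fun u hu b => by linarith [h.big u hu b], h.le, h.comp,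
    h.disj, fun pos hp => h.good pos (fun u hu b => lt_of_le_of_lt hμ (hp u hu b))⟩

/-- The vertices of the parts `P` outside all sides. -/
def lam (p : V → ι) (U : Finset V) (P K : Finset ι) (A : ι → Bool → Finset V) : Finset V :=
  pt p U P \ (K ×ˢ univ).biUnion (fun t => A t.1 t.2)

theorem mem_lam {x : V} : x ∈ lam p U P K A ↔ (x ∈ U ∧ p x ∈ P) ∧ ∀ u ∈ K, ∀ b, x ∉ A u b := by
  simp only [lam, mem_sdiff, mem_pt, mem_biUnion, mem_product, mem_univ, and_true, Prod.exists,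
    not_exists, not_and]
  exact ⟨fun h => ⟨h.1, fun u hu b => h.2 u b hu⟩, fun h => ⟨h.1, fun u b hu => h.2 u hu b⟩⟩

theorem lam_disj {u : ι} (hu : u ∈ K) (b : Bool) : Disjoint (A u b) (lam p U P K A) :=
  disjoint_left.2 (fun _ h1 h2 => (mem_lam.1 h2).2 u hu b h1)

theorem card_prod_bool (K : Finset ι) : ((K ×ˢ (univ : Finset Bool)).card : ℝ) = 2 * K.card := by
  rw [card_product]
  simp only [card_univ, Fintype.card_bool]; push_cast; ring

theorem TS.cardK (h : TS H p U P K A D μ) (hP : P.card = a) : (K.card : ℝ) = a - 1 := by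
  have := h.card
  rw [hP] at this
  have h2 : (K.card : ℝ) + 1 = a := by exact_mod_cast this
  linarith

theorem TS.out (h : TS H p U P K A D μ) {u : ι} (hu : u ∈ K) {b : Bool} {x : V} (hx : x ∈ A u b)
    {Y : Finset V} (hY : Disjoint (A u (!b)) Y) : ((nb H x ∩ Y).card : ℝ) ≤ μ :=
  h.deg.out_le (h.comp u hu b x hx) (h.big u hu _) hY

theorem TS.sides_card (h : TS H p U P K A D μ) :
    (((K ×ˢ univ).biUnion (fun t => A t.1 t.2)).card : ℝ) =
      ∑ t ∈ K ×ˢ (univ : Finset Bool), ((A t.1 t.2).card : ℝ) := by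
  rw [card_biUnion]
  · push_cast; rfl
  · rintro ⟨u, b⟩ ht ⟨v, c⟩ ht' hne'
    exact h.disj u (mem_product.1 ht).1 b v (mem_product.1 ht').1 c hne'.symm

theorem TS.lam_le (h : TS H p U P K A (a * N + ε) μ) (hA : Amb H p U a N ε) (hP : P.card = a) :
    ((lam p U P K A).card : ℝ) ≤ a * N + 2 * a * μ := by
  have h1 := card_pt_le (S := P) (fun i _ => hA.hiU U i)
  have h2 := cardR_add_le (C := pt p U P) (A := lam p U P K A)
    (B := (K ×ˢ univ).biUnion (fun t => A t.1 t.2)) sdiff_disjoint sdiff_subset (by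
      intro x hx
      obtain ⟨t, ht, hx⟩ := mem_biUnion.1 hx
      exact mem_pt.2 (h.sub _ (mem_product.1 ht).1 _ x hx))
  have h3 : ((K ×ˢ (univ : Finset Bool)).card : ℝ) * (a * N + ε - μ) ≤
      ∑ t ∈ K ×ˢ (univ : Finset Bool), ((A t.1 t.2).card : ℝ) := by
    rw [← nsmul_eq_mul, ← sum_const]
    exact sum_le_sum (fun t ht => h.big _ (mem_product.1 ht).1 _)
  rw [card_prod_bool, h.cardK hP, ← h.sides_card] at h3
  rw [hP] at h1
  have := (pow_chain hA.haR hA.hε).1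
  have := hA.hε
  have := h.hμ
  linarith

theorem TS.lam_ge (h : TS H p U P K A (a * N + ε) μ) (hA : Amb H p U a N ε) (hP : P.card = a) :
    a * N - 3 * a * ε ≤ (lam p U P K A).card := by
  have h1 := card_pt_ge (S := P) (fun i _ => hA.lo i)
  have h2 : ((pt p U P).card : ℝ) ≤ (lam p U P K A).card +
      ((K ×ˢ univ).biUnion (fun t => A t.1 t.2)).card := by
    apply cardR_le_add
    intro x hx
    by_cases hc : x ∈ (K ×ˢ univ).biUnion (fun t => A t.1 t.2)
    · exact mem_union_right _ hc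
    · exact mem_union_left _ (mem_sdiff.2 ⟨hx, hc⟩)
  have h3 := cardR_biUnion_le (K ×ˢ (univ : Finset Bool)) (fun t => A t.1 t.2)
    (fun t ht => h.le _ (mem_product.1 ht).1 _)
  rw [card_prod_bool, h.cardK hP] at h3
  rw [hP] at h1
  have := hA.hε
  linarith

theorem TS.heads (h : TS H p U P K A D μ) (hP : P.card = a) {pos : ι → Bool → ι} {i : ι}
    {σ : ι → Bool} (hσ : Rooted P K pos i σ) (W : Finset V) (B : ι → Finset V)
    (hB : ∀ u ∈ K, ∀ x ∈ B u, x ∈ A u (σ u) ∧ x ∈ W ∧ p x = pos u (σ u))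
    (hb : ∀ u ∈ K, a * μ < (B u).card) :
    ∃ T, IsIT H p W (P.erase i) T ∧ ∀ k ∈ P.erase i, ∃ u ∈ K, pos u (σ u) = k ∧ T k ∈ B u := by
  obtain ⟨x, h1, h2⟩ := greedy (G := H) K B (fun _ _ => True) (fun _ _ _ => trivial) (fun _ => 0)
    h.hμ (fun u hu => by
      have := hb u hu
      have := h.hμ
      rw [h.cardK hP]; linarith)
    (fun u hu v hv huv _ _ y hy => h.out hu (hB u hu y hy).1 ((h.disj u hu _ v hv (σ v)
      (fun e => huv (Prod.mk.inj e).1.symm)).mono_right (fun z hz => (hB v hv z hz).1)))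
  obtain ⟨T, hT, hT'⟩ := heads_IT (G := H) (p := p) (U := W) (S := P) (K := K)
    (e := fun u _ => x u) (fun u hu _ => (hB u hu _ (h1 u hu)).2.1)
    (fun u hu v hv huv _ _ => h2 u hu v hv huv trivial) (j := i) (σ := σ) (by
      intro k hk hne
      obtain ⟨u, hu, e⟩ := hσ k hk hne
      exact ⟨u, hu, ((hB u hu _ (h1 u hu)).2.2).trans e⟩)
  refine ⟨T, hT, fun k hk => ?_⟩
  obtain ⟨u, hu, e⟩ := hT' k hk
  refine ⟨u, hu, ?_, e ▸ h1 u hu⟩
  rw [← (hB u hu _ (h1 u hu)).2.2, ← (hT.1 k hk).2, e]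

theorem TS.cells (h : TS H p U P K A D μ) (hP : P.card = a) (F : Finset V) {m : ℝ}
    (hF : ∀ u ∈ K, ∀ b, a * m < (A u b \ F).card) (hm : μ ≤ m) :
    ∃ pos, Good P K pos ∧ ∀ u ∈ K, ∀ b, m < (pt p (A u b \ F) {pos u b}).card := by
  have hex : ∀ u b, ∃ j, u ∈ K → m < (pt p (A u b \ F) {j}).card := by
    intro u b
    by_cases hu : u ∈ K
    · obtain ⟨j, -, hj⟩ := exists_big_cell (p := p) (S := P) (A := A u b \ F) (m := m)
        (fun x hx => (h.sub u hu b x (mem_sdiff.1 hx).1).2) (by rw [hP]; exact hF u hu b)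
      exact ⟨j, fun _ => hj⟩
    · exact ⟨u, fun hh => absurd hh hu⟩
  choose pos hpos using hex
  refine ⟨pos, h.good pos (fun u hu b => ?_), fun u hu b => hpos u b hu⟩
  exact lt_of_le_of_lt hm (lt_of_lt_of_le (hpos u b hu) (cardR_le (pt_mono sdiff_subset subset_rfl)))

theorem TS.heads' (h : TS H p U P K A D μ) (hP : P.card = a) (F : Finset V)
    (hF : ∀ u ∈ K, ∀ b, a * (a * μ) < (A u b \ F).card) {i : ι} (hi : i ∈ P) :
    ∃ T, IsIT H p (U \ F) (P.erase i) T ∧ ∀ k ∈ P.erase i, ∃ u ∈ K, ∃ b, T k ∈ A u b := by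
  have ha : (1 : ℝ) ≤ a := by
    have := h.card
    exact_mod_cast (show 1 ≤ a by omega)
  obtain ⟨pos, hg, hpos⟩ := h.cells hP F hF (le_mul_of_one_le_left h.hμ ha)
  obtain ⟨σ, hσ⟩ := hg.root i hi
  obtain ⟨T, hT, hT'⟩ := h.heads hP hσ (U \ F) (fun u => pt p (A u (σ u) \ F) {pos u (σ u)})
    (fun u hu x hx => by
      obtain ⟨h1, h2⟩ := mem_pt1.1 hx
      obtain ⟨h3, h4⟩ := mem_sdiff.1 h1
      exact ⟨h3, mem_sdiff.2 ⟨(h.sub u hu _ x h3).1, h4⟩, h2⟩) (fun u hu => hpos u hu _)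
  refine ⟨T, hT, fun k hk => ?_⟩
  obtain ⟨u, hu, -, e⟩ := hT' k hk
  exact ⟨u, hu, _, (mem_sdiff.1 (mem_pt1.1 e).1).1⟩

theorem TS.nbT (h : TS H p U P K A D μ) (hP : P.card = a) {J : Finset ι} (hJ : J ⊆ P) {T : ι → V}
    (hT : ∀ k ∈ J, ∃ u ∈ K, ∃ b, T k ∈ A u b) {Y : Finset V} (hY : ∀ y ∈ Y, p y ∉ P) :
    ((J.biUnion (fun k => nb H (T k)) ∩ Y).card : ℝ) ≤ a * μ := by
  have h1 : J.biUnion (fun k => nb H (T k)) ∩ Y ⊆ J.biUnion (fun k => nb H (T k) ∩ Y) := by
    intro x hx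
    obtain ⟨h1, h2⟩ := mem_inter.1 hx
    obtain ⟨i, hi, h3⟩ := mem_biUnion.1 h1
    exact mem_biUnion.2 ⟨i, hi, mem_inter.2 ⟨h3, h2⟩⟩
  have h2 := cardR_biUnion_le J (fun k => nb H (T k) ∩ Y) (m := μ) (fun k hk => by
    obtain ⟨u, hu, b, hx⟩ := hT k hk
    exact h.out hu hx (disjoint_left.2 (fun y h1 h2 => hY y h2 (h.sub u hu _ y h1).2)))
  have h3 : (J.card : ℝ) ≤ a := hP ▸ cardR_le hJ
  exact (cardR_le h1).trans (h2.trans (mul_le_mul_of_nonneg_right h3 h.hμ))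

theorem Amb.ts (h : Amb H p U a N ε) (hP : P.card = a) (R : Finset V) {φ : ℝ}
    (hR : (R.card : ℝ) ≤ a * N + φ) (hφ : ε ≤ φ) (hs : 10 * a * φ ≤ N)
    (hno : ¬ HasIT H p (U \ R) P) :
    ∃ K A, TS H p U P K A (a * N + ε) (8 * a ^ 2 * φ) ∧ ∀ u ∈ K, ∀ b, Disjoint (A u b) R := by
  have ha := h.haR
  have hε := h.hε
  have hN := h.hN
  have hφ0 : 0 ≤ φ := hε.trans hφ
  obtain ⟨c1, c2, -⟩ := pow_chain ha hφ0
  have c3 : a * ε ≤ a * φ := mul_le_mul_of_nonneg_left hφ (by linarith)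
  have haN : 2 * N ≤ a * N := mul_le_mul_of_nonneg_right ha hN.le
  obtain ⟨j₀, -, S, hSP, -, hc⟩ := haxell hno
  have h1 := card_pt_ge (S := S) (fun i _ => h.lo i)
  have h2 : S.card ≤ a := hP ▸ card_le_card hSP
  have h2' : (S.card : ℝ) ≤ a := by exact_mod_cast h2
  have h3 := mul_le_mul_of_nonneg_right h2' hε
  have h0 := pt_sdiff_ge p U R S
  have h0' : ((pt p R S).card : ℝ) ≤ R.card := cardR_le (pt_subset _ _ _)
  have hD : 0 ≤ a * N + ε := by positivity
  rcases hc with ⟨I, -, hI, hd⟩ | ⟨K, e, -, himc, hd, -⟩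
  · exfalso
    have h4 := hd.card_le h.deg
    have h5 : (I.card : ℝ) ≤ 2 * S.card - 3 := by
      have : (I.card : ℝ) + 3 ≤ 2 * S.card := by exact_mod_cast hI
      linarith
    have h6 := mul_le_mul_of_nonneg_right h5 hD
    have h7 := mul_le_mul_of_nonneg_right h2' hN.le
    linarith
  have h4 := hd.card_le h.deg
  have h5 : ((ends K e).card : ℝ) ≤ 2 * S.card - 2 := by
    have b1 := card_ends_le K e
    have b2 := himc.good.card
    have : ((ends K e).card : ℝ) + 2 ≤ 2 * S.card := by exact_mod_cast (by omega)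
    linarith
  have h6 := mul_le_mul_of_nonneg_right h5 hD
  have h7 : (a - 1 : ℝ) * N < S.card * N := by linarith
  have h8 : (a - 1 : ℝ) < S.card := lt_of_mul_lt_mul_right h7 hN.le
  have h9 : a < S.card + 1 := by
    have : (a : ℝ) < S.card + 1 := by linarith
    exact_mod_cast this
  obtain rfl : S = P := eq_of_subset_of_card_le hSP (by omega)
  have hKc : (K.card : ℝ) = a - 1 := by
    have := himc.good.card
    rw [hP] at this
    have h2 : (K.card : ℝ) + 1 = a := by exact_mod_cast this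
    linarith
  have hσ : 2 * K.card * (a * N + ε) ≤ (pt p (U \ R) S).card + 4 * a * φ := by
    rw [hKc]; rw [hP] at h1; linarith
  have hge : ∀ u ∈ K, ∀ b, a * N + ε - 4 * a * φ ≤ (priv H p (U \ R) S K e u b).card :=
    fun u hu b => hd.priv_ge h.deg hσ hu b
  have hdj : ∀ u b, ∀ v ∈ K, ∀ c, (v, c) ≠ (u, b) →
      Disjoint (priv H p (U \ R) S K e u (!b)) (priv H p (U \ R) S K e v (!c)) := by
    intro u b v hv c hne
    refine priv_disjoint hv (fun e2 => hne ?_)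
    obtain ⟨e3, e4⟩ := Prod.mk.inj e2
    rw [e3, Bool.not_inj e4]
  refine ⟨K, fun u b => priv H p (U \ R) S K e u (!b), ⟨h.deg, by positivity, himc.good.card,
    fun u _ b x hx => ⟨(mem_sdiff.1 (mem_priv.1 hx).1.1).1, (mem_priv.1 hx).1.2⟩,
    fun u hu b => by linarith [hge u hu (!b)],
    fun u _ b => (cardR_le (priv_subset_nb _ _)).trans (h.deg _),
    fun u hu b x hx y hy => himc.biclique' hno hu hx hy, fun u _ b v hv c => hdj u b v hv c, ?_⟩,
    fun u _ b => disjoint_left.2 (fun x hx => (mem_sdiff.1 (mem_priv.1 hx).1.1).2)⟩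
  intro pos hpos
  obtain ⟨x, hx1, hx2⟩ := greedy (G := H) (K ×ˢ (univ : Finset Bool))
    (fun t => pt p (priv H p (U \ R) S K e t.1 (!t.2)) {pos t.1 t.2}) (fun t t' => t.1 ≠ t'.1)
    (fun _ _ h => h.symm) (fun _ => 0) (μ := 4 * a * φ) (by positivity) (by
      intro t ht
      have h1 := hpos t.1 (mem_product.1 ht).1 t.2
      rw [card_prod_bool, hKc]; linarith) (by
      intro t ht t' ht' _ hn _ y hy
      have hK1 := (mem_product.1 ht).1
      exact h.deg.out_le (fun z hz => himc.biclique' hno hK1 (mem_pt.1 hy).1 hz) (hge _ hK1 _)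
        ((hdj _ (!t.2) _ (mem_product.1 ht').1 _
          (fun e2 => hn (Prod.mk.inj e2).1.symm)).mono_right (pt_subset _ _ _)))
  have hx3 : ∀ u ∈ K, ∀ b, x (u, b) ∈ priv H p (U \ R) S K e u (!b) ∧ p (x (u, b)) = pos u b :=
    fun u hu b => mem_pt1.1 (hx1 (u, b) (by simp [hu]))
  exact (himc.good_of_choice (fun u b => x (u, b)) (fun u hu b => (hx3 u hu b).1)
    (fun u hu v hv huv b c => hx2 (u, b) (by simp [hu]) (v, c) (by simp [hv])
      (fun e2 => huv (Prod.mk.inj e2).1) huv) (fun _ => True) j₀ (fun _ _ _ => trivial)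
    (fun _ _ _ _ => trivial) (fun T hT _ => hno ⟨T, hT⟩)).congr (fun u hu b => (hx3 u hu b).2)

theorem TS.blk (h : TS H p U P K A (a * N + ε) μ) (hA : Amb H p U a N ε) (hP : P.card = a)
    (R : Finset V) {φ : ℝ} (hR : (R.card : ℝ) ≤ a * N + φ) (h1 : μ ≤ φ) (h2 : ε ≤ φ)
    (hs : 20 * a ^ 2 * φ ≤ N) (hno : ¬ HasIT H p (U \ R) P) :
    ((lam p U P K A \ R).card : ℝ) ≤ 4 * a * μ := by
  classical
  have ha := hA.haR
  have hε := hA.hε
  have hN := hA.hN
  have hμ := h.hμ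
  have hφ0 : 0 ≤ φ := hε.trans h2
  obtain ⟨c1, c2, -⟩ := pow_chain ha hφ0
  obtain ⟨c4, c5, -⟩ := pow_chain ha hμ
  have c3 : a * ε ≤ a * φ := mul_le_mul_of_nonneg_left h2 (by linarith)
  have c6 : a ^ 2 * μ ≤ a ^ 2 * φ := mul_le_mul_of_nonneg_left h1 (by positivity)
  have haN : 2 * N ≤ a * N := mul_le_mul_of_nonneg_right ha hN.le
  by_cases hc : ∀ u ∈ K, ∀ b, a * (2 * a * μ) < (A u b \ R).card
  · obtain ⟨pos, hg, hpos⟩ := h.cells hP R hc (by linarith)
    by_contra hlt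
    push Not at hlt
    let At : ι × Bool → Finset V := fun t => (lam p U P K A \ R).filter (fun y =>
      (1 / 2 : ℝ) * (pt p (A t.1 t.2 \ R) {pos t.1 t.2}).card <
        (nb H y ∩ pt p (A t.1 t.2 \ R) {pos t.1 t.2}).card)
    have b1 := cardR_biUnion_le (K ×ˢ (univ : Finset Bool)) At (m := 2 * μ) (by
      rintro ⟨u, b⟩ ht
      have hu : u ∈ K := (mem_product.1 ht).1
      have := atyp_le (G := H) (X := pt p (A u b \ R) {pos u b}) (Y := At (u, b)) (μ := μ)
        (lam := 1 / 2) (fun x hx => h.out hu (mem_sdiff.1 (mem_pt.1 hx).1).1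
          ((lam_disj hu _).mono_right ((filter_subset _ _).trans sdiff_subset)))
        (fun y hy => (mem_filter.1 hy).2) hμ
      linarith)
    rw [card_prod_bool, h.cardK hP] at b1
    obtain ⟨y, hy1, hy2⟩ := exists_mem_not_mem_of_lt (A := lam p U P K A \ R)
      (B := (K ×ˢ (univ : Finset Bool)).biUnion At) (by linarith)
    obtain ⟨⟨hyU, hyP⟩, -⟩ := mem_lam.1 (mem_sdiff.1 hy1).1
    obtain ⟨σ, hσ⟩ := hg.root _ hyP
    obtain ⟨T, hT, hT'⟩ := h.heads hP hσ (U \ R)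
      (fun u => pt p (A u (σ u) \ R) {pos u (σ u)} \ nb H y) (fun u hu x hx => by
        obtain ⟨h1, h2⟩ := mem_pt1.1 (mem_sdiff.1 hx).1
        obtain ⟨h3, h4⟩ := mem_sdiff.1 h1
        exact ⟨h3, mem_sdiff.2 ⟨(h.sub u hu _ x h3).1, h4⟩, h2⟩) (fun u hu => by
        have b2 := hpos u hu (σ u)
        have b3 := card_split_nb H y (pt p (A u (σ u) \ R) {pos u (σ u)})
        have b4 : ¬ ((1 / 2 : ℝ) * (pt p (A u (σ u) \ R) {pos u (σ u)}).card <
            (nb H y ∩ pt p (A u (σ u) \ R) {pos u (σ u)}).card) := fun hh =>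
          hy2 (mem_biUnion.2 ⟨(u, σ u), mem_product.2 ⟨hu, mem_univ _⟩, mem_filter.2 ⟨hy1, hh⟩⟩)
        linarith)
    refine hno ⟨_, hT.insert' (mem_sdiff.2 ⟨hyU, (mem_sdiff.1 hy1).2⟩) (fun i hi ha => ?_)⟩
    obtain ⟨u, -, -, e⟩ := hT' i hi
    exact (mem_sdiff.1 e).2 (mem_nb.2 ha)
  · exfalso
    push Not at hc
    obtain ⟨u, hu, b, hk⟩ := hc
    set At := (U \ A u b).filter (fun y =>
      (1 / (4 * a) : ℝ) * (A u (!b)).card < (nb H y ∩ A u (!b)).card) with hAt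
    have b1 : (At.card : ℝ) ≤ 4 * a * μ := by
      have := atyp_le (G := H) (X := A u (!b)) (Y := At) (μ := μ) (lam := 1 / (4 * a))
        (fun x hx => h.out hu hx (by
          rw [Bool.not_not]
          exact disjoint_sdiff.mono_right (filter_subset _ _))) (fun y hy => (mem_filter.1 hy).2) hμ
      rw [one_div, inv_mul_le_iff₀ (by linarith)] at this
      exact this
    have hno' : ¬ HasIT H p (U \ ((R ∪ A u b) ∪ At)) P := fun hh =>
      hno (hh.mono (sdiff_subset_sdiff subset_rfl (subset_union_left.trans subset_union_left)))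
    obtain ⟨S, hSP, -, I, hIU, hI, hd⟩ := hl_dom hno'
    have b2 : (((R ∪ A u b) ∪ At).card : ℝ) ≤ a * N + φ + a * (2 * a * μ) + 4 * a * μ := by
      have e1 := cardR_union_le (R ∪ A u b) At
      have e2 : ((R ∪ A u b).card : ℝ) ≤ R.card + (A u b \ R).card :=
        cardR_le_add (by rw [union_sdiff_self_eq_union])
      linarith
    have d1 := card_pt_ge (S := S) (fun i _ => hA.lo i)
    have d2 : S.card ≤ a := hP ▸ card_le_card hSP
    have d2' : (S.card : ℝ) ≤ a := by exact_mod_cast d2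
    have d3 := mul_le_mul_of_nonneg_right d2' hε
    have d0 := pt_sdiff_ge p U ((R ∪ A u b) ∪ At) S
    have d0' : ((pt p ((R ∪ A u b) ∪ At) S).card : ℝ) ≤ ((R ∪ A u b) ∪ At).card :=
      cardR_le (pt_subset _ _ _)
    have hD : 0 ≤ a * N + ε := by positivity
    have d4 := hd.card_le hA.deg
    have d5 : (I.card : ℝ) ≤ 2 * S.card - 2 := by
      have : (I.card : ℝ) + 2 ≤ 2 * S.card := by exact_mod_cast hI
      linarith
    have d6 := mul_le_mul_of_nonneg_right d5 hD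
    have d7 : (a - 1 : ℝ) * N < S.card * N := by linarith
    have d8 : (a - 1 : ℝ) < S.card := lt_of_mul_lt_mul_right d7 hN.le
    have d9 : a < S.card + 1 := by
      have : (a : ℝ) < S.card + 1 := by linarith
      exact_mod_cast this
    obtain rfl : S = P := eq_of_subset_of_card_le hSP (by omega)
    have f1 : A u (!b) ⊆ ((R \ A u b) ∪ At) ∪ I.biUnion (fun y => nb H y ∩ A u (!b)) := by
      intro x hx
      have hxb : x ∉ A u b := disjoint_right.1 (h.disj u hu b u hu (!b) (by simp)) hx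
      by_cases hx' : x ∈ (R ∪ A u b) ∪ At
      · refine mem_union_left _ ?_
        rcases mem_union.1 hx' with g1 | g1
        · exact mem_union_left _ (mem_sdiff.2 ⟨(mem_union.1 g1).resolve_right hxb, hxb⟩)
        · exact mem_union_right _ g1
      · obtain ⟨y, hy, had⟩ := hd x (mem_sdiff.2 ⟨(h.sub u hu _ x hx).1, hx'⟩) (h.sub u hu _ x hx).2
        exact mem_union_right _ (mem_biUnion.2 ⟨y, hy, mem_inter.2 ⟨mem_nb.2 had.symm, hx⟩⟩)
    have f2 := cardR_le_add f1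
    have f3 := cardR_union_le (R \ A u b) At
    have f4 := cardR_biUnion_le I (fun y => nb H y ∩ A u (!b))
      (m := (1 / (4 * a) : ℝ) * (A u (!b)).card) (fun y hy => by
        obtain ⟨g1, g2⟩ := mem_sdiff.1 (hIU hy)
        by_contra hc
        exact g2 (mem_union_right _ (mem_filter.2 ⟨mem_sdiff.2 ⟨g1, fun g3 =>
          g2 (mem_union_left _ (mem_union_right _ g3))⟩, not_le.1 hc⟩)))
    have f5 : (I.card : ℝ) * ((1 / (4 * a) : ℝ) * (A u (!b)).card) ≤ (A u (!b)).card / 2 := by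
      have g1 : (I.card : ℝ) ≤ 2 * a := by linarith
      have g2 := mul_le_mul_of_nonneg_right g1
        (show 0 ≤ (1 / (4 * a) : ℝ) * (A u (!b)).card from
          mul_nonneg (by positivity) (Nat.cast_nonneg _))
      refine g2.trans (le_of_eq ?_)
      field_simp
      ring
    have f6 := cardR_sdiff_inter R (A u b)
    have f7 := cardR_sdiff_inter (A u b) R
    rw [inter_comm] at f7
    have f8 := h.big u hu b
    have f9 := h.big u hu (!b)
    linarith

end Pool.Agent.MP_bc5f1c_co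

end MrgPart1

-- ======== part 2: formerly Pool.Agent.MP_bc5f1c_co.Count
section MrgPart2

/-!
Counting non-extendable vertices over a tight set.
-/

set_option autoImplicit false
set_option linter.unusedSectionVars false
set_option linter.unusedVariables false

open Finset

namespace Pool.Agent.MP_bc5f1c_co

variable {V ι : Type*} [Fintype V] [DecidableEq V] [DecidableEq ι] [Fintype ι] [Nonempty V]

/-- Robust existence of a transversal avoiding `F`. -/
def RExt (H : SimpleGraph V) (p : V → ι) (U : Finset V) (ε : ℝ) (F : Finset V) (J : Finset ι) :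
    Prop :=
  ∀ E : Finset V, (E.card : ℝ) ≤ ε → HasIT H p (U \ (F ∪ E)) J

/-- The interface provided by regularity and the Kovari-Sos-Turan bound. -/
structure Reg (G H : SimpleGraph V) (p : V → ι) (U : Finset V) (a s : ℕ) (N ε γ κ τ : ℝ) :
    Prop where
  amb : Amb H p U a N ε
  hs : 1 ≤ s
  degG : Deg G (a * N - γ)
  hκ : 0 < κ
  hτκ : τ ≤ κ
  hγ : 3 * κ ≤ γ
  hτ : τ ≤ ε
  r3 : ∀ x ∈ U, ((nb H x \ nb G x).card : ℝ) ≤ ε
  part : ∀ i, (2 * a - 1) * N ≤ (pt p univ {i}).card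
  ext : ∀ W : Finset V, (∀ w ∈ W, RExt H p U ε (nb G w) (univ.erase (p w))) → (W.card : ℝ) ≤ κ
  pe : ∀ (j : ι) (W T : Finset V), (∀ w ∈ W, p w ≠ j) → (∀ x ∈ T, p x = j) → τ ≤ T.card →
    (∀ w ∈ W, ∀ Y ⊆ T, Y.card ≤ s →
      RExt H p U ε (nb G w ∪ Y.biUnion (nb G)) ((univ.erase (p w)).erase j)) →
    ∃ x ∈ T, ((W \ nb G x).card : ℝ) ≤ κ

variable {G H : SimpleGraph V} {p : V → ι} {U : Finset V} {a s : ℕ} {N ε γ κ τ μ : ℝ}
variable {P K : Finset ι} {A : ι → Bool → Finset V}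

theorem Reg.degG' (h : Reg G H p U a s N ε γ κ τ) (x : V) : ((nb G x).card : ℝ) ≤ a * N := by
  have := h.degG x
  have := h.hκ
  have := h.hγ
  linarith

theorem Reg.gout (h : Reg G H p U a s N ε γ κ τ) {x : V} (hx : x ∈ U) {X : Finset V} {ν : ℝ}
    (hX : ∀ y ∈ X, H.Adj x y) (hb : a * N + ε - ν ≤ X.card) : ((nb G x \ X).card : ℝ) ≤ ν := by
  have h1 : (X.card : ℝ) ≤ (nb H x \ nb G x).card + (nb G x ∩ X).card := by
    apply cardR_le_add
    intro y hy
    by_cases hc : y ∈ nb G x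
    · exact mem_union_right _ (mem_inter.2 ⟨hc, hy⟩)
    · exact mem_union_left _ (mem_sdiff.2 ⟨mem_nb.2 (hX y hy), hc⟩)
  have h2 := cardR_sdiff_inter (nb G x) X
  have := h.r3 x hx
  have := h.degG' x
  linarith

theorem biUnion_sdiff_le {Y X : Finset V} {f : V → Finset V} {ν : ℝ} (hν : 0 ≤ ν)
    (hY : Y.card ≤ s) (h : ∀ y ∈ Y, ((f y \ X).card : ℝ) ≤ ν) :
    ((Y.biUnion f \ X).card : ℝ) ≤ s * ν := by
  have h1 : Y.biUnion f \ X ⊆ Y.biUnion (fun y => f y \ X) := by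
    intro x hx
    obtain ⟨h1, h2⟩ := mem_sdiff.1 hx
    obtain ⟨i, hi, h3⟩ := mem_biUnion.1 h1
    exact mem_biUnion.2 ⟨i, hi, mem_sdiff.2 ⟨h3, h2⟩⟩
  have h3 : (Y.card : ℝ) ≤ s := by exact_mod_cast hY
  exact (cardR_le h1).trans ((cardR_biUnion_le _ _ h).trans (mul_le_mul_of_nonneg_right h3 hν))

theorem inter_le_sdiff {F X Y : Finset V} (h : Disjoint X Y) :
    ((F ∩ Y).card : ℝ) ≤ (F \ X).card :=
  cardR_le (fun _ hx => mem_sdiff.2 ⟨(mem_inter.1 hx).1,
    fun hh => disjoint_left.1 h hh (mem_inter.1 hx).2⟩)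

theorem sdiff_union_ge (X F F' : Finset V) :
    ((X \ F).card : ℝ) ≤ (X \ (F ∪ F')).card + (F' ∩ X).card := by
  apply cardR_le_add
  intro x hx
  obtain ⟨h1, h2⟩ := mem_sdiff.1 hx
  by_cases hc : x ∈ F'
  · exact mem_union_right _ (mem_inter.2 ⟨hc, h1⟩)
  · exact mem_union_left _ (mem_sdiff.2 ⟨h1, fun hh => (mem_union.1 hh).elim h2 hc⟩)

theorem pt_eq_inter (F : Finset V) (J : Finset ι) : pt p F J = F ∩ pt p univ J := by
  ext x; simp

theorem inter_union_le (F F' X : Finset V) :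
    (((F ∪ F') ∩ X).card : ℝ) ≤ (F ∩ X).card + (F' ∩ X).card := by
  rw [union_inter_distrib_right]; exact cardR_union_le _ _

theorem hasIT_add {W : Finset V} {J : Finset ι} {x : V} (hx : x ∈ W)
    (h : HasIT H p (W \ nb H x) J) : HasIT H p W (insert (p x) J) := by
  obtain ⟨T, hT⟩ := h
  exact IsIT.insert (T := T) ⟨fun i hi => ⟨(mem_sdiff.1 (hT.1 i hi).1).1, (hT.1 i hi).2⟩, hT.2⟩ hx
    (fun i hi ha => (mem_sdiff.1 (hT.1 i hi).1).2 (mem_nb.2 ha))

theorem TS.disj_out (h : TS H p U P K A (a * N + ε) μ) {u : ι} (hu : u ∈ K) (b : Bool)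
    {J : Finset ι} (hJ : ∀ i ∈ J, i ∉ P) (W : Finset V) : Disjoint (A u b) (pt p W J) :=
  disjoint_left.2 (fun x h1 h2 => hJ _ (mem_pt.1 h2).2 (h.sub u hu b x h1).2)

theorem TS.ext_low (h : TS H p U P K A (a * N + ε) μ) (hA : Amb H p U a N ε) (hP : P.card = a)
    {pos : ι → Bool → ι} (hpos : ∀ u ∈ K, ∀ b, N / 2 < (pt p (A u b) {pos u b}).card) {i : ι}
    {σ : ι → Bool} (hσ : Rooted P K pos i σ) (F : Finset V) {J₁ : Finset ι} (hJ : J₁ ⊆ P.erase i)
    {φ : ℝ} (hφ : 0 ≤ φ) (hF : ∀ v ∈ K, pos v (σ v) ∈ J₁ → ((F ∩ A v (σ v)).card : ℝ) ≤ φ)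
    (hF' : ((F ∩ pt p univ Pᶜ).card : ℝ) ≤ φ) (hs : a * μ + φ + 3 * (a + 1) * ε ≤ N / 2) :
    HasIT H p (U \ F) (J₁ ∪ Pᶜ) := by
  have ha := hA.haR
  have hε := hA.hε
  have hN := hA.hN
  have c1 := (pow_chain ha hε).1
  have haN : 2 * N ≤ a * N := mul_le_mul_of_nonneg_right ha hN.le
  obtain ⟨T, hT, hT'⟩ := h.heads hP hσ U (fun v => if pos v (σ v) ∈ J₁ then
      pt p (A v (σ v)) {pos v (σ v)} \ F else pt p (A v (σ v)) {pos v (σ v)}) (by
    intro u hu x hx
    have : x ∈ pt p (A u (σ u)) {pos u (σ u)} := by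
      split_ifs at hx
      · exact (mem_sdiff.1 hx).1
      · exact hx
    obtain ⟨h1, h2⟩ := mem_pt1.1 this
    exact ⟨h1, (h.sub u hu _ x h1).1, h2⟩) (by
    intro u hu
    have h1 := hpos u hu (σ u)
    split_ifs with hc
    · have h2 := cardR_sdiff_inter (pt p (A u (σ u)) {pos u (σ u)}) F
      have h3 : ((pt p (A u (σ u)) {pos u (σ u)} ∩ F).card : ℝ) ≤ (F ∩ A u (σ u)).card :=
        cardR_le (fun x hx => mem_inter.2 ⟨(mem_inter.1 hx).2, (mem_pt.1 (mem_inter.1 hx).1).1⟩)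
      have := hF u hu hc
      linarith
    · linarith)
  have hT1 : IsIT H p (U \ F) J₁ T := by
    refine ⟨fun k hk => ⟨mem_sdiff.2 ⟨(hT.1 k (hJ hk)).1, ?_⟩, (hT.1 k (hJ hk)).2⟩,
      fun k hk l hl => hT.2 k (hJ hk) l (hJ hl)⟩
    obtain ⟨u, -, e1, e2⟩ := hT' k (hJ hk)
    rw [e1, if_pos hk] at e2
    exact (mem_sdiff.1 e2).2
  have hT2 : ∀ k ∈ J₁, ∃ u ∈ K, ∃ b, T k ∈ A u b := by
    intro k hk
    obtain ⟨u, hu, e1, e2⟩ := hT' k (hJ hk)
    rw [e1, if_pos hk] at e2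
    exact ⟨u, hu, _, (mem_pt.1 (mem_sdiff.1 e2).1).1⟩
  refine hT1.ext ?_
  rw [sdiff_sdiff_left, sup_eq_union]
  refine hl_rem (m := a + 1) (ρ := φ + a * μ) hA.deg hN.le hε (by linarith) (fun i _ => hA.lo i) _
    (by rw [hA.card_compl hP]; push_cast; exact le_rfl) ?_ (by linarith)
  rw [pt_eq_inter]
  have h1 := inter_union_le F (J₁.biUnion (fun i => nb H (T i))) (pt p univ Pᶜ)
  have h2 := h.nbT hP (hJ.trans (erase_subset _ _)) hT2 (Y := pt p univ Pᶜ)
    (fun y hy => mem_compl.1 (mem_pt.1 hy).2)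
  linarith

open Classical in
/-- Non-extendable vertices of the parts `P` that are not near any side. -/
noncomputable def Wnn (G H : SimpleGraph V) (p : V → ι) (U : Finset V) (ε : ℝ) (P K : Finset ι)
    (A : ι → Bool → Finset V) (k : ℝ) : Finset V :=
  (pt p univ P).filter (fun w => ¬ RExt H p U ε (nb G w) (univ.erase (p w)) ∧
    ∀ u ∈ K, ∀ b, k < (A u b \ nb G w).card)

theorem mem_Wnn {k : ℝ} {w : V} : w ∈ Wnn G H p U ε P K A k ↔ p w ∈ P ∧
    ¬ RExt H p U ε (nb G w) (univ.erase (p w)) ∧ ∀ u ∈ K, ∀ b, k < (A u b \ nb G w).card := by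
  simp only [Wnn, mem_filter, mem_pt, mem_univ, true_and]

theorem as_chain {a s x : ℝ} (ha : 2 ≤ a) (hs : 1 ≤ s) (hx : 0 ≤ x) :
    x ≤ s * x ∧ 2 * (s * x) ≤ a * s * x ∧ a * x ≤ a * s * x ∧ 2 * (a * s * x) ≤ a ^ 2 * s * x ∧
      a ^ 2 * x ≤ a ^ 2 * s * x := by
  have h1 : x ≤ s * x := le_mul_of_one_le_left hx hs
  have h0 : 0 ≤ s * x := hx.trans h1
  obtain ⟨c1, c2, -⟩ := pow_chain ha h0
  have h2 := mul_le_mul_of_nonneg_left h1 (show 0 ≤ a by linarith)
  have h3 := mul_le_mul_of_nonneg_left h1 (show 0 ≤ a ^ 2 by positivity)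
  exact ⟨h1, by linarith, by linarith, by linarith, by linarith⟩

theorem Reg.near_out (h : Reg G H p U a s N ε γ κ τ) {X : Finset V} {k : ℝ} {w : V}
    (hb : a * N + ε - μ ≤ X.card) (hw : ((X \ nb G w).card : ℝ) ≤ k) :
    ((nb G w \ X).card : ℝ) ≤ μ + k := by
  have h1 := card_split_nb G w X
  have h2 := cardR_sdiff_inter (nb G w) X
  have := h.degG' w
  have := h.amb.hε
  linarith

theorem Reg.count_nn (h : Reg G H p U a s N ε γ κ τ) (ts : TS H p U P K A (a * N + ε) μ)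
    (hP : P.card = a) {k : ℝ} (h1 : μ ≤ k) (h2 : ε ≤ k) (h3 : 20 * a * s * k ≤ N) (z : V) :
    (2 * a - 1) * (γ - κ) ≤ (Wnn G H p U ε P K A k \ nb G z).card := by
  classical
  have hA := h.amb
  have ha := hA.haR
  have hε := hA.hε
  have hN := hA.hN
  have hμ := ts.hμ
  have hs : (1 : ℝ) ≤ s := by exact_mod_cast h.hs
  have hk : 0 ≤ k := hε.trans h2
  obtain ⟨c1, c2, c3, -⟩ := as_chain ha hs hk
  have c4 : a * μ ≤ a * k := mul_le_mul_of_nonneg_left h1 (by linarith)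
  have c5 : a * ε ≤ a * k := mul_le_mul_of_nonneg_left h2 (by linarith)
  have c6 : s * μ ≤ s * k := mul_le_mul_of_nonneg_left h1 (by linarith)
  have haN : 2 * N ≤ a * N := mul_le_mul_of_nonneg_right ha hN.le
  obtain ⟨pos, hg, hpos⟩ := ts.cells hP ∅ (m := N / 2) (fun u hu b => by
    have := ts.big u hu b
    rw [sdiff_empty]; linarith) (by linarith)
  simp only [sdiff_empty] at hpos
  set Ext := univ.filter (fun w => RExt H p U ε (nb G w) (univ.erase (p w))) with hExt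
  have hE : (Ext.card : ℝ) ≤ κ := h.ext _ (fun w hw => (mem_filter.1 hw).2)
  let Nr : ι × Bool → Finset V := fun t => (pt p univ P).filter (fun w =>
    ¬ RExt H p U ε (nb G w) (univ.erase (p w)) ∧ ((A t.1 t.2 \ nb G w).card : ℝ) ≤ k)
  have hNr : ∀ t ∈ K ×ˢ (univ : Finset Bool), ((Nr t).card : ℝ) ≤ κ + (a * N - γ) := by
    rintro ⟨u, b⟩ ht
    have hu : u ∈ K := (mem_product.1 ht).1
    have hroot : ∀ w ∈ Nr (u, b), ∃ σ, Rooted P K pos (p w) σ ∧ σ u = b := by
      intro w hw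
      obtain ⟨w1, w2, w3⟩ := mem_filter.1 hw
      obtain ⟨σ, hσ⟩ := hg.root _ (mem_pt.1 w1).2
      refine ⟨σ, hσ, ?_⟩
      by_contra hne
      apply w2
      intro E hE
      have o1 := h.near_out (ts.big u hu b) w3
      have o2 : ∀ Y, Disjoint (A u b) Y → (((nb G w ∪ E) ∩ Y).card : ℝ) ≤ μ + k + ε := by
        intro Y hY
        have := inter_union_le (nb G w) E Y
        have := inter_le_sdiff (F := nb G w) hY
        have : ((E ∩ Y).card : ℝ) ≤ E.card := cardR_le inter_subset_left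
        linarith
      refine (ts.ext_low hA hP hpos hσ (nb G w ∪ E) subset_rfl (φ := μ + k + ε) (by linarith)
        (fun v hv _ => o2 _ (ts.disj u hu b v hv _ (fun e => hne ?_)))
        (o2 _ (ts.disj_out hu b (fun i hi => mem_compl.1 hi) _)) (by linarith)).subset ?_
      · obtain ⟨rfl, e2⟩ := Prod.mk.inj e
        exact e2
      · intro i hi
        by_cases hc : i ∈ P
        · exact mem_union_left _ (mem_erase.2 ⟨ne_of_mem_erase hi, hc⟩)
        · exact mem_union_right _ (mem_compl.2 hc)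
    obtain ⟨x, hx, hx'⟩ := h.pe (pos u b) (Nr (u, b)) (pt p (A u b) {pos u b}) (by
      intro w hw
      obtain ⟨σ, hσ, e⟩ := hroot w hw
      have := hσ.ne hg.card (mem_pt.1 (mem_filter.1 hw).1).2 hu
      rw [e] at this
      exact this.symm) (fun x hx => (mem_pt1.1 hx).2) (by
      have := hpos u hu b
      have := h.hτ
      linarith) (by
      intro w hw Y hY hYs E hE
      obtain ⟨σ, hσ, e⟩ := hroot w hw
      obtain ⟨w1, w2, w3⟩ := mem_filter.1 hw
      have o1 := h.near_out (ts.big u hu b) w3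
      have o3 := biUnion_sdiff_le (f := nb G) (X := A u (!b)) hμ hYs (fun y hy =>
        h.gout (ts.sub u hu b y (mem_pt.1 (hY hy)).1).1 (ts.comp u hu b y (mem_pt.1 (hY hy)).1)
          (ts.big u hu _))
      have o2 : ∀ X, Disjoint (A u b) X → Disjoint (A u (!b)) X →
          ((((nb G w ∪ Y.biUnion (nb G)) ∪ E) ∩ X).card : ℝ) ≤ μ + k + s * μ + ε := by
        intro X hX hX'
        have := inter_union_le (nb G w ∪ Y.biUnion (nb G)) E X
        have := inter_union_le (nb G w) (Y.biUnion (nb G)) X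
        have := inter_le_sdiff (F := nb G w) hX
        have := inter_le_sdiff (F := Y.biUnion (nb G)) hX'
        have : ((E ∩ X).card : ℝ) ≤ E.card := cardR_le inter_subset_left
        linarith
      refine (ts.ext_low hA hP hpos hσ ((nb G w ∪ Y.biUnion (nb G)) ∪ E)
        (erase_subset (pos u b) _) (φ := μ + k + s * μ + ε) (by positivity) (fun v hv hc => ?_)
        (o2 _ (ts.disj_out hu _ (fun i hi => mem_compl.1 hi) _)
          (ts.disj_out hu _ (fun i hi => mem_compl.1 hi) _)) (by linarith)).subset ?_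
      · have hvu : v ≠ u := by
          rintro rfl
          rw [e] at hc
          exact notMem_erase _ _ hc
        exact o2 _ (ts.disj u hu _ v hv _ (fun e => hvu (Prod.mk.inj e).1))
          (ts.disj u hu _ v hv _ (fun e => hvu (Prod.mk.inj e).1))
      · intro i hi
        by_cases hc : i ∈ P
        · exact mem_union_left _ (mem_erase.2 ⟨ne_of_mem_erase hi,
            mem_erase.2 ⟨ne_of_mem_erase (mem_of_mem_erase hi), hc⟩⟩)
        · exact mem_union_right _ (mem_compl.2 hc))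
    have b1 := card_split_nb G x (Nr (u, b))
    have b2 := h.degG.inter_le x (Nr (u, b))
    linarith
  have b1 := cardR_biUnion_le _ _ hNr
  rw [card_prod_bool, ts.cardK hP] at b1
  have b2 : pt p univ P ⊆ (((Wnn G H p U ε P K A k \ nb G z) ∪ nb G z) ∪ Ext) ∪
      (K ×ˢ (univ : Finset Bool)).biUnion Nr := by
    intro w hw
    by_cases e1 : RExt H p U ε (nb G w) (univ.erase (p w))
    · exact mem_union_left _ (mem_union_right _ (mem_filter.2 ⟨mem_univ _, e1⟩))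
    by_cases e2 : ∀ u ∈ K, ∀ b, k < (A u b \ nb G w).card
    · refine mem_union_left _ (mem_union_left _ ?_)
      rw [sdiff_union_self_eq_union]
      exact mem_union_left _ (mem_Wnn.2 ⟨(mem_pt.1 hw).2, e1, e2⟩)
    · push Not at e2
      obtain ⟨u, hu, b, e3⟩ := e2
      exact mem_union_right _ (mem_biUnion.2 ⟨(u, b), mem_product.2 ⟨hu, mem_univ _⟩,
        mem_filter.2 ⟨hw, e1, e3⟩⟩)
  have b3 := cardR_le_add b2
  have b4 := cardR_union_le ((Wnn G H p U ε P K A k \ nb G z) ∪ nb G z) Ext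
  have b5 := cardR_union_le (Wnn G H p U ε P K A k \ nb G z) (nb G z)
  have b6 := h.degG z
  have b7 := card_pt_ge (S := P) (fun i _ => h.part i)
  rw [hP] at b7
  linarith

theorem Reg.blk_of_z (h : Reg G H p U a s N ε γ κ τ) (ts : TS H p U P K A (a * N + ε) μ)
    (hP : P.card = a) {k ν : ℝ} {w : V} (hw : w ∈ Wnn G H p U ε P K A k) {c : ι} (hc : c ∉ P)
    {Z : Finset V} (hZ : ∀ z ∈ Z, z ∈ U ∧ p z = c)
    (hZ' : ∀ z ∈ Z, ((nb H z \ lam p U P K A).card : ℝ) ≤ ν) (hZw : ε < (Z \ nb G w).card)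
    (hk : a * (a * μ) + ε + ν ≤ k) : ∃ E' : Finset V, (E'.card : ℝ) ≤ ε + a * μ + ν ∧
      ¬ HasIT H p (U \ (nb G w ∪ E')) (Pᶜ.erase c) := by
  obtain ⟨w1, w2, w3⟩ := mem_Wnn.1 hw
  unfold RExt at w2
  push Not at w2
  obtain ⟨E, hE, hno⟩ := w2
  obtain ⟨z, hz1, hz2⟩ := exists_mem_not_mem_of_lt (A := Z \ nb G w) (B := E) (by linarith)
  obtain ⟨hz3, hz4⟩ := mem_sdiff.1 hz1
  obtain ⟨T, hT, hT'⟩ := ts.heads' hP ((nb G w ∪ E) ∪ nb H z) (fun u hu b => by
    have a1 := sdiff_union_ge (A u b) (nb G w ∪ E) (nb H z)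
    have a2 := sdiff_union_ge (A u b) (nb G w) E
    have a3 : ((E ∩ A u b).card : ℝ) ≤ E.card := cardR_le inter_subset_left
    have a4 := inter_le_sdiff (F := nb H z) (lam_disj (p := p) (U := U) (P := P) (A := A) hu b).symm
    have := hZ' z hz3
    have := w3 u hu b
    linarith) w1
  refine ⟨(E ∪ ((P.erase (p w)).biUnion (fun k => nb H (T k)) ∩ pt p univ Pᶜ)) ∪
    (nb H z \ lam p U P K A), ?_, fun hit => hno ?_⟩
  · have a1 := cardR_union_le (E ∪ ((P.erase (p w)).biUnion (fun k => nb H (T k)) ∩ pt p univ Pᶜ))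
      (nb H z \ lam p U P K A)
    have a2 := cardR_union_le E ((P.erase (p w)).biUnion (fun k => nb H (T k)) ∩ pt p univ Pᶜ)
    have a3 := ts.nbT hP (erase_subset _ _) hT' (Y := pt p univ Pᶜ)
      (fun y hy => mem_compl.1 (mem_pt.1 hy).2)
    have := hZ' z hz3
    linarith
  · have b1 : HasIT H p ((U \ ((nb G w ∪ E) ∪ nb H z)) \
        (P.erase (p w)).biUnion (fun k => nb H (T k))) (Pᶜ.erase c) := by
      refine hit.of_pt (fun x hx hp => ?_)
      have hp' : p x ∉ P := mem_compl.1 (mem_of_mem_erase hp)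
      simp only [mem_sdiff, mem_union, mem_inter, mem_pt, mem_univ, true_and, mem_compl, not_or,
        not_and, not_not] at hx ⊢
      exact ⟨⟨hx.1, ⟨hx.2.1, hx.2.2.1.1⟩, fun hh => hp' (mem_lam.1 (hx.2.2.2 hh)).1.2⟩,
        fun hh => hp' (hx.2.2.1.2 hh)⟩
    have b2 := hT.ext b1
    rw [← sup_eq_union (s := nb G w ∪ E), ← sdiff_sdiff_left] at b2
    have b3 := hasIT_add (mem_sdiff.2 ⟨(hZ z hz3).1, fun hh => (mem_union.1 hh).elim hz4 hz2⟩) b2
    refine b3.subset (fun i hi => ?_)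
    rw [(hZ z hz3).2]
    by_cases e1 : i = c
    · exact e1 ▸ mem_insert_self _ _
    · refine mem_insert_of_mem ?_
      by_cases e2 : i ∈ P
      · exact mem_union_left _ (mem_erase.2 ⟨ne_of_mem_erase hi, e2⟩)
      · exact mem_union_right _ (mem_erase.2 ⟨e1, mem_compl.2 e2⟩)

theorem Amb.card_compl_erase (h : Amb H p U a N ε) (hP : P.card = a) {c : ι} (hc : c ∉ P) :
    (Pᶜ.erase c).card = a := by
  rw [card_erase_of_mem (mem_compl.2 hc), h.card_compl hP]; omega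

theorem Reg.run (h : Reg G H p U a s N ε γ κ τ) (ts : TS H p U P K A (a * N + ε) μ)
    (hP : P.card = a) {k ν : ℝ} {c : ι} (hc : c ∉ P) {Z : Finset V}
    (hZ : ∀ z ∈ Z, z ∈ U ∧ p z = c) {L : Finset V} (hL : L ⊆ lam p U P K A)
    (hLc : a * N + ε - ν ≤ L.card) (hLZ : ∀ z ∈ Z, ∀ x ∈ L, H.Adj z x) (h1 : μ ≤ ν) (h2 : ε ≤ ν)
    (h3 : 10 * a ^ 2 * s * ν ≤ k) (h4 : 20 * a * s * k ≤ N) (h5 : 20 * a * s * ν < Z.card) :
    ∃ W : Finset V, 2 * a * κ ≤ W.card ∧ ∀ w ∈ W, p w ∈ P ∧ ∃ E' : Finset V,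
      (E'.card : ℝ) ≤ 2 * a * ν ∧ ¬ HasIT H p (U \ (nb G w ∪ E')) (Pᶜ.erase c) := by
  classical
  have hA := h.amb
  have ha := hA.haR
  have hε := hA.hε
  have hN := hA.hN
  have hμ := ts.hμ
  have hs : (1 : ℝ) ≤ s := by exact_mod_cast h.hs
  have hν : 0 ≤ ν := hε.trans h2
  obtain ⟨c1, c2, c3, c7, c8⟩ := as_chain ha hs hν
  have c0 := (pow_chain ha hν).1
  have c4 : a * μ ≤ a * ν := mul_le_mul_of_nonneg_left h1 (by linarith)
  have c5 : a * ε ≤ a * ν := mul_le_mul_of_nonneg_left h2 (by linarith)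
  have c6 : a ^ 2 * μ ≤ a ^ 2 * ν := mul_le_mul_of_nonneg_left h1 (by positivity)
  have hZH : ∀ z ∈ Z, ((nb H z \ lam p U P K A).card : ℝ) ≤ ν := fun z hz =>
    (cardR_le (sdiff_subset_sdiff subset_rfl hL)).trans (hA.deg.sdiff_le (hLZ z hz) hLc)
  have hZG : ∀ z ∈ Z, ((nb G z \ lam p U P K A).card : ℝ) ≤ ν := fun z hz =>
    (cardR_le (sdiff_subset_sdiff subset_rfl hL)).trans (h.gout (hZ z hz).1 (hLZ z hz) hLc)
  set Wn := (Wnn G H p U ε P K A k).filter (fun w => ((Z \ nb G w).card : ℝ) ≤ Z.card / 2) with hWn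
  obtain ⟨z, hz, hz'⟩ := h.pe c Wn Z
    (fun w hw e => hc (e ▸ (mem_Wnn.1 (mem_filter.1 hw).1).1)) (fun z hz => (hZ z hz).2)
    (by have := h.hτ; linarith) (by
    intro w hw Y hY hYs E hE
    obtain ⟨w0, w4⟩ := mem_filter.1 hw
    obtain ⟨w1, -, w3⟩ := mem_Wnn.1 w0
    have o3 := biUnion_sdiff_le (f := nb G) (X := lam p U P K A) hν hYs (fun y hy => hZG y (hY hy))
    obtain ⟨T, hT, hT'⟩ := ts.heads' hP ((nb G w ∪ Y.biUnion (nb G)) ∪ E) (fun u hu b => by
      have a1 := sdiff_union_ge (A u b) (nb G w ∪ Y.biUnion (nb G)) E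
      have a2 := sdiff_union_ge (A u b) (nb G w) (Y.biUnion (nb G))
      have a3 : ((E ∩ A u b).card : ℝ) ≤ E.card := cardR_le inter_subset_left
      have a4 := inter_le_sdiff (F := Y.biUnion (nb G))
        (lam_disj (p := p) (U := U) (P := P) (A := A) hu b).symm
      have := w3 u hu b
      linarith) w1
    refine (hT.ext (J₂ := Pᶜ.erase c) ?_).subset (fun i hi => ?_)
    · rw [sdiff_sdiff_left, sup_eq_union]
      refine hl_rem (m := a) (ρ := a * N - Z.card / 2 + s * ν + ε + a * μ) hA.deg hN.le hε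
        (by linarith) (fun i _ => hA.lo i) _ (by rw [hA.card_compl_erase hP hc]) ?_ (by linarith)
      rw [pt_eq_inter]
      set X := pt p univ (Pᶜ.erase c) with hX
      have hXP : ∀ y ∈ X, p y ∉ P := fun y hy => mem_compl.1 (mem_of_mem_erase (mem_pt.1 hy).2)
      have a1 := inter_union_le ((nb G w ∪ Y.biUnion (nb G)) ∪ E)
        ((P.erase (p w)).biUnion (fun i => nb H (T i))) X
      have a2 := inter_union_le (nb G w ∪ Y.biUnion (nb G)) E X
      have a3 := inter_union_le (nb G w) (Y.biUnion (nb G)) X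
      have a4 := ts.nbT hP (erase_subset _ _) hT' hXP
      have a5 : ((E ∩ X).card : ℝ) ≤ E.card := cardR_le inter_subset_left
      have a6 := inter_le_sdiff (F := Y.biUnion (nb G)) (X := lam p U P K A) (Y := X)
        (disjoint_left.2 (fun y hy hy' => hXP y hy' (mem_lam.1 hy).1.2))
      have a7 := h.degG.inter_add_le w (X := X) (Y := Z) (disjoint_left.2 (fun y hy hy' =>
        ne_of_mem_erase (mem_pt.1 hy).2 (hZ y hy').2))
      have a8 := card_split_nb G w Z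
      have := h.hκ
      have := h.hγ
      linarith
    · by_cases e2 : i ∈ P
      · exact mem_union_left _ (mem_erase.2 ⟨ne_of_mem_erase (mem_of_mem_erase hi), e2⟩)
      · exact mem_union_right _ (mem_erase.2 ⟨ne_of_mem_erase hi, mem_compl.2 e2⟩))
  refine ⟨Wnn G H p U ε P K A k \ Wn, ?_, fun w hw => ?_⟩
  · have a1 := h.count_nn ts hP (k := k) (by linarith) (by linarith) h4 z
    have a2 : ((Wnn G H p U ε P K A k \ nb G z).card : ℝ) ≤
        (Wnn G H p U ε P K A k \ Wn).card + (Wn \ nb G z).card := by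
      apply cardR_le_add
      intro x hx
      by_cases hc' : x ∈ Wn
      · exact mem_union_right _ (mem_sdiff.2 ⟨hc', (mem_sdiff.1 hx).2⟩)
      · exact mem_union_left _ (mem_sdiff.2 ⟨(mem_sdiff.1 hx).1, hc'⟩)
    have a3 := mul_le_mul_of_nonneg_left (show 2 * κ ≤ γ - κ by linarith [h.hγ])
      (show (0 : ℝ) ≤ 2 * a - 1 by linarith)
    have a4 := (pow_chain ha h.hκ.le).1
    have := h.hκ
    linarith
  · obtain ⟨w0, w4⟩ := mem_sdiff.1 hw
    have w5 : (Z.card : ℝ) / 2 < (Z \ nb G w).card := not_le.1 (fun hh => w4 (mem_filter.2 ⟨w0, hh⟩))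
    obtain ⟨E', e1, e2⟩ := h.blk_of_z ts hP w0 hc hZ hZH (by linarith) (by linarith)
    exact ⟨(mem_Wnn.1 w0).1, E', by linarith, e2⟩

end Pool.Agent.MP_bc5f1c_co

end MrgPart2

-- ======== part 3: formerly Pool.Agent.MP_bc5f1c_co.NoTight
section MrgPart3

/-!
A tight set is impossible when the degree gap is large enough.
-/

set_option autoImplicit false
set_option linter.unusedSectionVars false
set_option linter.unusedVariables false

open Finset

namespace Pool.Agent.MP_bc5f1c_co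

variable {V ι : Type*} [Fintype V] [DecidableEq V] [DecidableEq ι] [Fintype ι] [Nonempty V]
variable {G H : SimpleGraph V} {p : V → ι} {U : Finset V} {a s : ℕ} {N ε γ κ τ μ : ℝ}
variable {P K P' K' : Finset ι} {A A' : ι → Bool → Finset V}

theorem dcount {X Y : Finset V} {μ β : ℝ} (hX : ∀ x ∈ X, ((nb H x ∩ Y).card : ℝ) ≤ μ)
    (hY : ∀ y ∈ Y, β ≤ (nb H y ∩ X).card) : Y.card * β ≤ X.card * μ := by
  classical
  have h1 : ∑ y ∈ Y, ((nb H y ∩ X).card : ℝ) = ∑ x ∈ X, ((nb H x ∩ Y).card : ℝ) := by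
    have e1 : ∀ (z : V) (W : Finset V), ((nb H z ∩ W).card : ℝ) =
        ∑ w ∈ W, if H.Adj z w then (1 : ℝ) else 0 := by
      intro z W
      rw [sum_boole]
      congr 2
      ext w
      simp only [mem_inter, mem_nb, mem_filter]
      tauto
    simp only [e1]
    rw [sum_comm]
    refine sum_congr rfl (fun x _ => sum_congr rfl (fun y _ => ?_))
    simp only [H.adj_comm]
  have h2 : ∑ x ∈ X, ((nb H x ∩ Y).card : ℝ) ≤ X.card * μ := by
    rw [← nsmul_eq_mul, ← sum_const]; exact sum_le_sum hX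
  have h3 : Y.card * β ≤ ∑ y ∈ Y, ((nb H y ∩ X).card : ℝ) := by
    rw [← nsmul_eq_mul, ← sum_const]; exact sum_le_sum hY
  linarith

theorem TS.atyp {D : ℝ} (h : TS H p U P K A D μ) (hP : P.card = a) (W : Finset V)
    (hW : ∀ u ∈ K, ∀ b, Disjoint (A u b) W) : ∃ B : Finset V, (B.card : ℝ) ≤ 8 * a * μ ∧
      ∀ y ∈ W, y ∉ B → ∀ u ∈ K, ∀ b, ((nb H y ∩ A u b).card : ℝ) ≤ (A u b).card / 4 := by
  classical
  let At : ι × Bool → Finset V := fun t => W.filter (fun y =>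
    (1 / 4 : ℝ) * (A t.1 t.2).card < (nb H y ∩ A t.1 t.2).card)
  have b1 := cardR_biUnion_le (K ×ˢ (univ : Finset Bool)) At (m := 4 * μ) (by
    rintro ⟨u, b⟩ ht
    have hu : u ∈ K := (mem_product.1 ht).1
    have := atyp_le (G := H) (X := A u b) (Y := At (u, b)) (μ := μ) (lam := 1 / 4)
      (fun x hx => h.out hu hx ((hW u hu _).mono_right (filter_subset _ _)))
      (fun y hy => (mem_filter.1 hy).2) h.hμ
    linarith)
  rw [card_prod_bool, h.cardK hP] at b1
  refine ⟨_, b1.trans (by have := h.hμ; linarith), fun y hy hB u hu b => ?_⟩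
  by_contra hc
  exact hB (mem_biUnion.2 ⟨(u, b), mem_product.2 ⟨hu, mem_univ _⟩, mem_filter.2 ⟨hy, by
    simp only; linarith⟩⟩)

theorem sdiff_card_ge {X B : Finset V} : (X.card : ℝ) - B.card ≤ (X \ B).card := by
  have h4 := cardR_sdiff_inter X B
  have h5 : ((X ∩ B).card : ℝ) ≤ B.card := cardR_le inter_subset_right
  linarith

theorem Amb.three_sets (hA : Amb H p U a N ε) (ts : TS H p U P K A (a * N + ε) μ) {c : ι}
    (ts' : TS H p U (Pᶜ.erase c) K' A' (a * N + ε) μ) (hP : P.card = a) (hc : c ∉ P)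
    {L : Finset V} (hL : L ⊆ lam p U P K A) (hLc : a * N + ε - μ ≤ L.card) (h1 : ε ≤ μ)
    (h2 : 100 * a ^ 2 * μ < N) : ∃ X ⊆ L, ∃ Y ⊆ lam p U (Pᶜ.erase c) K' A', ∃ C ⊆ pt p U {c},
      Three H X Y C (a * N + ε) N (20 * a * μ) := by
  have ha := hA.haR
  have hε := hA.hε
  have hN := hA.hN
  have hμ := ts.hμ
  obtain ⟨c1, c2, -⟩ := pow_chain ha hμ
  have c5 : a * ε ≤ a * μ := mul_le_mul_of_nonneg_left h1 (by linarith)
  have haN : 2 * N ≤ a * N := mul_le_mul_of_nonneg_right ha hN.le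
  have hP' := hA.card_compl_erase hP hc
  have pL : ∀ x ∈ L, x ∈ U ∧ p x ∈ P := fun x hx => (mem_lam.1 (hL hx)).1
  have pL' : ∀ x ∈ lam p U (Pᶜ.erase c) K' A', x ∈ U ∧ p x ≠ c ∧ p x ∉ P := fun x hx =>
    ⟨(mem_lam.1 hx).1.1, ne_of_mem_erase (mem_lam.1 hx).1.2,
      mem_compl.1 (mem_of_mem_erase (mem_lam.1 hx).1.2)⟩
  have pA' : ∀ u ∈ K', ∀ b, ∀ x ∈ A' u b, p x ≠ c ∧ p x ∉ P := fun u hu b x hx =>
    ⟨ne_of_mem_erase (ts'.sub u hu b x hx).2, mem_compl.1 (mem_of_mem_erase (ts'.sub u hu b x hx).2)⟩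
  set W := (L ∪ lam p U (Pᶜ.erase c) K' A') ∪ pt p U {c} with hW
  obtain ⟨B₁, b1, b2⟩ := ts.atyp hP W (fun u hu b => disjoint_left.2 (fun x h1 h2 => by
    have h3 := (ts.sub u hu b x h1).2
    rcases mem_union.1 h2 with h2 | h2
    · rcases mem_union.1 h2 with h2 | h2
      · exact (mem_lam.1 (hL h2)).2 u hu b h1
      · exact (pL' x h2).2.2 h3
    · exact hc ((mem_pt1.1 h2).2 ▸ h3)))
  obtain ⟨B₂, b3, b4⟩ := ts'.atyp hP' W (fun u hu b => disjoint_left.2 (fun x h1 h2 => by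
    have h3 := pA' u hu b x h1
    rcases mem_union.1 h2 with h2 | h2
    · rcases mem_union.1 h2 with h2 | h2
      · exact h3.2 (pL x h2).2
      · exact (mem_lam.1 h2).2 u hu b h1
    · exact h3.1 (mem_pt1.1 h2).2))
  have b5 := cardR_union_le B₁ B₂
  refine ⟨L \ (B₁ ∪ B₂), sdiff_subset, lam p U (Pᶜ.erase c) K' A' \ (B₁ ∪ B₂), sdiff_subset,
    pt p U {c} \ (B₁ ∪ B₂), sdiff_subset, hA.deg, ?_, ?_, ?_, ?_, ?_, ?_, ?_⟩
  · have := sdiff_card_ge (X := L) (B := B₁ ∪ B₂)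
    linarith
  · have := sdiff_card_ge (X := lam p U (Pᶜ.erase c) K' A') (B := B₁ ∪ B₂)
    have := ts'.lam_ge hA hP'
    linarith
  · have := sdiff_card_ge (X := pt p U {c}) (B := B₁ ∪ B₂)
    have := hA.lo c
    linarith
  · exact disjoint_left.2 (fun x h1 h2 =>
      (pL' x (mem_sdiff.1 h2).1).2.2 (pL x (mem_sdiff.1 h1).1).2)
  · exact disjoint_left.2 (fun x h1 h2 =>
      hc ((mem_pt1.1 (mem_sdiff.1 h2).1).2 ▸ (pL x (mem_sdiff.1 h1).1).2))
  · exact disjoint_left.2 (fun x h1 h2 =>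
      (pL' x (mem_sdiff.1 h1).1).2.1 (mem_pt1.1 (mem_sdiff.1 h2).1).2)
  intro x hx y hy z hz
  by_contra hn
  push Not at hn
  obtain ⟨x1, x2⟩ := mem_sdiff.1 hx
  obtain ⟨y1, y2⟩ := mem_sdiff.1 hy
  obtain ⟨z1, z2⟩ := mem_sdiff.1 hz
  rw [mem_union, not_or] at x2 y2 z2
  have xW : x ∈ W := mem_union_left _ (mem_union_left _ x1)
  have yW : y ∈ W := mem_union_left _ (mem_union_right _ y1)
  have zW : z ∈ W := mem_union_right _ z1
  have key : ∀ X : Finset V, ((nb H x ∩ X).card : ℝ) ≤ X.card / 4 →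
      ((nb H y ∩ X).card : ℝ) ≤ X.card / 4 → ((nb H z ∩ X).card : ℝ) ≤ X.card / 4 →
      (X.card : ℝ) / 4 ≤ (X \ ((nb H x ∪ nb H y) ∪ nb H z)).card := by
    intro X e1 e2 e3
    have a1 := sdiff_union_ge X (nb H x ∪ nb H y) (nb H z)
    have a2 := sdiff_union_ge X (nb H x) (nb H y)
    have a3 := card_split_nb H x X
    linarith
  obtain ⟨T, hT, hT'⟩ := ts.heads' hP ((nb H x ∪ nb H y) ∪ nb H z) (fun u hu b => by
    have := key _ (b2 x xW x2.1 u hu b) (b2 y yW y2.1 u hu b) (b2 z zW z2.1 u hu b)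
    have := ts.big u hu b
    linarith) (pL x x1).2
  obtain ⟨T', hT1, -⟩ := ts'.heads' hP' (((nb H x ∪ nb H y) ∪ nb H z) ∪
      (P.erase (p x)).biUnion (fun k => nb H (T k))) (fun u hu b => by
    have := key _ (b4 x xW x2.2 u hu b) (b4 y yW y2.2 u hu b) (b4 z zW z2.2 u hu b)
    have := ts'.big u hu b
    have := sdiff_union_ge (A' u b) ((nb H x ∪ nb H y) ∪ nb H z)
      ((P.erase (p x)).biUnion (fun k => nb H (T k)))
    have := ts.nbT hP (erase_subset _ _) hT' (Y := A' u b) (fun w hw => (pA' u hu b w hw).2)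
    linarith) (mem_lam.1 y1).1.2
  rw [← sup_eq_union (s := (nb H x ∪ nb H y) ∪ nb H z), ← sdiff_sdiff_left] at hT1
  have e1 := hT.ext ⟨T', hT1⟩
  rw [← sup_eq_union (s := nb H x ∪ nb H y), ← sdiff_sdiff_left, ← sup_eq_union (s := nb H x),
    ← sdiff_sdiff_left] at e1
  have e2 := hasIT_add (mem_sdiff.2 ⟨mem_sdiff.2 ⟨(mem_pt1.1 z1).1, fun hh => hn.2.1 (mem_nb.1 hh)⟩,
    fun hh => hn.2.2 (mem_nb.1 hh)⟩) e1
  have e3 := hasIT_add (mem_sdiff.2 ⟨(pL' y y1).1, fun hh => hn.1 (mem_nb.1 hh)⟩) e2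
  have e4 := hasIT_add (pL x x1).1 e3
  refine hA.noIT (e4.subset (fun i _ => ?_))
  rw [(mem_pt1.1 z1).2]
  simp only [mem_insert, mem_union, mem_erase, mem_compl]
  tauto

theorem lev {a s x y : ℝ} (ha : 2 ≤ a) (hs : 1 ≤ s) (hx : 0 ≤ x) (h : 100 * a ^ 4 * s * x ≤ y) :
    1600 * x ≤ y ∧ 800 * (a * x) ≤ y ∧ 400 * (a ^ 2 * x) ≤ y ∧ 200 * (a ^ 3 * x) ≤ y ∧
      100 * (a ^ 4 * x) ≤ y ∧ 1600 * (s * x) ≤ y ∧ 800 * (a * s * x) ≤ y ∧
      400 * (a ^ 2 * s * x) ≤ y ∧ 200 * (a ^ 3 * s * x) ≤ y := by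
  have h1 : x ≤ s * x := le_mul_of_one_le_left hx hs
  obtain ⟨c1, c2, c3, c4, -⟩ := pow_chain ha (hx.trans h1)
  obtain ⟨d1, d2, d3, d4, -⟩ := pow_chain ha hx
  have h3 := mul_le_mul_of_nonneg_left h1 (show 0 ≤ a ^ 4 by positivity)
  refine ⟨?_, ?_, ?_, ?_, ?_, ?_, ?_, ?_, ?_⟩ <;> linarith

theorem Reg.caseBig (h : Reg G H p U a s N ε γ κ τ) (ts : TS H p U P K A (a * N + ε) μ) {c : ι}
    (ts' : TS H p U (Pᶜ.erase c) K' A' (a * N + ε) μ) (hP : P.card = a) (hc : c ∉ P)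
    {X Z : Finset V} {η k : ℝ} (hX : X ⊆ lam p U P K A) (hXc : a * N + ε - η ≤ X.card)
    (hZ : Z ⊆ lam p U (Pᶜ.erase c) K' A') (hXZ : ∀ z ∈ Z, ∀ x ∈ X, H.Adj z x)
    (hZc : 100 * a ^ 4 * s * η < Z.card) (h0 : 0 < η) (h1 : μ ≤ η) (h2 : ε ≤ η)
    (h3 : 100 * a ^ 4 * s * η ≤ k) (h4 : 100 * a ^ 4 * s * k ≤ N) : False := by
  have hA := h.amb
  have ha := hA.haR
  have hε := hA.hε
  have hN := hA.hN
  have hμ := ts.hμ
  have hs : (1 : ℝ) ≤ s := by exact_mod_cast h.hs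
  have hη : 0 ≤ η := hε.trans h2
  obtain ⟨l1, l2, l3, l4, l5, l6, l7, l8, l9⟩ := lev ha hs hη h3
  obtain ⟨m1, -, -, -, -, -, m7, -⟩ := lev ha hs (show 0 ≤ k by linarith) h4
  obtain ⟨c1, c2, c3, c4, -⟩ := pow_chain ha (show 0 ≤ s * η by positivity)
  obtain ⟨d1, d2, d3, d4, -⟩ := pow_chain ha hη
  have c5 : a ^ 3 * η ≤ a ^ 3 * (s * η) :=
    mul_le_mul_of_nonneg_left (le_mul_of_one_le_left hη hs) (by positivity)
  have c6 : a * μ ≤ a * η := mul_le_mul_of_nonneg_left h1 (by linarith)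
  have haN : 2 * N ≤ a * N := mul_le_mul_of_nonneg_right ha hN.le
  have hP' := hA.card_compl_erase hP hc
  obtain ⟨c', hc', hb⟩ := exists_big_cell (p := p) (S := Pᶜ.erase c) (A := Z)
    (m := 100 * a ^ 3 * s * η) (fun x hx => (mem_lam.1 (hZ hx)).1.2) (by rw [hP']; linarith)
  have hc'P : c' ∉ P := mem_compl.1 (mem_of_mem_erase hc')
  obtain ⟨W, hW, hW'⟩ := h.run ts hP (k := k) (ν := η) hc'P (Z := pt p Z {c'})
    (fun z hz => ⟨(mem_lam.1 (hZ (mem_pt1.1 hz).1)).1.1, (mem_pt1.1 hz).2⟩) hX hXc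
    (fun z hz => hXZ z (mem_pt1.1 hz).1) h1 h2 (by linarith) (by linarith) (by linarith)
  obtain ⟨w, hw⟩ := nonempty_of_pos (A := W) (lt_of_lt_of_le (by have := h.hκ; positivity) hW)
  obtain ⟨-, E', e1, e2⟩ := hW' w hw
  obtain ⟨K₃, A₃, ts₃, -⟩ := hA.ts (hA.card_compl_erase hP hc'P) (nb G w ∪ E') (φ := 2 * a * η)
    ((cardR_union_le _ _).trans (by linarith [h.degG' w])) (by linarith) (by linarith) e2
  have f1 := ts₃.lam_le hA (hA.card_compl_erase hP hc'P)
  have f2 := ts'.lam_le hA hP'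
  have f3 := sdiff_card_ge (X := pt p U {c}) (B := lam p U (Pᶜ.erase c') K₃ A₃)
  have f4 := hA.lo c
  have f5 := dcount (H := H) (X := (K' ×ˢ univ).biUnion (fun t => A' t.1 t.2))
    (Y := pt p U {c} \ lam p U (Pᶜ.erase c') K₃ A₃) (μ := μ) (β := 50 * a ^ 3 * s * η) (by
      intro x hx
      obtain ⟨t, ht, hx⟩ := mem_biUnion.1 hx
      have hu := (mem_product.1 ht).1
      exact ts'.out hu hx ((ts'.disj_out hu _ (J := {c})
        (fun i hi => by rw [mem_singleton.1 hi]; exact notMem_erase _ _) U).mono_right sdiff_subset))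
    (by
      intro y hy
      obtain ⟨y1, y2⟩ := mem_sdiff.1 hy
      obtain ⟨y3, y4⟩ := mem_pt1.1 y1
      have y5 : ¬ ∀ u ∈ K₃, ∀ b, y ∉ A₃ u b := fun hh => y2 (mem_lam.2 ⟨⟨y3, by
        rw [y4]; exact mem_erase.2 ⟨(ne_of_mem_erase hc').symm, mem_compl.2 hc⟩⟩, hh⟩)
      push Not at y5
      obtain ⟨u, hu, b, y6⟩ := y5
      have g1 : A₃ u (!b) ⊆ (nb H y ∩ (K' ×ˢ univ).biUnion (fun t => A' t.1 t.2)) ∪
          (lam p U (Pᶜ.erase c) K' A' \ pt p Z {c'}) := by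
        intro x hx
        have g2 := ts₃.comp u hu b y y6 x hx
        obtain ⟨g3, g4⟩ := ts₃.sub u hu _ x hx
        by_cases g5 : x ∈ (K' ×ˢ univ).biUnion (fun t => A' t.1 t.2)
        · exact mem_union_left _ (mem_inter.2 ⟨mem_nb.2 g2, g5⟩)
        · refine mem_union_right _ (mem_sdiff.2 ⟨mem_sdiff.2 ⟨mem_pt.2 ⟨g3, mem_erase.2
            ⟨fun e => hA.cross _ _ g2 (y4.trans e.symm), mem_of_mem_erase g4⟩⟩, g5⟩,
            fun hh => ne_of_mem_erase g4 (mem_pt1.1 hh).2⟩)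
      have g2 := cardR_le_add g1
      have g3 := cardR_sdiff_inter (lam p U (Pᶜ.erase c) K' A') (pt p Z {c'})
      rw [inter_eq_right.2 ((pt_subset _ _ _).trans hZ)] at g3
      have g4 := ts₃.big u hu (!b)
      linarith)
  have f6 := cardR_biUnion_le (K' ×ˢ (univ : Finset Bool)) (fun t => A' t.1 t.2)
    (fun t ht => ts'.le _ (mem_product.1 ht).1 _)
  rw [card_prod_bool, ts'.cardK hP'] at f6
  have f7 : (((K' ×ˢ univ).biUnion (fun t => A' t.1 t.2)).card : ℝ) ≤ 4 * a ^ 2 * N := by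
    have g1 := mul_le_mul_of_nonneg_left (show ε ≤ N by linarith) (show (0 : ℝ) ≤ a by linarith)
    have g2 := (pow_chain ha hN.le).2.1
    linarith
  have f8 := mul_le_mul f7 h1 hμ (by positivity)
  have f9 := mul_le_mul_of_nonneg_right (show N / 2 ≤
    ((pt p U {c} \ lam p U (Pᶜ.erase c') K₃ A₃).card : ℝ) by linarith)
    (show 0 ≤ 50 * a ^ 3 * s * η by positivity)
  have f10 : N * (25 * a ^ 3 * s * η) ≤ N * (4 * a ^ 2 * η) := by linarith
  have f11 := le_of_mul_le_mul_left f10 hN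
  have f12 : η ≤ s * η := le_mul_of_one_le_left hη hs
  linarith

theorem Reg.caseSmall (h : Reg G H p U a s N ε γ κ τ) (ts : TS H p U P K A (a * N + ε) μ) {c : ι}
    (ts' : TS H p U (Pᶜ.erase c) K' A' (a * N + ε) μ) (hP : P.card = a) (hc : c ∉ P)
    {Z Z' B : Finset V} {ν k : ℝ} (hZ : ∀ z ∈ Z, z ∈ U ∧ p z = c)
    (hZl : ∀ z ∈ Z, ((nb H z \ lam p U P K A).card : ℝ) ≤ μ) (hZc : 100 * k < Z.card)
    (hZ' : ∀ z ∈ Z', z ∈ U ∧ p z = c) (hB : B ⊆ lam p U (Pᶜ.erase c) K' A')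
    (hBc : a * N + ε - ν ≤ B.card) (hBZ : ∀ z ∈ Z', ∀ x ∈ B, H.Adj z x) (hZc' : N / 2 ≤ Z'.card)
    (h1 : μ ≤ ν) (h2 : ε ≤ ν) (h3 : 100 * a ^ 4 * s * ν ≤ k) (h4 : 100 * a ^ 4 * s * k ≤ N) :
    False := by
  have hA := h.amb
  have ha := hA.haR
  have hε := hA.hε
  have hN := hA.hN
  have hμ := ts.hμ
  have hκ := h.hκ
  have hs : (1 : ℝ) ≤ s := by exact_mod_cast h.hs
  have hν : 0 ≤ ν := hε.trans h2
  obtain ⟨l1, l2, l3, l4, l5, l6, l7, l8, l9⟩ := lev ha hs hν h3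
  obtain ⟨m1, -, -, -, -, -, m7, -⟩ := lev ha hs (show 0 ≤ k by linarith) h4
  have c5 : a * ε ≤ a * ν := mul_le_mul_of_nonneg_left h2 (by linarith)
  have c6 : a * μ ≤ a * ν := mul_le_mul_of_nonneg_left h1 (by linarith)
  have c7 : a ^ 2 * μ ≤ a ^ 2 * ν := mul_le_mul_of_nonneg_left h1 (by positivity)
  have c8 := (pow_chain ha hν).1
  have haN : 2 * N ≤ a * N := mul_le_mul_of_nonneg_right ha hN.le
  have hP' := hA.card_compl_erase hP hc
  have hPP : (Pᶜ.erase c)ᶜ.erase c = P := by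
    ext i
    simp only [mem_erase, mem_compl, not_and, not_not]
    exact ⟨fun hh => hh.2 hh.1, fun hh => ⟨fun e => hc (e ▸ hh), fun _ => hh⟩⟩
  have pA' : ∀ u ∈ K', ∀ b, ∀ x ∈ A' u b, p x ∉ P := fun u hu b x hx =>
    mem_compl.1 (mem_of_mem_erase (ts'.sub u hu b x hx).2)
  obtain ⟨W, hW, hW'⟩ := h.run ts' hP' (k := k) (ν := ν) (notMem_erase c _) hZ' hB hBc hBZ h1 h2
    (by linarith) (by linarith) (by linarith)
  rw [hPP] at hW'
  obtain ⟨j, hj, hb⟩ := exists_big_cell (p := p) (S := Pᶜ.erase c) (A := W) (m := κ)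
    (fun x hx => (hW' x hx).1) (by
      rw [hP']
      have : 0 < a * κ := by positivity
      linarith)
  have hjP : j ∉ P := mem_compl.1 (mem_of_mem_erase hj)
  have hout : ∀ w ∈ W, ((nb G w \ lam p U P K A).card : ℝ) ≤ 9 * a * ν := by
    intro w hw
    obtain ⟨-, E', e1, e2⟩ := hW' w hw
    have a1 := ts.blk hA hP (nb G w ∪ E') (φ := 2 * a * ν)
      ((cardR_union_le _ _).trans (by linarith [h.degG' w])) (by linarith) (by linarith)
      (by linarith) e2
    have a2 := sdiff_union_ge (lam p U P K A) (nb G w) E'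
    have a3 : ((E' ∩ lam p U P K A).card : ℝ) ≤ E'.card := cardR_le inter_subset_left
    have a4 := card_split_nb G w (lam p U P K A)
    have a5 := cardR_sdiff_inter (nb G w) (lam p U P K A)
    have a6 := ts.lam_ge hA hP
    have a7 := h.degG' w
    linarith
  obtain ⟨x, -, hx⟩ := h.pe j (Wnn G H p U ε P K A k) (pt p W {j})
    (fun w hw e => hjP (e ▸ (mem_Wnn.1 hw).1)) (fun x hx => (mem_pt1.1 hx).2)
    (by have := h.hτκ; linarith) (by
    intro w hw Y hY hYs E hE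
    obtain ⟨w1, -, w3⟩ := mem_Wnn.1 hw
    have far : ∀ u ∈ K', ∀ b, k < (A' u b \ nb G w).card := by
      intro u hu b
      by_contra hn
      have a1 := h.near_out (ts'.big u hu b) (not_lt.1 hn)
      obtain ⟨E', e1, e2⟩ := h.blk_of_z ts hP hw hc hZ hZl (by
        have b1 := card_split_nb G w Z
        have b2 := inter_le_sdiff (F := nb G w) (X := A' u b) (Y := Z) (disjoint_left.2
          (fun z z1 z2 => ne_of_mem_erase (ts'.sub u hu b z z1).2 (hZ z z2).2))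
        linarith) (by linarith)
      have a2 := ts'.blk hA hP' (nb G w ∪ E') (φ := 2 * a * ν)
        ((cardR_union_le _ _).trans (by linarith [h.degG' w])) (by linarith) (by linarith)
        (by linarith) e2
      have a3 := sdiff_union_ge (lam p U (Pᶜ.erase c) K' A') (nb G w) E'
      have a4 : ((E' ∩ lam p U (Pᶜ.erase c) K' A').card : ℝ) ≤ E'.card := cardR_le inter_subset_left
      have a5 := card_split_nb G w (lam p U (Pᶜ.erase c) K' A')
      have a6 := inter_le_sdiff (F := nb G w)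
        (lam_disj (p := p) (U := U) (P := Pᶜ.erase c) (A := A') hu b)
      have a7 := ts'.lam_ge hA hP'
      linarith
    have o3 := biUnion_sdiff_le (f := nb G) (X := lam p U P K A) (ν := 9 * a * ν) (by positivity) hYs
      (fun y hy => hout y (mem_pt1.1 (hY hy)).1)
    have o4 : ∀ X : Finset V, Disjoint (lam p U P K A) X → k < (X \ nb G w).card →
        k - 9 * a * s * ν - ε < (X \ ((nb G w ∪ Y.biUnion (nb G)) ∪ E)).card := by
      intro X hX hk
      have a1 := sdiff_union_ge X (nb G w ∪ Y.biUnion (nb G)) E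
      have a2 := sdiff_union_ge X (nb G w) (Y.biUnion (nb G))
      have a3 : ((E ∩ X).card : ℝ) ≤ E.card := cardR_le inter_subset_left
      have a4 := inter_le_sdiff (F := Y.biUnion (nb G)) hX
      linarith
    set F := (nb G w ∪ Y.biUnion (nb G)) ∪ E with hF
    obtain ⟨T, hT, hT'⟩ := ts.heads' hP F (fun u hu b => by
      have := o4 _ (lam_disj hu b).symm (w3 u hu b)
      linarith) w1
    obtain ⟨T', hT1, hT1'⟩ := ts'.heads' hP' (F ∪ (P.erase (p w)).biUnion (fun k => nb H (T k)))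
      (fun u hu b => by
        have := o4 _ (disjoint_left.2 (fun x x1 x2 => pA' u hu b x x2 (mem_lam.1 x1).1.2)) (far u hu b)
        have := sdiff_union_ge (A' u b) F ((P.erase (p w)).biUnion (fun k => nb H (T k)))
        have := ts.nbT hP (erase_subset _ _) hT' (Y := A' u b) (pA' u hu b)
        linarith) hj
    obtain ⟨v, hv⟩ := nonempty_of_pos (A := pt p U {c} \ ((F ∪ (P.erase (p w)).biUnion
        (fun k => nb H (T k))) ∪ ((Pᶜ.erase c).erase j).biUnion (fun k => nb H (T' k)))) (by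
      have a1 := sdiff_union_ge (pt p U {c}) (F ∪ (P.erase (p w)).biUnion (fun k => nb H (T k)))
        (((Pᶜ.erase c).erase j).biUnion (fun k => nb H (T' k)))
      have a2 := sdiff_union_ge (pt p U {c}) F ((P.erase (p w)).biUnion (fun k => nb H (T k)))
      have a3 := ts.nbT hP (erase_subset _ _) hT' (Y := pt p U {c})
        (fun y hy => by rw [(mem_pt1.1 hy).2]; exact hc)
      have a4 := ts'.nbT hP' (erase_subset _ _) hT1' (Y := pt p U {c})
        (fun y hy => by rw [(mem_pt1.1 hy).2]; exact notMem_erase _ _)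
      have a5 := sdiff_union_ge (pt p U {c}) (nb G w ∪ Y.biUnion (nb G)) E
      have a6 := sdiff_union_ge (pt p U {c}) (nb G w) (Y.biUnion (nb G))
      have a7 : ((E ∩ pt p U {c}).card : ℝ) ≤ E.card := cardR_le inter_subset_left
      have a8 := inter_le_sdiff (F := Y.biUnion (nb G)) (X := lam p U P K A) (Y := pt p U {c})
        (disjoint_left.2 (fun y y1 y2 => hc ((mem_pt1.1 y2).2 ▸ (mem_lam.1 y1).1.2)))
      have a9 := sdiff_card_ge (X := pt p U {c}) (B := nb G w)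
      have a10 := h.degG' w
      have a11 := hA.lo c
      linarith)
    obtain ⟨v1, v2⟩ := mem_sdiff.1 hv
    have e0 : HasIT H p ((U \ (F ∪ (P.erase (p w)).biUnion (fun k => nb H (T k)))) \
        ((Pᶜ.erase c).erase j).biUnion (fun k => nb H (T' k))) {p v} :=
      hasIT_single (mem_sdiff.2 ⟨mem_sdiff.2 ⟨(mem_pt1.1 v1).1, fun hh => v2 (mem_union_left _ hh)⟩,
        fun hh => v2 (mem_union_right _ hh)⟩)
    have e1 := hT1.ext e0
    rw [← sup_eq_union (s := F), ← sdiff_sdiff_left] at e1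
    refine (hT.ext e1).subset (fun i hi => ?_)
    rw [(mem_pt1.1 v1).2]
    simp only [mem_union, mem_erase, mem_compl, mem_singleton, mem_univ, and_true] at hi ⊢
    tauto)
  have a1 := h.count_nn ts hP (k := k) (by linarith) (by linarith) (by linarith) x
  have a3 := mul_le_mul (show (3 : ℝ) ≤ 2 * a - 1 by linarith)
    (show 2 * κ ≤ γ - κ by linarith [h.hγ]) (by positivity) (by linarith)
  linarith

theorem Reg.noTight (h : Reg G H p U a s N ε γ κ τ) {δ μ₀ : ℝ} (ht : Tight H p U a δ μ₀)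
    (h0 : 0 < μ₀) (h1 : ε ≤ μ₀) (h2 : (100 * a ^ 4 * s) ^ 8 * μ₀ ≤ δ) (h3 : δ ≤ N) : False := by
  have hA := h.amb
  have ha := hA.haR
  have hε := hA.hε
  have hN := hA.hN
  have hs : (1 : ℝ) ≤ s := by exact_mod_cast h.hs
  have haN : 2 * N ≤ a * N := mul_le_mul_of_nonneg_right ha hN.le
  obtain ⟨x1, e1⟩ : ∃ x, x = 100 * a ^ 4 * s * μ₀ := ⟨_, rfl⟩
  obtain ⟨x2, e2⟩ : ∃ x, x = 100 * a ^ 4 * s * x1 := ⟨_, rfl⟩
  obtain ⟨x3, e3⟩ : ∃ x, x = 100 * a ^ 4 * s * x2 := ⟨_, rfl⟩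
  obtain ⟨x4, e4⟩ : ∃ x, x = 100 * a ^ 4 * s * x3 := ⟨_, rfl⟩
  obtain ⟨x5, e5⟩ : ∃ x, x = 100 * a ^ 4 * s * x4 := ⟨_, rfl⟩
  obtain ⟨x6, e6⟩ : ∃ x, x = 100 * a ^ 4 * s * x5 := ⟨_, rfl⟩
  obtain ⟨x7, e7⟩ : ∃ x, x = 100 * a ^ 4 * s * x6 := ⟨_, rfl⟩
  have e8 : 100 * a ^ 4 * s * x7 ≤ δ := by
    rw [e7, e6, e5, e4, e3, e2, e1]; linarith
  obtain ⟨a1, a2, a3, -⟩ := lev ha hs h0.le e1.ge
  obtain ⟨b1, b2, -⟩ := lev ha hs (by linarith) e2.ge
  obtain ⟨c1, c2, c3, c4, -, -, c7, c8, -⟩ := lev ha hs (by linarith) e3.ge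
  obtain ⟨d1, d2, d3, -, -, -, d7, -⟩ := lev ha hs (by linarith) e4.ge
  obtain ⟨f1, -⟩ := lev ha hs (by linarith) e5.ge
  obtain ⟨g1, -⟩ := lev ha hs (by linarith) e6.ge
  obtain ⟨i1, -⟩ := lev ha hs (by linarith) e7.ge
  obtain ⟨j1, j2, -⟩ := lev ha hs (by linarith) e8
  have k1 : a * ε ≤ a * x1 := mul_le_mul_of_nonneg_left (by linarith) (by linarith)
  have k2 := (pow_chain ha (show 0 ≤ x1 by linarith)).1
  have k3 := (pow_chain ha (show 0 ≤ x2 by linarith)).1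
  have k4 := (pow_chain ha (show 0 ≤ x3 by linarith)).1
  have k5 := (pow_chain ha (show 0 ≤ x7 by linarith)).1
  obtain ⟨P, hP, L, Z, E, t1, t2, t3, t4, t5, t6⟩ := ht
  obtain ⟨z₀, hz₀⟩ := nonempty_of_pos (A := Z) (by linarith)
  have hLc : (L.card : ℝ) ≤ a * N + ε := hA.deg.card_le (x := z₀) (fun y hy => (t4 y hy z₀ hz₀).symm)
  have hR : ((L ∪ E).card : ℝ) ≤ a * N + 2 * μ₀ := (cardR_union_le _ _).trans (by linarith)
  obtain ⟨K, A, ts0, -⟩ := hA.ts hP (L ∪ E) hR (by linarith) (by linarith) t6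
  have ts1 := ts0.mono (μ' := x1) (by linarith)
  have hL0 : a * N + ε - x2 ≤ (L ∩ lam p U P K A).card := by
    have m1 := ts1.blk hA hP (L ∪ E) (φ := x1) (by linarith) le_rfl (by linarith)
      (by have := (lev ha hs (by linarith) e2.ge).2.2.1; linarith) t6
    have m2 := sdiff_union_ge (lam p U P K A) L E
    have m3 : ((E ∩ lam p U P K A).card : ℝ) ≤ E.card := cardR_le inter_subset_left
    have m4 := cardR_sdiff_inter (lam p U P K A) L
    have m5 := ts1.lam_ge hA hP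
    rw [inter_comm] at m4
    linarith
  obtain ⟨c, hc, hb⟩ := exists_big_cell (p := p) (S := Pᶜ) (A := Z) (m := 200 * x7)
    (fun x hx => mem_compl.2 (t2 x hx)) (by rw [hA.card_compl hP]; push_cast; linarith)
  rw [mem_compl] at hc
  have hZ : ∀ z ∈ pt p Z {c}, z ∈ U ∧ p z = c := fun z hz =>
    ⟨t1 (mem_pt1.1 hz).1, (mem_pt1.1 hz).2⟩
  have hLZ : ∀ z ∈ pt p Z {c}, ∀ x ∈ L ∩ lam p U P K A, H.Adj z x := fun z hz x hx =>
    (t4 x (mem_inter.1 hx).1 z (mem_pt1.1 hz).1).symm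
  obtain ⟨W, hW, hW'⟩ := h.run ts1 hP (k := x3) (ν := x2) hc hZ inter_subset_right hL0 hLZ
    (by linarith) (by linarith) (by linarith) (by linarith) (by linarith)
  obtain ⟨w, hw⟩ := nonempty_of_pos (A := W) (lt_of_lt_of_le (by have := h.hκ; positivity) hW)
  obtain ⟨-, E', q1, q2⟩ := hW' w hw
  obtain ⟨K', A', ts0', -⟩ := hA.ts (hA.card_compl_erase hP hc) (nb G w ∪ E') (φ := 2 * a * x2)
    ((cardR_union_le _ _).trans (by linarith [h.degG' w])) (by linarith) (by linarith) q2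
  have ts3 := ts1.mono (μ' := x3) (by linarith)
  have ts3' := ts0'.mono (μ' := x3) (by linarith)
  obtain ⟨X, hX, Y, hY, C, hC, h3s⟩ := hA.three_sets ts3 ts3' hP hc inter_subset_right
    (L := L ∩ lam p U P K A) (by linarith) (by linarith) (by linarith)
  have hXc := h3s.hA
  have hYc := h3s.hB
  by_cases hbig : x5 < (Y \ star H Y X).card
  · exact h.caseBig ts3 ts3' hP hc (η := x4) (k := x5) (hX.trans inter_subset_right) (by linarith)
      (sdiff_subset.trans hY) (fun z hz x hx => adj_of_not_star hz hx) (e5 ▸ hbig) (by linarith)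
      (by linarith) (by linarith) e5.ge (by linarith)
  have hstar : star H X Y = X := by
    refine Subset.antisymm (star_subset _ _) (fun x hx => ?_)
    by_contra hn
    have := hA.deg.add_le x (X := Y) (Y := pt p Z {c}) (disjoint_left.2 (fun y y1 y2 =>
      ne_of_mem_erase (mem_lam.1 (hY y1)).1.2 (mem_pt1.1 y2).2))
      (fun y hy => adj_of_not_star (mem_sdiff.2 ⟨hx, hn⟩) hy) (fun z hz => (hLZ z hz x (hX hx)).symm)
    linarith
  have hz := h3s.zbig (by rw [hstar]; linarith) (by linarith) (by linarith)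
  have hYs := cardR_sdiff_inter Y (star H Y X)
  rw [inter_eq_right.2 (star_subset _ _)] at hYs
  exact h.caseSmall ts3 ts3' hP hc (ν := x6) (k := x7) hZ (fun z hz =>
      (cardR_le (sdiff_subset_sdiff subset_rfl inter_subset_right)).trans
        ((hA.deg.sdiff_le (hLZ z hz) hL0).trans (by linarith))) (by linarith)
    (Z' := compl_to H C (star H Y X)) (fun z hz => mem_pt1.1 (hC (mem_compl_to.1 hz).1))
    ((star_subset _ _).trans hY) (by linarith) (fun z hz => (mem_compl_to.1 hz).2) (by linarith)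
    (by linarith) (by linarith) e7.ge (by linarith)

theorem Reg.false (h : Reg G H p U a s N ε γ κ τ) (h0 : 0 < ε)
    (h1 : 10 * ((100 * a ^ 4 * s) ^ 8) ^ 2 * (10000 * a ^ 5 * ε) ≤ N) : False := by
  have hA := h.amb
  have ha := hA.haR
  have hs : (1 : ℝ) ≤ s := by exact_mod_cast h.hs
  have hN := hA.hN
  set M : ℝ := (100 * a ^ 4 * s) ^ 8 with hM
  set ω : ℝ := 10000 * a ^ 5 * ε with hω
  have hM1 : 1 ≤ M := one_le_pow₀ (by
    have := (lev ha hs zero_le_one (y := 100 * a ^ 4 * s) (by linarith)).1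
    linarith)
  have hεω : ε ≤ ω := by
    obtain ⟨c1, c2, c3, c4, c5⟩ := pow_chain ha h0.le
    rw [hω]; linarith
  have hω0 : 0 < ω := by linarith
  have b1 : ω ≤ M * ω := le_mul_of_one_le_left hω0.le hM1
  have b2 : M * ω ≤ M * (M * ω) := le_mul_of_one_le_left (by linarith) hM1
  rcases hA.structure (ω := ω) (δ₁ := M * ω) le_rfl b1 (by linarith) with ht | ht
  · exact h.noTight ht (by linarith) (by linarith) (by rw [← hM]; linarith) (by linarith)
  · exact h.noTight ht hω0 hεω le_rfl (by linarith)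

end Pool.Agent.MP_bc5f1c_co

end MrgPart3

-- marker of a merged file
example : 731051 + 780284 = 731051 + 780284 := rfl
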