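import Mathlib.Combinatorics.Pigeonhole
import Mathlib.Combinatorics.SimpleGraph.Regularity.Lemma
import Pool.Agent.MP_bc5f1c_co.NoTight

-- ======== part 0: formerly Pool.Agent.MP_bc5f1c_co.Embed
section MrgPart0

/-!
Embedding in uniform pairs, common intersections, and the Kovari-Sos-Turan bound.
-/

set_option autoImplicit false
set_option linter.unusedSectionVars false
set_option linter.unusedVariables false

open Finset

namespace Pool.Agent.MP_bc5f1c_co

variable {V ι : Type*} [Fintype V] [DecidableEq V] [DecidableEq ι]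

theorem card_interedges_eq (G : SimpleGraph V) [DecidableRel G.Adj] (s t : Finset V) :
    ((G.interedges s t).card : ℝ) = ∑ v ∈ s, ((nb G v ∩ t).card : ℝ) := by
  have h := card_eq_sum_card_fiberwise (s := G.interedges s t) (t := s) (f := Prod.fst)
    (fun x hx => (G.mem_interedges_iff.1 hx).1)
  rw [h, Nat.cast_sum]
  refine sum_congr rfl (fun v hv => ?_)
  congr 1
  refine card_bij (fun x _ => x.2) ?_ ?_ ?_
  · intro x hx
    obtain ⟨h1, h2⟩ := mem_filter.1 hx
    obtain ⟨-, h3, h4⟩ := G.mem_interedges_iff.1 h1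
    exact mem_inter.2 ⟨mem_nb.2 (h2 ▸ h4), h3⟩
  · intro x hx y hy e
    exact Prod.ext ((mem_filter.1 hx).2.trans (mem_filter.1 hy).2.symm) e
  · intro y hy
    exact ⟨(v, y), mem_filter.2 ⟨G.mem_interedges_iff.2 ⟨hv, (mem_inter.1 hy).2,
      mem_nb.1 (mem_inter.1 hy).1⟩, rfl⟩, rfl⟩

theorem dens_mul (G : SimpleGraph V) [DecidableRel G.Adj] {s t : Finset V} (hs : s.Nonempty)
    (ht : t.Nonempty) : ((G.edgeDensity s t : ℚ) : ℝ) * (s.card * t.card) =
      (G.interedges s t).card := by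
  rw [SimpleGraph.edgeDensity_def]
  have h1 : (s.card : ℝ) ≠ 0 := by exact_mod_cast hs.card_pos.ne'
  have h2 : (t.card : ℝ) ≠ 0 := by exact_mod_cast ht.card_pos.ne'
  push_cast
  field_simp

theorem few_bad (G : SimpleGraph V) [DecidableRel G.Adj] {Q Q' Y B : Finset V} {ε d : ℝ}
    (hu : G.IsUniform ε Q Q') (hd : ((G.edgeDensity Q Q' : ℚ) : ℝ) ≤ 1 - d) (hε : ε ≤ d / 2)
    (hY : Y ⊆ Q') (hYc : Q'.card * ε ≤ Y.card) (hB : B ⊆ Q)
    (hBY : ∀ v ∈ B, ((Y \ nb G v).card : ℝ) < d / 2 * Y.card) : (B.card : ℝ) ≤ ε * Q.card := by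
  have hε0 := hu.pos
  rcases B.eq_empty_or_nonempty with rfl | hne
  · simp only [card_empty, Nat.cast_zero]; positivity
  by_contra hc
  push Not at hc
  obtain ⟨v, hv⟩ := hne
  have hYne : Y.Nonempty := by
    by_contra h0
    rw [not_nonempty_iff_eq_empty] at h0
    have := hBY v hv
    rw [h0] at this
    simp at this
  have h1 := hu hB hY (by linarith) hYc
  have h2 := dens_mul G ⟨v, hv⟩ hYne
  rw [card_interedges_eq] at h2
  have h3 : (B.card : ℝ) * ((1 - d / 2) * Y.card) ≤ ∑ v ∈ B, ((nb G v ∩ Y).card : ℝ) := by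
    rw [← nsmul_eq_mul, ← sum_const]
    refine sum_le_sum (fun w hw => ?_)
    have := hBY w hw
    have := card_split_nb G w Y
    linarith
  have h4 : ((G.edgeDensity B Y : ℚ) : ℝ) < 1 - d / 2 := by
    have := (abs_lt.1 h1).2
    linarith
  have h5 : (0 : ℝ) < B.card * Y.card := by
    have : (0 : ℝ) < B.card := by exact_mod_cast card_pos.2 ⟨v, hv⟩
    have : (0 : ℝ) < Y.card := by exact_mod_cast card_pos.2 hYne
    positivity
  have h6 := mul_lt_mul_of_pos_right h4 h5
  linarith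

theorem embed (G : SimpleGraph V) [DecidableRel G.Adj] (J : Finset ι) (Q : ι → Finset V)
    {ε d γ₀ : ℝ} (hε0 : 0 < ε) (hd1 : d ≤ 1) (hε : ε ≤ d / 2) (hγ : (J.card + 1) * ε < γ₀)
    (hQ : ∀ i ∈ J, 2 ≤ γ₀ * (Q i).card)
    (hu : ∀ i ∈ J, ∀ j ∈ J, i ≠ j → G.IsUniform ε (Q i) (Q j) ∧
      ((G.edgeDensity (Q i) (Q j) : ℚ) : ℝ) ≤ 1 - d) (k : ℕ) :
    ∀ (need : ι → ℕ) (γ : ℝ) (Y : ι → Finset V), ∑ i ∈ J, need i = k → γ₀ ≤ γ * (d / 2) ^ k →
      (∀ i ∈ J, Y i ⊆ Q i ∧ γ * (Q i).card ≤ (Y i).card) →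
      ∃ I : ι → Finset V, (∀ i ∈ J, I i ⊆ Y i ∧ (I i).card = need i) ∧
        ∀ i ∈ J, ∀ j ∈ J, i ≠ j → ∀ x ∈ I i, ∀ y ∈ I j, ¬ G.Adj x y := by
  classical
  have hJ0 : (0 : ℝ) ≤ J.card := Nat.cast_nonneg _
  have hγ0 : 0 < γ₀ := lt_of_le_of_lt (by positivity) hγ
  induction k with
  | zero =>
    intro need γ Y h1 _ _
    refine ⟨fun _ => ∅, fun i hi => ⟨empty_subset _, ?_⟩, by simp⟩
    rw [card_empty, (sum_eq_zero_iff.1 h1) i hi]
  | succ k ih =>
    intro need γ Y h1 h2 h3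
    obtain ⟨i, hi, hpos⟩ : ∃ i ∈ J, need i ≠ 0 := exists_ne_zero_of_sum_ne_zero (by omega)
    have hd0 : 0 < d / 2 := by linarith
    have hpw : (d / 2) ^ (k + 1) ≤ 1 := pow_le_one₀ hd0.le (by linarith)
    have hγpos : 0 < γ := by
      by_contra hc
      have : γ * (d / 2) ^ (k + 1) ≤ 0 := mul_nonpos_of_nonpos_of_nonneg (not_lt.1 hc) (by positivity)
      linarith
    have hγγ : γ₀ ≤ γ := h2.trans (mul_le_of_le_one_right hγpos.le hpw)
    let Bad : ι → Finset V := fun j =>
      (Q i).filter (fun v => ((Y j \ nb G v).card : ℝ) < d / 2 * (Y j).card)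
    have hBad := cardR_biUnion_le (J.erase i) Bad (m := ε * (Q i).card) (fun j hj =>
      few_bad G (hu i hi j (mem_of_mem_erase hj) (ne_of_mem_erase hj).symm).1
        (hu i hi j (mem_of_mem_erase hj) (ne_of_mem_erase hj).symm).2 hε
        (h3 j (mem_of_mem_erase hj)).1 (by
          have a1 := (h3 j (mem_of_mem_erase hj)).2
          have a2 : ε ≤ γ := by nlinarith
          have a3 := mul_le_mul_of_nonneg_right a2 (Nat.cast_nonneg (α := ℝ) (Q j).card)
          linarith) (filter_subset _ _) (fun v hv => (mem_filter.1 hv).2))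
    have hQi : (0 : ℝ) < (Q i).card := by
      have := hQ i hi
      by_contra hc
      have : γ₀ * (Q i).card ≤ 0 := mul_nonpos_of_nonneg_of_nonpos hγ0.le (not_lt.1 hc)
      linarith
    have hYi : γ₀ * (Q i).card ≤ (Y i).card :=
      (mul_le_mul_of_nonneg_right hγγ hQi.le).trans (h3 i hi).2
    obtain ⟨v, hv1, hv2⟩ := exists_mem_not_mem_of_lt (A := Y i) (B := (J.erase i).biUnion Bad) (by
      have a1 : ((J.erase i).card : ℝ) ≤ J.card := cardR_le (erase_subset _ _)
      have a2 := mul_le_mul_of_nonneg_right a1 (show 0 ≤ ε * (Q i).card by positivity)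
      have a3 := mul_lt_mul_of_pos_right hγ hQi
      have a4 : 0 ≤ ε * (Q i).card := by positivity
      linarith)
    obtain ⟨I, hI1, hI2⟩ := ih (Function.update need i (need i - 1)) (γ * (d / 2))
      (fun j => if j = i then (Y i).erase v else Y j \ nb G v) (by
        rw [sum_update_of_mem hi, sdiff_singleton_eq_erase]
        rw [← add_sum_erase J need hi] at h1
        omega) (by rw [pow_succ] at h2; linarith) (by
        intro j hj
        split_ifs with hji
        · subst hji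
          refine ⟨(erase_subset _ _).trans (h3 j hj).1, ?_⟩
          have a1 : (((Y j).erase v).card : ℝ) + 1 = (Y j).card := by
            exact_mod_cast card_erase_add_one hv1
          have a2 := (h3 j hj).2
          have a3 := hQ j hj
          have a4 : d / 2 * (γ * (Q j).card) ≤ 1 / 2 * (Y j).card :=
            mul_le_mul (by linarith) a2 (by positivity) (by norm_num)
          linarith
        · refine ⟨sdiff_subset.trans (h3 j hj).1, ?_⟩
          have a1 : ¬ ((Y j \ nb G v).card : ℝ) < d / 2 * (Y j).card := fun hh =>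
            hv2 (mem_biUnion.2 ⟨j, mem_erase.2 ⟨hji, hj⟩, mem_filter.2 ⟨(h3 i hi).1 hv1, hh⟩⟩)
          have a2 := mul_le_mul_of_nonneg_left (h3 j hj).2 hd0.le
          linarith)
    have hI3 : ∀ j ∈ J, j ≠ i → ∀ y ∈ I j, y ∈ Y j ∧ ¬ G.Adj v y := by
      intro j hj hji y hy
      have := (hI1 j hj).1 hy
      simp only [hji, if_false, mem_sdiff, mem_nb] at this
      exact this
    have hI4 : I i ⊆ (Y i).erase v ∧ (I i).card = need i - 1 := by
      have := hI1 i hi
      simpa only [if_true, Function.update_self] using this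
    refine ⟨fun j => if j = i then insert v (I i) else I j, fun j hj => ?_, ?_⟩
    · dsimp only
      split_ifs with hji
      · subst hji
        refine ⟨insert_subset hv1 (hI4.1.trans (erase_subset _ _)), ?_⟩
        rw [card_insert_of_notMem (fun hh => notMem_erase v _ (hI4.1 hh)), hI4.2]
        omega
      · refine ⟨fun y hy => (hI3 j hj hji y hy).1, ?_⟩
        rw [(hI1 j hj).2, Function.update_of_ne hji]
    · intro j hj j' hj' hne x hx y hy
      dsimp only at hx hy
      split_ifs at hx hy with c1 c2 c2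
      · exact hne (c1.trans c2.symm) |>.elim
      · rcases mem_insert.1 hx with rfl | hx
        · exact (hI3 j' hj' c2 y hy).2
        · exact hI2 i hi j' hj' (fun e => c2 e.symm) x hx y hy
      · rcases mem_insert.1 hy with rfl | hy
        · exact fun ha => (hI3 j hj c1 x hx).2 ha.symm
        · exact hI2 j hj i hi c1 x hx y hy
      · exact hI2 j hj j' hj' hne x hx y hy

theorem common_one {α : Type*} [DecidableEq α] (W : Finset α) (hW : W.Nonempty) (Q : Finset V)
    (hQ : Q.Nonempty) (B : α → Finset V) {β : ℝ} (hβ : 0 < β)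
    (hB : ∀ w ∈ W, B w ⊆ Q ∧ β * Q.card ≤ (B w).card) :
    ∃ W' ⊆ W, β / 2 * W.card ≤ W'.card ∧
      β / 2 / 2 ^ W.card * Q.card ≤ (Q.filter (fun x => ∀ w ∈ W', x ∈ B w)).card := by
  classical
  let c : V → Finset α := fun x => W.filter (fun w => x ∈ B w)
  have h1 : ∑ x ∈ Q, ((c x).card : ℝ) = ∑ w ∈ W, ((B w).card : ℝ) := by
    simp only [c, card_filter, Nat.cast_sum]
    rw [sum_comm]
    refine sum_congr rfl (fun w hw => ?_)
    rw [← Nat.cast_sum, ← card_filter, filter_mem_eq_inter, inter_eq_right.2 (hB w hw).1]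
  have h2 : (W.card : ℝ) * (β * Q.card) ≤ ∑ w ∈ W, ((B w).card : ℝ) := by
    rw [← nsmul_eq_mul, ← sum_const]; exact sum_le_sum (fun w hw => (hB w hw).2)
  set Gd := Q.filter (fun x => β / 2 * W.card ≤ (c x).card) with hGd
  have h3 : ∑ x ∈ Q, ((c x).card : ℝ) ≤ Gd.card * W.card + Q.card * (β / 2 * W.card) := by
    calc ∑ x ∈ Q, ((c x).card : ℝ)
        ≤ ∑ x ∈ Q, ((if β / 2 * W.card ≤ (c x).card then (W.card : ℝ) else 0) + β / 2 * W.card) := by
          refine sum_le_sum (fun x _ => ?_)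
          split_ifs with hc
          · have : ((c x).card : ℝ) ≤ W.card := cardR_le (filter_subset _ _)
            have : 0 ≤ β / 2 * W.card := by positivity
            linarith
          · linarith
      _ = _ := by
          rw [sum_add_distrib, ← sum_filter, sum_const, sum_const, nsmul_eq_mul, nsmul_eq_mul]
  have hWp : (0 : ℝ) < W.card := by exact_mod_cast hW.card_pos
  have hQp : (0 : ℝ) < Q.card := by exact_mod_cast hQ.card_pos
  have h4 : β / 2 * Q.card ≤ Gd.card := by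
    have : (W.card : ℝ) * (β / 2 * Q.card) ≤ W.card * Gd.card := by linarith
    exact le_of_mul_le_mul_left this hWp
  obtain ⟨W', hW', h5⟩ := exists_le_card_fiber_of_nsmul_le_card_of_maps_to (s := Gd)
    (t := W.powerset) (f := c) (b := β / 2 / 2 ^ W.card * Q.card)
    (fun x _ => mem_powerset.2 (filter_subset _ _)) ⟨∅, empty_mem_powerset _⟩ (by
      rw [card_powerset, nsmul_eq_mul]
      push_cast
      refine le_trans (le_of_eq ?_) h4
      field_simp)
  obtain ⟨x, hx⟩ := nonempty_of_pos (lt_of_lt_of_le (by positivity) h5)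
  obtain ⟨x1, x2⟩ := mem_filter.1 hx
  refine ⟨W', mem_powerset.1 hW', x2 ▸ (mem_filter.1 x1).2, h5.trans (cardR_le (fun y hy => ?_))⟩
  obtain ⟨y1, y2⟩ := mem_filter.1 hy
  refine mem_filter.2 ⟨(mem_filter.1 y1).1, fun w hw => ?_⟩
  rw [← y2] at hw
  exact (mem_filter.1 hw).2

theorem common_all {α : Type*} [DecidableEq α] (Q : ι → Finset V) (B : ι → α → Finset V) {β : ℝ}
    (hβ : 0 < β) (m : ℕ) {s : ℝ} (hs : 0 < s) (J : Finset ι) : ∀ W : Finset α, W.card ≤ m →
    s ≤ (β / 2) ^ J.card * W.card → (∀ i ∈ J, (Q i).Nonempty) →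
    (∀ i ∈ J, ∀ w ∈ W, B i w ⊆ Q i ∧ β * (Q i).card ≤ (B i w).card) →
    ∃ W' ⊆ W, s ≤ W'.card ∧ ∀ i ∈ J,
      β / 2 / 2 ^ m * (Q i).card ≤ ((Q i).filter (fun x => ∀ w ∈ W', x ∈ B i w)).card := by
  classical
  induction J using Finset.induction_on with
  | empty => intro W _ h _ _; exact ⟨W, subset_rfl, by simpa using h, by simp⟩
  | insert i J hi ih =>
    intro W h1 h2 h3 h4
    rw [card_insert_of_notMem hi, pow_succ] at h2
    have hW : W.Nonempty := by
      by_contra hc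
      rw [not_nonempty_iff_eq_empty] at hc
      rw [hc] at h2
      simp at h2
      linarith
    obtain ⟨W₁, a1, a2, a3⟩ := common_one W hW (Q i) (h3 i (mem_insert_self _ _)) (B i) hβ
      (h4 i (mem_insert_self _ _))
    obtain ⟨W', b1, b2, b3⟩ := ih W₁ ((card_le_card a1).trans h1) (by
      have := mul_le_mul_of_nonneg_left a2 (show 0 ≤ (β / 2) ^ J.card by positivity)
      linarith) (fun j hj => h3 j (mem_insert_of_mem hj))
      (fun j hj w hw => h4 j (mem_insert_of_mem hj) w (a1 hw))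
    refine ⟨W', b1.trans a1, b2, fun j hj => ?_⟩
    rcases mem_insert.1 hj with rfl | hj
    · refine le_trans ?_ (a3.trans (cardR_le (fun x hx => mem_filter.2
        ⟨(mem_filter.1 hx).1, fun w hw => (mem_filter.1 hx).2 w (b1 hw)⟩)))
      have : (2 : ℝ) ^ W.card ≤ 2 ^ m := pow_le_pow_right₀ (by norm_num) h1
      gcongr
    · exact b3 j hj

/-- Kovari-Sos-Turan bound for the relation of non-adjacency. -/
theorem kst (G : SimpleGraph V) (W T : Finset V) {s s' : ℕ} (hs : 1 ≤ s) (hs' : 1 ≤ s') {n τ : ℝ}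
    (hτ : 0 < τ) (hτn : τ ^ s = n ^ (s - 1)) (hW : (W.card : ℝ) ≤ n)
    (hfree : ∀ Y ⊆ T, Y.card = s → ∀ W' ⊆ W, (∀ w ∈ W', ∀ y ∈ Y, ¬ G.Adj w y) → W'.card ≤ s') :
    ∑ w ∈ W, ((T \ nb G w).card : ℝ) ≤ s * W.card + s' * T.card * τ := by
  classical
  obtain ⟨k, rfl⟩ : ∃ k, s = k + 1 := ⟨s - 1, by omega⟩
  simp only [Nat.add_sub_cancel] at hτn
  have h1 : ∑ w ∈ W, (T \ nb G w).card.choose (k + 1) ≤ T.card.choose (k + 1) * s' := by
    have e1 : ∀ w ∈ W, (T \ nb G w).card.choose (k + 1) =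
        ((powersetCard (k + 1) T).filter (fun Y => ∀ y ∈ Y, ¬ G.Adj w y)).card := by
      intro w _
      rw [← card_powersetCard]
      congr 1
      ext Y
      simp only [mem_powersetCard, mem_filter, subset_iff, mem_sdiff, mem_nb]
      constructor
      · rintro ⟨a, b⟩; exact ⟨⟨fun x hx => (a hx).1, b⟩, fun x hx => (a hx).2⟩
      · rintro ⟨⟨a, b⟩, c⟩; exact ⟨fun x hx => ⟨a hx, c x hx⟩, b⟩
    rw [sum_congr rfl e1]
    simp only [card_filter]
    rw [sum_comm, ← card_powersetCard, ← smul_eq_mul, ← sum_const]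
    refine sum_le_sum (fun Y hY => ?_)
    rw [← card_filter]
    obtain ⟨a, b⟩ := mem_powersetCard.1 hY
    exact hfree Y a b _ (filter_subset _ _) (fun w hw => (mem_filter.1 hw).2)
  let f : V → ℝ := fun w => (((T \ nb G w).card - k : ℕ) : ℝ)
  have h2 : ∑ w ∈ W, f w ^ (k + 1) ≤ s' * (T.card : ℝ) ^ (k + 1) := by
    have e2 : ∑ w ∈ W, ((T \ nb G w).card - k) ^ (k + 1) ≤ s' * T.card ^ (k + 1) := by
      calc ∑ w ∈ W, ((T \ nb G w).card - k) ^ (k + 1)
          ≤ ∑ w ∈ W, (k + 1).factorial * (T \ nb G w).card.choose (k + 1) := by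
            refine sum_le_sum (fun w _ => ?_)
            rw [← Nat.descFactorial_eq_factorial_mul_choose]
            have := Nat.pow_sub_le_descFactorial (T \ nb G w).card (k + 1)
            rwa [Nat.add_sub_add_right] at this
        _ ≤ (k + 1).factorial * (T.card.choose (k + 1) * s') := by
            rw [← mul_sum]; exact Nat.mul_le_mul_left _ h1
        _ = s' * T.card.descFactorial (k + 1) := by
            rw [Nat.descFactorial_eq_factorial_mul_choose]; ring
        _ ≤ s' * T.card ^ (k + 1) := Nat.mul_le_mul_left _ (Nat.descFactorial_le_pow _ _)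
    simp only [f]
    exact_mod_cast e2
  have h3 : ∑ w ∈ W, f w ≤ s' * T.card * τ := by
    rcases W.eq_empty_or_nonempty with rfl | hne
    · simp only [sum_empty]; positivity
    have hWp : (0 : ℝ) < W.card := by exact_mod_cast hne.card_pos
    have a1 := pow_sum_div_card_le_sum_pow (s := W) (f := f) (fun w _ => Nat.cast_nonneg _) k
    rw [div_le_iff₀ (by positivity)] at a1
    refine le_of_pow_le_pow_left₀ (n := k + 1) (by omega) (by positivity) (a1.trans ?_)
    have a2 : (W.card : ℝ) ^ k ≤ n ^ k := pow_le_pow_left₀ hWp.le hW k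
    have a3 : (s' : ℝ) ≤ s' ^ (k + 1) := le_self_pow₀ (by exact_mod_cast hs') (by omega)
    rw [mul_pow, mul_pow, hτn]
    refine mul_le_mul (h2.trans ?_) a2 (by positivity) (by positivity)
    exact mul_le_mul_of_nonneg_right a3 (by positivity)
  have h4 : ∑ w ∈ W, ((T \ nb G w).card : ℝ) ≤ ∑ w ∈ W, (f w + (k + 1 : ℕ)) := by
    refine sum_le_sum (fun w _ => ?_)
    simp only [f]
    exact_mod_cast (show (T \ nb G w).card ≤ (T \ nb G w).card - k + (k + 1) by omega)
  rw [sum_add_distrib, sum_const, nsmul_eq_mul] at h4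
  linarith

end Pool.Agent.MP_bc5f1c_co

end MrgPart0

-- ======== part 1: formerly Pool.Agent.MP_bc5f1c_co.Reg
section MrgPart1

/-!
The regularised graph.
-/

set_option autoImplicit false
set_option linter.unusedSectionVars false
set_option linter.unusedVariables false

open Finset

namespace Pool.Agent.MP_bc5f1c_co

/-- An `s`-blowup of a transversal of the parts `J` avoiding `F`. -/
def Blow {V ι : Type*} (G : SimpleGraph V) (p : V → ι) (s : ℕ) (J : Finset ι) (F : Finset V) :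
    Prop :=
  ∃ I : ι → Finset V, (∀ i ∈ J, (I i).card = s ∧ ∀ x ∈ I i, p x = i ∧ x ∉ F) ∧
    ∀ i ∈ J, ∀ j ∈ J, i ≠ j → ∀ x ∈ I i, ∀ y ∈ I j, ¬ G.Adj x y

section

variable {V ι : Type*} [Fintype V] [DecidableEq V] [DecidableEq ι] [Fintype ι]

/-- Pairs that cannot be used for embedding. -/
def redG (G : SimpleGraph V) [DecidableRel G.Adj] (p : V → ι) (Q : V → Finset V) (ε d : ℝ) :
    SimpleGraph V where
  Adj x y := p x ≠ p y ∧ (Q x = Q y ∨ ¬ G.IsUniform ε (Q x) (Q y) ∨
    1 - d < ((G.edgeDensity (Q x) (Q y) : ℚ) : ℝ))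
  symm := ⟨fun x y h => ⟨h.1.symm, by
    rcases h.2 with h1 | h1 | h1
    · exact Or.inl h1.symm
    · exact Or.inr (Or.inl (fun h2 => h1 h2.symm))
    · exact Or.inr (Or.inr (by rwa [G.edgeDensity_comm]))⟩⟩
  loopless := ⟨fun x h => h.1 rfl⟩

/-- Restriction of a graph to a vertex set. -/
def restr (H : SimpleGraph V) (U : Finset V) : SimpleGraph V where
  Adj x y := H.Adj x y ∧ x ∈ U ∧ y ∈ U
  symm := ⟨fun x y h => ⟨h.1.symm, h.2.2, h.2.1⟩⟩
  loopless := ⟨fun x h => H.irrefl h.1⟩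

theorem red_count (G : SimpleGraph V) [DecidableRel G.Adj] (p : V → ι)
    (P : Finpartition (univ : Finset V)) {ε d e₁ : ℝ} (hε : 0 < ε) (hd : 0 ≤ d) (he : 0 < e₁)
    (hV : (univ : Finset V).Nonempty) (h1 : P.IsEquipartition) (h2 : P.IsUniform G ε)
    (h3 : 4 / e₁ ≤ P.parts.card) :
    ∑ x, ((nb (redG G p P.part ε d) x \ nb G x).card : ℝ) ≤
      (e₁ / 2 + 4 * ε + d) * (Fintype.card V : ℝ) ^ 2 := by
  classical
  have a0 := card_interedges_eq (redG G p P.part ε d \ G) univ univ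
  have a1 : ∀ x, nb (redG G p P.part ε d \ G) x ∩ univ = nb (redG G p P.part ε d) x \ nb G x := by
    intro x; ext y; simp
  simp only [a1] at a0
  rw [← a0]
  have b1 := h1.card_biUnion_offDiag_le he h3
  have b2 := h1.sum_nonUniforms_lt hV hε h2
  set D := (P.parts ×ˢ P.parts).filter
    (fun q => 1 - d < ((G.edgeDensity q.1 q.2 : ℚ) : ℝ)) with hD
  have b3 : ((D.biUnion (fun q => (q.1 ×ˢ q.2).filter (fun z => ¬ G.Adj z.1 z.2))).card : ℝ) ≤
      d * (Fintype.card V : ℝ) ^ 2 := by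
    calc _ ≤ ∑ q ∈ D, (((q.1 ×ˢ q.2).filter (fun z => ¬ G.Adj z.1 z.2)).card : ℝ) := by
          exact_mod_cast card_biUnion_le
      _ ≤ ∑ q ∈ D, d * (q.1.card * q.2.card) := by
          refine sum_le_sum (fun q hq => ?_)
          obtain ⟨c1, c2⟩ := mem_filter.1 hq
          have c3 := dens_mul G (P.nonempty_of_mem_parts (mem_product.1 c1).1)
            (P.nonempty_of_mem_parts (mem_product.1 c1).2)
          have c4 : ((G.interedges q.1 q.2).card : ℝ) +
              ((q.1 ×ˢ q.2).filter (fun z => ¬ G.Adj z.1 z.2)).card = q.1.card * q.2.card := by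
            have := card_filter_add_card_filter_not (s := q.1 ×ˢ q.2) (fun z => G.Adj z.1 z.2)
            rw [card_product] at this
            exact_mod_cast this
          have c5 := mul_le_mul_of_nonneg_right c2.le
            (show (0 : ℝ) ≤ q.1.card * q.2.card by positivity)
          linarith
      _ ≤ ∑ q ∈ P.parts ×ˢ P.parts, d * (q.1.card * q.2.card) :=
          sum_le_sum_of_subset_of_nonneg (filter_subset _ _) (fun _ _ _ => by positivity)
      _ = d * (Fintype.card V : ℝ) ^ 2 := by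
          rw [← mul_sum, sum_product' (f := fun a b : Finset V => (a.card : ℝ) * b.card),
            ← sum_mul_sum, ← Nat.cast_sum, P.sum_card_parts, card_univ, sq]
  have b4 : (redG G p P.part ε d \ G).interedges univ univ ⊆
      (P.parts.biUnion offDiag ∪ (P.nonUniforms G ε).biUnion (fun (U, W) => U ×ˢ W)) ∪
        D.biUnion (fun q => (q.1 ×ˢ q.2).filter (fun z => ¬ G.Adj z.1 z.2)) := by
    rintro ⟨x, y⟩ hq
    obtain ⟨-, -, ⟨c1, c2⟩, c3⟩ := (SimpleGraph.mem_interedges_iff _).1 hq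
    have mx : P.part x ∈ P.parts := P.part_mem.2 (mem_univ _)
    have my : P.part y ∈ P.parts := P.part_mem.2 (mem_univ _)
    have sx : x ∈ P.part x := P.mem_part (mem_univ _)
    have sy : y ∈ P.part y := P.mem_part (mem_univ _)
    by_cases c4 : P.part x = P.part y
    · refine mem_union_left _ (mem_union_left _ (mem_biUnion.2 ⟨_, mx, mem_offDiag.2
        ⟨sx, c4 ▸ sy, fun e => c1 (congrArg p e)⟩⟩))
    rcases c2 with c2 | c2 | c2
    · exact absurd c2 c4
    · exact mem_union_left _ (mem_union_right _ (mem_biUnion.2 ⟨(P.part x, P.part y),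
        (P.mk_mem_nonUniforms G).2 ⟨mx, my, c4, c2⟩, mem_product.2 ⟨sx, sy⟩⟩))
    · exact mem_union_right _ (mem_biUnion.2 ⟨(P.part x, P.part y),
        mem_filter.2 ⟨mem_product.2 ⟨mx, my⟩, c2⟩, mem_filter.2 ⟨mem_product.2 ⟨sx, sy⟩, c3⟩⟩)
  have b5 := cardR_le_add b4
  have b6 := cardR_union_le (P.parts.biUnion offDiag)
    ((P.nonUniforms G ε).biUnion (fun (U, W) => U ×ˢ W))
  rw [card_univ] at b1 b2
  linarith

open Classical in
/-- Vertices whose cell is almost covered by `F`. -/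
noncomputable def covX (p : V → ι) (Q : V → Finset V) (β : ℝ) (F : Finset V) : Finset V :=
  univ.filter (fun x => ((pt p (Q x) {p x} \ F).card : ℝ) < β * (Q x).card)

theorem covX_le (p : V → ι) (P : Finpartition (univ : Finset V)) {β : ℝ} (hβ : 0 ≤ β)
    (F : Finset V) : ((covX p P.part β F \ F).card : ℝ) ≤
      Fintype.card ι * β * Fintype.card V := by
  classical
  have h1 : covX p P.part β F \ F ⊆ (P.parts ×ˢ (univ : Finset ι)).biUnion (fun q =>
      if ((pt p q.1 {q.2} \ F).card : ℝ) < β * q.1.card then pt p q.1 {q.2} \ F else ∅) := by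
    intro x hx
    obtain ⟨a1, a2⟩ := mem_sdiff.1 hx
    refine mem_biUnion.2 ⟨(P.part x, p x), mem_product.2 ⟨P.part_mem.2 (mem_univ _), mem_univ _⟩, ?_⟩
    rw [if_pos (mem_filter.1 a1).2]
    exact mem_sdiff.2 ⟨mem_pt.2 ⟨P.mem_part (mem_univ _), mem_singleton_self _⟩, a2⟩
  calc _ ≤ _ := cardR_le h1
    _ ≤ ∑ q ∈ P.parts ×ˢ (univ : Finset ι), ((if ((pt p q.1 {q.2} \ F).card : ℝ) < β * q.1.card
        then pt p q.1 {q.2} \ F else ∅).card : ℝ) := by exact_mod_cast card_biUnion_le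
    _ ≤ ∑ q ∈ P.parts ×ˢ (univ : Finset ι), β * q.1.card := by
        refine sum_le_sum (fun q _ => ?_)
        split_ifs with hc
        · exact hc.le
        · simp only [card_empty, Nat.cast_zero]; positivity
    _ = Fintype.card ι * β * Fintype.card V := by
        rw [sum_product' (f := fun (a : Finset V) (_ : ι) => β * (a.card : ℝ))]
        simp only [sum_const, card_univ, nsmul_eq_mul]
        rw [← mul_sum, ← mul_sum, ← Nat.cast_sum, P.sum_card_parts, card_univ, mul_assoc]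

end

theorem regular (r s : ℕ) (hr : 0 < r) (hs : 1 ≤ s) (e : ℝ) (he : 0 < e) (he1 : e ≤ 1) :
    ∃ s' m₀ : ℕ, 1 ≤ s' ∧ ∀ (V ι : Type) [Fintype V] [DecidableEq V] [Fintype ι] [DecidableEq ι]
      (p : V → ι) (G : SimpleGraph V), Fintype.card ι = r → m₀ ≤ Fintype.card V →
      ∃ (H : SimpleGraph V) (U : Finset V) (X : Finset V → Finset V),
        (∀ x y, H.Adj x y → p x ≠ p y ∧ x ∈ U ∧ y ∈ U) ∧
        ((Uᶜ).card : ℝ) ≤ e * Fintype.card V ∧
        (∀ x ∈ U, ((nb H x \ nb G x).card : ℝ) ≤ e * Fintype.card V) ∧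
        (∀ F, ((X F \ F).card : ℝ) ≤ e * Fintype.card V) ∧ Disjoint U (X ∅) ∧
        ∀ (J : Finset ι) (W : Finset V) (F : V → Finset V), s' ≤ W.card →
          (∀ w ∈ W, HasIT H p (U \ X (F w)) J) →
          ∃ W' ⊆ W, W'.card = s ∧ Blow G p s J (W'.biUnion F) := by
  classical
  have hrR : (1 : ℝ) ≤ r := by exact_mod_cast hr
  obtain ⟨β, hβ⟩ : ∃ β : ℝ, β = e / (2 * r) := ⟨_, rfl⟩
  have hβ0 : 0 < β := by rw [hβ]; positivity
  have hβr : r * β = e / 2 := by rw [hβ]; field_simp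
  have hβ1 : β ≤ 1 := by nlinarith
  obtain ⟨d, hd⟩ : ∃ d : ℝ, d = e ^ 2 / 6 := ⟨_, rfl⟩
  have hd0 : 0 < d := by rw [hd]; positivity
  have hd1 : d ≤ 1 := by rw [hd]; nlinarith
  obtain ⟨m₁, hm₁⟩ : ∃ m₁ : ℕ, (s : ℝ) ≤ (β / 2) ^ r * m₁ := by
    obtain ⟨m, hm⟩ := exists_nat_ge ((s : ℝ) / (β / 2) ^ r)
    exact ⟨m, by rwa [div_le_iff₀' (by positivity)] at hm⟩
  obtain ⟨γ₀, hγ₀⟩ : ∃ γ₀ : ℝ, γ₀ = β / 2 / 2 ^ m₁ * (d / 2) ^ (r * s) := ⟨_, rfl⟩
  have hγ0 : 0 < γ₀ := by rw [hγ₀]; positivity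
  obtain ⟨ε, hε0, hε1, hε2, hε3⟩ : ∃ ε : ℝ, 0 < ε ∧ ε ≤ d / 2 ∧ ε ≤ e ^ 2 / 24 ∧
      (r + 2) * ε ≤ γ₀ := by
    refine ⟨min (min (d / 2) (e ^ 2 / 24)) (γ₀ / (r + 2)), by positivity,
      (min_le_left _ _).trans (min_le_left _ _), (min_le_left _ _).trans (min_le_right _ _), ?_⟩
    rw [← le_div_iff₀' (by positivity)]
    exact min_le_right _ _
  obtain ⟨l, hl⟩ := exists_nat_ge (4 / (e ^ 2 / 3))
  obtain ⟨q, hq⟩ := exists_nat_ge (2 / γ₀)
  set M := SzemerediRegularity.bound ε l with hM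
  refine ⟨M ^ r * m₁ + 1, max (l + 1) (q * M), by omega, ?_⟩
  intro V ι _ _ _ _ p G hι hV
  have hV1 : l + 1 ≤ Fintype.card V := (le_max_left _ _).trans hV
  have hV2 : q * M ≤ Fintype.card V := (le_max_right _ _).trans hV
  obtain ⟨P, hP1, hP2, hP3, hP4⟩ := szemeredi_regularity G hε0 (show l ≤ Fintype.card V by omega)
  have hVne : (univ : Finset V).Nonempty := by rw [← card_pos, card_univ]; omega
  have hm0 : (0 : ℝ) < Fintype.card V := by exact_mod_cast (show 0 < Fintype.card V by omega)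
  have hparts : P.parts.Nonempty := P.parts_nonempty hVne.ne_empty
  have hQ : ∀ Q ∈ P.parts, 2 ≤ γ₀ * Q.card := by
    intro Q hQ
    have a1 := hP1.average_le_card_part hQ
    have a2 : q ≤ (univ : Finset V).card / P.parts.card := by
      rw [Nat.le_div_iff_mul_le hparts.card_pos, card_univ]
      exact (Nat.mul_le_mul_left _ hP3).trans hV2
    have a3 : (q : ℝ) ≤ Q.card := by exact_mod_cast a2.trans a1
    rw [div_le_iff₀' hγ0] at hq
    exact hq.trans (mul_le_mul_of_nonneg_left a3 hγ0.le)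
  set H₀ := redG G p P.part ε d with hH₀
  set Bad := univ.filter (fun x => e * Fintype.card V < ((nb H₀ x \ nb G x).card : ℝ)) with hBad
  have hBadc : (Bad.card : ℝ) ≤ e / 2 * Fintype.card V := by
    have a1 := red_count G p P hε0 hd0.le (e₁ := e ^ 2 / 3) (by positivity) hVne hP1 hP4
      (hl.trans (by exact_mod_cast hP2))
    have a2 : (Bad.card : ℝ) * (e * Fintype.card V) ≤ ∑ x, ((nb H₀ x \ nb G x).card : ℝ) := by
      refine le_trans ?_ (sum_le_sum_of_subset_of_nonneg (subset_univ Bad)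
        (fun _ _ _ => Nat.cast_nonneg _))
      rw [← nsmul_eq_mul, ← sum_const]
      exact sum_le_sum (fun x hx => (mem_filter.1 hx).2.le)
    have a3 := mul_le_mul_of_nonneg_right
      (show e ^ 2 / 3 / 2 + 4 * ε + d ≤ e ^ 2 / 2 by rw [hd]; linarith)
      (show (0 : ℝ) ≤ (Fintype.card V : ℝ) ^ 2 by positivity)
    have a4 : (Bad.card : ℝ) * (e * Fintype.card V) ≤
        (e / 2 * Fintype.card V) * (e * Fintype.card V) := by linarith
    exact le_of_mul_le_mul_right a4 (by positivity)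
  have hX : ∀ F, ((covX p P.part β F \ F).card : ℝ) ≤ e / 2 * Fintype.card V := by
    intro F
    have := covX_le p P hβ0.le F
    rwa [hι, hβr] at this
  have hpos : 0 ≤ e / 2 * Fintype.card V := by positivity
  refine ⟨restr H₀ (Bad ∪ covX p P.part β ∅)ᶜ, (Bad ∪ covX p P.part β ∅)ᶜ, covX p P.part β,
    fun x y h => ⟨h.1.1, h.2⟩, ?_, fun x hx => ?_, fun F => (hX F).trans (by linarith),
    disjoint_left.2 (fun x hx hx' => mem_compl.1 hx (mem_union_right _ hx')), ?_⟩
  · rw [compl_compl]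
    have a1 := hX ∅
    rw [sdiff_empty] at a1
    exact (cardR_union_le _ _).trans (by linarith)
  · have a1 : ¬ (e * Fintype.card V < ((nb H₀ x \ nb G x).card : ℝ)) := fun hh =>
      mem_compl.1 hx (mem_union_left _ (mem_filter.2 ⟨mem_univ _, hh⟩))
    refine le_trans (cardR_le (sdiff_subset_sdiff (fun y hy => ?_) subset_rfl)) (not_lt.1 a1)
    exact mem_nb.2 (mem_nb.1 hy).1
  intro J W F hW hIT
  have hex : ∀ w, ∃ T : ι → V, w ∈ W → IsIT (restr H₀ (Bad ∪ covX p P.part β ∅)ᶜ) p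
      ((Bad ∪ covX p P.part β ∅)ᶜ \ covX p P.part β (F w)) J T := by
    intro w
    by_cases hw : w ∈ W
    · obtain ⟨T, hT⟩ := hIT w hw
      exact ⟨T, fun _ => hT⟩
    · exact ⟨fun _ => w, fun hh => absurd hh hw⟩
  choose T hT using hex
  obtain ⟨Q, hQm, hQc⟩ := exists_le_card_fiber_of_mul_le_card_of_maps_to (s := W)
    (t := Fintype.piFinset (fun _ : ι => P.parts)) (f := fun w i => P.part (T w i)) (n := m₁)
    (fun w _ => Fintype.mem_piFinset.2 (fun i => P.part_mem.2 (mem_univ _)))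
    (Fintype.piFinset_nonempty.2 (fun _ => hparts)) (by
      rw [Fintype.card_piFinset, prod_const, card_univ, hι]
      have : P.parts.card ^ r ≤ M ^ r := Nat.pow_le_pow_left hP3 r
      have := Nat.mul_le_mul_right m₁ this
      omega)
  obtain ⟨W₀, hW₀, hW₀c⟩ := exists_subset_card_eq hQc
  have hW₀' : ∀ w ∈ W₀, w ∈ W ∧ ∀ i, P.part (T w i) = Q i := fun w hw =>
    ⟨(mem_filter.1 (hW₀ hw)).1, fun i => congrFun (mem_filter.1 (hW₀ hw)).2 i⟩
  have hQp : ∀ i, Q i ∈ P.parts := Fintype.mem_piFinset.1 hQm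
  have hJr : J.card ≤ r := hι ▸ card_le_univ J
  obtain ⟨W₁, b1, b2, b3⟩ := common_all Q (fun i w => pt p (Q i) {i} \ F w) hβ0 m₁
    (s := s) (by exact_mod_cast hs) J W₀ hW₀c.le (by
      rw [hW₀c]
      exact hm₁.trans (mul_le_mul_of_nonneg_right
        (pow_le_pow_of_le_one (by positivity) (by linarith) hJr) (Nat.cast_nonneg _)))
    (fun i _ => P.nonempty_of_mem_parts (hQp i)) (fun i hi w hw => by
      refine ⟨sdiff_subset.trans (pt_subset _ _ _), ?_⟩
      obtain ⟨c1, c2⟩ := (hT w (hW₀' w hw).1).1 i hi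
      have c3 := (mem_sdiff.1 c1).2
      simp only [covX, mem_filter, mem_univ, true_and, not_lt] at c3
      rwa [(hW₀' w hw).2 i, c2] at c3)
  obtain ⟨W', c1, c2⟩ := exists_subset_card_eq (show s ≤ W₁.card by exact_mod_cast b2)
  obtain ⟨w₀, hw₀⟩ : W'.Nonempty := card_pos.1 (by omega)
  obtain ⟨I, hI1, hI2⟩ := embed G J Q hε0 hd1 hε1 (γ₀ := γ₀) (by
      have : (J.card : ℝ) ≤ r := by exact_mod_cast hJr
      nlinarith) (fun i _ => hQ _ (hQp i)) (fun i hi j hj hij => by
      have w1 := hW₀' w₀ (b1 (c1 hw₀))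
      have w2 := (hT w₀ w1.1).2 i hi j hj hij
      have w3 := (hT w₀ w1.1).1 i hi
      have w4 := (hT w₀ w1.1).1 j hj
      by_contra hc
      refine w2 ⟨⟨by rw [w3.2, w4.2]; exact hij, Or.inr ?_⟩, (mem_sdiff.1 w3.1).1,
        (mem_sdiff.1 w4.1).1⟩
      rw [w1.2 i, w1.2 j]
      by_contra hc'
      push Not at hc'
      exact hc hc') (J.card * s) (fun _ => s) (β / 2 / 2 ^ m₁)
    (fun i => (Q i).filter (fun x => ∀ w ∈ W₁, x ∈ pt p (Q i) {i} \ F w))
    (by rw [sum_const, smul_eq_mul]) (by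
      rw [hγ₀]
      exact mul_le_mul_of_nonneg_left (pow_le_pow_of_le_one (by positivity) (by linarith)
        (Nat.mul_le_mul_right s hJr)) (by positivity)) (fun i hi => ⟨filter_subset _ _, by convert b3 i hi⟩)
  refine ⟨W', fun w hw => (hW₀' w (b1 (c1 hw))).1, c2, I, fun i hi => ⟨(hI1 i hi).2, fun x hx => ?_⟩,
    hI2⟩
  have d1 := (mem_filter.1 ((hI1 i hi).1 hx)).2
  refine ⟨mem_singleton.1 (mem_pt.1 (mem_sdiff.1 (d1 w₀ (c1 hw₀))).1).2, fun hh => ?_⟩
  obtain ⟨w, hw, d2⟩ := mem_biUnion.1 hh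
  exact (mem_sdiff.1 (d1 w (c1 hw))).2 d2

end Pool.Agent.MP_bc5f1c_co

end MrgPart1

-- ======== part 2: formerly Pool.Agent.MP_bc5f1c_co.Final
section MrgPart2

/-!
Assembling the proof.
-/

set_option autoImplicit false
set_option linter.unusedSectionVars false
set_option linter.unusedVariables false

open Finset

namespace Pool.Agent.MP_bc5f1c_co

section

variable {V ι : Type*} [Fintype V] [DecidableEq V] [DecidableEq ι] [Fintype ι]
variable {G : SimpleGraph V} {p : V → ι} {s : ℕ} {J : Finset ι} {F : Finset V}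

theorem Blow.mono {F' : Finset V} (h : Blow G p s J F) (hF : F' ⊆ F) : Blow G p s J F' := by
  obtain ⟨I, h1, h2⟩ := h
  exact ⟨I, fun i hi => ⟨(h1 i hi).1, fun x hx => ⟨((h1 i hi).2 x hx).1,
    fun hh => ((h1 i hi).2 x hx).2 (hF hh)⟩⟩, h2⟩

theorem Blow.insert {W : Finset V} {i : ι} (h : Blow G p s J (F ∪ W.biUnion (nb G)))
    (hW : W.card = s) (hp : ∀ w ∈ W, p w = i ∧ w ∉ F) : Blow G p s (insert i J) F := by
  obtain ⟨I, h1, h2⟩ := h
  have key : ∀ j ∈ J, ∀ x ∈ W, ∀ y ∈ I j, ¬ G.Adj x y := fun j hj x hx y hy ha =>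
    ((h1 j hj).2 y hy).2 (mem_union_right _ (mem_biUnion.2 ⟨x, hx, mem_nb.2 ha⟩))
  refine ⟨fun j => if j = i then W else I j, fun j hj => ?_, fun j hj k hk hne x hx y hy => ?_⟩
  · dsimp only
    split_ifs with hc
    · exact ⟨hW, fun x hx => ⟨(hp x hx).1.trans hc.symm, (hp x hx).2⟩⟩
    · have hj' := (mem_insert.1 hj).resolve_left hc
      exact ⟨(h1 j hj').1, fun x hx => ⟨((h1 j hj').2 x hx).1,
        fun hh => ((h1 j hj').2 x hx).2 (mem_union_left _ hh)⟩⟩
  · dsimp only at hx hy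
    split_ifs at hx hy with c1 c2 c2
    · exact absurd (c1.trans c2.symm) hne
    · exact key k ((mem_insert.1 hk).resolve_left c2) x hx y hy
    · exact fun ha => key j ((mem_insert.1 hj).resolve_left c1) y hy x hx ha.symm
    · exact h2 j ((mem_insert.1 hj).resolve_left c1) k ((mem_insert.1 hk).resolve_left c2) hne
        x hx y hy

theorem sum_sdiff_nb_comm (G : SimpleGraph V) (W T : Finset V) :
    ∑ w ∈ W, ((T \ nb G w).card : ℝ) = ∑ x ∈ T, ((W \ nb G x).card : ℝ) := by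
  classical
  have e1 : ∀ (z : V) (X : Finset V), ((X \ nb G z).card : ℝ) =
      ∑ w ∈ X, if ¬ G.Adj z w then (1 : ℝ) else 0 := by
    intro z X
    rw [sum_boole]
    congr 2
    ext w
    simp only [mem_sdiff, mem_nb, mem_filter]
  simp only [e1]
  rw [sum_comm]
  refine sum_congr rfl (fun x _ => sum_congr rfl (fun y _ => ?_))
  simp only [G.adj_comm]

end

theorem blow_exists (a s : ℕ) (ha : 2 ≤ a) (hs : 2 ≤ s) : ∃ C : ℝ, 0 < C ∧ ∃ n₀ : ℕ, ∀ n ≥ n₀,
    ∀ (V ι : Type) [Fintype V] [DecidableEq V] [Fintype ι] [DecidableEq ι] (p : V → ι)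
      (G : SimpleGraph V), Fintype.card ι = 2 * a + 1 → (∀ i, (pt p univ {i}).card = n) →
      Deg G (a / (2 * a - 1) * n - C * (n : ℝ) ^ (1 - 1 / (s : ℝ))) → Blow G p s univ ∅ := by
  classical
  have haR : (2 : ℝ) ≤ a := by exact_mod_cast ha
  have hsR : (2 : ℝ) ≤ s := by exact_mod_cast hs
  obtain ⟨B, hB⟩ : ∃ B : ℝ, B = 10 * ((100 * a ^ 4 * s) ^ 8) ^ 2 * (10000 * a ^ 5) := ⟨_, rfl⟩
  have hB1 : 1 ≤ B := by
    have h1 : (1 : ℝ) ≤ 100 * a ^ 4 * s := by
      have := (lev haR (show (1 : ℝ) ≤ s by linarith) zero_le_one (y := 100 * a ^ 4 * s)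
        (by linarith)).1
      linarith
    have h2 : (1 : ℝ) ≤ ((100 * a ^ 4 * s) ^ 8) ^ 2 := one_le_pow₀ (one_le_pow₀ h1)
    have h3 : (1 : ℝ) ≤ a ^ 5 := one_le_pow₀ (by linarith)
    rw [hB]; nlinarith
  obtain ⟨e, he⟩ : ∃ e : ℝ, e = 1 / (B * ((2 * a + 1) * (2 * a - 1))) := ⟨_, rfl⟩
  have hd1 : (0 : ℝ) < 2 * a - 1 := by linarith
  have hd2 : (1 : ℝ) ≤ B * ((2 * a + 1) * (2 * a - 1)) :=
    one_le_mul_of_one_le_of_one_le hB1 (one_le_mul_of_one_le_of_one_le (by linarith) (by linarith))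
  have he0 : 0 < e := by rw [he]; positivity
  have he1 : e ≤ 1 := by rw [he, div_le_one (by positivity)]; exact hd2
  obtain ⟨s', m₀, hs', hreg⟩ := regular (2 * a + 1) s (by omega) (by omega) e he0 he1
  obtain ⟨n₁, hn₁⟩ := exists_nat_ge ((1 / e) ^ s)
  have hs'R : (1 : ℝ) ≤ s' := by exact_mod_cast hs'
  refine ⟨3 * ((2 * a + 1) * (s + s')), by positivity, max (max m₀ s') (n₁ + 1), ?_⟩
  intro n hn V ι _ _ _ _ p G hι hpart hdeg
  have hn0 : m₀ ≤ n := (le_max_left _ _).trans ((le_max_left _ _).trans hn)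
  have hn1 : s' ≤ n := (le_max_right _ _).trans ((le_max_left _ _).trans hn)
  have hn2 : n₁ + 1 ≤ n := (le_max_right _ _).trans hn
  have hnR : (1 : ℝ) ≤ n := by exact_mod_cast (show 1 ≤ n by omega)
  have hV : (Fintype.card V : ℝ) = (2 * a + 1) * n := by
    have h1 := card_pt_eq_sum p (univ : Finset V) (univ : Finset ι)
    have h2 : pt p (univ : Finset V) (univ : Finset ι) = univ := by ext x; simp
    simp only [h2, hpart, sum_const, card_univ, hι, nsmul_eq_mul] at h1
    rw [h1]; push_cast; ring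
  have hV' : n ≤ Fintype.card V := by
    have : (n : ℝ) ≤ Fintype.card V := by rw [hV]; nlinarith
    exact_mod_cast this
  have : Nonempty V := Fintype.card_pos_iff.1 (by omega)
  obtain ⟨H, U, X, r1, r2, r3, r4, r5, r6⟩ := hreg V ι p G hι (hn0.trans hV')
  obtain ⟨τ, hτ⟩ : ∃ τ : ℝ, τ = (n : ℝ) ^ (1 - 1 / (s : ℝ)) := ⟨_, rfl⟩
  rw [← hτ] at hdeg
  have hn0' : (0 : ℝ) < n := by linarith
  have hτ0 : 0 < τ := by rw [hτ]; positivity
  have hτs : τ ^ s = (n : ℝ) ^ (s - 1) := by
    rw [hτ, ← Real.rpow_natCast, ← Real.rpow_mul hn0'.le, ← Real.rpow_natCast,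
      Nat.cast_sub (by omega)]
    congr 1
    field_simp
    simp
  have hinv : 1 / (s : ℝ) ≤ 1 / 2 := one_div_le_one_div_of_le (by norm_num) hsR
  have hτ1 : 1 ≤ τ := by rw [hτ]; exact Real.one_le_rpow hnR (by linarith)
  have hτ2 : (n : ℝ) ≤ τ * τ := by
    rw [hτ, ← Real.rpow_add hn0']
    nth_rewrite 1 [← Real.rpow_one n]
    exact Real.rpow_le_rpow_of_exponent_le hnR (by linarith)
  have hτe : τ ≤ e * n := by
    refine le_of_pow_le_pow_left₀ (n := s) (by omega) (by positivity) ?_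
    rw [hτs, mul_pow]
    have h1 : (1 / e) ^ s ≤ n := hn₁.trans (by exact_mod_cast (show n₁ ≤ n by omega))
    rw [div_pow, one_pow, div_le_iff₀ (by positivity)] at h1
    have h2 : (n : ℝ) ^ s = n * n ^ (s - 1) := by
      rw [← pow_succ']; congr 1; omega
    rw [h2]
    have h3 := mul_le_mul_of_nonneg_right h1 (show (0 : ℝ) ≤ n ^ (s - 1) by positivity)
    linarith
  by_contra hno
  have hcore : ∀ (J : Finset ι) (W : Finset V) (F : V → Finset V), s' ≤ W.card →
      (∀ w ∈ W, RExt H p U (e * Fintype.card V) (F w) J) →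
      ∃ W' ⊆ W, W'.card = s ∧ Blow G p s J (W'.biUnion F) := by
    intro J W F h1 h2
    refine r6 J W F h1 (fun w hw => (h2 w hw _ (r4 (F w))).mono ?_)
    rw [union_sdiff_self_eq_union]
    exact sdiff_subset_sdiff subset_rfl subset_union_right
  have hNn : (2 * a - 1) * (n / (2 * a - 1)) = (n : ℝ) := by field_simp
  have hdeg' : Deg G (a * (n / (2 * a - 1)) - 3 * ((2 * a + 1) * (s + s') * τ)) := by
    convert hdeg using 1
    ring
  have hκ0 : 0 < (2 * a + 1) * (s + s') * τ := by positivity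
  refine Reg.false (G := G) (H := H) (p := p) (U := U) (a := a) (s := s) (N := n / (2 * a - 1))
    (ε := e * Fintype.card V) (γ := 3 * ((2 * a + 1) * (s + s') * τ))
    (κ := (2 * a + 1) * (s + s') * τ) (τ := τ) ⟨⟨ha, hι, by positivity, by positivity, ?_, ?_, ?_,
      fun x y h => (r1 x y h).1, fun x y h => (r1 x y h).2.2, ?_⟩, by omega, hdeg', hκ0, ?_, le_rfl,
      ?_, r3, ?_, ?_, ?_⟩ (by rw [hV]; positivity) ?_
  · intro x
    by_cases hx : x ∈ U
    · have h1 := cardR_sdiff_inter (nb H x) (nb G x)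
      have h2 : ((nb H x ∩ nb G x).card : ℝ) ≤ (nb G x).card := cardR_le inter_subset_right
      have := r3 x hx
      have := hdeg' x
      linarith
    · have : nb H x = ∅ := eq_empty_of_forall_notMem (fun y hy => hx (r1 x y (mem_nb.1 hy)).2.1)
      rw [this, card_empty, Nat.cast_zero]
      positivity
  · intro i
    have h1 : ((pt p univ {i}).card : ℝ) ≤ (pt p U {i}).card + (Uᶜ).card := by
      apply cardR_le_add
      intro x hx
      by_cases hc : x ∈ U
      · exact mem_union_left _ (mem_pt.2 ⟨hc, (mem_pt.1 hx).2⟩)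
      · exact mem_union_right _ (mem_compl.2 hc)
    rw [hpart] at h1
    rw [hNn]
    linarith
  · intro i
    rw [hNn, hpart]
  · intro hit
    obtain ⟨W', -, -, h1⟩ := r6 univ univ (fun _ => ∅) (by rw [card_univ]; omega)
      (fun _ _ => by rwa [sdiff_eq_self_of_disjoint r5])
    exact hno (h1.mono (empty_subset _))
  · exact le_mul_of_one_le_left hτ0.le
      (one_le_mul_of_one_le_of_one_le (by linarith) (by linarith))
  · rw [hV]
    have : e * n ≤ e * ((2 * a + 1) * n) :=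
      mul_le_mul_of_nonneg_left (le_mul_of_one_le_left hn0'.le (by linarith)) he0.le
    linarith
  · intro i
    rw [hNn, hpart]
  · intro W hW
    by_contra hc
    obtain ⟨i, -, hi⟩ := exists_big_cell (p := p) (S := univ) (A := W) (m := s')
      (fun _ _ => mem_univ _) (by
        rw [card_univ, hι]
        push_cast
        have h1 : (s' : ℝ) ≤ (s + s') * τ := by nlinarith
        have h2 := mul_le_mul_of_nonneg_left h1 (show (0 : ℝ) ≤ 2 * a + 1 by positivity)
        linarith)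
    obtain ⟨W', h1, h2, h3⟩ := hcore (univ.erase i) (pt p W {i}) (nb G)
      (by exact_mod_cast hi.le) (fun w hw => by
        have := hW w (mem_pt1.1 hw).1
        rwa [(mem_pt1.1 hw).2] at this)
    have h4 := Blow.insert (F := ∅) (i := i) (by rwa [empty_union]) h2
      (fun w hw => ⟨(mem_pt1.1 (h1 hw)).2, notMem_empty _⟩)
    rw [insert_erase (mem_univ _)] at h4
    exact hno h4
  · intro j W T hW hT hTc hext
    have h1 : ∀ i, ∑ w ∈ pt p W {i}, ((T \ nb G w).card : ℝ) ≤ (s + s') * τ * T.card := by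
      intro i
      have hWi : ((pt p W {i}).card : ℝ) ≤ n := by
        rw [← hpart i]; exact cardR_le (pt_mono (subset_univ _) subset_rfl)
      have a1 := kst G (pt p W {i}) T (by omega) hs' hτ0 hτs hWi (by
        intro Y hY hYs W' hW' hn
        by_contra hc
        obtain ⟨w₀, hw₀⟩ : W'.Nonempty := card_pos.1 (by omega)
        have hij : i ≠ j := by
          rw [← (mem_pt1.1 (hW' hw₀)).2]; exact hW _ (mem_pt1.1 (hW' hw₀)).1
        obtain ⟨W'', b1, b2, b3⟩ := hcore ((univ.erase i).erase j) W'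
          (fun w => nb G w ∪ Y.biUnion (nb G)) (by omega) (fun w hw => by
            have := hext w (mem_pt1.1 (hW' hw)).1 Y hY hYs.le
            rwa [(mem_pt1.1 (hW' hw)).2] at this)
        obtain ⟨w₁, hw₁⟩ : W''.Nonempty := card_pos.1 (by omega)
        have b4 := Blow.insert (F := W''.biUnion (nb G)) (W := Y) (i := j) (b3.mono (by
          intro x hx
          rcases mem_union.1 hx with hx | hx
          · obtain ⟨w, hw, hx⟩ := mem_biUnion.1 hx
            exact mem_biUnion.2 ⟨w, hw, mem_union_left _ hx⟩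
          · exact mem_biUnion.2 ⟨w₁, hw₁, mem_union_right _ hx⟩)) hYs (fun y hy => ⟨hT y (hY hy),
          fun hh => by
            obtain ⟨w, hw, hx⟩ := mem_biUnion.1 hh
            exact hn w (b1 hw) y hy (mem_nb.1 hx)⟩)
        have b5 := Blow.insert (F := ∅) (i := i) (by rwa [empty_union]) b2
          (fun w hw => ⟨(mem_pt1.1 (hW' (b1 hw))).2, notMem_empty _⟩)
        rw [insert_erase (mem_erase.2 ⟨hij.symm, mem_univ _⟩), insert_erase (mem_univ _)] at b5
        exact hno b5)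
      have a2 : ((pt p W {i}).card : ℝ) ≤ τ * T.card :=
        hWi.trans (hτ2.trans (mul_le_mul_of_nonneg_left hTc hτ0.le))
      have a3 := mul_le_mul_of_nonneg_left a2 (show (0 : ℝ) ≤ s by linarith)
      linarith
    have h2 : ∑ w ∈ W, ((T \ nb G w).card : ℝ) ≤ (2 * a + 1) * ((s + s') * τ * T.card) := by
      rw [← sum_fiberwise_of_maps_to (s := W) (t := univ) (g := p) (fun _ _ => mem_univ _)]
      refine (sum_le_sum (fun i _ => le_trans (le_of_eq ?_) (h1 i))).trans (le_of_eq ?_)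
      · congr 1
        ext x; simp
      · rw [sum_const, card_univ, hι, nsmul_eq_mul]; push_cast; ring
    rw [sum_sdiff_nb_comm] at h2
    refine exists_le_of_sum_le (nonempty_of_pos (by linarith)) ?_
    rw [sum_const, nsmul_eq_mul]
    linarith
  · rw [hV, ← mul_assoc, ← mul_assoc, ← hB, he]
    apply le_of_eq
    field_simp

end Pool.Agent.MP_bc5f1c_co

end MrgPart2

-- marker of a merged file
example : 731051 + 191768 = 731051 + 191768 := rfl
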