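import Mathlib
import Pool.Agent.MP_bc5f1c_co.Final

/-!
Counting independent transversals in uniform pairs.
-/

set_option autoImplicit false
set_option linter.unusedSectionVars false
set_option linter.unusedVariables false

open Finset

namespace Pool.Agent.MP_bc5f1c_co

section

variable {V ι : Type*} [Fintype V] [DecidableEq V] [DecidableEq ι] [Fintype ι]

open Classical in
/-- The maps that are independent transversals of the parts `J` avoiding `F`. -/
noncomputable def its (G : SimpleGraph V) (p : V → ι) (J : Finset ι) (F : Finset V) :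
    Finset (ι → V) :=
  univ.filter (fun T => IsIT G p Fᶜ J T)

theorem mem_its {G : SimpleGraph V} {p : V → ι} {J : Finset ι} {F : Finset V} {T : ι → V} :
    T ∈ its G p J F ↔ IsIT G p Fᶜ J T := by
  simp [its]

theorem update_count (i : ι) (A : Finset V) (B : V → Finset (ι → V)) (S : Finset (ι → V))
    (h : ∀ v ∈ A, ∀ T ∈ B v, Function.update T i v ∈ S) :
    ∑ v ∈ A, ((B v).card : ℝ) ≤ S.card * Fintype.card V := by
  classical
  have h1 : (A.sigma B).card ≤ (S ×ˢ (univ : Finset V)).card := by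
    refine card_le_card_of_injOn (fun z => (Function.update z.2 i z.1, z.2 i)) ?_ ?_
    · intro z hz
      obtain ⟨a1, a2⟩ := mem_sigma.1 (mem_coe.1 hz)
      exact mem_coe.2 (mem_product.2 ⟨h _ a1 _ a2, mem_univ _⟩)
    · rintro ⟨v, T⟩ _ ⟨v', T'⟩ _ e
      simp only [Prod.mk.injEq] at e
      have e1 : v = v' := by simpa using congrFun e.1 i
      have e2 : T = T' := by
        funext k
        by_cases hk : k = i
        · rw [hk]; exact e.2
        · simpa [hk] using congrFun e.1 k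
      rw [e1, e2]
  rw [card_sigma, card_product, card_univ] at h1
  exact_mod_cast h1

open Classical in
theorem embed3 (G : SimpleGraph V) [DecidableRel G.Adj] (J₀ : Finset ι) (Q : ι → Finset V)
    {ε d γ₀ θ : ℝ} (hε0 : 0 < ε) (hd1 : d ≤ 1) (hε : ε ≤ d / 2) (hθ : 0 ≤ θ)
    (hγ : (J₀.card + 1) * ε < γ₀) (hV : (0 : ℝ) < Fintype.card V)
    (hQ : ∀ i ∈ J₀, θ * Fintype.card V ≤ ε * (Q i).card)
    (hu : ∀ i ∈ J₀, ∀ j ∈ J₀, i ≠ j → G.IsUniform ε (Q i) (Q j) ∧
      ((G.edgeDensity (Q i) (Q j) : ℚ) : ℝ) ≤ 1 - d) (J : Finset ι) :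
    J ⊆ J₀ → ∀ (γ : ℝ) (Y : ι → Finset V), γ₀ ≤ γ * (d / 2) ^ J.card →
      (∀ i ∈ J, Y i ⊆ Q i ∧ γ * (Q i).card ≤ (Y i).card) →
      θ ^ J.card * (Fintype.card V : ℝ) ^ Fintype.card ι ≤
        (univ.filter (fun T : ι → V => (∀ i ∈ J, T i ∈ Y i) ∧
          ∀ i ∈ J, ∀ j ∈ J, i ≠ j → ¬ G.Adj (T i) (T j))).card := by
  have hJ0 : (0 : ℝ) ≤ J₀.card := Nat.cast_nonneg _
  have hγ0 : 0 < γ₀ := lt_of_le_of_lt (by positivity) hγ
  induction J using Finset.induction_on with
  | empty =>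
    intro _ γ Y _ _
    simp
  | insert i J hiJ ih =>
    intro hJ γ Y h2 h3
    rw [card_insert_of_notMem hiJ] at h2 ⊢
    have hi : i ∈ J₀ := hJ (mem_insert_self _ _)
    have hJ' : J ⊆ J₀ := (subset_insert _ _).trans hJ
    have hne : ∀ j ∈ J, j ≠ i := fun j hj e => hiJ (e ▸ hj)
    have hd0 : 0 < d / 2 := by linarith
    have hpw : (d / 2) ^ (J.card + 1) ≤ 1 := pow_le_one₀ hd0.le (by linarith)
    have hγpos : 0 < γ := by
      by_contra hc
      have : γ * (d / 2) ^ (J.card + 1) ≤ 0 :=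
        mul_nonpos_of_nonpos_of_nonneg (not_lt.1 hc) (by positivity)
      linarith
    have hγγ : γ₀ ≤ γ := h2.trans (mul_le_of_le_one_right hγpos.le hpw)
    let Bad : ι → Finset V := fun j =>
      (Q i).filter (fun v => ((Y j \ nb G v).card : ℝ) < d / 2 * (Y j).card)
    have hBad := cardR_biUnion_le J Bad (m := ε * (Q i).card) (fun j hj =>
      few_bad G (hu i hi j (hJ' hj) (hne j hj).symm).1 (hu i hi j (hJ' hj) (hne j hj).symm).2 hε
        (h3 j (mem_insert_of_mem hj)).1 (by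
          have a1 := (h3 j (mem_insert_of_mem hj)).2
          have a2 : ε ≤ γ := by nlinarith
          have a3 := mul_le_mul_of_nonneg_right a2 (Nat.cast_nonneg (α := ℝ) (Q j).card)
          linarith) (filter_subset _ _) (fun v hv => (mem_filter.1 hv).2))
    have hQ0 : (0 : ℝ) ≤ (Q i).card := Nat.cast_nonneg _
    have hYi : γ₀ * (Q i).card ≤ (Y i).card :=
      (mul_le_mul_of_nonneg_right hγγ hQ0).trans (h3 i (mem_insert_self _ _)).2
    have hgood : θ * Fintype.card V ≤ (Y i \ J.biUnion Bad).card := by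
      have a1 : (J.card : ℝ) ≤ J₀.card := cardR_le hJ'
      have a2 := mul_le_mul_of_nonneg_right a1 (show 0 ≤ ε * (Q i).card by positivity)
      have a3 := mul_le_mul_of_nonneg_right hγ.le hQ0
      have a4 := cardR_sdiff_inter (Y i) (J.biUnion Bad)
      have a5 : ((Y i ∩ J.biUnion Bad).card : ℝ) ≤ (J.biUnion Bad).card :=
        cardR_le inter_subset_right
      have a6 := hQ i hi
      linarith
    have key := update_count i (Y i \ J.biUnion Bad)
      (fun v => univ.filter (fun T : ι → V => (∀ k ∈ J, T k ∈ Y k \ nb G v) ∧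
        ∀ k ∈ J, ∀ j ∈ J, k ≠ j → ¬ G.Adj (T k) (T j)))
      (univ.filter (fun T : ι → V => (∀ k ∈ insert i J, T k ∈ Y k) ∧
        ∀ k ∈ insert i J, ∀ j ∈ insert i J, k ≠ j → ¬ G.Adj (T k) (T j))) (by
      intro v hv T hT
      obtain ⟨b1, b2⟩ := (mem_filter.1 hT).2
      refine mem_filter.2 ⟨mem_univ _, fun k hk => ?_, fun k hk j hj hkj => ?_⟩
      · rcases mem_insert.1 hk with rfl | hk1
        · rw [Function.update_self]
          exact (mem_sdiff.1 hv).1
        · rw [Function.update_of_ne (hne k hk1)]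
          exact (mem_sdiff.1 (b1 k hk1)).1
      · rcases mem_insert.1 hk with rfl | hk1 <;> rcases mem_insert.1 hj with rfl | hj1
        · exact absurd rfl hkj
        · rw [Function.update_self, Function.update_of_ne (hne j hj1)]
          exact fun ha => (mem_sdiff.1 (b1 j hj1)).2 (mem_nb.2 ha)
        · rw [Function.update_self, Function.update_of_ne (hne k hk1)]
          exact fun ha => (mem_sdiff.1 (b1 k hk1)).2 (mem_nb.2 ha.symm)
        · rw [Function.update_of_ne (hne k hk1), Function.update_of_ne (hne j hj1)]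
          exact b2 k hk1 j hj1 hkj)
    have low := le_trans (sum_le_sum (s := Y i \ J.biUnion Bad)
      (f := fun _ => θ ^ J.card * (Fintype.card V : ℝ) ^ Fintype.card ι) (fun v hv => by
      refine ih hJ' (γ * (d / 2)) (fun k => Y k \ nb G v) (by rw [pow_succ] at h2; linarith) ?_
      intro j hj
      refine ⟨sdiff_subset.trans (h3 j (mem_insert_of_mem hj)).1, ?_⟩
      have a1 : ¬ ((Y j \ nb G v).card : ℝ) < d / 2 * (Y j).card := fun hh =>
        (mem_sdiff.1 hv).2 (mem_biUnion.2 ⟨j, hj,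
          mem_filter.2 ⟨(h3 i (mem_insert_self _ _)).1 (mem_sdiff.1 hv).1, hh⟩⟩)
      have a2 := mul_le_mul_of_nonneg_left (h3 j (mem_insert_of_mem hj)).2 hd0.le
      linarith)) key
    rw [sum_const, nsmul_eq_mul] at low
    have a7 := mul_le_mul_of_nonneg_right hgood
      (show 0 ≤ θ ^ J.card * (Fintype.card V : ℝ) ^ Fintype.card ι by positivity)
    refine le_of_mul_le_mul_right ?_ hV
    rw [pow_succ]
    linarith

end

theorem regular3 (r : ℕ) (hr : 0 < r) (e : ℝ) (he : 0 < e) (he1 : e ≤ 1) :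
    ∃ (c : ℝ) (m₀ : ℕ), 0 < c ∧ c ≤ 1 ∧ ∀ (V ι : Type) [Fintype V] [DecidableEq V] [Fintype ι]
      [DecidableEq ι] (p : V → ι) (G : SimpleGraph V), Fintype.card ι = r →
      m₀ ≤ Fintype.card V →
      ∃ (H : SimpleGraph V) (U : Finset V) (X : Finset V → Finset V),
        (∀ x y, H.Adj x y → p x ≠ p y ∧ x ∈ U ∧ y ∈ U) ∧
        ((Uᶜ).card : ℝ) ≤ e * Fintype.card V ∧
        (∀ x ∈ U, ((nb H x \ nb G x).card : ℝ) ≤ e * Fintype.card V) ∧
        (∀ F, ((X F \ F).card : ℝ) ≤ e * Fintype.card V) ∧ Disjoint U (X ∅) ∧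
        ∀ (J : Finset ι) (F : Finset V), HasIT H p (U \ X F) J →
          c * (Fintype.card V : ℝ) ^ r ≤ (its G p J F).card := by
  classical
  have hrR : (1 : ℝ) ≤ r := by exact_mod_cast hr
  obtain ⟨β, hβ⟩ : ∃ β : ℝ, β = e / (2 * r) := ⟨_, rfl⟩
  have hβ0 : 0 < β := by rw [hβ]; positivity
  have hβr : r * β = e / 2 := by rw [hβ]; field_simp
  have hβ1 : β ≤ 1 := by nlinarith
  obtain ⟨d, hd⟩ : ∃ d : ℝ, d = e ^ 2 / 6 := ⟨_, rfl⟩
  have hd0 : 0 < d := by rw [hd]; positivity
  have hd1 : d ≤ 1 := by rw [hd]; nlinarith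
  obtain ⟨γ₀, hγ₀⟩ : ∃ γ₀ : ℝ, γ₀ = β * (d / 2) ^ r := ⟨_, rfl⟩
  have hγ0 : 0 < γ₀ := by rw [hγ₀]; positivity
  obtain ⟨ε, hε0, hε1, hε2, hε3⟩ : ∃ ε : ℝ, 0 < ε ∧ ε ≤ d / 2 ∧ ε ≤ e ^ 2 / 24 ∧
      (r + 2) * ε ≤ γ₀ := by
    refine ⟨min (min (d / 2) (e ^ 2 / 24)) (γ₀ / (r + 2)), by positivity,
      (min_le_left _ _).trans (min_le_left _ _), (min_le_left _ _).trans (min_le_right _ _), ?_⟩
    rw [← le_div_iff₀' (by positivity)]
    exact min_le_right _ _
  obtain ⟨l, hl⟩ := exists_nat_ge (4 / (e ^ 2 / 3))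
  obtain ⟨q, hq⟩ := exists_nat_ge (2 / γ₀)
  set M := SzemerediRegularity.bound ε l with hM
  have hεle : ε ≤ 1 := by linarith
  have hθ1 : ε / (2 * ((M : ℝ) + 1)) ≤ 1 := by
    rw [div_le_one (by positivity)]
    linarith [Nat.cast_nonneg (α := ℝ) M]
  refine ⟨(ε / (2 * ((M : ℝ) + 1))) ^ r, max (l + 1) (q * M), by positivity, ?_, ?_⟩
  · exact pow_le_one₀ (by positivity) hθ1
  intro V ι _ _ _ _ p G hι hV
  have hV1 : l + 1 ≤ Fintype.card V := (le_max_left _ _).trans hV
  have hV2 : q * M ≤ Fintype.card V := (le_max_right _ _).trans hV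
  obtain ⟨P, hP1, hP2, hP3, hP4⟩ := szemeredi_regularity G hε0 (show l ≤ Fintype.card V by omega)
  have hVne : (univ : Finset V).Nonempty := by rw [← card_pos, card_univ]; omega
  have hm0 : (0 : ℝ) < Fintype.card V := by exact_mod_cast (show 0 < Fintype.card V by omega)
  have hparts : P.parts.Nonempty := P.parts_nonempty hVne.ne_empty
  have hQ : ∀ Q ∈ P.parts, 2 ≤ γ₀ * Q.card := by
    intro Q hQ
    have a1 := hP1.average_le_card_part hQ
    have a2 : q ≤ (univ : Finset V).card / P.parts.card := by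
      rw [Nat.le_div_iff_mul_le hparts.card_pos, card_univ]
      exact (Nat.mul_le_mul_left _ hP3).trans hV2
    have a3 : (q : ℝ) ≤ Q.card := by exact_mod_cast a2.trans a1
    rw [div_le_iff₀' hγ0] at hq
    exact hq.trans (mul_le_mul_of_nonneg_left a3 hγ0.le)
  set H₀ := redG G p P.part ε d with hH₀
  set Bad := univ.filter (fun x => e * Fintype.card V < ((nb H₀ x \ nb G x).card : ℝ)) with hBad
  have hBadc : (Bad.card : ℝ) ≤ e / 2 * Fintype.card V := by
    have a1 := red_count G p P hε0 hd0.le (e₁ := e ^ 2 / 3) (by positivity) hVne hP1 hP4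
      (hl.trans (by exact_mod_cast hP2))
    have a2 : (Bad.card : ℝ) * (e * Fintype.card V) ≤ ∑ x, ((nb H₀ x \ nb G x).card : ℝ) := by
      refine le_trans ?_ (sum_le_sum_of_subset_of_nonneg (subset_univ Bad)
        (fun _ _ _ => Nat.cast_nonneg _))
      rw [← nsmul_eq_mul, ← sum_const]
      exact sum_le_sum (fun x hx => (mem_filter.1 hx).2.le)
    have a3 := mul_le_mul_of_nonneg_right
      (show e ^ 2 / 3 / 2 + 4 * ε + d ≤ e ^ 2 / 2 by rw [hd]; linarith)
      (show (0 : ℝ) ≤ (Fintype.card V : ℝ) ^ 2 by positivity)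
    have a4 : (Bad.card : ℝ) * (e * Fintype.card V) ≤
        (e / 2 * Fintype.card V) * (e * Fintype.card V) := by linarith
    exact le_of_mul_le_mul_right a4 (by positivity)
  have hX : ∀ F, ((covX p P.part β F \ F).card : ℝ) ≤ e / 2 * Fintype.card V := by
    intro F
    have := covX_le p P hβ0.le F
    rwa [hι, hβr] at this
  have hpos : 0 ≤ e / 2 * Fintype.card V := by positivity
  refine ⟨restr H₀ (Bad ∪ covX p P.part β ∅)ᶜ, (Bad ∪ covX p P.part β ∅)ᶜ, covX p P.part β,
    fun x y h => ⟨h.1.1, h.2⟩, ?_, fun x hx => ?_, fun F => (hX F).trans (by linarith),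
    disjoint_left.2 (fun x hx hx' => mem_compl.1 hx (mem_union_right _ hx')), ?_⟩
  · rw [compl_compl]
    have a1 := hX ∅
    rw [sdiff_empty] at a1
    exact (cardR_union_le _ _).trans (by linarith)
  · have a1 : ¬ (e * Fintype.card V < ((nb H₀ x \ nb G x).card : ℝ)) := fun hh =>
      mem_compl.1 hx (mem_union_left _ (mem_filter.2 ⟨mem_univ _, hh⟩))
    refine le_trans (cardR_le (sdiff_subset_sdiff (fun y hy => ?_) subset_rfl)) (not_lt.1 a1)
    exact mem_nb.2 (mem_nb.1 hy).1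
  intro J F hIT
  obtain ⟨T, hT⟩ := hIT
  have hQp : ∀ i, P.part (T i) ∈ P.parts := fun i => P.part_mem.2 (mem_univ _)
  have hJr : J.card ≤ r := hι ▸ card_le_univ J
  have hsz : ∀ Q ∈ P.parts, ε / (2 * ((M : ℝ) + 1)) * Fintype.card V ≤ ε * Q.card := by
    intro Q hQm
    have a1 := hP1.average_le_card_part hQm
    have a2 : Fintype.card V < P.parts.card * (Fintype.card V / P.parts.card + 1) :=
      Nat.lt_mul_div_succ _ hparts.card_pos
    have a3 : 1 ≤ Q.card := (P.nonempty_of_mem_parts hQm).card_pos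
    rw [card_univ] at a1
    have a4 : Fintype.card V ≤ (M + 1) * (2 * Q.card) :=
      a2.le.trans (Nat.mul_le_mul (by omega) (by omega))
    have a5 : (Fintype.card V : ℝ) ≤ ((M : ℝ) + 1) * (2 * Q.card) := by exact_mod_cast a4
    rw [div_mul_eq_mul_div, div_le_iff₀ (by positivity)]
    have a6 := mul_le_mul_of_nonneg_left a5 hε0.le
    linarith
  have key := embed3 G J (fun i => P.part (T i)) hε0 hd1 hε1 (γ₀ := γ₀)
    (θ := ε / (2 * ((M : ℝ) + 1))) (by positivity) (by
      have : (J.card : ℝ) ≤ r := by exact_mod_cast hJr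
      nlinarith) hm0 (fun i _ => hsz _ (hQp i)) (fun i hi j hj hij => by
      have w2 := hT.2 i hi j hj hij
      have w3 := hT.1 i hi
      have w4 := hT.1 j hj
      by_contra hc
      refine w2 ⟨⟨by rw [w3.2, w4.2]; exact hij, Or.inr ?_⟩, (mem_sdiff.1 w3.1).1,
        (mem_sdiff.1 w4.1).1⟩
      by_contra hc'
      push Not at hc'
      exact hc hc') J subset_rfl β (fun i => pt p (P.part (T i)) {i} \ F) (by
      rw [hγ₀]
      exact mul_le_mul_of_nonneg_left (pow_le_pow_of_le_one (by positivity) (by linarith) hJr)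
        (by positivity)) (fun i hi => by
      refine ⟨sdiff_subset.trans (pt_subset _ _ _), ?_⟩
      obtain ⟨c1, c2⟩ := hT.1 i hi
      have c3 := (mem_sdiff.1 c1).2
      simp only [covX, mem_filter, mem_univ, true_and, not_lt] at c3
      rwa [c2] at c3)
  rw [hι] at key
  have a1 : (ε / (2 * ((M : ℝ) + 1))) ^ r ≤ (ε / (2 * ((M : ℝ) + 1))) ^ J.card :=
    pow_le_pow_of_le_one (by positivity) hθ1 hJr
  refine (mul_le_mul_of_nonneg_right a1 (by positivity)).trans (key.trans (cardR_le ?_))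
  intro S hS
  obtain ⟨b1, b2⟩ := (mem_filter.1 hS).2
  refine mem_its.2 ⟨fun i hi => ?_, b2⟩
  obtain ⟨b3, b4⟩ := mem_sdiff.1 (b1 i hi)
  exact ⟨mem_compl.2 b4, mem_singleton.1 (mem_pt.1 b3).2⟩

end Pool.Agent.MP_bc5f1c_co
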