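import Mathlib
import Pool.Agent.MP_bc5f1c_co.Ct1

/-!
The lower bound for the number of independent transversals.
-/

set_option autoImplicit false
set_option linter.unusedSectionVars false
set_option linter.unusedVariables false

open Finset

namespace Pool.Agent.MP_bc5f1c_co

theorem its_insert {V ι : Type*} [Fintype V] [DecidableEq V] [DecidableEq ι] [Fintype ι]
    {G : SimpleGraph V} {p : V → ι} {J : Finset ι} {F : Finset V} {i : ι} (hi : i ∉ J)
    (A : Finset V) (hA : ∀ v ∈ A, p v = i ∧ v ∉ F) {x : ℝ}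
    (h : ∀ v ∈ A, x ≤ (its G p J (nb G v ∪ F)).card) :
    A.card * x ≤ (its G p (insert i J) F).card * Fintype.card V := by
  have hne : ∀ j ∈ J, j ≠ i := fun j hj e => hi (e ▸ hj)
  refine le_trans ?_ (update_count i A (fun v => its G p J (nb G v ∪ F)) _ ?_)
  · rw [← nsmul_eq_mul, ← sum_const]
    exact sum_le_sum h
  · intro v hv T hT
    obtain ⟨b1, b2⟩ := mem_its.1 hT
    have b3 : ∀ k ∈ J, ¬ G.Adj v (T k) := fun k hk ha =>
      mem_compl.1 (b1 k hk).1 (mem_union_left _ (mem_nb.2 ha))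
    refine mem_its.2 ⟨fun k hk => ?_, fun k hk j hj hkj => ?_⟩
    · rcases mem_insert.1 hk with rfl | hk1
      · rw [Function.update_self]
        exact ⟨mem_compl.2 (hA v hv).2, (hA v hv).1⟩
      · rw [Function.update_of_ne (hne k hk1)]
        exact ⟨mem_compl.2 fun hh => mem_compl.1 (b1 k hk1).1 (mem_union_right _ hh),
          (b1 k hk1).2⟩
    · rcases mem_insert.1 hk with rfl | hk1 <;> rcases mem_insert.1 hj with rfl | hj1
      · exact absurd rfl hkj
      · rw [Function.update_self, Function.update_of_ne (hne j hj1)]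
        exact b3 j hj1
      · rw [Function.update_self, Function.update_of_ne (hne k hk1)]
        exact fun ha => b3 k hk1 ha.symm
      · rw [Function.update_of_ne (hne k hk1), Function.update_of_ne (hne j hj1)]
        exact b2 k hk1 j hj1 hkj

theorem count_lower (a : ℕ) (ha : 2 ≤ a) : ∃ c : ℝ, 0 < c ∧ ∃ n₀ : ℕ, ∀ n ≥ n₀,
    ∀ γ : ℝ, 0 < γ →
    ∀ (V ι : Type) [Fintype V] [DecidableEq V] [Fintype ι] [DecidableEq ι] (p : V → ι)
      (G : SimpleGraph V), Fintype.card ι = 2 * a + 1 → (∀ i, (pt p univ {i}).card = n) →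
      Deg G (a / (2 * a - 1) * n - γ) →
      c * γ ^ 2 * (Fintype.card V : ℝ) ^ (2 * a + 1) ≤
        (its G p univ ∅).card * (Fintype.card V : ℝ) ^ 2 := by
  classical
  have haR : (2 : ℝ) ≤ a := by exact_mod_cast ha
  obtain ⟨B, hB⟩ : ∃ B : ℝ, B = 10 * ((100 * a ^ 4 * (1 : ℕ)) ^ 8) ^ 2 * (10000 * a ^ 5) := ⟨_, rfl⟩
  have hB1 : 1 ≤ B := by
    have h1 : (1 : ℝ) ≤ 100 * a ^ 4 * (1 : ℕ) := by
      have := (lev haR (show (1 : ℝ) ≤ (1 : ℕ) by simp) zero_le_one (y := 100 * a ^ 4 * (1 : ℕ))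
        (by linarith)).1
      linarith
    have h2 : (1 : ℝ) ≤ ((100 * a ^ 4 * (1 : ℕ)) ^ 8) ^ 2 := one_le_pow₀ (one_le_pow₀ h1)
    have h3 : (1 : ℝ) ≤ a ^ 5 := one_le_pow₀ (by linarith)
    rw [hB]; nlinarith
  obtain ⟨e, he⟩ : ∃ e : ℝ, e = 1 / (B * ((2 * a + 1) * (2 * a - 1))) := ⟨_, rfl⟩
  have hd1 : (0 : ℝ) < 2 * a - 1 := by linarith
  have hd2 : (1 : ℝ) ≤ B * ((2 * a + 1) * (2 * a - 1)) :=
    one_le_mul_of_one_le_of_one_le hB1 (one_le_mul_of_one_le_of_one_le (by linarith) (by linarith))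
  have he0 : 0 < e := by rw [he]; positivity
  have he1 : e ≤ 1 := by rw [he, div_le_one (by positivity)]; exact hd2
  obtain ⟨c, m₀, hc0, hc1, hreg⟩ := regular3 (2 * a + 1) (by omega) e he0 he1
  refine ⟨c / (2 * a + 1) * (e / 3) ^ 2, by positivity, max m₀ 1, ?_⟩
  intro n hn γ hγ V ι _ _ _ _ p G hι hpart hdeg
  have hn0 : m₀ ≤ n := (le_max_left _ _).trans hn
  have hn2 : 1 ≤ n := (le_max_right _ _).trans hn
  have hnR : (1 : ℝ) ≤ n := by exact_mod_cast hn2
  have hV : (Fintype.card V : ℝ) = (2 * a + 1) * n := by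
    have h1 := card_pt_eq_sum p (univ : Finset V) (univ : Finset ι)
    have h2 : pt p (univ : Finset V) (univ : Finset ι) = univ := by ext x; simp
    simp only [h2, hpart, sum_const, card_univ, hι, nsmul_eq_mul] at h1
    rw [h1]; push_cast; ring
  have hVn : (n : ℝ) ≤ Fintype.card V := by rw [hV]; nlinarith
  have hV' : n ≤ Fintype.card V := by exact_mod_cast hVn
  have hVne : Nonempty V := Fintype.card_pos_iff.1 (by omega)
  obtain ⟨H, U, X, r1, r2, r3, r4, r5, r6⟩ := hreg V ι p G hι (hn0.trans hV')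
  have hn0' : (0 : ℝ) < n := by linarith
  have hV0 : (0 : ℝ) < Fintype.card V := by linarith
  have hγn : γ ≤ n := by
    obtain ⟨v⟩ := hVne
    have h1 := (Nat.cast_nonneg (α := ℝ) _).trans (hdeg v)
    have h2 : (a : ℝ) / (2 * a - 1) ≤ 1 := by
      rw [div_le_one hd1]
      linarith
    have h3 := mul_le_mul_of_nonneg_right h2 hn0'.le
    linarith
  obtain ⟨κ, hκ0, hκ1, hκ2, hκ3⟩ : ∃ κ : ℝ, 0 < κ ∧ 3 * κ ≤ γ ∧ κ ≤ e * n ∧ e / 3 * γ ≤ κ := by
    refine ⟨e / 3 * γ, by positivity, ?_, ?_, le_rfl⟩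
    · have := mul_le_mul_of_nonneg_right he1 hγ.le
      linarith
    · have := mul_le_mul_of_nonneg_left hγn he0.le
      have : 0 ≤ e * γ := by positivity
      linarith
  have hκV : κ ≤ Fintype.card V := by
    have := mul_le_mul_of_nonneg_right he1 hn0'.le
    linarith
  obtain ⟨Z, hZ⟩ : ∃ Z : ℝ, Z = c * (Fintype.card V : ℝ) ^ (2 * a + 1) := ⟨_, rfl⟩
  have hZ0 : 0 < Z := by rw [hZ]; positivity
  obtain ⟨k, hk⟩ : ∃ k : ℝ, k = κ / (2 * a + 1) := ⟨_, rfl⟩
  have hk0 : 0 < k := by rw [hk]; positivity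
  have hkκ : (2 * a + 1) * k = κ := by rw [hk]; field_simp
  have hkκ' : k ≤ κ := by nlinarith
  by_contra hno'
  have hno : ((its G p univ ∅).card : ℝ) * (Fintype.card V : ℝ) ^ 2 < κ * (k * Z) := by
    refine lt_of_lt_of_le (not_le.1 hno') ?_
    have h1 : (e / 3 * γ) ^ 2 ≤ κ ^ 2 := pow_le_pow_left₀ (by positivity) hκ3 2
    calc c / (2 * a + 1) * (e / 3) ^ 2 * γ ^ 2 * (Fintype.card V : ℝ) ^ (2 * a + 1)
        = (e / 3 * γ) ^ 2 * (Z / (2 * a + 1)) := by rw [hZ]; ring
      _ ≤ κ ^ 2 * (Z / (2 * a + 1)) := mul_le_mul_of_nonneg_right h1 (by positivity)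
      _ = κ * (k * Z) := by rw [hk]; ring
  have hcore : ∀ (J : Finset ι) (F : Finset V), RExt H p U (e * Fintype.card V) F J →
      Z ≤ (its G p J F).card := by
    intro J F h2
    rw [hZ]
    refine r6 J F ((h2 _ (r4 F)).mono ?_)
    rw [union_sdiff_self_eq_union]
    exact sdiff_subset_sdiff subset_rfl subset_union_right
  have hNn : (2 * a - 1) * (n / (2 * a - 1)) = (n : ℝ) := by field_simp
  have hdeg' : Deg G (a * (n / (2 * a - 1)) - γ) := by
    intro x
    have h1 := hdeg x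
    have h3 : (a : ℝ) / (2 * a - 1) * n = a * (n / (2 * a - 1)) := by ring
    linarith
  refine Reg.false (G := G) (H := H) (p := p) (U := U) (a := a) (s := 1) (N := n / (2 * a - 1))
    (ε := e * Fintype.card V) (γ := γ)
    (κ := κ) (τ := κ) ⟨⟨ha, hι, by positivity, by positivity, ?_, ?_, ?_,
      fun x y h => (r1 x y h).1, fun x y h => (r1 x y h).2.2, ?_⟩, le_rfl, hdeg', hκ0, le_rfl, hκ1,
      ?_, r3, ?_, ?_, ?_⟩ (by rw [hV]; positivity) ?_
  · intro x
    by_cases hx : x ∈ U
    · have h1 := cardR_sdiff_inter (nb H x) (nb G x)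
      have h2 : ((nb H x ∩ nb G x).card : ℝ) ≤ (nb G x).card := cardR_le inter_subset_right
      have := r3 x hx
      have := hdeg' x
      linarith
    · have : nb H x = ∅ := eq_empty_of_forall_notMem (fun y hy => hx (r1 x y (mem_nb.1 hy)).2.1)
      rw [this, card_empty, Nat.cast_zero]
      positivity
  · intro i
    have h1 : ((pt p univ {i}).card : ℝ) ≤ (pt p U {i}).card + (Uᶜ).card := by
      apply cardR_le_add
      intro x hx
      by_cases hc : x ∈ U
      · exact mem_union_left _ (mem_pt.2 ⟨hc, (mem_pt.1 hx).2⟩)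
      · exact mem_union_right _ (mem_compl.2 hc)
    rw [hpart] at h1
    rw [hNn]
    linarith
  · intro i
    rw [hNn, hpart]
  · intro hit
    have h1 := r6 univ ∅ (by rwa [sdiff_eq_self_of_disjoint r5])
    rw [← hZ] at h1
    have h2 : κ * k ≤ (Fintype.card V : ℝ) ^ 2 := by
      rw [sq]
      exact mul_le_mul hκV (hkκ'.trans hκV) hk0.le hV0.le
    have h3 := mul_le_mul h1 h2 (by positivity) (Nat.cast_nonneg _)
    linarith
  · have := mul_le_mul_of_nonneg_left hVn he0.le
    linarith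
  · intro i
    rw [hNn, hpart]
  · intro W hW
    by_contra hc
    obtain ⟨i, -, hi⟩ := exists_big_cell (p := p) (S := univ) (A := W) (m := k)
      (fun _ _ => mem_univ _) (by
        rw [card_univ, hι]
        push_cast
        linarith)
    have h1 := its_insert (G := G) (p := p) (F := ∅) (notMem_erase i univ) (pt p W {i})
      (fun v hv => ⟨(mem_pt1.1 hv).2, notMem_empty _⟩) (x := Z) (fun w hw => by
        rw [union_empty]
        refine hcore _ _ ?_
        have := hW w (mem_pt1.1 hw).1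
        rwa [(mem_pt1.1 hw).2] at this)
    rw [insert_erase (mem_univ _)] at h1
    have h2 := mul_le_mul_of_nonneg_right hi.le hZ0.le
    have h3 := mul_le_mul (h2.trans h1) hκV hκ0.le (by positivity)
    nlinarith only [h3, hno]
  · intro j W T hW hT hTc hext
    by_contra hc
    push Not at hc
    have h1 : ∀ x ∈ T, k * Z / Fintype.card V ≤ (its G p (univ.erase j) (nb G x ∪ ∅)).card := by
      intro x hx
      obtain ⟨i, -, hi⟩ := exists_big_cell (p := p) (S := univ) (A := W \ nb G x) (m := k)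
        (fun _ _ => mem_univ _) (by
          rw [card_univ, hι]
          push_cast
          linarith [hc x hx])
      have hij : i ≠ j := by
        obtain ⟨w, hw⟩ := nonempty_of_pos (hk0.trans hi)
        rw [← (mem_pt1.1 hw).2]
        exact hW _ (mem_sdiff.1 (mem_pt1.1 hw).1).1
      have h2 := its_insert (G := G) (p := p) (F := nb G x) (J := (univ.erase i).erase j) (i := i)
        (fun hh => notMem_erase i univ (mem_of_mem_erase hh)) (pt p (W \ nb G x) {i})
        (fun v hv => ⟨(mem_pt1.1 hv).2, (mem_sdiff.1 (mem_pt1.1 hv).1).2⟩) (x := Z)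
        (fun w hw => by
          refine hcore _ _ ?_
          have := hext w (mem_sdiff.1 (mem_pt1.1 hw).1).1 {x} (singleton_subset_iff.2 hx) (by simp)
          rwa [(mem_pt1.1 hw).2, singleton_biUnion] at this)
      rw [erase_right_comm, insert_erase (mem_erase.2 ⟨hij, mem_univ _⟩)] at h2
      rw [union_empty, div_le_iff₀ hV0]
      exact (mul_le_mul_of_nonneg_right hi.le hZ0.le).trans h2
    have h2 := its_insert (G := G) (p := p) (F := ∅) (notMem_erase j univ) T
      (fun v hv => ⟨hT v hv, notMem_empty _⟩) h1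
    rw [insert_erase (mem_univ _)] at h2
    have h3 := mul_le_mul_of_nonneg_right hTc (show 0 ≤ k * Z / Fintype.card V by positivity)
    have h4 := h3.trans h2
    rw [← mul_div_assoc, div_le_iff₀ hV0] at h4
    nlinarith only [h4, hno]
  · rw [hV, ← mul_assoc, ← mul_assoc, ← hB, he]
    apply le_of_eq
    field_simp

end Pool.Agent.MP_bc5f1c_co
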