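import Mathlib

/-!
An unbalanced bipartite graph without `K_{s,s}`: `w` vertices on one side, each with at least `w`
neighbours on the other side. Averaging over matrices and deletion.
-/

set_option autoImplicit false

namespace Pool.Agent.MP_bc5f1c_co.Low

open Finset

/-- The rows `X` of `f` agree in every column of `J`. -/
def Agree {k g : ℕ} (f : Fin k × Fin k → Fin g) (X J : Finset (Fin k)) : Prop :=
  ∀ x ∈ X, ∀ y ∈ X, ∀ j ∈ J, f (x, j) = f (y, j)

instance {k g : ℕ} (f : Fin k × Fin k → Fin g) (X J : Finset (Fin k)) :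
    Decidable (Agree f X J) := by unfold Agree; infer_instance

lemma card_agree {k g s : ℕ} (hs : 1 ≤ s) (X J : Finset (Fin k)) (hX : X.card = s)
    (hJ : J.card = s) :
    (univ.filter (fun f : Fin k × Fin k → Fin g => Agree f X J)).card * g ^ ((s - 1) * s)
      ≤ g ^ (k * k) := by
  classical
  obtain ⟨x0, hx0⟩ : X.Nonempty := card_pos.1 (by omega)
  set F : Finset (Fin k × Fin k) := (X.erase x0) ×ˢ J with hF
  have hFc : F.card = (s - 1) * s := by
    rw [hF, card_product, card_erase_of_mem hx0, hX, hJ]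
  have h1 : (univ.filter (fun f : Fin k × Fin k → Fin g => Agree f X J)).card
      ≤ Fintype.card ({p : Fin k × Fin k // p ∉ F} → Fin g) := by
    rw [← Finset.card_univ]
    refine card_le_card_of_injOn (fun f p => f p.1) (fun _ _ => mem_univ _) ?_
    intro f hf f' hf' h
    simp only [coe_filter, mem_univ, true_and, Set.mem_ofPred_eq] at hf hf'
    funext p
    by_cases hp : p ∈ F
    · obtain ⟨hp1, hp2⟩ := mem_product.1 hp
      have hn : (x0, p.2) ∉ F := by
        intro hh
        have := (mem_product.1 hh).1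
        simp at this
      have e1 := hf p.1 (mem_of_mem_erase hp1) x0 hx0 p.2 hp2
      have e2 := hf' p.1 (mem_of_mem_erase hp1) x0 hx0 p.2 hp2
      have e3 := congrFun h ⟨(x0, p.2), hn⟩
      simp only at e3
      calc f p = f (p.1, p.2) := rfl
        _ = f (x0, p.2) := e1
        _ = f' (x0, p.2) := e3
        _ = f' (p.1, p.2) := e2.symm
    · exact congrFun h ⟨p, hp⟩
  have h2 : Fintype.card {p : Fin k × Fin k // p ∉ F} = k * k - (s - 1) * s := by
    rw [Fintype.card_subtype_compl, Fintype.card_coe, hFc]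
    simp
  have h3 : (s - 1) * s ≤ k * k := by
    rw [← hFc]
    exact (card_le_univ F).trans (by simp)
  rw [Fintype.card_fun, Fintype.card_fin, h2] at h1
  calc _ ≤ g ^ (k * k - (s - 1) * s) * g ^ ((s - 1) * s) := Nat.mul_le_mul_right _ h1
    _ = g ^ (k * k) := by rw [← pow_add]; congr 1; omega

/-- The pairs (`s` rows, `s` columns) on which the rows agree. -/
def bad {k g : ℕ} (s : ℕ) (f : Fin k × Fin k → Fin g) :
    Finset (Finset (Fin k) × Finset (Fin k)) :=
  ((powersetCard s univ) ×ˢ (powersetCard s univ)).filter (fun p => Agree f p.1 p.2)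

lemma exists_few {k g s : ℕ} (hs : 1 ≤ s) (hg : 1 ≤ g) :
    ∃ f : Fin k × Fin k → Fin g, (bad s f).card * g ^ ((s - 1) * s) ≤ k ^ (2 * s) := by
  classical
  have : Nonempty (Fin g) := ⟨⟨0, hg⟩⟩
  have hne : (univ : Finset (Fin k × Fin k → Fin g)).Nonempty := univ_nonempty
  have key : ∑ f : Fin k × Fin k → Fin g, (bad s f).card * g ^ ((s - 1) * s)
      ≤ ∑ _f : Fin k × Fin k → Fin g, k ^ (2 * s) := by
    have e1 : ∑ f : Fin k × Fin k → Fin g, (bad s f).card
        = ∑ p ∈ (powersetCard s (univ : Finset (Fin k))) ×ˢ (powersetCard s univ),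
          (univ.filter (fun f : Fin k × Fin k → Fin g => Agree f p.1 p.2)).card := by
      simp only [bad, card_filter]
      exact sum_comm
    rw [← sum_mul, e1, sum_mul]
    have e2 : ∀ p ∈ (powersetCard s (univ : Finset (Fin k))) ×ˢ (powersetCard s univ),
        (univ.filter (fun f : Fin k × Fin k → Fin g => Agree f p.1 p.2)).card
          * g ^ ((s - 1) * s) ≤ g ^ (k * k) := by
      intro p hp
      obtain ⟨h1, h2⟩ := mem_product.1 hp
      exact card_agree hs p.1 p.2 (mem_powersetCard.1 h1).2 (mem_powersetCard.1 h2).2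
    refine (sum_le_card_nsmul _ _ _ e2).trans ?_
    rw [card_product, card_powersetCard, card_univ, Fintype.card_fin, sum_const, card_univ,
      Fintype.card_fun, Fintype.card_fin, Fintype.card_prod, Fintype.card_fin, smul_eq_mul,
      smul_eq_mul, mul_comm]
    refine Nat.mul_le_mul_left _ ?_
    have := Nat.choose_le_pow k s
    calc k.choose s * k.choose s ≤ k ^ s * k ^ s := Nat.mul_le_mul this this
      _ = k ^ (2 * s) := by rw [← pow_add]; congr 1; omega
  obtain ⟨f, -, hf⟩ := exists_le_of_sum_le hne key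
  exact ⟨f, hf⟩

lemma miss {V : Type*} [DecidableEq V] (W T : Finset V) (w g s : ℕ) (hs : 1 ≤ s) (hg : 1 ≤ g)
    (hW : W.card = w) (hT : 2 * w * g ≤ T.card)
    (hc : s ^ 2 * (2 * w) ^ (2 * s) ≤ w ^ 2 * g ^ ((s - 1) * s)) :
    ∃ M : V → Finset V, (∀ x ∈ W, M x ⊆ T ∧ w ≤ (M x).card) ∧
      ∀ X ⊆ W, X.card = s → ∀ Y : Finset V, Y.card = s → ¬ ∀ x ∈ X, Y ⊆ M x := by
  classical
  obtain ⟨f, hf⟩ := exists_few (k := 2 * w) hs hg
  set Del : Finset (Fin (2 * w) × Fin (2 * w)) := (bad s f).biUnion (fun p => p.1 ×ˢ p.2)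
    with hDel
  have hDc : Del.card ≤ w ^ 2 := by
    have h1 : Del.card ≤ (bad s f).card * s ^ 2 := by
      refine card_biUnion_le_card_mul _ _ _ ?_
      intro p hp
      obtain ⟨hp, -⟩ := mem_filter.1 hp
      obtain ⟨h1, h2⟩ := mem_product.1 hp
      rw [card_product, (mem_powersetCard.1 h1).2, (mem_powersetCard.1 h2).2, sq]
    have hpos : 0 < g ^ ((s - 1) * s) := by positivity
    refine h1.trans (Nat.le_of_mul_le_mul_right ?_ hpos)
    calc (bad s f).card * s ^ 2 * g ^ ((s - 1) * s)
        = s ^ 2 * ((bad s f).card * g ^ ((s - 1) * s)) := by ring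
      _ ≤ s ^ 2 * (2 * w) ^ (2 * s) := Nat.mul_le_mul_left _ hf
      _ ≤ _ := hc
  -- the good rows
  set del : Fin (2 * w) → Finset (Fin (2 * w)) := fun x => univ.filter (fun j => (x, j) ∈ Del)
    with hdel
  have hsum : ∑ x, (del x).card = Del.card := by
    rw [card_eq_sum_card_fiberwise (f := Prod.fst) (s := Del) (t := univ)
      (fun _ _ => mem_univ _)]
    refine sum_congr rfl fun x _ => ?_
    refine card_bij (fun j _ => (x, j)) ?_ ?_ ?_
    · intro j hj
      simp only [hdel, mem_filter, mem_univ, true_and] at hj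
      simp [hj]
    · intro j _ j' _ h
      simpa using h
    · intro p hp
      obtain ⟨hp1, hp2⟩ := mem_filter.1 hp
      refine ⟨p.2, ?_, ?_⟩
      · simp only [hdel, mem_filter, mem_univ, true_and]
        rw [← hp2]
        exact hp1
      · rw [← hp2]
  set good : Finset (Fin (2 * w)) := univ.filter (fun x => (del x).card ≤ w) with hgood
  have hgc : w ≤ good.card := by
    set nb : Finset (Fin (2 * w)) := univ.filter (fun x => ¬ (del x).card ≤ w) with hnb
    have h1 : good.card + nb.card = 2 * w := by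
      rw [hgood, hnb, card_filter_add_card_filter_not]
      simp
    have h2 : nb.card * (w + 1) ≤ w ^ 2 := by
      calc nb.card * (w + 1) = ∑ _x ∈ nb, (w + 1) := by simp
        _ ≤ ∑ x ∈ nb, (del x).card := by
          refine sum_le_sum fun x hx => ?_
          have := (mem_filter.1 hx).2
          omega
        _ ≤ ∑ x, (del x).card := sum_le_sum_of_subset (subset_univ _)
        _ ≤ w ^ 2 := by rw [hsum]; exact hDc
    by_contra hlt
    have h3 : w + 1 ≤ nb.card := by omega
    have h4 := Nat.mul_le_mul_right (w + 1) h3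
    nlinarith only [h2, h4]
  obtain ⟨ρ⟩ : Nonempty (W ↪ good) := by
    apply Function.Embedding.nonempty_of_card_le
    simp only [Fintype.card_coe]
    omega
  obtain ⟨τ⟩ : Nonempty (Fin (2 * w) × Fin g ↪ T) := by
    apply Function.Embedding.nonempty_of_card_le
    simp only [Fintype.card_coe, Fintype.card_prod, Fintype.card_fin]
    exact hT
  let row : Fin (2 * w) → Finset V := fun x =>
    (univ \ del x).image (fun j => (τ (j, f (x, j)) : V))
  refine ⟨fun v => if h : v ∈ W then row (ρ ⟨v, h⟩) else ∅, ?_, ?_⟩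
  · intro x hx
    simp only [dif_pos hx]
    constructor
    · intro y hy
      obtain ⟨j, -, rfl⟩ := mem_image.1 hy
      exact (τ _).2
    · rw [card_image_of_injective]
      · have h1 := (mem_filter.1 (ρ ⟨x, hx⟩).2).2
        rw [card_sdiff_of_subset (subset_univ _), card_univ, Fintype.card_fin]
        omega
      · intro j j' h
        have := τ.injective (Subtype.ext h)
        exact congrArg Prod.fst this
  · intro X hXW hX Y hY hall
    obtain ⟨x0, hx0⟩ : X.Nonempty := card_pos.1 (by omega)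
    obtain ⟨y0, hy0⟩ : Y.Nonempty := card_pos.1 (by omega)
    have hrow : ∀ x (hx : x ∈ X), ∀ y ∈ Y, ∃ j, j ∉ del (ρ ⟨x, hXW hx⟩) ∧
        (τ (j, f (ρ ⟨x, hXW hx⟩, j)) : V) = y := by
      intro x hx y hy
      have h1 := hall x hx hy
      simp only [dif_pos (hXW hx)] at h1
      obtain ⟨j, hj, e⟩ := mem_image.1 h1
      exact ⟨j, (mem_sdiff.1 hj).2, e⟩
    set X' : Finset (Fin (2 * w)) := X.attach.image (fun x => (ρ ⟨x.1, hXW x.2⟩ : Fin (2 * w)))
      with hX'
    set J : Finset (Fin (2 * w)) :=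
      univ.filter (fun j => (τ (j, f (ρ ⟨x0, hXW hx0⟩, j)) : V) ∈ Y) with hJ
    have hX'c : X'.card = s := by
      rw [hX', card_image_of_injective, card_attach, hX]
      intro x y h
      have := ρ.injective (Subtype.ext h)
      exact Subtype.ext (congrArg (fun z : W => z.1) this)
    have hJc : J.card = s := by
      rw [← hY]
      refine card_bij (fun j _ => (τ (j, f (ρ ⟨x0, hXW hx0⟩, j)) : V)) ?_ ?_ ?_
      · intro j hj
        exact (mem_filter.1 hj).2
      · intro j _ j' _ h
        have := τ.injective (Subtype.ext h)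
        exact congrArg Prod.fst this
      · intro y hy
        obtain ⟨j, -, e⟩ := hrow x0 hx0 y hy
        exact ⟨j, mem_filter.2 ⟨mem_univ _, by rw [e]; exact hy⟩, e⟩
    have hval : ∀ x (hx : x ∈ X), ∀ j ∈ J,
        f (ρ ⟨x, hXW hx⟩, j) = f (ρ ⟨x0, hXW hx0⟩, j) := by
      intro x hx j hj
      obtain ⟨j', -, e⟩ := hrow x hx _ (mem_filter.1 hj).2
      have h1 := τ.injective (Subtype.ext e)
      have h2 : j' = j := congrArg Prod.fst h1
      subst h2
      exact congrArg Prod.snd h1
    have hbad : (X', J) ∈ bad s f := by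
      refine mem_filter.2 ⟨mem_product.2 ⟨?_, ?_⟩, ?_⟩
      · exact mem_powersetCard.2 ⟨subset_univ _, hX'c⟩
      · exact mem_powersetCard.2 ⟨subset_univ _, hJc⟩
      · intro x hx y hy j hj
        obtain ⟨x1, -, rfl⟩ := mem_image.1 hx
        obtain ⟨y1, -, rfl⟩ := mem_image.1 hy
        rw [hval x1.1 x1.2 j hj, hval y1.1 y1.2 j hj]
    obtain ⟨j, hj, e⟩ := hrow x0 hx0 y0 hy0
    apply hj
    simp only [hdel, mem_filter, mem_univ, true_and]
    refine mem_biUnion.2 ⟨(X', J), hbad, mem_product.2 ⟨?_, ?_⟩⟩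
    · exact mem_image.2 ⟨⟨x0, hx0⟩, mem_attach _ _, rfl⟩
    · exact mem_filter.2 ⟨mem_univ _, by rw [e]; exact hy0⟩

end Pool.Agent.MP_bc5f1c_co.Low
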