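import Mathlib
import Pool.Agent.MP_bc5f1c_co.Low1

/-!
The graph without an `IT(s)`, from a labelling of the vertices by side, level and type.
-/

set_option autoImplicit false

namespace Pool.Agent.MP_bc5f1c_co.Low

open Finset

/-- The vertices with a given side, level and type. -/
def cls {V : Type} [Fintype V] (side isA : V → Bool) (lev : V → ℕ) (σ : Bool) (k : ℕ)
    (c : Bool) : Finset V :=
  univ.filter (fun x => side x = σ ∧ lev x = k ∧ isA x = c)

lemma mem_cls {V : Type} [Fintype V] {side isA : V → Bool} {lev : V → ℕ} {σ : Bool} {k : ℕ}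
    {c : Bool} {x : V} : x ∈ cls side isA lev σ k c ↔ side x = σ ∧ lev x = k ∧ isA x = c := by
  simp [cls]

theorem build {V P : Type} [Fintype V] [DecidableEq V] [DecidableEq P] (part : V → P)
    (side isA : V → Bool) (lev : V → ℕ) (b s w g D : ℕ) (hs : 1 ≤ s) (hg : 1 ≤ g)
    (hc : s ^ 2 * (2 * w) ^ (2 * s) ≤ w ^ 2 * g ^ ((s - 1) * s))
    (mid : P) (pt : Bool → ℕ → P)
    (h1 : ∀ x, part x = mid → isA x = true ∧ lev x = b)
    (h0 : ∀ σ x, part x = pt σ 0 → side x = σ ∧ isA x = false ∧ lev x ≤ b)
    (h2 : ∀ σ j x, j < b → part x = pt σ (j + 1) → side x = σ ∧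
      ((isA x = true ∧ lev x = j) ∨ (isA x = false ∧ lev x = j + 1)))
    (h3 : ∀ x y, part x = part y → isA x = true → isA y = false → lev x ≠ lev y)
    (h4 : ∀ x y, part x = part y → isA x = false → isA y = false → side x = side y)
    (cA : ∀ σ k, k ≠ b → (cls side isA lev σ k true).card ≤ D)
    (cM : ∀ σ, (cls side isA lev σ b true).card + w ≤ D)
    (cB : ∀ σ k, k ≠ b → (cls side isA lev σ k false).card ≤ D)
    (cR : ∀ σ, (cls side isA lev σ b false).card ≤ D + w)
    (cR' : ∀ σ, w + 2 * w * g ≤ (cls side isA lev σ b false).card) :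
    ∃ G : SimpleGraph V, (∀ x y, part x = part y → ¬ G.Adj x y) ∧
      (∀ x (N : Finset V), (∀ y ∈ N, G.Adj x y) → N.card ≤ D) ∧
      ¬ ∃ I : Finset V, G.IsIndepSet (I : Set V) ∧
        ∀ p, (I.filter (fun x => part x = p)).card = s := by
  classical
  have hW : ∀ σ, ∃ W ⊆ cls side isA lev σ b false, W.card = w := fun σ =>
    exists_subset_card_eq (le_trans (Nat.le_add_right _ _) (cR' σ))
  choose W hWs hWc using hW
  have hWm : ∀ σ x, x ∈ W σ → side x = σ ∧ lev x = b ∧ isA x = false := fun σ x hx =>
    mem_cls.1 (hWs σ hx)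
  have hM : ∀ σ, ∃ M : V → Finset V,
      (∀ x ∈ W σ, M x ⊆ cls side isA lev (!σ) b false \ W (!σ) ∧ w ≤ (M x).card) ∧
      ∀ X ⊆ W σ, X.card = s → ∀ Y : Finset V, Y.card = s → ¬ ∀ x ∈ X, Y ⊆ M x := by
    intro σ
    refine miss _ _ w g s hs hg (hWc σ) ?_ hc
    rw [card_sdiff_of_subset (hWs _), hWc]
    have := cR' (!σ)
    omega
  choose M hM1 hM2 using hM
  let rel : V → V → Prop := fun x y =>
    (side x = side y ∧ lev x = lev y ∧ isA x = true ∧ isA y = false ∧ y ∉ W (side y)) ∨
      (x ∈ W (side x) ∧ y ∈ cls side isA lev (!side x) b false ∧ y ∉ M (side x) x)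
  have hne : ∀ x y, rel x y → part x ≠ part y := by
    intro x y h e
    rcases h with ⟨-, h2', h3', h4', -⟩ | ⟨hx, hy, -⟩
    · exact h3 x y e h3' h4' h2'
    · have e1 := h4 x y e (hWm _ x hx).2.2 (mem_cls.1 hy).2.2
      have e2 := (mem_cls.1 hy).1
      rw [← e1] at e2
      simp at e2
  have hadj : ∀ x y, rel x y → (SimpleGraph.fromRel rel).Adj x y := by
    intro x y h
    rw [SimpleGraph.fromRel_adj]
    exact ⟨fun e => hne x y h (by rw [e]), Or.inl h⟩
  refine ⟨SimpleGraph.fromRel rel, ?_, ?_, ?_⟩
  · intro x y e h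
    rw [SimpleGraph.fromRel_adj] at h
    rcases h.2 with h | h
    · exact hne x y h e
    · exact hne y x h e.symm
  · intro x N hN
    have hN' : ∀ y ∈ N, rel x y ∨ rel y x := fun y hy =>
      ((SimpleGraph.fromRel_adj _ _ _).1 (hN y hy)).2
    cases hA : isA x with
    | true =>
      have hsub : N ⊆ cls side isA lev (side x) (lev x) false \ W (side x) := by
        intro y hy
        rcases hN' y hy with (⟨e1, e2, -, e4, e5⟩ | ⟨e1, -, -⟩) | (⟨-, -, -, e4, -⟩ | ⟨-, e2, -⟩)
        · exact mem_sdiff.2 ⟨mem_cls.2 ⟨e1.symm, e2.symm, e4⟩, by rw [e1]; exact e5⟩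
        · have := (hWm _ x e1).2.2
          rw [hA] at this
          cases this
        · rw [hA] at e4
          cases e4
        · have := (mem_cls.1 e2).2.2
          rw [hA] at this
          cases this
      refine (card_le_card hsub).trans ?_
      by_cases hl : lev x = b
      · rw [hl, card_sdiff_of_subset (hWs _), hWc]
        have := cR (side x)
        omega
      · exact (card_le_card sdiff_subset).trans (cB _ _ hl)
    | false =>
      by_cases hx : x ∈ W (side x)
      · have hsub : N ⊆ cls side isA lev (!side x) b false \ M (side x) x := by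
          intro y hy
          rcases hN' y hy with (⟨-, -, e3, -, -⟩ | ⟨-, e2, e3⟩) |
            (⟨-, -, -, -, e5⟩ | ⟨e1, e2, -⟩)
          · rw [hA] at e3
            cases e3
          · exact mem_sdiff.2 ⟨e2, e3⟩
          · exact absurd hx e5
          · have e3 : side y = !side x := by rw [(mem_cls.1 e2).1]; simp
            rw [e3] at e1
            exact mem_sdiff.2 ⟨hWs _ e1, fun h => (mem_sdiff.1 ((hM1 _ x hx).1 h)).2 e1⟩
        refine (card_le_card hsub).trans ?_
        rw [card_sdiff_of_subset ((hM1 _ x hx).1.trans sdiff_subset)]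
        have e1 := cR (!side x)
        have e2 := (hM1 _ x hx).2
        omega
      · have hsub : ∀ y ∈ N, y ∈ cls side isA lev (side x) (lev x) true ∨
            (lev x = b ∧ y ∈ W (!side x)) := by
          intro y hy
          rcases hN' y hy with (⟨-, -, e3, -, -⟩ | ⟨e1, -, -⟩) |
            (⟨e1, e2, e3, -, -⟩ | ⟨e1, e2, -⟩)
          · rw [hA] at e3
            cases e3
          · exact absurd e1 hx
          · exact Or.inl (mem_cls.2 ⟨e1, e2, e3⟩)
          · have e3 : side y = !side x := by rw [(mem_cls.1 e2).1]; simp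
            rw [e3] at e1
            exact Or.inr ⟨(mem_cls.1 e2).2.1, e1⟩
        by_cases hl : lev x = b
        · have h5 : N ⊆ cls side isA lev (side x) b true ∪ W (!side x) := by
            intro y hy
            rcases hsub y hy with h | h
            · rw [hl] at h
              exact mem_union_left _ h
            · exact mem_union_right _ h.2
          refine (card_le_card h5).trans ((card_union_le _ _).trans ?_)
          rw [hWc]
          exact cM _
        · have h5 : N ⊆ cls side isA lev (side x) (lev x) true := by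
            intro y hy
            rcases hsub y hy with h | h
            · exact h
            · exact absurd h.1 hl
          exact (card_le_card h5).trans (cA _ _ hl)
  · rintro ⟨I, hI, hIc⟩
    have hnr : ∀ x ∈ I, ∀ y ∈ I, ¬ rel x y := by
      intro x hx y hy h
      exact hI (mem_coe.2 hx) (mem_coe.2 hy) (hadj x y h).ne (hadj x y h)
    have claim : ∀ τ, s ≤ (I ∩ cls side isA lev τ b false).card := by
      intro τ
      by_contra hlt
      have hit : ∀ p, ∃ x ∈ I, part x = p ∧ x ∉ cls side isA lev τ b false := by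
        intro p
        by_contra hno
        have hsub : I.filter (fun x => part x = p) ⊆ I ∩ cls side isA lev τ b false := by
          intro x hx
          obtain ⟨hx1, hx2⟩ := mem_filter.1 hx
          refine mem_inter.2 ⟨hx1, ?_⟩
          by_contra hx3
          exact hno ⟨x, hx1, hx2, hx3⟩
        have := card_le_card hsub
        rw [hIc] at this
        exact hlt this
      have down : ∀ d k, k + d = b → ∀ y ∈ I, y ∉ cls side isA lev τ b false →
          y ∉ cls side isA lev τ k false := by
        intro d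
        induction d with
        | zero =>
          intro k hk y _ hy
          have : k = b := by omega
          rw [this]
          exact hy
        | succ d ih =>
          intro k hk y hy _ hyk
          obtain ⟨x, hx, hxp, hxn⟩ := hit (pt τ (k + 1))
          obtain ⟨e1, e2 | e2⟩ := h2 τ k x (by omega) hxp
          · obtain ⟨f1, f2, f3⟩ := mem_cls.1 hyk
            refine hnr x hx y hy (Or.inl ⟨by rw [e1, f1], by rw [e2.2, f2], e2.1, f3, ?_⟩)
            intro hw
            have := (hWm _ y hw).2.1
            omega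
          · exact ih (k + 1) (by omega) x hx hxn (mem_cls.2 ⟨e1, e2.2, e2.1⟩)
      obtain ⟨x, hx, hxp, hxn⟩ := hit (pt τ 0)
      obtain ⟨e1, e2, e3⟩ := h0 τ x hxp
      exact down (b - lev x) (lev x) (by omega) x hx hxn (mem_cls.2 ⟨e1, rfl, e2⟩)
    obtain ⟨z, hz⟩ : (I.filter (fun x => part x = mid)).Nonempty :=
      card_pos.1 (by rw [hIc]; omega)
    obtain ⟨hzI, hzp⟩ := mem_filter.1 hz
    obtain ⟨hzA, hzl⟩ := h1 z hzp
    obtain ⟨X, hXs, hXc⟩ := exists_subset_card_eq (claim (side z))
    obtain ⟨Y, hYs, hYc⟩ := exists_subset_card_eq (claim (!side z))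
    have hXW : X ⊆ W (side z) := by
      intro x hx
      obtain ⟨hxI, hxc⟩ := mem_inter.1 (hXs hx)
      obtain ⟨f1, f2, f3⟩ := mem_cls.1 hxc
      by_contra hw
      exact hnr z hzI x hxI (Or.inl ⟨f1.symm, by rw [hzl, f2], hzA, f3, by rw [f1]; exact hw⟩)
    refine hM2 (side z) X hXW hXc Y hYc ?_
    intro x hx y hy
    obtain ⟨hxI, hxc⟩ := mem_inter.1 (hXs hx)
    obtain ⟨hyI, hyc⟩ := mem_inter.1 (hYs hy)
    have f1 := (mem_cls.1 hxc).1
    by_contra hm
    exact hnr x hxI y hyI (Or.inr ⟨by rw [f1]; exact hXW hx, by rw [f1]; exact hyc,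
      by rw [f1]; exact hm⟩)

end Pool.Agent.MP_bc5f1c_co.Low
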