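import Mathlib
import Pool.Agent.MP_bc5f1c_co.Low2

/-!
The explicit labelling of `Fin (2b+3) × Fin n` and the sizes of its classes.
-/

set_option autoImplicit false

namespace Pool.Agent.MP_bc5f1c_co.Low

open Finset

/-- The vertices of part `p` with index in `[lo, hi)`. -/
def seg (r n p lo hi : ℕ) : Finset (Fin r × Fin n) :=
  univ.filter (fun x => x.1.val = p ∧ lo ≤ x.2.val ∧ x.2.val < hi)

lemma mem_seg {r n p lo hi : ℕ} {x : Fin r × Fin n} :
    x ∈ seg r n p lo hi ↔ x.1.val = p ∧ lo ≤ x.2.val ∧ x.2.val < hi := by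
  simp [seg]

lemma seg_le (r n p lo hi : ℕ) : (seg r n p lo hi).card ≤ hi - lo := by
  rw [← Nat.card_Ico]
  refine card_le_card_of_injOn (fun x => x.2.val) ?_ ?_
  · intro x hx
    have := mem_seg.1 (mem_coe.1 hx)
    exact mem_coe.2 (mem_Ico.2 this.2)
  · intro x hx y hy h
    have e1 := (mem_seg.1 (mem_coe.1 hx)).1
    have e2 := (mem_seg.1 (mem_coe.1 hy)).1
    exact Prod.ext (Fin.ext (e1.trans e2.symm)) (Fin.ext h)

lemma seg_ge (r n p lo hi : ℕ) (hp : p < r) (hh : hi ≤ n) :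
    hi - lo ≤ (seg r n p lo hi).card := by
  rw [← Nat.card_Ico]
  refine card_le_card_of_surjOn (fun x => x.2.val) ?_
  intro i hi'
  have := mem_Ico.1 (mem_coe.1 hi')
  exact ⟨(⟨p, hp⟩, ⟨i, by omega⟩), mem_coe.2 (mem_seg.2 ⟨rfl, this.1, this.2⟩), rfl⟩

/-- The number of the part with side `σ` and position `j`. -/
def code (σ : Bool) (j : ℕ) : ℕ := if σ = true then 2 * j + 1 else 2 * j + 2

def sideF (r n : ℕ) (x : Fin r × Fin n) : Bool :=
  if x.1.val = 0 then decide (2 * x.2.val < n) else decide (x.1.val % 2 = 1)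

def isAF (r n D : ℕ) (x : Fin r × Fin n) : Bool :=
  decide (x.1.val = 0 ∨ ((x.1.val - 1) / 2 ≠ 0 ∧ x.2.val < D))

def levF (r n D q b : ℕ) (x : Fin r × Fin n) : ℕ :=
  if x.1.val = 0 then b else if D ≤ x.2.val then (x.1.val - 1) / 2
  else if (x.1.val - 1) / 2 ≠ 0 then (x.1.val - 1) / 2 - 1 else min b (x.2.val / q)

lemma code_of {r n : ℕ} {x : Fin r × Fin n} {σ : Bool} (h0 : x.1.val ≠ 0)
    (h : sideF r n x = σ) : x.1.val = code σ ((x.1.val - 1) / 2) := by
  unfold sideF at h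
  rw [if_neg h0] at h
  unfold code
  cases σ
  · simp only [decide_eq_false_iff_not] at h
    simp only [Bool.false_eq_true, if_false]
    omega
  · simp only [decide_eq_true_eq] at h
    simp only [if_true]
    omega

lemma of_code {r n : ℕ} {x : Fin r × Fin n} {σ : Bool} {j : ℕ} (h : x.1.val = code σ j) :
    x.1.val ≠ 0 ∧ sideF r n x = σ ∧ (x.1.val - 1) / 2 = j := by
  unfold code at h
  cases σ
  · simp only [Bool.false_eq_true, if_false] at h
    refine ⟨by omega, ?_, by omega⟩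
    unfold sideF
    rw [if_neg (by omega)]
    simp only [decide_eq_false_iff_not]
    omega
  · simp only [if_true] at h
    refine ⟨by omega, ?_, by omega⟩
    unfold sideF
    rw [if_neg (by omega)]
    simp only [decide_eq_true_eq]
    omega

lemma code_lt (σ : Bool) {j b : ℕ} (h : j ≤ b) : code σ j < 2 * b + 3 := by
  unfold code
  split_ifs <;> omega

lemma caseA {r n D q b : ℕ} {x : Fin r × Fin n} (h : isAF r n D x = true) :
    (x.1.val = 0 ∧ levF r n D q b x = b) ∨
      (x.1.val ≠ 0 ∧ x.2.val < D ∧ levF r n D q b x + 1 = (x.1.val - 1) / 2) := by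
  unfold isAF at h
  simp only [decide_eq_true_eq] at h
  unfold levF
  by_cases h0 : x.1.val = 0
  · left
    exact ⟨h0, by rw [if_pos h0]⟩
  · right
    have h1 := h.resolve_left h0
    refine ⟨h0, h1.2, ?_⟩
    rw [if_neg h0, if_neg (by omega), if_pos h1.1]
    omega

lemma caseB {r n D q b : ℕ} {x : Fin r × Fin n} (h : isAF r n D x = false) :
    x.1.val ≠ 0 ∧ ((D ≤ x.2.val ∧ levF r n D q b x = (x.1.val - 1) / 2) ∨
      (x.2.val < D ∧ (x.1.val - 1) / 2 = 0 ∧ levF r n D q b x = min b (x.2.val / q))) := by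
  unfold isAF at h
  simp only [decide_eq_false_iff_not] at h
  have h0 : x.1.val ≠ 0 := fun e => h (Or.inl e)
  refine ⟨h0, ?_⟩
  unfold levF
  by_cases h1 : D ≤ x.2.val
  · left
    exact ⟨h1, by rw [if_neg h0, if_pos h1]⟩
  · right
    have h2 : (x.1.val - 1) / 2 = 0 := by
      by_contra h3
      exact h (Or.inr ⟨h3, by omega⟩)
    exact ⟨by omega, h2, by rw [if_neg h0, if_neg h1, if_neg (by omega)]⟩

theorem model (b s w g D q n : ℕ) (hs : 1 ≤ s) (hg : 1 ≤ g)
    (hc : s ^ 2 * (2 * w) ^ (2 * s) ≤ w ^ 2 * g ^ ((s - 1) * s))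
    (hq : 0 < q) (hqD : q + n = 2 * D) (h1 : 2 * (b * q) + q ≤ n)
    (h2 : n ≤ 2 * (b * q) + q + 2 * w) (h3 : (n + 1) / 2 + w ≤ D) (h4 : w + 2 * w * g ≤ D) :
    ∃ G : SimpleGraph (Fin (2 * b + 3) × Fin n), (∀ x y, x.1 = y.1 → ¬ G.Adj x y) ∧
      (∀ x (N : Finset (Fin (2 * b + 3) × Fin n)), (∀ y ∈ N, G.Adj x y) → N.card ≤ D) ∧
      ¬ ∃ I : Finset (Fin (2 * b + 3) × Fin n), G.IsIndepSet (I : Set _) ∧
        ∀ p, (I.filter (fun x => x.1 = p)).card = s := by
  have hcode : ∀ σ j, j ≤ b → ∀ x : Fin (2 * b + 3) × Fin n,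
      x.1 = (⟨code σ (min j b), code_lt σ (min_le_right _ _)⟩ : Fin (2 * b + 3)) →
      x.1.val = code σ j := by
    intro σ j hj x hx
    rw [hx]
    show code σ (min j b) = code σ j
    rw [min_eq_left hj]
  refine build Prod.fst (sideF _ n) (isAF _ n D) (levF _ n D q b) b s w g D hs hg hc
    ⟨0, by omega⟩ (fun σ j => ⟨code σ (min j b), code_lt σ (min_le_right _ _)⟩)
    ?_ ?_ ?_ ?_ ?_ ?_ ?_ ?_ ?_ ?_
  · intro x hx
    have h0 : x.1.val = 0 := by rw [hx]
    constructor
    · simp [isAF, h0]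
    · simp [levF, h0]
  · intro σ x hx
    obtain ⟨e1, e2, e3⟩ := of_code (hcode σ 0 (Nat.zero_le _) x hx)
    have hA : isAF _ n D x = false := by simp [isAF, e1, e3]
    refine ⟨e2, hA, ?_⟩
    rcases (caseB (q := q) (b := b) hA).2 with h | h
    · omega
    · rw [h.2.2]
      exact min_le_left _ _
  · intro σ j x hj hx
    obtain ⟨e1, e2, e3⟩ := of_code (hcode σ (j + 1) hj x hx)
    refine ⟨e2, ?_⟩
    cases hA : isAF _ n D x with
    | true =>
      left
      rcases caseA (q := q) (b := b) hA with h | h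
      · exact absurd h.1 e1
      · exact ⟨rfl, by omega⟩
    | false =>
      right
      rcases (caseB (q := q) (b := b) hA).2 with h | h
      · exact ⟨rfl, by omega⟩
      · omega
  · intro x y e hx hy
    have e' : x.1.val = y.1.val := by rw [e]
    obtain ⟨f0, f1⟩ := caseB (q := q) (b := b) hy
    rcases caseA (q := q) (b := b) hx with h | h
    · omega
    · rcases f1 with f1 | f1 <;> omega
  · intro x y e hx hy
    have e' : x.1.val = y.1.val := by rw [e]
    have f0 := (caseB (q := q) (b := b) hx).1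
    have f1 := (caseB (q := q) (b := b) hy).1
    unfold sideF
    rw [if_neg f0, if_neg f1, e']
  · intro σ k hk
    refine le_trans (card_le_card ?_) ((seg_le _ n (code σ (k + 1)) 0 D).trans (by omega))
    intro x hx
    obtain ⟨e1, e2, e3⟩ := mem_cls.1 hx
    rcases caseA (q := q) (b := b) e3 with h | h
    · omega
    · have := code_of h.1 e1
      rw [← h.2.2, e2] at this
      exact mem_seg.2 ⟨this, Nat.zero_le _, h.2.1⟩
  · intro σ
    have hz : ∀ x ∈ cls (sideF (2 * b + 3) n) (isAF _ n D) (levF _ n D q b) σ b true,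
        x.1.val = 0 ∧ decide (2 * x.2.val < n) = σ := by
      intro x hx
      obtain ⟨e1, e2, e3⟩ := mem_cls.1 hx
      have hlt := x.1.2
      rcases caseA (q := q) (b := b) e3 with h | h
      · refine ⟨h.1, ?_⟩
        unfold sideF at e1
        rwa [if_pos h.1] at e1
      · omega
    cases σ
    · have := card_le_card (t := seg _ n 0 ((n + 1) / 2) n) (fun x hx => by
        obtain ⟨e1, e2⟩ := hz x hx
        simp only [decide_eq_false_iff_not] at e2
        exact mem_seg.2 ⟨e1, by omega, x.2.2⟩)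
      have e := seg_le (2 * b + 3) n 0 ((n + 1) / 2) n
      omega
    · have := card_le_card (t := seg _ n 0 0 ((n + 1) / 2)) (fun x hx => by
        obtain ⟨e1, e2⟩ := hz x hx
        simp only [decide_eq_true_eq] at e2
        exact mem_seg.2 ⟨e1, by omega, by omega⟩)
      have e := seg_le (2 * b + 3) n 0 0 ((n + 1) / 2)
      omega
  · intro σ k hk
    have hsub : cls (sideF (2 * b + 3) n) (isAF _ n D) (levF _ n D q b) σ k false ⊆
        seg _ n (code σ k) D n ∪ seg _ n (code σ 0) (k * q) (k * q + q) := by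
      intro x hx
      obtain ⟨e1, e2, e3⟩ := mem_cls.1 hx
      obtain ⟨f0, f1⟩ := caseB (q := q) (b := b) e3
      have hc' := code_of f0 e1
      rcases f1 with f1 | f1
      · rw [← f1.2, e2] at hc'
        exact mem_union_left _ (mem_seg.2 ⟨hc', f1.1, x.2.2⟩)
      · rw [f1.2.1] at hc'
        have hk' : x.2.val / q = k := by omega
        refine mem_union_right _ (mem_seg.2 ⟨hc', ?_, ?_⟩)
        · rw [← hk']
          exact Nat.div_mul_le_self _ _
        · rw [← hk']
          have := Nat.lt_div_mul_add (a := x.2.val) hq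
          exact this
    have e0 := (card_le_card hsub).trans (card_union_le _ _)
    have e1 := seg_le (2 * b + 3) n (code σ k) D n
    have e2 := seg_le (2 * b + 3) n (code σ 0) (k * q) (k * q + q)
    omega
  · intro σ
    have hsub : cls (sideF (2 * b + 3) n) (isAF _ n D) (levF _ n D q b) σ b false ⊆
        seg _ n (code σ b) D n ∪ seg _ n (code σ 0) (b * q) D := by
      intro x hx
      obtain ⟨e1, e2, e3⟩ := mem_cls.1 hx
      obtain ⟨f0, f1⟩ := caseB (q := q) (b := b) e3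
      have hc' := code_of f0 e1
      rcases f1 with f1 | f1
      · rw [← f1.2, e2] at hc'
        exact mem_union_left _ (mem_seg.2 ⟨hc', f1.1, x.2.2⟩)
      · rw [f1.2.1] at hc'
        have hk' : b ≤ x.2.val / q := by omega
        exact mem_union_right _ (mem_seg.2 ⟨hc', (Nat.le_div_iff_mul_le hq).1 hk', f1.1⟩)
    have e0 := (card_le_card hsub).trans (card_union_le _ _)
    have e1 := seg_le (2 * b + 3) n (code σ b) D n
    have e2 := seg_le (2 * b + 3) n (code σ 0) (b * q) D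
    omega
  · intro σ
    have hsub : seg _ n (code σ b) D n ∪ seg _ n (code σ 0) (b * q) D ⊆
        cls (sideF (2 * b + 3) n) (isAF _ n D) (levF _ n D q b) σ b false := by
      intro x hx
      rcases mem_union.1 hx with hx | hx
      · obtain ⟨e1, e2, -⟩ := mem_seg.1 hx
        obtain ⟨f0, f1, f2⟩ := of_code e1
        have hA : isAF _ n D x = false := by
          unfold isAF
          simp only [decide_eq_false_iff_not]
          omega
        refine mem_cls.2 ⟨f1, ?_, hA⟩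
        rcases (caseB (q := q) (b := b) hA).2 with h | h <;> omega
      · obtain ⟨e1, e2, e3⟩ := mem_seg.1 hx
        obtain ⟨f0, f1, f2⟩ := of_code e1
        have hA : isAF _ n D x = false := by
          unfold isAF
          simp only [decide_eq_false_iff_not]
          omega
        refine mem_cls.2 ⟨f1, ?_, hA⟩
        have hk' : b ≤ x.2.val / q := (Nat.le_div_iff_mul_le hq).2 e2
        rcases (caseB (q := q) (b := b) hA).2 with h | h <;> omega
    have hdis : Disjoint (seg (2 * b + 3) n (code σ b) D n)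
        (seg (2 * b + 3) n (code σ 0) (b * q) D) := by
      rw [disjoint_left]
      intro x hx hy
      have e1 := mem_seg.1 hx
      have e2 := mem_seg.1 hy
      omega
    have e0 := card_le_card hsub
    rw [card_union_of_disjoint hdis] at e0
    have e1 := seg_ge (2 * b + 3) n (code σ b) D n (code_lt σ le_rfl) le_rfl
    have e2 := seg_ge (2 * b + 3) n (code σ 0) (b * q) D (code_lt σ (Nat.zero_le _)) (by omega)
    omega

lemma exists_root (C k n : ℕ) (hC : 0 < C) (hk : 0 < k) :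
    ∃ u : ℕ, C * u ^ k ≤ n ∧ n < C * (u + 1) ^ k := by
  induction n with
  | zero => exact ⟨0, by simp [hk.ne'], by simpa using hC⟩
  | succ n ih =>
    obtain ⟨u, h1, h2⟩ := ih
    by_cases h : n + 1 < C * (u + 1) ^ k
    · exact ⟨u, by omega, h⟩
    · refine ⟨u + 1, by omega, ?_⟩
      have h3 : (u + 1) ^ k < (u + 1 + 1) ^ k := Nat.pow_lt_pow_left (by omega) hk.ne'
      have h4 : C * (u + 1) ^ k < C * (u + 1 + 1) ^ k := Nat.mul_lt_mul_of_pos_left h3 hC
      omega

/-- Choice of the parameters. -/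
theorem lower (b s : ℕ) (hs : 2 ≤ s) :
    ∃ C n₀ : ℕ, 0 < C ∧ ∀ n, n₀ ≤ n → ∃ u D : ℕ, n ≤ (C * u) ^ (s + 2) ∧
      (2 * b + 1) * (2 * D) + u ^ s ≤ (2 * b + 2) * n ∧
      ∃ G : SimpleGraph (Fin (2 * b + 3) × Fin n), (∀ x y, x.1 = y.1 → ¬ G.Adj x y) ∧
      (∀ x (N : Finset (Fin (2 * b + 3) × Fin n)), (∀ y ∈ N, G.Adj x y) → N.card ≤ D) ∧
      ¬ ∃ I : Finset (Fin (2 * b + 3) × Fin n), G.IsIndepSet (I : Set _) ∧
        ∀ p, (I.filter (fun x => x.1 = p)).card = s := by
  set C : ℕ := 6 * b + 5 + 2 * (1 + 2 * (4 * s)) with hC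
  have hC0 : 0 < C := by omega
  refine ⟨2 * C, C * (4 * b + 2) ^ (s + 2), by omega, fun n hn => ?_⟩
  obtain ⟨u, hu1, hu2⟩ := exists_root C (s + 2) n hC0 (by omega)
  have hu : 4 * b + 2 ≤ u := by
    have h1 : (4 * b + 2) ^ (s + 2) < (u + 1) ^ (s + 2) :=
      Nat.lt_of_mul_lt_mul_left (lt_of_le_of_lt hn hu2)
    have := lt_of_pow_lt_pow_left₀ _ (Nat.zero_le _) h1
    omega
  set w : ℕ := u ^ s with hw
  have hwu : u ≤ w := Nat.le_self_pow (by omega) u
  set y : ℕ := u ^ (s + 2) with hy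
  have hyw : y = w * u ^ 2 := by rw [hy, hw, pow_add]
  have hu2' : 1 ≤ u ^ 2 := Nat.one_le_pow _ _ (by omega)
  have hwy : w ≤ y := by rw [hyw]; exact Nat.le_mul_of_pos_right _ hu2'
  have hbw : b * w ≤ b * y := Nat.mul_le_mul_left _ hwy
  have hCy : C * y = 6 * (b * y) + 7 * y + 16 * (s * y) := by rw [hC]; ring
  set q0 : ℕ := (n - 2 * w) / (2 * b + 1) + 1 with hq0
  have hq1 : (2 * b + 1) * q0 ≤ n - 2 * w + (2 * b + 1) := by
    rw [hq0, mul_add, mul_one]
    exact Nat.add_le_add_right (Nat.mul_div_le _ _) _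
  have hq2 : n - 2 * w < (2 * b + 1) * q0 := Nat.lt_mul_div_succ _ (by omega)
  have hq3 : 2 * w + 1 ≤ q0 := by
    have h1 : (2 * b + 1) * (2 * w + 1) ≤ (2 * b + 1) * q0 := by
      have e : (2 * b + 1) * (2 * w + 1) = 4 * (b * w) + 2 * b + 2 * w + 1 := by ring
      have e2 : b ≤ b * w := Nat.le_mul_of_pos_right _ (by omega)
      omega
    exact Nat.le_of_mul_le_mul_left h1 (by omega)
  obtain ⟨q, D, hqa, hqb, hqD⟩ : ∃ q D : ℕ, q0 ≤ q ∧ q ≤ q0 + 1 ∧ q + n = 2 * D :=
    ⟨q0 + (n + q0) % 2, (q0 + (n + q0) % 2 + n) / 2, by omega, by omega, by omega⟩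
  have m1 : b * q0 ≤ b * q := Nat.mul_le_mul_left _ hqa
  have m2 : b * q ≤ b * q0 + b := by
    calc b * q ≤ b * (q0 + 1) := Nat.mul_le_mul_left _ hqb
      _ = b * q0 + b := by ring
  have m3 : (2 * b + 1) * q0 = 2 * (b * q0) + q0 := by ring
  refine ⟨u, D, ?_, ?_, model b s w (4 * s * u ^ 2) D q n (by omega) ?_ ?_ (by omega) hqD
    (by omega) (by omega) (by omega) ?_⟩
  · have h1 : (u + 1) ^ (s + 2) ≤ (2 * u) ^ (s + 2) := Nat.pow_le_pow_left (by omega) _
    have h2 : C ≤ C ^ (s + 2) := Nat.le_self_pow (by omega) C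
    calc n ≤ C * (u + 1) ^ (s + 2) := hu2.le
      _ ≤ C ^ (s + 2) * (2 * u) ^ (s + 2) := Nat.mul_le_mul h2 h1
      _ = (2 * C * u) ^ (s + 2) := by rw [← mul_pow]; congr 1; ring
  · rw [← hqD]
    have e1 : (2 * b + 1) * (q + n) = 2 * (b * q) + q + (2 * (b * n) + n) := by ring
    have e2 : (2 * b + 2) * n = 2 * (b * n) + 2 * n := by ring
    omega
  · exact Nat.mul_pos (by omega) hu2'
  · obtain ⟨m, rfl⟩ : ∃ m, s = m + 2 := ⟨s - 2, by omega⟩
    have e0 : m + 2 - 1 = m + 1 := by omega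
    rw [e0, hw]
    have e1 : (m + 2) ^ 2 * (2 * u ^ (m + 2)) ^ (2 * (m + 2))
        = ((m + 2) ^ 2 * 4 ^ (m + 2)) * u ^ (2 * (m + 2) * (m + 2)) := by
      rw [mul_pow, ← pow_mul, pow_mul 2 2 (m + 2)]
      ring
    have e2 : (u ^ (m + 2)) ^ 2 * (4 * (m + 2) * u ^ 2) ^ ((m + 1) * (m + 2))
        = (4 * (m + 2)) ^ ((m + 1) * (m + 2)) * u ^ (2 * (m + 2) * (m + 2)) := by
      rw [mul_pow (4 * (m + 2)), ← pow_mul, ← pow_mul, mul_left_comm, ← pow_add]
      congr 2
      ring
    rw [e1, e2]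
    refine Nat.mul_le_mul_right _ ?_
    calc (m + 2) ^ 2 * 4 ^ (m + 2) ≤ (m + 2) ^ (m + 2) * 4 ^ (m + 2) :=
          Nat.mul_le_mul_right _ (Nat.pow_le_pow_right (by omega) (by omega))
      _ = (4 * (m + 2)) ^ (m + 2) := by rw [mul_pow, mul_comm]
      _ ≤ _ := Nat.pow_le_pow_right (by omega) (Nat.le_mul_of_pos_left _ (by omega))
  · have e : 2 * w * (4 * s * u ^ 2) = 8 * (s * y) := by rw [hyw]; ring
    omega

end Pool.Agent.MP_bc5f1c_co.Low
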