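import Mathlib
import Pool.Agent.MP_bc5f1c_co.Low3

/-!
A graph with few independent transversals.
-/

set_option autoImplicit false

namespace Pool.Agent.MP_bc5f1c_co.Low

open Finset

theorem build3 {V P : Type} [Fintype V] [DecidableEq V] [DecidableEq P] (part : V → P)
    (side isA : V → Bool) (lev : V → ℕ) (b w D : ℕ)
    (mid : P) (pt : Bool → ℕ → P)
    (h1 : ∀ x, part x = mid → isA x = true ∧ lev x = b)
    (h0 : ∀ σ x, part x = pt σ 0 → side x = σ ∧ isA x = false ∧ lev x ≤ b)
    (h2 : ∀ σ j x, j < b → part x = pt σ (j + 1) → side x = σ ∧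
      ((isA x = true ∧ lev x = j) ∨ (isA x = false ∧ lev x = j + 1)))
    (h3 : ∀ x y, part x = part y → isA x = true → isA y = false → lev x ≠ lev y)
    (h4 : ∀ x y, part x = part y → isA x = false → isA y = false → side x = side y)
    (cA : ∀ σ k, k ≠ b → (cls side isA lev σ k true).card ≤ D)
    (cM : ∀ σ, (cls side isA lev σ b true).card + w ≤ D)
    (cB : ∀ σ k, k ≠ b → (cls side isA lev σ k false).card ≤ D)
    (cR : ∀ σ, (cls side isA lev σ b false).card ≤ D + w)
    (cR' : ∀ σ, w + w ≤ (cls side isA lev σ b false).card) :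
    ∃ G : SimpleGraph V, (∀ x y, part x = part y → ¬ G.Adj x y) ∧
      (∀ x (N : Finset V), (∀ y ∈ N, G.Adj x y) → N.card ≤ D) ∧
      ∃ E : Finset (V × V), E.card ≤ 2 * w ^ 2 ∧ ∀ T : P → V, (∀ p, part (T p) = p) →
        (∀ p p', ¬ G.Adj (T p) (T p')) → ∃ p p', p ≠ p' ∧ (T p, T p') ∈ E := by
  classical
  have hW : ∀ σ, ∃ W ⊆ cls side isA lev σ b false, W.card = w := fun σ =>
    exists_subset_card_eq (le_trans (Nat.le_add_right _ _) (cR' σ))
  choose W hWs hWc using hW
  have hWm : ∀ σ x, x ∈ W σ → side x = σ ∧ lev x = b ∧ isA x = false := fun σ x hx =>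
    mem_cls.1 (hWs σ hx)
  have hM : ∀ σ, ∃ M₀ ⊆ cls side isA lev (!σ) b false \ W (!σ), M₀.card = w := by
    intro σ
    refine exists_subset_card_eq ?_
    rw [card_sdiff_of_subset (hWs _), hWc]
    have := cR' (!σ)
    omega
  choose M₀ hM₀ hM₀c using hM
  let M : Bool → V → Finset V := fun σ _ => M₀ σ
  have hM1 : ∀ σ, ∀ x ∈ W σ,
      M σ x ⊆ cls side isA lev (!σ) b false \ W (!σ) ∧ w ≤ (M σ x).card :=
    fun σ _ _ => ⟨hM₀ σ, (hM₀c σ).ge⟩
  let rel : V → V → Prop := fun x y =>
    (side x = side y ∧ lev x = lev y ∧ isA x = true ∧ isA y = false ∧ y ∉ W (side y)) ∨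
      (x ∈ W (side x) ∧ y ∈ cls side isA lev (!side x) b false ∧ y ∉ M (side x) x)
  have hne : ∀ x y, rel x y → part x ≠ part y := by
    intro x y h e
    rcases h with ⟨-, h2', h3', h4', -⟩ | ⟨hx, hy, -⟩
    · exact h3 x y e h3' h4' h2'
    · have e1 := h4 x y e (hWm _ x hx).2.2 (mem_cls.1 hy).2.2
      have e2 := (mem_cls.1 hy).1
      rw [← e1] at e2
      simp at e2
  have hadj : ∀ x y, rel x y → (SimpleGraph.fromRel rel).Adj x y := by
    intro x y h
    rw [SimpleGraph.fromRel_adj]
    exact ⟨fun e => hne x y h (by rw [e]), Or.inl h⟩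
  refine ⟨SimpleGraph.fromRel rel, ?_, ?_, ?_⟩
  · intro x y e h
    rw [SimpleGraph.fromRel_adj] at h
    rcases h.2 with h | h
    · exact hne x y h e
    · exact hne y x h e.symm
  · intro x N hN
    have hN' : ∀ y ∈ N, rel x y ∨ rel y x := fun y hy =>
      ((SimpleGraph.fromRel_adj _ _ _).1 (hN y hy)).2
    cases hA : isA x with
    | true =>
      have hsub : N ⊆ cls side isA lev (side x) (lev x) false \ W (side x) := by
        intro y hy
        rcases hN' y hy with (⟨e1, e2, -, e4, e5⟩ | ⟨e1, -, -⟩) | (⟨-, -, -, e4, -⟩ | ⟨-, e2, -⟩)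
        · exact mem_sdiff.2 ⟨mem_cls.2 ⟨e1.symm, e2.symm, e4⟩, by rw [e1]; exact e5⟩
        · have := (hWm _ x e1).2.2
          rw [hA] at this
          cases this
        · rw [hA] at e4
          cases e4
        · have := (mem_cls.1 e2).2.2
          rw [hA] at this
          cases this
      refine (card_le_card hsub).trans ?_
      by_cases hl : lev x = b
      · rw [hl, card_sdiff_of_subset (hWs _), hWc]
        have := cR (side x)
        omega
      · exact (card_le_card sdiff_subset).trans (cB _ _ hl)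
    | false =>
      by_cases hx : x ∈ W (side x)
      · have hsub : N ⊆ cls side isA lev (!side x) b false \ M (side x) x := by
          intro y hy
          rcases hN' y hy with (⟨-, -, e3, -, -⟩ | ⟨-, e2, e3⟩) |
            (⟨-, -, -, -, e5⟩ | ⟨e1, e2, -⟩)
          · rw [hA] at e3
            cases e3
          · exact mem_sdiff.2 ⟨e2, e3⟩
          · exact absurd hx e5
          · have e3 : side y = !side x := by rw [(mem_cls.1 e2).1]; simp
            rw [e3] at e1
            exact mem_sdiff.2 ⟨hWs _ e1, fun h => (mem_sdiff.1 ((hM1 _ x hx).1 h)).2 e1⟩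
        refine (card_le_card hsub).trans ?_
        rw [card_sdiff_of_subset ((hM1 _ x hx).1.trans sdiff_subset)]
        have e1 := cR (!side x)
        have e2 := (hM1 _ x hx).2
        omega
      · have hsub : ∀ y ∈ N, y ∈ cls side isA lev (side x) (lev x) true ∨
            (lev x = b ∧ y ∈ W (!side x)) := by
          intro y hy
          rcases hN' y hy with (⟨-, -, e3, -, -⟩ | ⟨e1, -, -⟩) |
            (⟨e1, e2, e3, -, -⟩ | ⟨e1, e2, -⟩)
          · rw [hA] at e3
            cases e3
          · exact absurd e1 hx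
          · exact Or.inl (mem_cls.2 ⟨e1, e2, e3⟩)
          · have e3 : side y = !side x := by rw [(mem_cls.1 e2).1]; simp
            rw [e3] at e1
            exact Or.inr ⟨(mem_cls.1 e2).2.1, e1⟩
        by_cases hl : lev x = b
        · have h5 : N ⊆ cls side isA lev (side x) b true ∪ W (!side x) := by
            intro y hy
            rcases hsub y hy with h | h
            · rw [hl] at h
              exact mem_union_left _ h
            · exact mem_union_right _ h.2
          refine (card_le_card h5).trans ((card_union_le _ _).trans ?_)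
          rw [hWc]
          exact cM _
        · have h5 : N ⊆ cls side isA lev (side x) (lev x) true := by
            intro y hy
            rcases hsub y hy with h | h
            · exact h
            · exact absurd h.1 hl
          exact (card_le_card h5).trans (cA _ _ hl)
  · refine ⟨W true ×ˢ M₀ true ∪ W false ×ˢ M₀ false, ?_, fun T hT hI => ?_⟩
    · refine (card_union_le _ _).trans ?_
      rw [card_product, card_product, hWc, hWc, hM₀c, hM₀c, sq]
      omega
    have hnr : ∀ p p', ¬ rel (T p) (T p') := fun p p' h => hI p p' (hadj _ _ h)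
    have claim : ∀ τ, ∃ p, T p ∈ cls side isA lev τ b false := by
      intro τ
      by_contra hno
      have down : ∀ d k, k + d = b → ∀ p, T p ∉ cls side isA lev τ k false := by
        intro d
        induction d with
        | zero =>
          intro k hk p hp
          have : k = b := by omega
          rw [this] at hp
          exact hno ⟨p, hp⟩
        | succ d ih =>
          intro k hk p hyk
          obtain ⟨e1, e2 | e2⟩ := h2 τ k (T (pt τ (k + 1))) (by omega) (hT _)
          · obtain ⟨f1, f2, f3⟩ := mem_cls.1 hyk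
            refine hnr (pt τ (k + 1)) p
              (Or.inl ⟨by rw [e1, f1], by rw [e2.2, f2], e2.1, f3, ?_⟩)
            intro hw
            have := (hWm _ _ hw).2.1
            omega
          · exact ih (k + 1) (by omega) _ (mem_cls.2 ⟨e1, e2.2, e2.1⟩)
      obtain ⟨e1, e2, e3⟩ := h0 τ (T (pt τ 0)) (hT _)
      exact down (b - lev (T (pt τ 0))) _ (by omega) _ (mem_cls.2 ⟨e1, rfl, e2⟩)
    obtain ⟨hzA, hzl⟩ := h1 (T mid) (hT _)
    obtain ⟨p, hp⟩ := claim (side (T mid))
    obtain ⟨p', hp'⟩ := claim (!side (T mid))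
    obtain ⟨f1, f2, f3⟩ := mem_cls.1 hp
    have hpW : T p ∈ W (side (T mid)) := by
      by_contra hw
      exact hnr mid p (Or.inl ⟨f1.symm, by rw [hzl, f2], hzA, f3, by rw [f1]; exact hw⟩)
    have hpM : T p' ∈ M₀ (side (T mid)) := by
      by_contra hm
      exact hnr p p' (Or.inr ⟨by rw [f1]; exact hpW, by rw [f1]; exact hp',
        by rw [f1]; exact hm⟩)
    refine ⟨p, p', fun e => ?_, ?_⟩
    · have e2 := (mem_cls.1 hp').1
      rw [← e, f1] at e2
      simp at e2
    · cases hσ : side (T mid) with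
      | true =>
        rw [hσ] at hpW hpM
        exact mem_union_left _ (mem_product.2 ⟨hpW, hpM⟩)
      | false =>
        rw [hσ] at hpW hpM
        exact mem_union_right _ (mem_product.2 ⟨hpW, hpM⟩)

theorem model3 (b w D q n : ℕ)
    (hq : 0 < q) (hqD : q + n = 2 * D) (h1 : 2 * (b * q) + q ≤ n)
    (h2 : n ≤ 2 * (b * q) + q + 2 * w) (h3 : (n + 1) / 2 + w ≤ D) (h4 : w + w ≤ D) :
    ∃ G : SimpleGraph (Fin (2 * b + 3) × Fin n), (∀ x y, x.1 = y.1 → ¬ G.Adj x y) ∧
      (∀ x (N : Finset (Fin (2 * b + 3) × Fin n)), (∀ y ∈ N, G.Adj x y) → N.card ≤ D) ∧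
      ∃ E : Finset ((Fin (2 * b + 3) × Fin n) × (Fin (2 * b + 3) × Fin n)),
        E.card ≤ 2 * w ^ 2 ∧ ∀ T : Fin (2 * b + 3) → Fin (2 * b + 3) × Fin n,
        (∀ p, (T p).1 = p) →
        (∀ p p', ¬ G.Adj (T p) (T p')) → ∃ p p', p ≠ p' ∧ (T p, T p') ∈ E := by
  have hcode : ∀ σ j, j ≤ b → ∀ x : Fin (2 * b + 3) × Fin n,
      x.1 = (⟨code σ (min j b), code_lt σ (min_le_right _ _)⟩ : Fin (2 * b + 3)) →
      x.1.val = code σ j := by
    intro σ j hj x hx
    rw [hx]
    show code σ (min j b) = code σ j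
    rw [min_eq_left hj]
  refine build3 Prod.fst (sideF _ n) (isAF _ n D) (levF _ n D q b) b w D
    ⟨0, by omega⟩ (fun σ j => ⟨code σ (min j b), code_lt σ (min_le_right _ _)⟩)
    ?_ ?_ ?_ ?_ ?_ ?_ ?_ ?_ ?_ ?_
  · intro x hx
    have h0 : x.1.val = 0 := by rw [hx]
    constructor
    · simp [isAF, h0]
    · simp [levF, h0]
  · intro σ x hx
    obtain ⟨e1, e2, e3⟩ := of_code (hcode σ 0 (Nat.zero_le _) x hx)
    have hA : isAF _ n D x = false := by simp [isAF, e1, e3]
    refine ⟨e2, hA, ?_⟩
    rcases (caseB (q := q) (b := b) hA).2 with h | h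
    · omega
    · rw [h.2.2]
      exact min_le_left _ _
  · intro σ j x hj hx
    obtain ⟨e1, e2, e3⟩ := of_code (hcode σ (j + 1) hj x hx)
    refine ⟨e2, ?_⟩
    cases hA : isAF _ n D x with
    | true =>
      left
      rcases caseA (q := q) (b := b) hA with h | h
      · exact absurd h.1 e1
      · exact ⟨rfl, by omega⟩
    | false =>
      right
      rcases (caseB (q := q) (b := b) hA).2 with h | h
      · exact ⟨rfl, by omega⟩
      · omega
  · intro x y e hx hy
    have e' : x.1.val = y.1.val := by rw [e]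
    obtain ⟨f0, f1⟩ := caseB (q := q) (b := b) hy
    rcases caseA (q := q) (b := b) hx with h | h
    · omega
    · rcases f1 with f1 | f1 <;> omega
  · intro x y e hx hy
    have e' : x.1.val = y.1.val := by rw [e]
    have f0 := (caseB (q := q) (b := b) hx).1
    have f1 := (caseB (q := q) (b := b) hy).1
    unfold sideF
    rw [if_neg f0, if_neg f1, e']
  · intro σ k hk
    refine le_trans (card_le_card ?_) ((seg_le _ n (code σ (k + 1)) 0 D).trans (by omega))
    intro x hx
    obtain ⟨e1, e2, e3⟩ := mem_cls.1 hx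
    rcases caseA (q := q) (b := b) e3 with h | h
    · omega
    · have := code_of h.1 e1
      rw [← h.2.2, e2] at this
      exact mem_seg.2 ⟨this, Nat.zero_le _, h.2.1⟩
  · intro σ
    have hz : ∀ x ∈ cls (sideF (2 * b + 3) n) (isAF _ n D) (levF _ n D q b) σ b true,
        x.1.val = 0 ∧ decide (2 * x.2.val < n) = σ := by
      intro x hx
      obtain ⟨e1, e2, e3⟩ := mem_cls.1 hx
      have hlt := x.1.2
      rcases caseA (q := q) (b := b) e3 with h | h
      · refine ⟨h.1, ?_⟩
        unfold sideF at e1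
        rwa [if_pos h.1] at e1
      · omega
    cases σ
    · have := card_le_card (t := seg _ n 0 ((n + 1) / 2) n) (fun x hx => by
        obtain ⟨e1, e2⟩ := hz x hx
        simp only [decide_eq_false_iff_not] at e2
        exact mem_seg.2 ⟨e1, by omega, x.2.2⟩)
      have e := seg_le (2 * b + 3) n 0 ((n + 1) / 2) n
      omega
    · have := card_le_card (t := seg _ n 0 0 ((n + 1) / 2)) (fun x hx => by
        obtain ⟨e1, e2⟩ := hz x hx
        simp only [decide_eq_true_eq] at e2
        exact mem_seg.2 ⟨e1, by omega, by omega⟩)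
      have e := seg_le (2 * b + 3) n 0 0 ((n + 1) / 2)
      omega
  · intro σ k hk
    have hsub : cls (sideF (2 * b + 3) n) (isAF _ n D) (levF _ n D q b) σ k false ⊆
        seg _ n (code σ k) D n ∪ seg _ n (code σ 0) (k * q) (k * q + q) := by
      intro x hx
      obtain ⟨e1, e2, e3⟩ := mem_cls.1 hx
      obtain ⟨f0, f1⟩ := caseB (q := q) (b := b) e3
      have hc' := code_of f0 e1
      rcases f1 with f1 | f1
      · rw [← f1.2, e2] at hc'
        exact mem_union_left _ (mem_seg.2 ⟨hc', f1.1, x.2.2⟩)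
      · rw [f1.2.1] at hc'
        have hk' : x.2.val / q = k := by omega
        refine mem_union_right _ (mem_seg.2 ⟨hc', ?_, ?_⟩)
        · rw [← hk']
          exact Nat.div_mul_le_self _ _
        · rw [← hk']
          have := Nat.lt_div_mul_add (a := x.2.val) hq
          exact this
    have e0 := (card_le_card hsub).trans (card_union_le _ _)
    have e1 := seg_le (2 * b + 3) n (code σ k) D n
    have e2 := seg_le (2 * b + 3) n (code σ 0) (k * q) (k * q + q)
    omega
  · intro σ
    have hsub : cls (sideF (2 * b + 3) n) (isAF _ n D) (levF _ n D q b) σ b false ⊆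
        seg _ n (code σ b) D n ∪ seg _ n (code σ 0) (b * q) D := by
      intro x hx
      obtain ⟨e1, e2, e3⟩ := mem_cls.1 hx
      obtain ⟨f0, f1⟩ := caseB (q := q) (b := b) e3
      have hc' := code_of f0 e1
      rcases f1 with f1 | f1
      · rw [← f1.2, e2] at hc'
        exact mem_union_left _ (mem_seg.2 ⟨hc', f1.1, x.2.2⟩)
      · rw [f1.2.1] at hc'
        have hk' : b ≤ x.2.val / q := by omega
        exact mem_union_right _ (mem_seg.2 ⟨hc', (Nat.le_div_iff_mul_le hq).1 hk', f1.1⟩)
    have e0 := (card_le_card hsub).trans (card_union_le _ _)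
    have e1 := seg_le (2 * b + 3) n (code σ b) D n
    have e2 := seg_le (2 * b + 3) n (code σ 0) (b * q) D
    omega
  · intro σ
    have hsub : seg _ n (code σ b) D n ∪ seg _ n (code σ 0) (b * q) D ⊆
        cls (sideF (2 * b + 3) n) (isAF _ n D) (levF _ n D q b) σ b false := by
      intro x hx
      rcases mem_union.1 hx with hx | hx
      · obtain ⟨e1, e2, -⟩ := mem_seg.1 hx
        obtain ⟨f0, f1, f2⟩ := of_code e1
        have hA : isAF _ n D x = false := by
          unfold isAF
          simp only [decide_eq_false_iff_not]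
          omega
        refine mem_cls.2 ⟨f1, ?_, hA⟩
        rcases (caseB (q := q) (b := b) hA).2 with h | h <;> omega
      · obtain ⟨e1, e2, e3⟩ := mem_seg.1 hx
        obtain ⟨f0, f1, f2⟩ := of_code e1
        have hA : isAF _ n D x = false := by
          unfold isAF
          simp only [decide_eq_false_iff_not]
          omega
        refine mem_cls.2 ⟨f1, ?_, hA⟩
        have hk' : b ≤ x.2.val / q := (Nat.le_div_iff_mul_le hq).2 e2
        rcases (caseB (q := q) (b := b) hA).2 with h | h <;> omega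
    have hdis : Disjoint (seg (2 * b + 3) n (code σ b) D n)
        (seg (2 * b + 3) n (code σ 0) (b * q) D) := by
      rw [disjoint_left]
      intro x hx hy
      have e1 := mem_seg.1 hx
      have e2 := mem_seg.1 hy
      omega
    have e0 := card_le_card hsub
    rw [card_union_of_disjoint hdis] at e0
    have e1 := seg_ge (2 * b + 3) n (code σ b) D n (code_lt σ le_rfl) le_rfl
    have e2 := seg_ge (2 * b + 3) n (code σ 0) (b * q) D (code_lt σ (Nat.zero_le _)) (by omega)
    omega

lemma two_fixed {r n : ℕ} (S : Finset (Fin r → Fin n)) {i j : Fin r} (hij : i ≠ j)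
    (u v : Fin n) (h : ∀ T ∈ S, T i = u ∧ T j = v) : S.card * n ^ 2 ≤ n ^ r := by
  classical
  have h1 : (S ×ˢ (univ : Finset (Fin n × Fin n))).card ≤
      (univ : Finset (Fin r → Fin n)).card := by
    refine card_le_card_of_injOn
      (fun z => Function.update (Function.update z.1 i z.2.1) j z.2.2) (fun _ _ => mem_univ _) ?_
    rintro ⟨T, x, y⟩ hz ⟨T', x', y'⟩ hz' e
    have a1 := h T (mem_product.1 (mem_coe.1 hz)).1
    have a2 := h T' (mem_product.1 (mem_coe.1 hz')).1
    have e1 : x = x' := by simpa [hij] using congrFun e i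
    have e2 : y = y' := by simpa using congrFun e j
    have e3 : T = T' := by
      funext k
      by_cases hk : k = i
      · rw [hk, a1.1, a2.1]
      · by_cases hk' : k = j
        · rw [hk', a1.2, a2.2]
        · simpa [hk, hk'] using congrFun e k
    rw [e1, e2, e3]
  simpa [sq] using h1

open Classical in
theorem few (b D n w : ℕ) (hw : (2 * b + 1) * D + w = (b + 1) * n)
    (hn : (6 * b + 5) * w ≤ n) (hw1 : 1 ≤ w) :
    ∃ G : SimpleGraph (Fin (2 * b + 3) × Fin n), (∀ x y, x.1 = y.1 → ¬ G.Adj x y) ∧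
      (∀ x (N : Finset (Fin (2 * b + 3) × Fin n)), (∀ y ∈ N, G.Adj x y) → N.card ≤ D) ∧
      (univ.filter (fun T : Fin (2 * b + 3) → Fin n =>
        ∀ i j, ¬ G.Adj (i, T i) (j, T j))).card * n ^ 2 ≤ 2 * w ^ 2 * n ^ (2 * b + 3) := by
  have e0 : (6 * b + 5) * w = 6 * (b * w) + 5 * w := by ring
  have e1 : b ≤ b * w := Nat.le_mul_of_pos_right _ hw1
  have hq : n + 2 * w + 1 ≤ 2 * D := by
    refine Nat.le_of_mul_le_mul_left ?_ (show 0 < 2 * b + 1 by omega)
    have a1 : (2 * b + 1) * (n + 2 * w + 1)
        = 2 * (b * n) + n + 4 * (b * w) + 2 * w + 2 * b + 1 := by ring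
    have a2 : (2 * b + 1) * (2 * D) = 2 * ((2 * b + 1) * D) := by ring
    have a3 : (b + 1) * n = b * n + n := by ring
    omega
  obtain ⟨q, hqD⟩ : ∃ q, q + n = 2 * D := ⟨2 * D - n, by omega⟩
  have key : 2 * (b * q) + q + 2 * w = n := by
    have a1 : (2 * b + 1) * (q + n) = 2 * ((2 * b + 1) * D) := by rw [hqD]; ring
    have a2 : (2 * b + 1) * (q + n) = 2 * (b * q) + q + (2 * (b * n) + n) := by ring
    have a3 : (b + 1) * n = b * n + n := by ring
    omega
  obtain ⟨G, g1, g2, E, hE, g3⟩ := model3 b w D q n (by omega) hqD (by omega) (by omega)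
    (by omega) (by omega)
  refine ⟨G, g1, g2, ?_⟩
  set S := univ.filter (fun T : Fin (2 * b + 3) → Fin n => ∀ i j, ¬ G.Adj (i, T i) (j, T j))
    with hS
  let cell : (Fin (2 * b + 3) × Fin n) × (Fin (2 * b + 3) × Fin n) →
      Finset (Fin (2 * b + 3) → Fin n) := fun z =>
    univ.filter (fun T => z.1.1 ≠ z.2.1 ∧ T z.1.1 = z.1.2 ∧ T z.2.1 = z.2.2)
  have hsub : S ⊆ E.biUnion cell := by
    intro T hT
    obtain ⟨p, p', h1, h2⟩ := g3 (fun i => (i, T i)) (fun _ => rfl) (mem_filter.1 hT).2
    exact mem_biUnion.2 ⟨_, h2, mem_filter.2 ⟨mem_univ _, h1, rfl, rfl⟩⟩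
  have hcell : ∀ z ∈ E, (cell z).card * n ^ 2 ≤ n ^ (2 * b + 3) := by
    intro z _
    by_cases hz : z.1.1 = z.2.1
    · have : cell z = ∅ := eq_empty_of_forall_notMem fun T hT => (mem_filter.1 hT).2.1 hz
      rw [this]
      simp
    · exact two_fixed _ hz _ _ fun T hT => (mem_filter.1 hT).2.2
  calc S.card * n ^ 2 ≤ (∑ z ∈ E, (cell z).card) * n ^ 2 :=
        Nat.mul_le_mul_right _ ((card_le_card hsub).trans card_biUnion_le)
    _ = ∑ z ∈ E, (cell z).card * n ^ 2 := sum_mul _ _ _
    _ ≤ E.card • n ^ (2 * b + 3) := sum_le_card_nsmul _ _ _ hcell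
    _ ≤ _ := by rw [smul_eq_mul]; exact Nat.mul_le_mul_right _ hE

end Pool.Agent.MP_bc5f1c_co.Low
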