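import Mathlib
import Pool.Agent.MP_bc5f1c_co.Final

/-!
One blowup that serves a positive fraction of a family of forbidden sets.
-/

set_option autoImplicit false
set_option linter.unusedSectionVars false
set_option linter.unusedVariables false

open Finset

namespace Pool.Agent.MP_bc5f1c_co

section

variable {V ι : Type*} [Fintype V] [DecidableEq V] [DecidableEq ι]

theorem popular {α : Type*} (A : Finset α) (Q : Finset V) (hQ : Q.Nonempty) (B : α → Finset V)
    {β : ℝ} (hB : ∀ a ∈ A, B a ⊆ Q ∧ β * Q.card ≤ (B a).card) :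
    ∃ v ∈ Q, β * A.card ≤ (A.filter (fun a => v ∈ B a)).card := by
  classical
  have h1 : ∑ v ∈ Q, ((A.filter (fun a => v ∈ B a)).card : ℝ) = ∑ a ∈ A, ((B a).card : ℝ) := by
    simp only [card_filter, Nat.cast_sum]
    rw [sum_comm]
    refine sum_congr rfl (fun w hw => ?_)
    rw [← Nat.cast_sum, ← card_filter, filter_mem_eq_inter, inter_eq_right.2 (hB w hw).1]
  have h2 : (A.card : ℝ) * (β * Q.card) ≤ ∑ a ∈ A, ((B a).card : ℝ) := by
    rw [← nsmul_eq_mul, ← sum_const]; exact sum_le_sum (fun w hw => (hB w hw).2)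
  refine exists_le_of_sum_le hQ ?_
  rw [h1, sum_const, nsmul_eq_mul]
  linarith

theorem embed2 {α : Type*} (G : SimpleGraph V) [DecidableRel G.Adj] (J : Finset ι)
    (Q : ι → Finset V) {ε d γ₀ : ℝ} (hε0 : 0 < ε) (hd1 : d ≤ 1) (hε : ε ≤ d / 2)
    (hγ : (J.card + 1) * ε < γ₀) (hQ : ∀ i ∈ J, 2 ≤ γ₀ * (Q i).card)
    (hu : ∀ i ∈ J, ∀ j ∈ J, i ≠ j → G.IsUniform ε (Q i) (Q j) ∧
      ((G.edgeDensity (Q i) (Q j) : ℚ) : ℝ) ≤ 1 - d) (k : ℕ) :
    ∀ (need : ι → ℕ) (γ : ℝ) (A : Finset α) (Y : α → ι → Finset V), A.Nonempty →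
      ∑ i ∈ J, need i = k → γ₀ ≤ γ * (d / 2) ^ k →
      (∀ a ∈ A, ∀ i ∈ J, Y a i ⊆ Q i ∧ γ * (Q i).card ≤ (Y a i).card) →
      ∃ I : ι → Finset V, ∃ A' ⊆ A, ε ^ k * A.card ≤ A'.card ∧
        (∀ i ∈ J, (∀ a ∈ A', I i ⊆ Y a i) ∧ (I i).card = need i) ∧
        ∀ i ∈ J, ∀ j ∈ J, i ≠ j → ∀ x ∈ I i, ∀ y ∈ I j, ¬ G.Adj x y := by
  classical
  have hJ0 : (0 : ℝ) ≤ J.card := Nat.cast_nonneg _
  have hγ0 : 0 < γ₀ := lt_of_le_of_lt (by positivity) hγ
  induction k with
  | zero =>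
    intro need γ A Y _ h1 _ _
    refine ⟨fun _ => ∅, A, subset_rfl, by simp,
      fun i hi => ⟨fun _ _ => empty_subset _, ?_⟩, by simp⟩
    rw [card_empty, (sum_eq_zero_iff.1 h1) i hi]
  | succ k ih =>
    intro need γ A Y hA h1 h2 h3
    obtain ⟨i, hi, hpos⟩ : ∃ i ∈ J, need i ≠ 0 := exists_ne_zero_of_sum_ne_zero (by omega)
    have hd0 : 0 < d / 2 := by linarith
    have hpw : (d / 2) ^ (k + 1) ≤ 1 := pow_le_one₀ hd0.le (by linarith)
    have hγpos : 0 < γ := by
      by_contra hc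
      have : γ * (d / 2) ^ (k + 1) ≤ 0 :=
        mul_nonpos_of_nonpos_of_nonneg (not_lt.1 hc) (by positivity)
      linarith
    have hγγ : γ₀ ≤ γ := h2.trans (mul_le_of_le_one_right hγpos.le hpw)
    let Bad : α → ι → Finset V := fun a j =>
      (Q i).filter (fun v => ((Y a j \ nb G v).card : ℝ) < d / 2 * (Y a j).card)
    have hQi : (0 : ℝ) < (Q i).card := by
      have := hQ i hi
      by_contra hc
      have : γ₀ * (Q i).card ≤ 0 := mul_nonpos_of_nonneg_of_nonpos hγ0.le (not_lt.1 hc)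
      linarith
    have hgood : ∀ a ∈ A, Y a i \ (J.erase i).biUnion (Bad a) ⊆ Q i ∧
        ε * (Q i).card ≤ (Y a i \ (J.erase i).biUnion (Bad a)).card := by
      intro a ha
      have hBad := cardR_biUnion_le (J.erase i) (Bad a) (m := ε * (Q i).card) (fun j hj =>
        few_bad G (hu i hi j (mem_of_mem_erase hj) (ne_of_mem_erase hj).symm).1
          (hu i hi j (mem_of_mem_erase hj) (ne_of_mem_erase hj).symm).2 hε
          (h3 a ha j (mem_of_mem_erase hj)).1 (by
            have a1 := (h3 a ha j (mem_of_mem_erase hj)).2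
            have a2 : ε ≤ γ := by nlinarith
            have a3 := mul_le_mul_of_nonneg_right a2 (Nat.cast_nonneg (α := ℝ) (Q j).card)
            linarith) (filter_subset _ _) (fun v hv => (mem_filter.1 hv).2))
      have hYi : γ₀ * (Q i).card ≤ (Y a i).card :=
        (mul_le_mul_of_nonneg_right hγγ hQi.le).trans (h3 a ha i hi).2
      refine ⟨sdiff_subset.trans (h3 a ha i hi).1, ?_⟩
      have a1 : ((J.erase i).card : ℝ) ≤ J.card := cardR_le (erase_subset _ _)
      have a2 := mul_le_mul_of_nonneg_right a1 (show 0 ≤ ε * (Q i).card by positivity)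
      have a3 := mul_lt_mul_of_pos_right hγ hQi
      have a4 := cardR_sdiff_inter (Y a i) ((J.erase i).biUnion (Bad a))
      have a5 : ((Y a i ∩ (J.erase i).biUnion (Bad a)).card : ℝ) ≤
          ((J.erase i).biUnion (Bad a)).card := cardR_le inter_subset_right
      linarith
    obtain ⟨v, -, hv⟩ := popular A (Q i) (nonempty_of_pos hQi) _ hgood
    set A₁ := A.filter (fun a => v ∈ Y a i \ (J.erase i).biUnion (Bad a)) with hA₁
    have hAp : (0 : ℝ) < A.card := by exact_mod_cast hA.card_pos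
    have hA₁ne : A₁.Nonempty := nonempty_of_pos (lt_of_lt_of_le (by positivity) hv)
    have hm : ∀ a ∈ A₁, a ∈ A ∧ v ∈ Y a i ∧ v ∉ (J.erase i).biUnion (Bad a) := fun a ha =>
      ⟨(mem_filter.1 ha).1, mem_sdiff.1 (mem_filter.1 ha).2⟩
    obtain ⟨I, A', hA', hAc, hI1, hI2⟩ := ih (Function.update need i (need i - 1)) (γ * (d / 2))
      A₁ (fun a j => if j = i then (Y a i).erase v else Y a j \ nb G v) hA₁ne (by
        rw [sum_update_of_mem hi, sdiff_singleton_eq_erase]
        rw [← add_sum_erase J need hi] at h1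
        omega) (by rw [pow_succ] at h2; linarith) (by
        intro a ha j hj
        obtain ⟨ha0, hv1, hv2⟩ := hm a ha
        split_ifs with hji
        · subst hji
          refine ⟨(erase_subset _ _).trans (h3 a ha0 j hj).1, ?_⟩
          have a1 : (((Y a j).erase v).card : ℝ) + 1 = (Y a j).card := by
            exact_mod_cast card_erase_add_one hv1
          have a2 := (h3 a ha0 j hj).2
          have a3 := hQ j hj
          have a5 : γ₀ * (Q j).card ≤ (Y a j).card :=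
            (mul_le_mul_of_nonneg_right hγγ hQi.le).trans a2
          have a4 : d / 2 * (γ * (Q j).card) ≤ 1 / 2 * (Y a j).card :=
            mul_le_mul (by linarith) a2 (by positivity) (by norm_num)
          linarith
        · refine ⟨sdiff_subset.trans (h3 a ha0 j hj).1, ?_⟩
          have a1 : ¬ ((Y a j \ nb G v).card : ℝ) < d / 2 * (Y a j).card := fun hh =>
            hv2 (mem_biUnion.2 ⟨j, mem_erase.2 ⟨hji, hj⟩,
              mem_filter.2 ⟨(h3 a ha0 i hi).1 hv1, hh⟩⟩)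
          have a2 := mul_le_mul_of_nonneg_left (h3 a ha0 j hj).2 hd0.le
          linarith)
    have hA₁p : (0 : ℝ) < A₁.card := by exact_mod_cast hA₁ne.card_pos
    obtain ⟨a₀, ha₀⟩ : A'.Nonempty := nonempty_of_pos (lt_of_lt_of_le (by positivity) hAc)
    have hI3 : ∀ a ∈ A', ∀ j ∈ J, j ≠ i → ∀ y ∈ I j, y ∈ Y a j ∧ ¬ G.Adj v y := by
      intro a ha j hj hji y hy
      have := (hI1 j hj).1 a ha hy
      simp only [hji, if_false, mem_sdiff, mem_nb] at this
      exact this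
    have hI4 : (∀ a ∈ A', I i ⊆ (Y a i).erase v) ∧ (I i).card = need i - 1 := by
      have := hI1 i hi
      simpa only [if_true, Function.update_self] using this
    refine ⟨fun j => if j = i then insert v (I i) else I j, A', hA'.trans (filter_subset _ _), ?_,
      fun j hj => ?_, ?_⟩
    · have := mul_le_mul_of_nonneg_left hv (show 0 ≤ ε ^ k by positivity)
      rw [pow_succ]
      linarith
    · dsimp only
      split_ifs with hji
      · subst hji
        refine ⟨fun a ha => insert_subset (hm a (hA' ha)).2.1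
          ((hI4.1 a ha).trans (erase_subset _ _)), ?_⟩
        rw [card_insert_of_notMem (fun hh => notMem_erase v _ (hI4.1 a₀ ha₀ hh)), hI4.2]
        omega
      · refine ⟨fun a ha y hy => (hI3 a ha j hj hji y hy).1, ?_⟩
        rw [(hI1 j hj).2, Function.update_of_ne hji]
    · intro j hj j' hj' hne x hx y hy
      dsimp only at hx hy
      split_ifs at hx hy with c1 c2 c2
      · exact hne (c1.trans c2.symm) |>.elim
      · rcases mem_insert.1 hx with rfl | hx
        · exact (hI3 a₀ ha₀ j' hj' c2 y hy).2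
        · exact hI2 i hi j' hj' (fun e => c2 e.symm) x hx y hy
      · rcases mem_insert.1 hy with rfl | hy
        · exact fun ha => (hI3 a₀ ha₀ j hj c1 x hx).2 ha.symm
        · exact hI2 j hj i hi c1 x hx y hy
      · exact hI2 j hj j' hj' hne x hx y hy

end

theorem regular2 (r s : ℕ) (hr : 0 < r) (e : ℝ) (he : 0 < e) (he1 : e ≤ 1) :
    ∃ (c : ℝ) (m₀ : ℕ), 0 < c ∧ c ≤ 1 ∧ ∀ (V ι : Type) [Fintype V] [DecidableEq V] [Fintype ι]
      [DecidableEq ι] (p : V → ι) (G : SimpleGraph V), Fintype.card ι = r →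
      m₀ ≤ Fintype.card V →
      ∃ (H : SimpleGraph V) (U : Finset V) (X : Finset V → Finset V),
        (∀ x y, H.Adj x y → p x ≠ p y ∧ x ∈ U ∧ y ∈ U) ∧
        ((Uᶜ).card : ℝ) ≤ e * Fintype.card V ∧
        (∀ x ∈ U, ((nb H x \ nb G x).card : ℝ) ≤ e * Fintype.card V) ∧
        (∀ F, ((X F \ F).card : ℝ) ≤ e * Fintype.card V) ∧ Disjoint U (X ∅) ∧
        ∀ (α : Type) (J : Finset ι) (W : Finset α) (F : α → Finset V), W.Nonempty →
          (∀ w ∈ W, HasIT H p (U \ X (F w)) J) →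
          ∃ W' ⊆ W, c * W.card ≤ W'.card ∧ Blow G p s J (W'.biUnion F) := by
  classical
  have hrR : (1 : ℝ) ≤ r := by exact_mod_cast hr
  obtain ⟨β, hβ⟩ : ∃ β : ℝ, β = e / (2 * r) := ⟨_, rfl⟩
  have hβ0 : 0 < β := by rw [hβ]; positivity
  have hβr : r * β = e / 2 := by rw [hβ]; field_simp
  have hβ1 : β ≤ 1 := by nlinarith
  obtain ⟨d, hd⟩ : ∃ d : ℝ, d = e ^ 2 / 6 := ⟨_, rfl⟩
  have hd0 : 0 < d := by rw [hd]; positivity
  have hd1 : d ≤ 1 := by rw [hd]; nlinarith
  obtain ⟨γ₀, hγ₀⟩ : ∃ γ₀ : ℝ, γ₀ = β * (d / 2) ^ (r * s) := ⟨_, rfl⟩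
  have hγ0 : 0 < γ₀ := by rw [hγ₀]; positivity
  obtain ⟨ε, hε0, hε1, hε2, hε3⟩ : ∃ ε : ℝ, 0 < ε ∧ ε ≤ d / 2 ∧ ε ≤ e ^ 2 / 24 ∧
      (r + 2) * ε ≤ γ₀ := by
    refine ⟨min (min (d / 2) (e ^ 2 / 24)) (γ₀ / (r + 2)), by positivity,
      (min_le_left _ _).trans (min_le_left _ _), (min_le_left _ _).trans (min_le_right _ _), ?_⟩
    rw [← le_div_iff₀' (by positivity)]
    exact min_le_right _ _
  obtain ⟨l, hl⟩ := exists_nat_ge (4 / (e ^ 2 / 3))
  obtain ⟨q, hq⟩ := exists_nat_ge (2 / γ₀)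
  set M := SzemerediRegularity.bound ε l with hM
  have hM1 : (1 : ℝ) ≤ ((M : ℝ) + 1) ^ r :=
    one_le_pow₀ (by linarith [Nat.cast_nonneg (α := ℝ) M])
  have hεle : ε ≤ 1 := by linarith
  refine ⟨ε ^ (r * s) / ((M : ℝ) + 1) ^ r, max (l + 1) (q * M), by positivity, ?_, ?_⟩
  · rw [div_le_one (by positivity)]
    exact (pow_le_one₀ hε0.le hεle).trans hM1
  intro V ι _ _ _ _ p G hι hV
  have hV1 : l + 1 ≤ Fintype.card V := (le_max_left _ _).trans hV
  have hV2 : q * M ≤ Fintype.card V := (le_max_right _ _).trans hV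
  obtain ⟨P, hP1, hP2, hP3, hP4⟩ := szemeredi_regularity G hε0 (show l ≤ Fintype.card V by omega)
  have hVne : (univ : Finset V).Nonempty := by rw [← card_pos, card_univ]; omega
  have hm0 : (0 : ℝ) < Fintype.card V := by exact_mod_cast (show 0 < Fintype.card V by omega)
  have hparts : P.parts.Nonempty := P.parts_nonempty hVne.ne_empty
  have hQ : ∀ Q ∈ P.parts, 2 ≤ γ₀ * Q.card := by
    intro Q hQ
    have a1 := hP1.average_le_card_part hQ
    have a2 : q ≤ (univ : Finset V).card / P.parts.card := by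
      rw [Nat.le_div_iff_mul_le hparts.card_pos, card_univ]
      exact (Nat.mul_le_mul_left _ hP3).trans hV2
    have a3 : (q : ℝ) ≤ Q.card := by exact_mod_cast a2.trans a1
    rw [div_le_iff₀' hγ0] at hq
    exact hq.trans (mul_le_mul_of_nonneg_left a3 hγ0.le)
  set H₀ := redG G p P.part ε d with hH₀
  set Bad := univ.filter (fun x => e * Fintype.card V < ((nb H₀ x \ nb G x).card : ℝ)) with hBad
  have hBadc : (Bad.card : ℝ) ≤ e / 2 * Fintype.card V := by
    have a1 := red_count G p P hε0 hd0.le (e₁ := e ^ 2 / 3) (by positivity) hVne hP1 hP4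
      (hl.trans (by exact_mod_cast hP2))
    have a2 : (Bad.card : ℝ) * (e * Fintype.card V) ≤ ∑ x, ((nb H₀ x \ nb G x).card : ℝ) := by
      refine le_trans ?_ (sum_le_sum_of_subset_of_nonneg (subset_univ Bad)
        (fun _ _ _ => Nat.cast_nonneg _))
      rw [← nsmul_eq_mul, ← sum_const]
      exact sum_le_sum (fun x hx => (mem_filter.1 hx).2.le)
    have a3 := mul_le_mul_of_nonneg_right
      (show e ^ 2 / 3 / 2 + 4 * ε + d ≤ e ^ 2 / 2 by rw [hd]; linarith)
      (show (0 : ℝ) ≤ (Fintype.card V : ℝ) ^ 2 by positivity)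
    have a4 : (Bad.card : ℝ) * (e * Fintype.card V) ≤
        (e / 2 * Fintype.card V) * (e * Fintype.card V) := by linarith
    exact le_of_mul_le_mul_right a4 (by positivity)
  have hX : ∀ F, ((covX p P.part β F \ F).card : ℝ) ≤ e / 2 * Fintype.card V := by
    intro F
    have := covX_le p P hβ0.le F
    rwa [hι, hβr] at this
  have hpos : 0 ≤ e / 2 * Fintype.card V := by positivity
  refine ⟨restr H₀ (Bad ∪ covX p P.part β ∅)ᶜ, (Bad ∪ covX p P.part β ∅)ᶜ, covX p P.part β,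
    fun x y h => ⟨h.1.1, h.2⟩, ?_, fun x hx => ?_, fun F => (hX F).trans (by linarith),
    disjoint_left.2 (fun x hx hx' => mem_compl.1 hx (mem_union_right _ hx')), ?_⟩
  · rw [compl_compl]
    have a1 := hX ∅
    rw [sdiff_empty] at a1
    exact (cardR_union_le _ _).trans (by linarith)
  · have a1 : ¬ (e * Fintype.card V < ((nb H₀ x \ nb G x).card : ℝ)) := fun hh =>
      mem_compl.1 hx (mem_union_left _ (mem_filter.2 ⟨mem_univ _, hh⟩))
    refine le_trans (cardR_le (sdiff_subset_sdiff (fun y hy => ?_) subset_rfl)) (not_lt.1 a1)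
    exact mem_nb.2 (mem_nb.1 hy).1
  intro α J W F hW hIT
  obtain ⟨v₀, -⟩ := hVne
  have hex : ∀ w, ∃ T : ι → V, w ∈ W → IsIT (restr H₀ (Bad ∪ covX p P.part β ∅)ᶜ) p
      ((Bad ∪ covX p P.part β ∅)ᶜ \ covX p P.part β (F w)) J T := by
    intro w
    by_cases hw : w ∈ W
    · obtain ⟨T, hT⟩ := hIT w hw
      exact ⟨T, fun _ => hT⟩
    · exact ⟨fun _ => v₀, fun hh => absurd hh hw⟩
  choose T hT using hex
  obtain ⟨Q, hQm, hQc⟩ := exists_le_card_fiber_of_nsmul_le_card_of_maps_to (s := W)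
    (t := Fintype.piFinset (fun _ : ι => P.parts)) (f := fun w i => P.part (T w i))
    (b := (W.card : ℝ) / ((M : ℝ) + 1) ^ r)
    (fun w _ => Fintype.mem_piFinset.2 (fun i => P.part_mem.2 (mem_univ _)))
    (Fintype.piFinset_nonempty.2 (fun _ => hparts)) (by
      rw [Fintype.card_piFinset, prod_const, card_univ, hι, nsmul_eq_mul]
      have h1 : ((P.parts.card ^ r : ℕ) : ℝ) ≤ ((M : ℝ) + 1) ^ r := by
        have : P.parts.card ^ r ≤ (M + 1) ^ r := Nat.pow_le_pow_left (by omega) r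
        exact_mod_cast this
      calc _ ≤ ((M : ℝ) + 1) ^ r * ((W.card : ℝ) / ((M : ℝ) + 1) ^ r) :=
            mul_le_mul_of_nonneg_right h1 (by positivity)
        _ = W.card := by field_simp)
  set W₀ := W.filter (fun w => (fun i => P.part (T w i)) = Q) with hW₀
  have hW₀' : ∀ w ∈ W₀, w ∈ W ∧ ∀ i, P.part (T w i) = Q i := fun w hw =>
    ⟨(mem_filter.1 hw).1, fun i => congrFun (mem_filter.1 hw).2 i⟩
  have hQp : ∀ i, Q i ∈ P.parts := Fintype.mem_piFinset.1 hQm
  have hJr : J.card ≤ r := hι ▸ card_le_univ J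
  have hWp : (0 : ℝ) < W.card := by exact_mod_cast hW.card_pos
  have hW₀ne : W₀.Nonempty := nonempty_of_pos (lt_of_lt_of_le (by positivity) hQc)
  obtain ⟨w₀, hw₀⟩ := id hW₀ne
  obtain ⟨I, W', c1, c2, hI1, hI2⟩ := embed2 G J Q hε0 hd1 hε1 (γ₀ := γ₀) (by
      have : (J.card : ℝ) ≤ r := by exact_mod_cast hJr
      nlinarith) (fun i _ => hQ _ (hQp i)) (fun i hi j hj hij => by
      have w1 := hW₀' w₀ hw₀
      have w2 := (hT w₀ w1.1).2 i hi j hj hij
      have w3 := (hT w₀ w1.1).1 i hi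
      have w4 := (hT w₀ w1.1).1 j hj
      by_contra hc
      refine w2 ⟨⟨by rw [w3.2, w4.2]; exact hij, Or.inr ?_⟩, (mem_sdiff.1 w3.1).1,
        (mem_sdiff.1 w4.1).1⟩
      rw [w1.2 i, w1.2 j]
      by_contra hc'
      push Not at hc'
      exact hc hc') (J.card * s) (fun _ => s) β W₀ (fun w i => pt p (Q i) {i} \ F w) hW₀ne
    (by rw [sum_const, smul_eq_mul]) (by
      rw [hγ₀]
      exact mul_le_mul_of_nonneg_left (pow_le_pow_of_le_one (by positivity) (by linarith)
        (Nat.mul_le_mul_right s hJr)) (by positivity)) (fun w hw i hi => by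
      refine ⟨sdiff_subset.trans (pt_subset _ _ _), ?_⟩
      obtain ⟨c1, c2⟩ := (hT w (hW₀' w hw).1).1 i hi
      have c3 := (mem_sdiff.1 c1).2
      simp only [covX, mem_filter, mem_univ, true_and, not_lt] at c3
      rwa [(hW₀' w hw).2 i, c2] at c3)
  have hW₀p : (0 : ℝ) < W₀.card := by exact_mod_cast hW₀ne.card_pos
  obtain ⟨w₁, hw₁⟩ : W'.Nonempty := nonempty_of_pos (lt_of_lt_of_le (by positivity) c2)
  refine ⟨W', fun w hw => (hW₀' w (c1 hw)).1, ?_, I,
    fun i hi => ⟨(hI1 i hi).2, fun x hx => ?_⟩, hI2⟩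
  · have a1 : ε ^ (r * s) ≤ ε ^ (J.card * s) :=
      pow_le_pow_of_le_one hε0.le hεle (Nat.mul_le_mul_right s hJr)
    calc ε ^ (r * s) / ((M : ℝ) + 1) ^ r * W.card
        = ε ^ (r * s) * ((W.card : ℝ) / ((M : ℝ) + 1) ^ r) := by ring
      _ ≤ ε ^ (J.card * s) * W₀.card := mul_le_mul a1 hQc (by positivity) (by positivity)
      _ ≤ _ := c2
  · refine ⟨mem_singleton.1 (mem_pt.1 (mem_sdiff.1 ((hI1 i hi).1 w₁ hw₁ hx)).1).2, fun hh => ?_⟩
    obtain ⟨w, hw, d2⟩ := mem_biUnion.1 hh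
    exact (mem_sdiff.1 ((hI1 i hi).1 w hw hx)).2 d2

end Pool.Agent.MP_bc5f1c_co
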