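import Mathlib

/-!
The Zarankiewicz number in terms of sets of pairs, and regularising the degrees on one side.
-/

set_option autoImplicit false

namespace Pool.Agent.MP_bc5f1c_co.Low

open Finset SimpleGraph

/-- The set of pairs `A` contains no `s × s` box. -/
def NoBox {α β : Type*} (s : ℕ) (A : Finset (α × β)) : Prop :=
  ∀ (X : Finset α) (Y : Finset β), X.card = s → Y.card = s → ¬ ∀ x ∈ X, ∀ y ∈ Y, (x, y) ∈ A

/-- The bipartite graph with edge set `A`. -/
def bip {α β : Type*} (A : Finset (α × β)) : SimpleGraph (α ⊕ β) :=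
  SimpleGraph.fromRel (fun u v => ∃ q ∈ A, u = Sum.inl q.1 ∧ v = Sum.inr q.2)

lemma bip_lr {α β : Type*} {A : Finset (α × β)} {a : α} {b : β} :
    (bip A).Adj (Sum.inl a) (Sum.inr b) ↔ (a, b) ∈ A := by
  simp only [bip, fromRel_adj]
  constructor
  · rintro ⟨-, ⟨q, hq, e1, e2⟩ | ⟨q, -, e1, -⟩⟩
    · rw [Sum.inl.inj e1, Sum.inr.inj e2]
      exact hq
    · cases e1
  · intro h
    exact ⟨by simp, Or.inl ⟨(a, b), h, rfl, rfl⟩⟩

lemma bip_le {α β : Type*} (A : Finset (α × β)) : bip A ≤ completeBipartiteGraph α β := by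
  intro u v h
  simp only [bip, fromRel_adj] at h
  rcases h.2 with ⟨q, -, rfl, rfl⟩ | ⟨q, -, rfl, rfl⟩ <;> simp

lemma box_of_complete {α β : Type*} [DecidableEq α] [DecidableEq β] {G : SimpleGraph (α ⊕ β)}
    (hG : G ≤ completeBipartiteGraph α β) {s : ℕ} {L R : Finset (α ⊕ β)} (hL : L.card = s)
    (hR : R.card = s) (h : G.IsCompleteBetween L R) {a : α} (ha : Sum.inl a ∈ L)
    (hne : R.Nonempty) :
    ∃ (X : Finset α) (Y : Finset β), X.card = s ∧ Y.card = s ∧
      ∀ x ∈ X, ∀ y ∈ Y, G.Adj (Sum.inl x) (Sum.inr y) := by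
  have h1 : R.toLeft = ∅ := by
    refine eq_empty_of_forall_notMem fun x hx => ?_
    have := hG (h (mem_coe.2 ha) (mem_coe.2 (mem_toLeft.1 hx)))
    simp at this
  have h3 := R.card_toLeft_add_card_toRight
  rw [h1, card_empty, zero_add, hR] at h3
  obtain ⟨b, hb⟩ : R.toRight.Nonempty := by
    rw [← card_pos, h3, ← hR]
    exact hne.card_pos
  have h2 : L.toRight = ∅ := by
    refine eq_empty_of_forall_notMem fun x hx => ?_
    have := hG (h (mem_coe.2 (mem_toRight.1 hx)) (mem_coe.2 (mem_toRight.1 hb)))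
    simp at this
  have h4 := L.card_toLeft_add_card_toRight
  rw [h2, card_empty, add_zero, hL] at h4
  exact ⟨L.toLeft, R.toRight, h4, h3, fun x hx y hy =>
    h (mem_coe.2 (mem_toLeft.1 hx)) (mem_coe.2 (mem_toRight.1 hy))⟩

lemma card_le_z {α β : Type} [Fintype α] [Fintype β] {m n s : ℕ} (hm : Fintype.card α = m)
    (hn : Fintype.card β = n) (hs : 1 ≤ s) (A : Finset (α × β)) (h : NoBox s A) :
    A.card ≤ zarankiewicz m n s s := by
  classical
  have hfree : (completeBipartiteGraph (Fin s) (Fin s)).Free (bip A) := by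
    intro hc
    obtain ⟨L, R, hL, hR, hLR⟩ := completeBipartiteGraph_isContained_iff.1 hc
    rw [Fintype.card_fin] at hL hR
    obtain ⟨l, hl⟩ : L.Nonempty := card_pos.1 (by omega)
    obtain ⟨r, hr⟩ : R.Nonempty := card_pos.1 (by omega)
    have key : ∃ (X : Finset α) (Y : Finset β), X.card = s ∧ Y.card = s ∧
        ∀ x ∈ X, ∀ y ∈ Y, (bip A).Adj (Sum.inl x) (Sum.inr y) := by
      rcases l with a | b
      · exact box_of_complete (bip_le A) hL hR hLR hl ⟨r, hr⟩
      · rcases r with a | b'
        · exact box_of_complete (bip_le A) hR hL hLR.symm hr ⟨_, hl⟩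
        · have := bip_le A (hLR (mem_coe.2 hl) (mem_coe.2 hr))
          simp at this
    obtain ⟨X, Y, hX, hY, hXY⟩ := key
    exact h X Y hX hY fun x hx y hy => bip_lr.1 (hXY x hx y hy)
  have h1 := (zarankiewicz_le_iff hm hn (Fintype.card_fin s) (Fintype.card_fin s) _).1 le_rfl
    (bip_le A) hfree
  refine le_trans ?_ h1
  refine card_le_card_of_injOn (fun q => s(Sum.inl q.1, Sum.inr q.2)) ?_ ?_
  · intro q hq
    simp only [coe_edgeFinset, mem_edgeSet]
    exact bip_lr.2 hq
  · intro q _ q' _ e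
    simp only [Sym2.eq_iff, Sum.inl.injEq, Sum.inr.injEq, reduceCtorEq, and_self, or_false] at e
    exact Prod.ext e.1 e.2

lemma exists_z (m n s k : ℕ) (hk : 1 ≤ k) (h : k ≤ zarankiewicz m n s s) :
    ∃ A : Finset (Fin m × Fin n), NoBox s A ∧ k ≤ A.card := by
  classical
  obtain ⟨G, _, h1, h2, h3⟩ := (lt_zarankiewicz_iff (Fintype.card_fin m) (Fintype.card_fin n)
    (Fintype.card_fin s) (Fintype.card_fin s) (k - 1)).1 (by omega)
  refine ⟨univ.filter (fun q => G.Adj (Sum.inl q.1) (Sum.inr q.2)), ?_, ?_⟩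
  · intro X Y hX hY hXY
    refine h2 (completeBipartiteGraph_isContained_iff.2
      ⟨X.map Function.Embedding.inl, Y.map Function.Embedding.inr, by simpa using hX,
        by simpa using hY, ?_⟩)
    intro u hu v hv
    obtain ⟨x, hx, rfl⟩ := mem_map.1 (mem_coe.1 hu)
    obtain ⟨y, hy, rfl⟩ := mem_map.1 (mem_coe.1 hv)
    exact (mem_filter.1 (hXY x hx y hy)).2
  · have h4 : G.edgeFinset.card ≤
        (univ.filter (fun q : Fin m × Fin n => G.Adj (Sum.inl q.1) (Sum.inr q.2))).card := by
      refine card_le_card_of_surjOn (fun q => s(Sum.inl q.1, Sum.inr q.2)) ?_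
      intro e he
      induction e using Sym2.ind with
      | _ u v =>
        simp only [coe_edgeFinset, mem_edgeSet] at he
        have h5 := h1 he
        rcases u with a | b <;> rcases v with a' | b'
        · simp at h5
        · exact ⟨(a, b'), by simpa using he, rfl⟩
        · exact ⟨(a', b), by simpa using he.symm, Sym2.eq_swap⟩
        · simp at h5
    omega

lemma chunks {V α β : Type*} [DecidableEq V] [DecidableEq α] [DecidableEq β] [Fintype α]
    (hα : (univ : Finset α).Nonempty) (A : Finset (α × β)) (w : ℕ)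
    (hA : Fintype.card α * w + w * w ≤ A.card) (W : Finset V) : W.card ≤ w →
    ∃ (o : V → α) (C : V → Finset β), (∀ v ∈ W, (C v).card = w ∧ ∀ y ∈ C v, (o v, y) ∈ A) ∧
      ∀ v ∈ W, ∀ v' ∈ W, v ≠ v' → o v = o v' → Disjoint (C v) (C v') := by
  classical
  induction W using Finset.induction_on with
  | empty =>
    intro _
    obtain ⟨a, -⟩ := hα
    exact ⟨fun _ => a, fun _ => ∅, by simp, by simp⟩
  | insert v W hv ih =>
    intro hc
    rw [card_insert_of_notMem hv] at hc
    obtain ⟨o, C, h1, h2⟩ := ih (by omega)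
    set used : Finset (α × β) := W.biUnion (fun u => {o u} ×ˢ C u) with hused
    have hu : used.card ≤ w * w := by
      refine (card_biUnion_le_card_mul _ _ w ?_).trans (Nat.mul_le_mul_right _ (by omega))
      intro u hu
      rw [card_product, card_singleton, one_mul, (h1 u hu).1]
    have hrest : (univ : Finset α).card * w ≤ (A \ used).card := by
      have := le_card_sdiff used A
      rw [card_univ]
      omega
    obtain ⟨a, -, ha⟩ := exists_le_card_fiber_of_mul_le_card_of_maps_to (s := A \ used)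
      (t := univ) (f := Prod.fst) (fun _ _ => mem_univ _) hα hrest
    have himg : (((A \ used).filter (fun q => q.1 = a)).image Prod.snd).card =
        ((A \ used).filter (fun q => q.1 = a)).card := by
      refine card_image_of_injOn ?_
      intro q hq q' hq' e
      exact Prod.ext ((mem_filter.1 (mem_coe.1 hq)).2.trans (mem_filter.1 (mem_coe.1 hq')).2.symm) e
    obtain ⟨C₀, hC1, hC2⟩ := exists_subset_card_eq (ha.trans himg.ge)
    have hC3 : ∀ y ∈ C₀, (a, y) ∈ A ∧ (a, y) ∉ used := by
      intro y hy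
      obtain ⟨q, hq, rfl⟩ := mem_image.1 (hC1 hy)
      obtain ⟨hq1, rfl⟩ := mem_filter.1 hq
      exact mem_sdiff.1 hq1
    have hC4 : ∀ u ∈ W, o u = a → Disjoint C₀ (C u) := by
      intro u hu e
      refine disjoint_left.2 fun y hy hy' => (hC3 y hy).2 ?_
      exact mem_biUnion.2 ⟨u, hu, mem_product.2 ⟨mem_singleton.2 e.symm, hy'⟩⟩
    have hne : ∀ u ∈ W, u ≠ v := fun u hu e => hv (e ▸ hu)
    refine ⟨fun u => if u = v then a else o u, fun u => if u = v then C₀ else C u, ?_, ?_⟩
    · intro u hu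
      rcases mem_insert.1 hu with rfl | hu
      · simp only [if_true]
        exact ⟨hC2, fun y hy => (hC3 y hy).1⟩
      · simp only [if_neg (hne u hu)]
        exact h1 u hu
    · intro u hu u' hu' huu e
      rcases mem_insert.1 hu with rfl | hu1 <;> rcases mem_insert.1 hu' with rfl | hu2
      · exact absurd rfl huu
      · simp only [if_true, if_neg (hne u' hu2)] at e ⊢
        exact hC4 u' hu2 e.symm
      · simp only [if_true, if_neg (hne u hu1)] at e ⊢
        exact (hC4 u hu1 e).symm
      · simp only [if_neg (hne u hu1), if_neg (hne u' hu2)] at e ⊢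
        exact h2 u hu1 u' hu2 huu e

/-- Sets of missed vertices from a dense set of pairs without a box. -/
lemma miss2 {V α β : Type*} [DecidableEq V] [DecidableEq α] [DecidableEq β] [Fintype α]
    (hα : (univ : Finset α).Nonempty) (A : Finset (α × β)) (R : Finset β)
    (hR : ∀ q ∈ A, q.2 ∈ R) {s : ℕ} (hs : 1 ≤ s) (hA : NoBox s A) (w : ℕ)
    (hw : Fintype.card α * w + w * w ≤ A.card) (W T : Finset V) (hW : W.card = w)
    (hT : R.card ≤ T.card) :
    ∃ M : V → Finset V, (∀ x ∈ W, M x ⊆ T ∧ w ≤ (M x).card) ∧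
      ∀ X ⊆ W, X.card = s → ∀ Y : Finset V, Y.card = s → ¬ ∀ x ∈ X, Y ⊆ M x := by
  classical
  obtain ⟨o, C, h1, h2⟩ := chunks hα A w hw W hW.le
  obtain ⟨τ⟩ : Nonempty (R ↪ T) := by
    apply Function.Embedding.nonempty_of_card_le
    simpa only [Fintype.card_coe] using hT
  let f : R → V := fun y => (τ y : V)
  have hf : Function.Injective f := fun y y' e => τ.injective (Subtype.ext e)
  refine ⟨fun v => ((C v).subtype (fun y => y ∈ R)).image f, ?_, ?_⟩
  · intro x hx
    constructor
    · intro y hy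
      obtain ⟨z, -, rfl⟩ := mem_image.1 hy
      exact (τ z).2
    · rw [card_image_of_injective _ hf, card_subtype, filter_true_of_mem, (h1 x hx).1]
      exact fun y hy => hR _ ((h1 x hx).2 y hy)
  · intro X hXW hX Y hY hall
    obtain ⟨x0, hx0⟩ : X.Nonempty := card_pos.1 (by omega)
    obtain ⟨Y1, hY1, rfl⟩ := subset_image_iff.1 (hall x0 hx0)
    rw [card_image_of_injective _ hf] at hY
    have hmem : ∀ x ∈ X, ∀ z ∈ Y1, (z : β) ∈ C x := by
      intro x hx z hz
      obtain ⟨z', hz', e⟩ := mem_image.1 (hall x hx (mem_image_of_mem f hz))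
      rw [← hf e]
      exact mem_subtype.1 hz'
    obtain ⟨z0, hz0⟩ : Y1.Nonempty := card_pos.1 (by omega)
    refine hA (X.image o) (Y1.image Subtype.val) ?_ ?_ ?_
    · rw [card_image_of_injOn, hX]
      intro x hx x' hx' e
      by_contra hne
      exact disjoint_left.1 (h2 x (hXW hx) x' (hXW hx') hne e) (hmem x hx z0 hz0)
        (hmem x' hx' z0 hz0)
    · rw [card_image_of_injective _ Subtype.val_injective, hY]
    · intro a ha b hb
      obtain ⟨x, hx, rfl⟩ := mem_image.1 ha
      obtain ⟨z, hz, rfl⟩ := mem_image.1 hb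
      exact (h1 x (hXW hx)).2 _ (hmem x hx z hz)

end Pool.Agent.MP_bc5f1c_co.Low
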