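import Mathlib
import Pool.Agent.MP_bc5f1c_co.Ex1
import Pool.Agent.MP_bc5f1c_co.Zar

/-!
The upper bound in terms of the unbalanced Zarankiewicz number.
-/

set_option autoImplicit false
set_option linter.unusedSectionVars false
set_option linter.unusedVariables false

open Finset

namespace Pool.Agent.MP_bc5f1c_co

theorem box_of_z {V : Type} [DecidableEq V] {m n s : ℕ} (hs : 1 ≤ s) (S R : Finset V)
    (hS : S.card = m) (hR : R.card = n) (A : Finset (V × V)) (hA : ∀ q ∈ A, q.1 ∈ S ∧ q.2 ∈ R)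
    (h : SimpleGraph.zarankiewicz m n s s < A.card) :
    ∃ X Y : Finset V, X.card = s ∧ Y.card = s ∧ ∀ x ∈ X, ∀ y ∈ Y, (x, y) ∈ A := by
  classical
  by_contra hc
  have h1 := Low.card_le_z (α := S) (β := R) (m := m) (n := n) (by simpa using hS)
    (by simpa using hR) hs (univ.filter (fun q : S × R => (q.1.1, q.2.1) ∈ A)) (by
      intro X Y hX hY hXY
      refine hc ⟨X.image Subtype.val, Y.image Subtype.val, ?_, ?_, ?_⟩
      · rw [card_image_of_injective _ Subtype.val_injective, hX]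
      · rw [card_image_of_injective _ Subtype.val_injective, hY]
      · intro x hx y hy
        obtain ⟨x', hx', rfl⟩ := mem_image.1 hx
        obtain ⟨y', hy', rfl⟩ := mem_image.1 hy
        exact (mem_filter.1 (hXY x' hx' y' hy')).2)
  have h2 : A.card ≤ (univ.filter (fun q : S × R => (q.1.1, q.2.1) ∈ A)).card := by
    refine card_le_card_of_surjOn (fun q : S × R => (q.1.1, q.2.1)) ?_
    intro q hq
    have := hA q (mem_coe.1 hq)
    exact ⟨(⟨q.1, this.1⟩, ⟨q.2, this.2⟩), by simpa using hq, rfl⟩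
  omega

theorem blow_z (a s : ℕ) (ha : 2 ≤ a) (hs : 2 ≤ s) : ∃ C : ℝ, 0 < C ∧ ∃ n₀ : ℕ, ∀ n ≥ n₀,
    ∀ t : ℕ, SimpleGraph.zarankiewicz t n s s < t ^ 2 →
    ∀ (V ι : Type) [Fintype V] [DecidableEq V] [Fintype ι] [DecidableEq ι] (p : V → ι)
      (G : SimpleGraph V), Fintype.card ι = 2 * a + 1 → (∀ i, (pt p univ {i}).card = n) →
      Deg G (a / (2 * a - 1) * n - C * t) → Blow G p s univ ∅ := by
  classical
  have haR : (2 : ℝ) ≤ a := by exact_mod_cast ha
  have hsR : (2 : ℝ) ≤ s := by exact_mod_cast hs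
  obtain ⟨B, hB⟩ : ∃ B : ℝ, B = 10 * ((100 * a ^ 4 * s) ^ 8) ^ 2 * (10000 * a ^ 5) := ⟨_, rfl⟩
  have hB1 : 1 ≤ B := by
    have h1 : (1 : ℝ) ≤ 100 * a ^ 4 * s := by
      have := (lev haR (show (1 : ℝ) ≤ s by linarith) zero_le_one (y := 100 * a ^ 4 * s)
        (by linarith)).1
      linarith
    have h2 : (1 : ℝ) ≤ ((100 * a ^ 4 * s) ^ 8) ^ 2 := one_le_pow₀ (one_le_pow₀ h1)
    have h3 : (1 : ℝ) ≤ a ^ 5 := one_le_pow₀ (by linarith)
    rw [hB]; nlinarith
  obtain ⟨e, he⟩ : ∃ e : ℝ, e = 1 / (B * ((2 * a + 1) * (2 * a - 1))) := ⟨_, rfl⟩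
  have hd1 : (0 : ℝ) < 2 * a - 1 := by linarith
  have hd2 : (1 : ℝ) ≤ B * ((2 * a + 1) * (2 * a - 1)) :=
    one_le_mul_of_one_le_of_one_le hB1 (one_le_mul_of_one_le_of_one_le (by linarith) (by linarith))
  have he0 : 0 < e := by rw [he]; positivity
  have he1 : e ≤ 1 := by rw [he, div_le_one (by positivity)]; exact hd2
  obtain ⟨c, m₀, hc0, hc1, hreg⟩ := regular2 (2 * a + 1) s (by omega) e he0 he1
  obtain ⟨L, hL⟩ : ∃ L : ℝ, L = s / c := ⟨_, rfl⟩
  have hLc : c * L = s := by rw [hL]; field_simp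
  have hL2 : (2 : ℝ) ≤ L := by
    rw [hL, le_div_iff₀ hc0]
    linarith
  refine ⟨3 * ((2 * a + 1) * L) + 1 / e, by positivity, max m₀ 1, ?_⟩
  intro n hn t hz V ι _ _ _ _ p G hι hpart hdeg
  have hn0 : m₀ ≤ n := (le_max_left _ _).trans hn
  have hn2 : 1 ≤ n := (le_max_right _ _).trans hn
  have hnR : (1 : ℝ) ≤ n := by exact_mod_cast hn2
  have hV : (Fintype.card V : ℝ) = (2 * a + 1) * n := by
    have h1 := card_pt_eq_sum p (univ : Finset V) (univ : Finset ι)
    have h2 : pt p (univ : Finset V) (univ : Finset ι) = univ := by ext x; simp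
    simp only [h2, hpart, sum_const, card_univ, hι, nsmul_eq_mul] at h1
    rw [h1]; push_cast; ring
  have hV' : n ≤ Fintype.card V := by
    have : (n : ℝ) ≤ Fintype.card V := by rw [hV]; nlinarith
    exact_mod_cast this
  have hVne : Nonempty V := Fintype.card_pos_iff.1 (by omega)
  obtain ⟨H, U, X, r1, r2, r3, r4, r5, r6⟩ := hreg V ι p G hι (hn0.trans hV')
  have hn0' : (0 : ℝ) < n := by linarith
  have ht1 : 1 ≤ t := by
    rcases Nat.eq_zero_or_pos t with rfl | h
    · simp at hz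
    · exact h
  have hτ1 : (1 : ℝ) ≤ t := by exact_mod_cast ht1
  have hτ0 : (0 : ℝ) < t := by linarith
  have hκ0 : 0 < (2 * a + 1) * L * t := by positivity
  have hτe : (t : ℝ) ≤ e * n := by
    obtain ⟨v⟩ := hVne
    have h1 := (Nat.cast_nonneg (α := ℝ) _).trans (hdeg v)
    have h2 : (a : ℝ) / (2 * a - 1) ≤ 1 := by
      rw [div_le_one hd1]
      linarith
    have h3 := mul_le_mul_of_nonneg_right h2 hn0'.le
    have h4 : 1 / e * t ≤ n := by linarith
    rw [div_mul_eq_mul_div, div_le_iff₀ he0] at h4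
    linarith
  by_contra hno
  have hcore : ∀ (α : Type) (J : Finset ι) (W : Finset α) (F : α → Finset V), W.Nonempty →
      (∀ w ∈ W, RExt H p U (e * Fintype.card V) (F w) J) →
      ∃ W' ⊆ W, c * W.card ≤ W'.card ∧ Blow G p s J (W'.biUnion F) := by
    intro α J W F h1 h2
    refine r6 α J W F h1 (fun w hw => (h2 w hw _ (r4 (F w))).mono ?_)
    rw [union_sdiff_self_eq_union]
    exact sdiff_subset_sdiff subset_rfl subset_union_right
  have hNn : (2 * a - 1) * (n / (2 * a - 1)) = (n : ℝ) := by field_simp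
  have hdeg' : Deg G (a * (n / (2 * a - 1)) - 3 * ((2 * a + 1) * L * t)) := by
    intro x
    have h1 := hdeg x
    have h2 : 0 ≤ 1 / e * t := by positivity
    have h3 : (a : ℝ) / (2 * a - 1) * n = a * (n / (2 * a - 1)) := by ring
    linarith
  refine Reg.false (G := G) (H := H) (p := p) (U := U) (a := a) (s := s) (N := n / (2 * a - 1))
    (ε := e * Fintype.card V) (γ := 3 * ((2 * a + 1) * L * t))
    (κ := (2 * a + 1) * L * t) (τ := t) ⟨⟨ha, hι, by positivity, by positivity, ?_, ?_, ?_,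
      fun x y h => (r1 x y h).1, fun x y h => (r1 x y h).2.2, ?_⟩, by omega, hdeg', hκ0, ?_, le_rfl,
      ?_, r3, ?_, ?_, ?_⟩ (by rw [hV]; positivity) ?_
  · intro x
    by_cases hx : x ∈ U
    · have h1 := cardR_sdiff_inter (nb H x) (nb G x)
      have h2 : ((nb H x ∩ nb G x).card : ℝ) ≤ (nb G x).card := cardR_le inter_subset_right
      have := r3 x hx
      have := hdeg' x
      linarith
    · have : nb H x = ∅ := eq_empty_of_forall_notMem (fun y hy => hx (r1 x y (mem_nb.1 hy)).2.1)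
      rw [this, card_empty, Nat.cast_zero]
      positivity
  · intro i
    have h1 : ((pt p univ {i}).card : ℝ) ≤ (pt p U {i}).card + (Uᶜ).card := by
      apply cardR_le_add
      intro x hx
      by_cases hc : x ∈ U
      · exact mem_union_left _ (mem_pt.2 ⟨hc, (mem_pt.1 hx).2⟩)
      · exact mem_union_right _ (mem_compl.2 hc)
    rw [hpart] at h1
    rw [hNn]
    linarith
  · intro i
    rw [hNn, hpart]
  · intro hit
    obtain ⟨W', -, -, h1⟩ := r6 V univ univ (fun _ => ∅) univ_nonempty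
      (fun _ _ => by rwa [sdiff_eq_self_of_disjoint r5])
    exact hno (h1.mono (empty_subset _))
  · exact le_mul_of_one_le_left hτ0.le
      (one_le_mul_of_one_le_of_one_le (by linarith) (by linarith))
  · rw [hV]
    have : e * n ≤ e * ((2 * a + 1) * n) :=
      mul_le_mul_of_nonneg_left (le_mul_of_one_le_left hn0'.le (by linarith)) he0.le
    linarith
  · intro i
    rw [hNn, hpart]
  · intro W hW
    by_contra hc
    obtain ⟨i, -, hi⟩ := exists_big_cell (p := p) (S := univ) (A := W) (m := L)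
      (fun _ _ => mem_univ _) (by
        rw [card_univ, hι]
        push_cast
        have h1 : (2 * a + 1) * L ≤ (2 * a + 1) * L * t :=
          le_mul_of_one_le_right (by positivity) hτ1
        linarith)
    obtain ⟨W₁, h1, h2, h3⟩ := hcore V (univ.erase i) (pt p W {i}) (nb G)
      (nonempty_of_pos (by linarith)) (fun w hw => by
        have := hW w (mem_pt1.1 hw).1
        rwa [(mem_pt1.1 hw).2] at this)
    obtain ⟨W', g1, g2⟩ := exists_subset_card_eq (s := W₁) (n := s) (by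
      have h5 := mul_le_mul_of_nonneg_left hi.le hc0.le
      have h6 : (s : ℝ) ≤ W₁.card := by linarith
      exact_mod_cast h6)
    have h4 := Blow.insert (F := ∅) (i := i) (W := W')
      (h3.mono (by rw [empty_union]; exact biUnion_subset_biUnion_of_subset_left _ g1)) g2
      (fun w hw => ⟨(mem_pt1.1 (h1 (g1 hw))).2, notMem_empty _⟩)
    rw [insert_erase (mem_univ _)] at h4
    exact hno h4
  · intro j W T hW hT hTc hext
    by_contra hc
    push Not at hc
    obtain ⟨T', hT1, hT2⟩ := exists_subset_card_eq (s := T) (n := t) (by exact_mod_cast hTc)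
    set E : Finset (V × V) := (T' ×ˢ W).filter (fun q => ¬ G.Adj q.1 q.2) with hE
    have hEm : ∀ q ∈ E, q.1 ∈ T' ∧ q.2 ∈ W ∧ ¬ G.Adj q.1 q.2 := fun q hq =>
      ⟨(mem_product.1 (mem_filter.1 hq).1).1, (mem_product.1 (mem_filter.1 hq).1).2,
        (mem_filter.1 hq).2⟩
    have hEc : (t : ℝ) * ((2 * a + 1) * L * t) ≤ E.card := by
      have e1 : (E.card : ℝ) = ∑ x ∈ T', ((W \ nb G x).card : ℝ) := by
        rw [card_eq_sum_card_fiberwise (s := E) (t := T') (f := Prod.fst)
          (fun q hq => (hEm q hq).1), Nat.cast_sum]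
        refine sum_congr rfl fun x hx => ?_
        congr 1
        refine card_bij (fun q _ => q.2) ?_ ?_ ?_
        · intro q hq
          obtain ⟨h1, h2⟩ := mem_filter.1 hq
          exact mem_sdiff.2 ⟨(hEm q h1).2.1, fun hh => (hEm q h1).2.2 (h2 ▸ mem_nb.1 hh)⟩
        · intro q hq q' hq' e
          exact Prod.ext ((mem_filter.1 hq).2.trans (mem_filter.1 hq').2.symm) e
        · intro y hy
          exact ⟨(x, y), mem_filter.2 ⟨mem_filter.2 ⟨mem_product.2 ⟨hx, (mem_sdiff.1 hy).1⟩,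
            fun hh => (mem_sdiff.1 hy).2 (mem_nb.2 hh)⟩, rfl⟩, rfl⟩
      rw [e1, ← hT2, ← nsmul_eq_mul, ← sum_const]
      refine sum_le_sum fun x hx => ?_
      rw [hT2]
      exact (hc x (hT1 hx)).le
    have hιne : (univ : Finset ι).Nonempty := ⟨j, mem_univ _⟩
    obtain ⟨i, -, hi⟩ := exists_le_card_fiber_of_nsmul_le_card_of_maps_to (s := E) (t := univ)
      (f := fun q => p q.2) (b := L * t * t) (fun _ _ => mem_univ _) hιne (by
        rw [card_univ, hι, nsmul_eq_mul]
        push_cast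
        linarith)
    set Ei := E.filter (fun q => p q.2 = i) with hEi
    have hEine : Ei.Nonempty := nonempty_of_pos (lt_of_lt_of_le (by positivity) hi)
    have hij : i ≠ j := by
      obtain ⟨q, hq⟩ := hEine
      rw [← (mem_filter.1 hq).2]
      exact hW _ (hEm q (mem_filter.1 hq).1).2.1
    obtain ⟨A, a1, a2, a3⟩ := hcore (V × V) ((univ.erase i).erase j) Ei
      (fun q => nb G q.2 ∪ ({q.1} : Finset V).biUnion (nb G)) hEine (fun q hq => by
        obtain ⟨g1, g2, -⟩ := hEm q (mem_filter.1 hq).1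
        have := hext q.2 g2 {q.1} (singleton_subset_iff.2 (hT1 g1)) (by simp; omega)
        rwa [(mem_filter.1 hq).2] at this)
    have hAm : ∀ q ∈ A, q.1 ∈ T' ∧ p q.2 = i ∧ ¬ G.Adj q.1 q.2 := fun q hq =>
      ⟨(hEm q (mem_filter.1 (a1 hq)).1).1, (mem_filter.1 (a1 hq)).2,
        (hEm q (mem_filter.1 (a1 hq)).1).2.2⟩
    obtain ⟨Y, Z, b1, b2, b3⟩ := box_of_z (s := s) (by omega) T' (pt p univ {i}) hT2 (hpart i) A
      (fun q hq => ⟨(hAm q hq).1, mem_pt1.2 ⟨mem_univ _, (hAm q hq).2.1⟩⟩) (by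
        refine lt_of_lt_of_le hz ?_
        have h5 := mul_le_mul_of_nonneg_left hi hc0.le
        have h6 : c * (L * t * t) = s * (t * t) := by rw [← hLc]; ring
        have h7 : (t : ℝ) * t ≤ s * (t * t) := le_mul_of_one_le_left (by positivity) (by linarith)
        have h8 : (t : ℝ) ^ 2 ≤ A.card := by rw [sq]; linarith
        exact_mod_cast h8)
    obtain ⟨y₀, hy₀⟩ : Y.Nonempty := card_pos.1 (by omega)
    obtain ⟨z₀, hz₀⟩ : Z.Nonempty := card_pos.1 (by omega)
    have b4 := Blow.insert (F := Z.biUnion (nb G)) (W := Y) (i := j) (a3.mono (by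
      intro x hx
      rcases mem_union.1 hx with hx | hx
      · obtain ⟨w, hw, hx⟩ := mem_biUnion.1 hx
        exact mem_biUnion.2 ⟨(y₀, w), b3 y₀ hy₀ w hw, mem_union_left _ hx⟩
      · obtain ⟨y, hy, hx⟩ := mem_biUnion.1 hx
        exact mem_biUnion.2 ⟨(y, z₀), b3 y hy z₀ hz₀,
          mem_union_right _ (mem_biUnion.2 ⟨y, mem_singleton_self _, hx⟩)⟩)) b1
      (fun y hy => ⟨hT y (hT1 (hAm _ (b3 y hy z₀ hz₀)).1), fun hh => by
        obtain ⟨w, hw, hx⟩ := mem_biUnion.1 hh
        exact (hAm _ (b3 y hy w hw)).2.2 (mem_nb.1 hx).symm⟩)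
    have b5 := Blow.insert (F := ∅) (i := i) (W := Z) (by rwa [empty_union]) b2
      (fun w hw => ⟨(hAm _ (b3 y₀ hy₀ w hw)).2.1, notMem_empty _⟩)
    rw [insert_erase (mem_erase.2 ⟨hij.symm, mem_univ _⟩), insert_erase (mem_univ _)] at b5
    exact hno b5
  · rw [hV, ← mul_assoc, ← mul_assoc, ← hB, he]
    apply le_of_eq
    field_simp

end Pool.Agent.MP_bc5f1c_co
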