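import Mathlib
import Pool.Agent.MP_bc5f1c_co.Low3
import Pool.Agent.MP_bc5f1c_co.Zar

/-!
The lower bound in terms of the unbalanced Zarankiewicz number.
-/

set_option autoImplicit false

namespace Pool.Agent.MP_bc5f1c_co.Low

open Finset

theorem build2 {V P : Type} [Fintype V] [DecidableEq V] [DecidableEq P] (part : V → P)
    (side isA : V → Bool) (lev : V → ℕ) (b s w m D : ℕ) (hs : 1 ≤ s)
    (hm : ∀ W T : Finset V, W.card = w → m ≤ T.card →
      ∃ M : V → Finset V, (∀ x ∈ W, M x ⊆ T ∧ w ≤ (M x).card) ∧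
      ∀ X ⊆ W, X.card = s → ∀ Y : Finset V, Y.card = s → ¬ ∀ x ∈ X, Y ⊆ M x)
    (mid : P) (pt : Bool → ℕ → P)
    (h1 : ∀ x, part x = mid → isA x = true ∧ lev x = b)
    (h0 : ∀ σ x, part x = pt σ 0 → side x = σ ∧ isA x = false ∧ lev x ≤ b)
    (h2 : ∀ σ j x, j < b → part x = pt σ (j + 1) → side x = σ ∧
      ((isA x = true ∧ lev x = j) ∨ (isA x = false ∧ lev x = j + 1)))
    (h3 : ∀ x y, part x = part y → isA x = true → isA y = false → lev x ≠ lev y)
    (h4 : ∀ x y, part x = part y → isA x = false → isA y = false → side x = side y)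
    (cA : ∀ σ k, k ≠ b → (cls side isA lev σ k true).card ≤ D)
    (cM : ∀ σ, (cls side isA lev σ b true).card + w ≤ D)
    (cB : ∀ σ k, k ≠ b → (cls side isA lev σ k false).card ≤ D)
    (cR : ∀ σ, (cls side isA lev σ b false).card ≤ D + w)
    (cR' : ∀ σ, w + m ≤ (cls side isA lev σ b false).card) :
    ∃ G : SimpleGraph V, (∀ x y, part x = part y → ¬ G.Adj x y) ∧
      (∀ x (N : Finset V), (∀ y ∈ N, G.Adj x y) → N.card ≤ D) ∧
      ¬ ∃ I : Finset V, G.IsIndepSet (I : Set V) ∧
        ∀ p, (I.filter (fun x => part x = p)).card = s := by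
  classical
  have hW : ∀ σ, ∃ W ⊆ cls side isA lev σ b false, W.card = w := fun σ =>
    exists_subset_card_eq (le_trans (Nat.le_add_right _ _) (cR' σ))
  choose W hWs hWc using hW
  have hWm : ∀ σ x, x ∈ W σ → side x = σ ∧ lev x = b ∧ isA x = false := fun σ x hx =>
    mem_cls.1 (hWs σ hx)
  have hM : ∀ σ, ∃ M : V → Finset V,
      (∀ x ∈ W σ, M x ⊆ cls side isA lev (!σ) b false \ W (!σ) ∧ w ≤ (M x).card) ∧
      ∀ X ⊆ W σ, X.card = s → ∀ Y : Finset V, Y.card = s → ¬ ∀ x ∈ X, Y ⊆ M x := by
    intro σ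
    refine hm _ _ (hWc σ) ?_
    rw [card_sdiff_of_subset (hWs _), hWc]
    have := cR' (!σ)
    omega
  choose M hM1 hM2 using hM
  let rel : V → V → Prop := fun x y =>
    (side x = side y ∧ lev x = lev y ∧ isA x = true ∧ isA y = false ∧ y ∉ W (side y)) ∨
      (x ∈ W (side x) ∧ y ∈ cls side isA lev (!side x) b false ∧ y ∉ M (side x) x)
  have hne : ∀ x y, rel x y → part x ≠ part y := by
    intro x y h e
    rcases h with ⟨-, h2', h3', h4', -⟩ | ⟨hx, hy, -⟩
    · exact h3 x y e h3' h4' h2'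
    · have e1 := h4 x y e (hWm _ x hx).2.2 (mem_cls.1 hy).2.2
      have e2 := (mem_cls.1 hy).1
      rw [← e1] at e2
      simp at e2
  have hadj : ∀ x y, rel x y → (SimpleGraph.fromRel rel).Adj x y := by
    intro x y h
    rw [SimpleGraph.fromRel_adj]
    exact ⟨fun e => hne x y h (by rw [e]), Or.inl h⟩
  refine ⟨SimpleGraph.fromRel rel, ?_, ?_, ?_⟩
  · intro x y e h
    rw [SimpleGraph.fromRel_adj] at h
    rcases h.2 with h | h
    · exact hne x y h e
    · exact hne y x h e.symm
  · intro x N hN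
    have hN' : ∀ y ∈ N, rel x y ∨ rel y x := fun y hy =>
      ((SimpleGraph.fromRel_adj _ _ _).1 (hN y hy)).2
    cases hA : isA x with
    | true =>
      have hsub : N ⊆ cls side isA lev (side x) (lev x) false \ W (side x) := by
        intro y hy
        rcases hN' y hy with (⟨e1, e2, -, e4, e5⟩ | ⟨e1, -, -⟩) | (⟨-, -, -, e4, -⟩ | ⟨-, e2, -⟩)
        · exact mem_sdiff.2 ⟨mem_cls.2 ⟨e1.symm, e2.symm, e4⟩, by rw [e1]; exact e5⟩
        · have := (hWm _ x e1).2.2
          rw [hA] at this
          cases this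
        · rw [hA] at e4
          cases e4
        · have := (mem_cls.1 e2).2.2
          rw [hA] at this
          cases this
      refine (card_le_card hsub).trans ?_
      by_cases hl : lev x = b
      · rw [hl, card_sdiff_of_subset (hWs _), hWc]
        have := cR (side x)
        omega
      · exact (card_le_card sdiff_subset).trans (cB _ _ hl)
    | false =>
      by_cases hx : x ∈ W (side x)
      · have hsub : N ⊆ cls side isA lev (!side x) b false \ M (side x) x := by
          intro y hy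
          rcases hN' y hy with (⟨-, -, e3, -, -⟩ | ⟨-, e2, e3⟩) |
            (⟨-, -, -, -, e5⟩ | ⟨e1, e2, -⟩)
          · rw [hA] at e3
            cases e3
          · exact mem_sdiff.2 ⟨e2, e3⟩
          · exact absurd hx e5
          · have e3 : side y = !side x := by rw [(mem_cls.1 e2).1]; simp
            rw [e3] at e1
            exact mem_sdiff.2 ⟨hWs _ e1, fun h => (mem_sdiff.1 ((hM1 _ x hx).1 h)).2 e1⟩
        refine (card_le_card hsub).trans ?_
        rw [card_sdiff_of_subset ((hM1 _ x hx).1.trans sdiff_subset)]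
        have e1 := cR (!side x)
        have e2 := (hM1 _ x hx).2
        omega
      · have hsub : ∀ y ∈ N, y ∈ cls side isA lev (side x) (lev x) true ∨
            (lev x = b ∧ y ∈ W (!side x)) := by
          intro y hy
          rcases hN' y hy with (⟨-, -, e3, -, -⟩ | ⟨e1, -, -⟩) |
            (⟨e1, e2, e3, -, -⟩ | ⟨e1, e2, -⟩)
          · rw [hA] at e3
            cases e3
          · exact absurd e1 hx
          · exact Or.inl (mem_cls.2 ⟨e1, e2, e3⟩)
          · have e3 : side y = !side x := by rw [(mem_cls.1 e2).1]; simp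
            rw [e3] at e1
            exact Or.inr ⟨(mem_cls.1 e2).2.1, e1⟩
        by_cases hl : lev x = b
        · have h5 : N ⊆ cls side isA lev (side x) b true ∪ W (!side x) := by
            intro y hy
            rcases hsub y hy with h | h
            · rw [hl] at h
              exact mem_union_left _ h
            · exact mem_union_right _ h.2
          refine (card_le_card h5).trans ((card_union_le _ _).trans ?_)
          rw [hWc]
          exact cM _
        · have h5 : N ⊆ cls side isA lev (side x) (lev x) true := by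
            intro y hy
            rcases hsub y hy with h | h
            · exact h
            · exact absurd h.1 hl
          exact (card_le_card h5).trans (cA _ _ hl)
  · rintro ⟨I, hI, hIc⟩
    have hnr : ∀ x ∈ I, ∀ y ∈ I, ¬ rel x y := by
      intro x hx y hy h
      exact hI (mem_coe.2 hx) (mem_coe.2 hy) (hadj x y h).ne (hadj x y h)
    have claim : ∀ τ, s ≤ (I ∩ cls side isA lev τ b false).card := by
      intro τ
      by_contra hlt
      have hit : ∀ p, ∃ x ∈ I, part x = p ∧ x ∉ cls side isA lev τ b false := by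
        intro p
        by_contra hno
        have hsub : I.filter (fun x => part x = p) ⊆ I ∩ cls side isA lev τ b false := by
          intro x hx
          obtain ⟨hx1, hx2⟩ := mem_filter.1 hx
          refine mem_inter.2 ⟨hx1, ?_⟩
          by_contra hx3
          exact hno ⟨x, hx1, hx2, hx3⟩
        have := card_le_card hsub
        rw [hIc] at this
        exact hlt this
      have down : ∀ d k, k + d = b → ∀ y ∈ I, y ∉ cls side isA lev τ b false →
          y ∉ cls side isA lev τ k false := by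
        intro d
        induction d with
        | zero =>
          intro k hk y _ hy
          have : k = b := by omega
          rw [this]
          exact hy
        | succ d ih =>
          intro k hk y hy _ hyk
          obtain ⟨x, hx, hxp, hxn⟩ := hit (pt τ (k + 1))
          obtain ⟨e1, e2 | e2⟩ := h2 τ k x (by omega) hxp
          · obtain ⟨f1, f2, f3⟩ := mem_cls.1 hyk
            refine hnr x hx y hy (Or.inl ⟨by rw [e1, f1], by rw [e2.2, f2], e2.1, f3, ?_⟩)
            intro hw
            have := (hWm _ y hw).2.1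
            omega
          · exact ih (k + 1) (by omega) x hx hxn (mem_cls.2 ⟨e1, e2.2, e2.1⟩)
      obtain ⟨x, hx, hxp, hxn⟩ := hit (pt τ 0)
      obtain ⟨e1, e2, e3⟩ := h0 τ x hxp
      exact down (b - lev x) (lev x) (by omega) x hx hxn (mem_cls.2 ⟨e1, rfl, e2⟩)
    obtain ⟨z, hz⟩ : (I.filter (fun x => part x = mid)).Nonempty :=
      card_pos.1 (by rw [hIc]; omega)
    obtain ⟨hzI, hzp⟩ := mem_filter.1 hz
    obtain ⟨hzA, hzl⟩ := h1 z hzp
    obtain ⟨X, hXs, hXc⟩ := exists_subset_card_eq (claim (side z))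
    obtain ⟨Y, hYs, hYc⟩ := exists_subset_card_eq (claim (!side z))
    have hXW : X ⊆ W (side z) := by
      intro x hx
      obtain ⟨hxI, hxc⟩ := mem_inter.1 (hXs hx)
      obtain ⟨f1, f2, f3⟩ := mem_cls.1 hxc
      by_contra hw
      exact hnr z hzI x hxI (Or.inl ⟨f1.symm, by rw [hzl, f2], hzA, f3, by rw [f1]; exact hw⟩)
    refine hM2 (side z) X hXW hXc Y hYc ?_
    intro x hx y hy
    obtain ⟨hxI, hxc⟩ := mem_inter.1 (hXs hx)
    obtain ⟨hyI, hyc⟩ := mem_inter.1 (hYs hy)
    have f1 := (mem_cls.1 hxc).1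
    by_contra hm
    exact hnr x hxI y hyI (Or.inr ⟨by rw [f1]; exact hXW hx, by rw [f1]; exact hyc,
      by rw [f1]; exact hm⟩)

theorem model2 (b s w m D q n : ℕ) (hs : 1 ≤ s)
    (hm : ∀ W T : Finset (Fin (2 * b + 3) × Fin n), W.card = w → m ≤ T.card →
      ∃ M : Fin (2 * b + 3) × Fin n → Finset (Fin (2 * b + 3) × Fin n),
      (∀ x ∈ W, M x ⊆ T ∧ w ≤ (M x).card) ∧
      ∀ X ⊆ W, X.card = s → ∀ Y : Finset (Fin (2 * b + 3) × Fin n), Y.card = s →
        ¬ ∀ x ∈ X, Y ⊆ M x)
    (hq : 0 < q) (hqD : q + n = 2 * D) (h1 : 2 * (b * q) + q ≤ n)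
    (h2 : n ≤ 2 * (b * q) + q + 2 * w) (h3 : (n + 1) / 2 + w ≤ D) (h4 : w + m ≤ D) :
    ∃ G : SimpleGraph (Fin (2 * b + 3) × Fin n), (∀ x y, x.1 = y.1 → ¬ G.Adj x y) ∧
      (∀ x (N : Finset (Fin (2 * b + 3) × Fin n)), (∀ y ∈ N, G.Adj x y) → N.card ≤ D) ∧
      ¬ ∃ I : Finset (Fin (2 * b + 3) × Fin n), G.IsIndepSet (I : Set _) ∧
        ∀ p, (I.filter (fun x => x.1 = p)).card = s := by
  have hcode : ∀ σ j, j ≤ b → ∀ x : Fin (2 * b + 3) × Fin n,
      x.1 = (⟨code σ (min j b), code_lt σ (min_le_right _ _)⟩ : Fin (2 * b + 3)) →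
      x.1.val = code σ j := by
    intro σ j hj x hx
    rw [hx]
    show code σ (min j b) = code σ j
    rw [min_eq_left hj]
  refine build2 Prod.fst (sideF _ n) (isAF _ n D) (levF _ n D q b) b s w m D hs hm
    ⟨0, by omega⟩ (fun σ j => ⟨code σ (min j b), code_lt σ (min_le_right _ _)⟩)
    ?_ ?_ ?_ ?_ ?_ ?_ ?_ ?_ ?_ ?_
  · intro x hx
    have h0 : x.1.val = 0 := by rw [hx]
    constructor
    · simp [isAF, h0]
    · simp [levF, h0]
  · intro σ x hx
    obtain ⟨e1, e2, e3⟩ := of_code (hcode σ 0 (Nat.zero_le _) x hx)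
    have hA : isAF _ n D x = false := by simp [isAF, e1, e3]
    refine ⟨e2, hA, ?_⟩
    rcases (caseB (q := q) (b := b) hA).2 with h | h
    · omega
    · rw [h.2.2]
      exact min_le_left _ _
  · intro σ j x hj hx
    obtain ⟨e1, e2, e3⟩ := of_code (hcode σ (j + 1) hj x hx)
    refine ⟨e2, ?_⟩
    cases hA : isAF _ n D x with
    | true =>
      left
      rcases caseA (q := q) (b := b) hA with h | h
      · exact absurd h.1 e1
      · exact ⟨rfl, by omega⟩
    | false =>
      right
      rcases (caseB (q := q) (b := b) hA).2 with h | h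
      · exact ⟨rfl, by omega⟩
      · omega
  · intro x y e hx hy
    have e' : x.1.val = y.1.val := by rw [e]
    obtain ⟨f0, f1⟩ := caseB (q := q) (b := b) hy
    rcases caseA (q := q) (b := b) hx with h | h
    · omega
    · rcases f1 with f1 | f1 <;> omega
  · intro x y e hx hy
    have e' : x.1.val = y.1.val := by rw [e]
    have f0 := (caseB (q := q) (b := b) hx).1
    have f1 := (caseB (q := q) (b := b) hy).1
    unfold sideF
    rw [if_neg f0, if_neg f1, e']
  · intro σ k hk
    refine le_trans (card_le_card ?_) ((seg_le _ n (code σ (k + 1)) 0 D).trans (by omega))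
    intro x hx
    obtain ⟨e1, e2, e3⟩ := mem_cls.1 hx
    rcases caseA (q := q) (b := b) e3 with h | h
    · omega
    · have := code_of h.1 e1
      rw [← h.2.2, e2] at this
      exact mem_seg.2 ⟨this, Nat.zero_le _, h.2.1⟩
  · intro σ
    have hz : ∀ x ∈ cls (sideF (2 * b + 3) n) (isAF _ n D) (levF _ n D q b) σ b true,
        x.1.val = 0 ∧ decide (2 * x.2.val < n) = σ := by
      intro x hx
      obtain ⟨e1, e2, e3⟩ := mem_cls.1 hx
      have hlt := x.1.2
      rcases caseA (q := q) (b := b) e3 with h | h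
      · refine ⟨h.1, ?_⟩
        unfold sideF at e1
        rwa [if_pos h.1] at e1
      · omega
    cases σ
    · have := card_le_card (t := seg _ n 0 ((n + 1) / 2) n) (fun x hx => by
        obtain ⟨e1, e2⟩ := hz x hx
        simp only [decide_eq_false_iff_not] at e2
        exact mem_seg.2 ⟨e1, by omega, x.2.2⟩)
      have e := seg_le (2 * b + 3) n 0 ((n + 1) / 2) n
      omega
    · have := card_le_card (t := seg _ n 0 0 ((n + 1) / 2)) (fun x hx => by
        obtain ⟨e1, e2⟩ := hz x hx
        simp only [decide_eq_true_eq] at e2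
        exact mem_seg.2 ⟨e1, by omega, by omega⟩)
      have e := seg_le (2 * b + 3) n 0 0 ((n + 1) / 2)
      omega
  · intro σ k hk
    have hsub : cls (sideF (2 * b + 3) n) (isAF _ n D) (levF _ n D q b) σ k false ⊆
        seg _ n (code σ k) D n ∪ seg _ n (code σ 0) (k * q) (k * q + q) := by
      intro x hx
      obtain ⟨e1, e2, e3⟩ := mem_cls.1 hx
      obtain ⟨f0, f1⟩ := caseB (q := q) (b := b) e3
      have hc' := code_of f0 e1
      rcases f1 with f1 | f1
      · rw [← f1.2, e2] at hc'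
        exact mem_union_left _ (mem_seg.2 ⟨hc', f1.1, x.2.2⟩)
      · rw [f1.2.1] at hc'
        have hk' : x.2.val / q = k := by omega
        refine mem_union_right _ (mem_seg.2 ⟨hc', ?_, ?_⟩)
        · rw [← hk']
          exact Nat.div_mul_le_self _ _
        · rw [← hk']
          have := Nat.lt_div_mul_add (a := x.2.val) hq
          exact this
    have e0 := (card_le_card hsub).trans (card_union_le _ _)
    have e1 := seg_le (2 * b + 3) n (code σ k) D n
    have e2 := seg_le (2 * b + 3) n (code σ 0) (k * q) (k * q + q)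
    omega
  · intro σ
    have hsub : cls (sideF (2 * b + 3) n) (isAF _ n D) (levF _ n D q b) σ b false ⊆
        seg _ n (code σ b) D n ∪ seg _ n (code σ 0) (b * q) D := by
      intro x hx
      obtain ⟨e1, e2, e3⟩ := mem_cls.1 hx
      obtain ⟨f0, f1⟩ := caseB (q := q) (b := b) e3
      have hc' := code_of f0 e1
      rcases f1 with f1 | f1
      · rw [← f1.2, e2] at hc'
        exact mem_union_left _ (mem_seg.2 ⟨hc', f1.1, x.2.2⟩)
      · rw [f1.2.1] at hc'
        have hk' : b ≤ x.2.val / q := by omega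
        exact mem_union_right _ (mem_seg.2 ⟨hc', (Nat.le_div_iff_mul_le hq).1 hk', f1.1⟩)
    have e0 := (card_le_card hsub).trans (card_union_le _ _)
    have e1 := seg_le (2 * b + 3) n (code σ b) D n
    have e2 := seg_le (2 * b + 3) n (code σ 0) (b * q) D
    omega
  · intro σ
    have hsub : seg _ n (code σ b) D n ∪ seg _ n (code σ 0) (b * q) D ⊆
        cls (sideF (2 * b + 3) n) (isAF _ n D) (levF _ n D q b) σ b false := by
      intro x hx
      rcases mem_union.1 hx with hx | hx
      · obtain ⟨e1, e2, -⟩ := mem_seg.1 hx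
        obtain ⟨f0, f1, f2⟩ := of_code e1
        have hA : isAF _ n D x = false := by
          unfold isAF
          simp only [decide_eq_false_iff_not]
          omega
        refine mem_cls.2 ⟨f1, ?_, hA⟩
        rcases (caseB (q := q) (b := b) hA).2 with h | h <;> omega
      · obtain ⟨e1, e2, e3⟩ := mem_seg.1 hx
        obtain ⟨f0, f1, f2⟩ := of_code e1
        have hA : isAF _ n D x = false := by
          unfold isAF
          simp only [decide_eq_false_iff_not]
          omega
        refine mem_cls.2 ⟨f1, ?_, hA⟩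
        have hk' : b ≤ x.2.val / q := (Nat.le_div_iff_mul_le hq).2 e2
        rcases (caseB (q := q) (b := b) hA).2 with h | h <;> omega
    have hdis : Disjoint (seg (2 * b + 3) n (code σ b) D n)
        (seg (2 * b + 3) n (code σ 0) (b * q) D) := by
      rw [disjoint_left]
      intro x hx hy
      have e1 := mem_seg.1 hx
      have e2 := mem_seg.1 hy
      omega
    have e0 := card_le_card hsub
    rw [card_union_of_disjoint hdis] at e0
    have e1 := seg_ge (2 * b + 3) n (code σ b) D n (code_lt σ le_rfl) le_rfl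
    have e2 := seg_ge (2 * b + 3) n (code σ 0) (b * q) D (code_lt σ (Nat.zero_le _)) (by omega)
    omega

/-- One half of the long side carries half of the pairs. -/
lemma half {t n : ℕ} (A : Finset (Fin t × Fin n)) :
    ∃ (A' : Finset (Fin t × Fin n)) (R : Finset (Fin n)), A' ⊆ A ∧ A.card ≤ 2 * A'.card ∧
      (∀ q ∈ A', q.2 ∈ R) ∧ R.card ≤ (n + 1) / 2 := by
  have h := card_filter_add_card_filter_not (s := A) (fun q => 2 * q.2.val < n)
  by_cases hc : A.card ≤ 2 * (A.filter (fun q => 2 * q.2.val < n)).card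
  · refine ⟨_, univ.filter (fun y : Fin n => 2 * y.val < n), filter_subset _ _, hc,
      fun q hq => mem_filter.2 ⟨mem_univ _, (mem_filter.1 hq).2⟩, ?_⟩
    rw [← card_range ((n + 1) / 2)]
    refine card_le_card_of_injOn (fun y => y.val) ?_ (fun y _ y' _ e => Fin.ext e)
    intro y hy
    have := (mem_filter.1 (mem_coe.1 hy)).2
    exact mem_coe.2 (mem_range.2 (show y.val < (n + 1) / 2 by omega))
  · refine ⟨A.filter (fun q => ¬ 2 * q.2.val < n), univ.filter (fun y : Fin n => ¬ 2 * y.val < n),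
      filter_subset _ _, by omega,
      fun q hq => mem_filter.2 ⟨mem_univ _, (mem_filter.1 hq).2⟩, ?_⟩
    refine le_trans ?_ (show n - (n + 1) / 2 ≤ (n + 1) / 2 by omega)
    rw [← Nat.card_Ico]
    refine card_le_card_of_injOn (fun y => y.val) ?_ (fun y _ y' _ e => Fin.ext e)
    intro y hy
    have := (mem_filter.1 (mem_coe.1 hy)).2
    exact mem_coe.2 (mem_Ico.2 ⟨show (n + 1) / 2 ≤ y.val by omega, y.2⟩)

theorem lower_z (b s : ℕ) (hs : 2 ≤ s) :
    ∃ K n₀ : ℕ, 0 < K ∧ ∀ n, n₀ ≤ n → ∀ t : ℕ, t ^ 2 ≤ SimpleGraph.zarankiewicz t n s s →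
      ∃ w D : ℕ, t ≤ K * w ∧ (2 * b + 1) * (2 * D) + w ≤ (2 * b + 2) * n ∧
      ∃ G : SimpleGraph (Fin (2 * b + 3) × Fin n), (∀ x y, x.1 = y.1 → ¬ G.Adj x y) ∧
      (∀ x (N : Finset (Fin (2 * b + 3) × Fin n)), (∀ y ∈ N, G.Adj x y) → N.card ≤ D) ∧
      ¬ ∃ I : Finset (Fin (2 * b + 3) × Fin n), G.IsIndepSet (I : Set _) ∧
        ∀ p, (I.filter (fun x => x.1 = p)).card = s := by
  obtain ⟨C, n₁, hC, hlow⟩ := lower b s hs
  set L : ℕ := 6 * b + 5 with hL
  set t₀ : ℕ := L * (4 * b + 2) with ht₀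
  refine ⟨2 * L, max n₁ ((C * t₀) ^ (s + 2)), by omega, fun n hn t ht => ?_⟩
  by_cases hsm : t ≤ t₀
  · obtain ⟨u, D, h1, h2, h3⟩ := hlow n ((le_max_left _ _).trans hn)
    refine ⟨u ^ s, D, ?_, h2, h3⟩
    have e1 : (C * t₀) ^ (s + 2) ≤ (C * u) ^ (s + 2) := ((le_max_right _ _).trans hn).trans h1
    have e2 : C * t₀ ≤ C * u := le_of_pow_le_pow_left₀ (by omega) (Nat.zero_le _) e1
    have e3 : t₀ ≤ u := Nat.le_of_mul_le_mul_left e2 hC
    have e4 : u ≤ u ^ s := Nat.le_self_pow (by omega) u
    have e5 : u ^ s ≤ 2 * L * u ^ s := Nat.le_mul_of_pos_left _ (by omega)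
    omega
  have hL0 : 0 < L := by omega
  set w : ℕ := t / L with hw
  have hw1 : L * w ≤ t := Nat.mul_div_le _ _
  have hw2 : t < L * (w + 1) := Nat.lt_mul_div_succ _ hL0
  have hw3 : 4 * b + 2 ≤ w := (Nat.le_div_iff_mul_le hL0).2 (by rw [mul_comm]; omega)
  have ht1 : 1 ≤ t := by omega
  obtain ⟨A, hA1, hA2⟩ := exists_z t n s (t ^ 2) (Nat.one_le_pow _ _ ht1) ht
  have htn : t ≤ n := by
    have e1 := card_le_univ A
    rw [Fintype.card_prod, Fintype.card_fin, Fintype.card_fin] at e1
    exact Nat.le_of_mul_le_mul_left (by rw [← sq]; exact hA2.trans e1) ht1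
  obtain ⟨A', R, a1, a2, a3, a4⟩ := half A
  have hLw : L * w = 6 * (b * w) + 5 * w := by rw [hL]; ring
  have hA' : Fintype.card (Fin t) * w + w * w ≤ A'.card := by
    rw [Fintype.card_fin]
    have e1 : 5 * w ≤ t := by omega
    have e2 : t * (5 * w) ≤ t * t := Nat.mul_le_mul_left _ e1
    have e3 : 5 * w * w ≤ t * w := Nat.mul_le_mul_right _ e1
    rw [sq] at hA2
    nlinarith only [e2, e3, hA2, a2]
  set q0 : ℕ := (n - 2 * w) / (2 * b + 1) + 1 with hq0
  have hq1 : (2 * b + 1) * q0 ≤ n - 2 * w + (2 * b + 1) := by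
    rw [hq0, mul_add, mul_one]
    exact Nat.add_le_add_right (Nat.mul_div_le _ _) _
  have hq2 : n - 2 * w < (2 * b + 1) * q0 := Nat.lt_mul_div_succ _ (by omega)
  have hq3 : 2 * w + 1 ≤ q0 := by
    have h1 : (2 * b + 1) * (2 * w + 1) ≤ (2 * b + 1) * q0 := by
      have e : (2 * b + 1) * (2 * w + 1) = 4 * (b * w) + 2 * b + 2 * w + 1 := by ring
      have e2 : b ≤ b * w := Nat.le_mul_of_pos_right _ (by omega)
      omega
    exact Nat.le_of_mul_le_mul_left h1 (by omega)
  obtain ⟨q, D, hqa, hqb, hqD⟩ : ∃ q D : ℕ, q0 ≤ q ∧ q ≤ q0 + 1 ∧ q + n = 2 * D :=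
    ⟨q0 + (n + q0) % 2, (q0 + (n + q0) % 2 + n) / 2, by omega, by omega, by omega⟩
  have m1 : b * q0 ≤ b * q := Nat.mul_le_mul_left _ hqa
  have m2 : b * q ≤ b * q0 + b := by
    calc b * q ≤ b * (q0 + 1) := Nat.mul_le_mul_left _ hqb
      _ = b * q0 + b := by ring
  have m3 : (2 * b + 1) * q0 = 2 * (b * q0) + q0 := by ring
  refine ⟨w, D, ?_, ?_, model2 b s w ((n + 1) / 2) D q n (by omega) ?_ (by omega) hqD
    (by omega) (by omega) (by omega) (by omega)⟩
  · have e1 : L * (w + 1) ≤ L * (2 * w) := Nat.mul_le_mul_left _ (by omega)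
    have e2 : L * (2 * w) = 2 * L * w := by ring
    omega
  · rw [← hqD]
    have e1 : (2 * b + 1) * (q + n) = 2 * (b * q) + q + (2 * (b * n) + n) := by ring
    have e2 : (2 * b + 2) * n = 2 * (b * n) + 2 * n := by ring
    omega
  · intro W T hW hT
    exact miss2 ⟨⟨0, ht1⟩, mem_univ _⟩ A' R a3 (by omega)
      (fun X Y hX hY h => hA1 X Y hX hY fun x hx y hy => a1 (h x hx y hy)) w hA' W T hW
      (a4.trans hT)

end Pool.Agent.MP_bc5f1c_co.Low
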